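import Pool.Agent.P.MP_e45b92_nt.EL.Fin92

set_option autoImplicit false

namespace Pool.Agent.P.MP_e45b92_nt.EL92

open Finset Real Filter

theorem dim_limsup' (E : Set (ℝ × ℝ)) {δ : ℝ} (F : ℕ → Finset (ℤ × ℤ)) (N : ℕ) {s : NNReal}
    (hs : δ < s * log 2) (hs' : (0 : ℝ) < s) (hF : ∀ n, N ≤ n → log (#(F n)) ≤ δ * n) (hδ : 0 ≤ δ)
    (hE : ∀ x ∈ E, ∀ M : ℕ, ∃ n, M ≤ n ∧ (⌊(2 : ℝ) ^ n * x.1⌋, ⌊(2 : ℝ) ^ n * x.2⌋) ∈ F n) :
    dimH E ≤ s := by
  refine dimH_le_of_hausdorffMeasure_ne_top ?_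
  set ρ : ℝ := exp (-((s : ℝ) * log 2 - δ)) with hρ
  have hρ0 : 0 < ρ := exp_pos _
  have hρ1 : ρ < 1 := by rw [hρ, exp_lt_one_iff]; linarith
  have hr : Tendsto (fun l : ℕ => ENNReal.ofReal (((2 : ℝ) ^ l)⁻¹)) atTop (nhds 0) := by
    rw [← ENNReal.ofReal_zero]
    exact ENNReal.tendsto_ofReal
      (tendsto_pow_atTop_atTop_of_one_lt (one_lt_two (α := ℝ))).inv_tendsto_atTop
  have key := MeasureTheory.Measure.hausdorffMeasure_le_liminf_tsum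
    (ι := fun l : ℕ => Σ n : ℕ, F (l + n))
    (s : ℝ) E (fun l : ℕ => ENNReal.ofReal (((2 : ℝ) ^ l)⁻¹)) hr
    (fun l v => {x : ℝ × ℝ |
      (⌊(2 : ℝ) ^ (l + v.1) * x.1⌋, ⌊(2 : ℝ) ^ (l + v.1) * x.2⌋) = (v.2 : ℤ × ℤ)})
    (Eventually.of_forall fun l v => (cell_diam (by positivity) _).trans
      (ENNReal.ofReal_le_ofReal (inv_anti₀ (by positivity)
        (pow_le_pow_right₀ one_le_two (Nat.le_add_right _ _)))))
    (Eventually.of_forall fun l x hx => by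
      obtain ⟨n, h1, h2⟩ := hE x hx l
      obtain ⟨k, rfl⟩ := Nat.exists_eq_add_of_le h1
      exact Set.mem_iUnion.2 ⟨⟨k, ⟨_, h2⟩⟩, rfl⟩)
  refine ne_top_of_le_ne_top (ENNReal.ofReal_ne_top (r := (1 - ρ)⁻¹)) (key.trans ?_)
  refine liminf_le_of_frequently_le' (Eventually.frequently ?_)
  filter_upwards [eventually_ge_atTop N] with l hl'
  rw [ENNReal.tsum_sigma']
  have step : ∀ n : ℕ, ∑' v : F (l + n), Metric.ediam {x : ℝ × ℝ |
      (⌊(2 : ℝ) ^ (l + n) * x.1⌋, ⌊(2 : ℝ) ^ (l + n) * x.2⌋) = (v : ℤ × ℤ)} ^ (s : ℝ) ≤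
      ENNReal.ofReal (ρ ^ n) := fun n => by
    rw [tsum_fintype]
    refine (sum_le_sum fun v _ =>
      ENNReal.rpow_le_rpow (cell_diam (by positivity) v.1) hs'.le).trans ?_
    have hp : (0 : ℝ) < ((2 : ℝ) ^ (l + n))⁻¹ := by positivity
    simp only [sum_const, card_univ, Fintype.card_coe, nsmul_eq_mul]
    rw [ENNReal.ofReal_rpow_of_nonneg hp.le hs'.le, ← ENNReal.ofReal_natCast,
      ← ENNReal.ofReal_mul (Nat.cast_nonneg _)]
    refine ENNReal.ofReal_le_ofReal ?_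
    have e : (((2 : ℝ) ^ (l + n))⁻¹) ^ (s : ℝ) = exp (-(s * log 2 * (l + n : ℕ))) := by
      rw [Real.rpow_def_of_pos hp, Real.log_inv, Real.log_pow]; congr 1; ring
    have hc : ((#(F (l + n)) : ℕ) : ℝ) ≤ exp (δ * (l + n : ℕ)) := by
      rcases Nat.eq_zero_or_pos (F (l + n)).card with h0 | h0
      · rw [h0, Nat.cast_zero]; exact (exp_pos _).le
      · exact (Real.log_le_iff_le_exp (by exact_mod_cast h0)).1 (hF _ (by omega))
    rw [e]
    refine (mul_le_mul_of_nonneg_right hc (exp_pos _).le).trans ?_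
    rw [← exp_add, hρ, ← exp_nat_mul, exp_le_exp]
    push_cast
    have : 0 ≤ ((s : ℝ) * log 2 - δ) * l := mul_nonneg (by linarith) (by positivity)
    nlinarith
  refine (ENNReal.tsum_le_tsum step).trans ?_
  rw [← ENNReal.ofReal_tsum_of_nonneg (fun n => by positivity)
    (summable_geometric_of_lt_one hρ0.le hρ1), tsum_geometric_of_lt_one hρ0.le hρ1]

/-- the choice of the parameters -/
lemma params' (A C : ℕ) : ∃ L₀ : ℝ, ∀ L : ℝ, L₀ ≤ L → 1 ≤ L ∧ 1 ≤ log L ∧ 1 ≤ log (log L) ∧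
    ∀ T : ℝ, L ≤ T → ∃ B x : ℕ,
    (C + 2) * log (log L) ^ (1 / (2 * ((A : ℝ) + 1))) ≤ B ∧
    B * 2 ^ B ^ A ≤ x ∧ T / L ≤ 2 ^ x ∧ (2 : ℝ) ^ (x + 2 ^ B ^ A) ≤ T ∧ log T ≤ 2 * x + 1 := by
  set κ : ℝ := 1 / (2 * ((A : ℝ) + 1)) with hκ
  have hκ0 : 0 < κ := by positivity
  have t1 : Tendsto (fun L : ℝ => log (log L)) atTop atTop := tendsto_log_atTop.comp tendsto_log_atTop
  obtain ⟨L₀, hL⟩ := eventually_atTop.1 (((t1.eventually_ge_atTop 1).and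
    (t1.eventually_ge_atTop ((4 * (C + 3) ^ (A + 1)) ^ 2))).and
    ((tendsto_log_atTop.eventually_ge_atTop 16).and (eventually_ge_atTop (1 : ℝ))))
  refine ⟨L₀, fun L h1 => ?_⟩
  obtain ⟨⟨a1, a2⟩, a3, a4⟩ := hL L h1
  refine ⟨a4, by linarith, a1, fun T h2 => ?_⟩
  set u := log L with hu
  set v := log u with hv
  have v0 : 0 < v := by linarith
  set B := ⌈(C + 2) * v ^ κ⌉₊ with hB
  have b1 : (C + 2) * v ^ κ ≤ B := Nat.le_ceil _
  have k1 : 1 ≤ v ^ κ := one_le_rpow a1 hκ0.le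
  have C0 : (0 : ℝ) ≤ C := by positivity
  have b2 : (B : ℝ) ≤ (C + 3) * v ^ κ := by
    have := Nat.ceil_lt_add_one (a := (C + 2) * v ^ κ) (by positivity)
    linarith
  have B1 : 1 ≤ B := by
    have : (1 : ℝ) ≤ B := by nlinarith
    exact_mod_cast this
  have b3 : ((B ^ (A + 1) : ℕ) : ℝ) ≤ v / 4 := by
    push_cast
    refine (pow_le_pow_left₀ (by positivity) b2 _).trans ?_
    rw [mul_pow, ← rpow_natCast (v ^ κ), ← rpow_mul v0.le]
    have e : κ * ((A + 1 : ℕ) : ℝ) = 1 / 2 := by rw [hκ]; push_cast; field_simp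
    rw [e, ← sqrt_eq_rpow]
    have s1 : 4 * ((C : ℝ) + 3) ^ (A + 1) ≤ √v := le_sqrt_of_sq_le a2
    have s2 := mul_self_sqrt v0.le
    nlinarith [sqrt_nonneg v]
  set H : ℕ := 2 ^ B ^ (A + 1) with hH
  have u0 : 0 < u := by linarith
  have l2 : log 2 ≤ 1 := by have := log_two_lt_d9; linarith
  have h4 : (H : ℝ) ^ 4 ≤ u := by
    rw [← log_le_log_iff (by positivity) u0, hH]
    push_cast at b3 ⊢
    rw [log_pow, log_pow]
    push_cast
    have : (0 : ℝ) ≤ (B : ℝ) ^ (A + 1) := by positivity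
    nlinarith
  have hBA : B ^ A ≤ B ^ (A + 1) := Nat.pow_le_pow_right B1 (by omega)
  have hH1 : 2 ^ B ^ A ≤ H := Nat.pow_le_pow_right (by norm_num) hBA
  have hH2 : B ≤ H := by
    have : B ≤ B ^ (A + 1) := Nat.le_self_pow (by omega) B
    exact this.trans (Nat.lt_two_pow_self).le
  have H1 : (1 : ℝ) ≤ H := by exact_mod_cast B1.trans hH2
  have h5 : 4 * (H : ℝ) ^ 2 ≤ u := by
    by_contra hh
    push Not at hh
    nlinarith [sq_nonneg ((H : ℝ) ^ 2)]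
  have T1 : 1 ≤ T := a4.trans h2
  have T0 : 0 < T := by linarith
  obtain ⟨y, y1, y2⟩ := exists_nat_pow_near T1 (one_lt_two (α := ℝ))
  have y0 : log T ≤ y + 1 := by
    have h7 : log T ≤ log (2 ^ (y + 1)) := log_le_log T0 y2.le
    rw [log_pow] at h7
    push_cast at h7
    have : (0 : ℝ) ≤ (y : ℝ) + 1 := by positivity
    nlinarith
  have y3 : u ≤ y + 1 := (log_le_log (by linarith) h2).trans y0
  have y4 : 2 * H ^ 2 ≤ y := by
    have : ((2 * H ^ 2 : ℕ) : ℝ) ≤ y := by push_cast; nlinarith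
    exact_mod_cast this
  have h1' : 1 ≤ H := B1.trans hH2
  have y5 : B * 2 ^ B ^ A + 2 ^ B ^ A ≤ y := by
    have := Nat.mul_le_mul hH2 hH1
    nlinarith
  have y6 : y ≤ 2 * (y - 2 ^ B ^ A) := by
    have : 2 * 2 ^ B ^ A ≤ y := by nlinarith
    omega
  refine ⟨B, y - 2 ^ B ^ A, b1, by omega, ?_, ?_, ?_⟩
  · rw [div_le_iff₀ (by linarith)]
    have e : (2 : ℝ) ^ (y + 1) = 2 ^ (y - 2 ^ B ^ A) * 2 ^ (2 ^ B ^ A + 1) := by
      rw [← pow_add]; congr 1; omega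
    refine y2.le.trans (e.le.trans (mul_le_mul_of_nonneg_left ?_ (by positivity)))
    rw [← log_le_log_iff (by positivity) (by linarith), log_pow]
    have c1 : ((2 ^ B ^ A + 1 : ℕ) : ℝ) ≤ H + 1 := by exact_mod_cast Nat.succ_le_succ hH1
    have c0 : (0 : ℝ) ≤ ((2 ^ B ^ A + 1 : ℕ) : ℝ) := by positivity
    nlinarith
  · rw [Nat.sub_add_cancel (by omega)]; exact y1
  · have : (y : ℝ) ≤ 2 * ((y - 2 ^ B ^ A : ℕ) : ℝ) := by exact_mod_cast y6
    linarith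

theorem quant_of_core (h : Core) : ∃ κ L₀ : ℝ, 0 < κ ∧ ∀ L : ℝ, L₀ ≤ L → ∀ Λ : ℝ → ℝ,
    (∀ᶠ T in atTop, L ≤ Λ T ∧ Λ T ≤ T) →
    dimH {x : ℝ × ℝ | ∀ T₀ : ℝ, ∃ T, T₀ < T ∧ ∀ T₁, T / Λ T ≤ T₁ → T₁ ≤ T →
      ¬ Sol x.1 x.2 (log (log (Λ T)) ^ (-κ)) T₁} ≤ ENNReal.ofReal (log (log L) ^ (-κ)) := by
  obtain ⟨A, C, hC⟩ := h
  obtain ⟨L₀, hL⟩ := params' A C
  set κ : ℝ := 1 / (2 * ((A : ℝ) + 1)) with hκ
  have hκ0 : 0 < κ := by positivity
  refine ⟨κ, L₀, hκ0, fun L hL0 Λ hΛ => ?_⟩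
  obtain ⟨l1, l2, l3, -⟩ := hL L hL0
  set E := {x : ℝ × ℝ | ∀ T₀ : ℝ, ∃ T, T₀ < T ∧ ∀ T₁, T / Λ T ≤ T₁ → T₁ ≤ T →
      ¬ Sol x.1 x.2 (log (log (Λ T)) ^ (-κ)) T₁} with hE
  set E₀ := {x ∈ E | 0 ≤ x.1 ∧ x.1 < 1 ∧ 0 ≤ x.2 ∧ x.2 < 1} with hE₀
  set w := log (log L) ^ κ with hw
  have w1 : 1 ≤ w := one_le_rpow l3 hκ0.le
  have C0 : (0 : ℝ) ≤ C := by positivity
  have h0 : dimH E₀ ≤ ENNReal.ofReal (log (log L) ^ (-κ)) := by
    rw [rpow_neg (by linarith), ← hw]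
    choose! F hF1 hF2 using hC
    set δ : ℝ := w⁻¹ with hδ'
    have hδ : 0 < δ := by positivity
    obtain ⟨N, hN⟩ : ∃ N : ℕ, ∀ n : ℕ, N ≤ n → log ((n : ℝ) + 1) ≤ δ / 20 * (n + 1) := by
      have := (isLittleO_log_id_atTop.bound (c := δ / 20) (by positivity))
      obtain ⟨a, ha⟩ := eventually_atTop.1 this
      obtain ⟨N, hN⟩ := exists_nat_ge a
      refine ⟨N, fun n hn => ?_⟩
      have h1 : (N : ℝ) ≤ n := by exact_mod_cast hn
      have := ha ((n : ℝ) + 1) (by linarith)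
      rw [id, Real.norm_eq_abs, Real.norm_eq_abs,
        abs_of_nonneg (by positivity : (0 : ℝ) ≤ n + 1)] at this
      exact (le_abs_self _).trans this
    have two : ∀ B : ℕ, (C + 2) * w ≤ B → 2 ≤ B := fun B hB => by
      have : (2 : ℝ) ≤ B := by nlinarith
      exact_mod_cast this
    refine dim_limsup' E₀ (δ := 3 / 5 * δ) (s := δ.toNNReal)
      (fun n => ((range (n + 1)).filter fun B : ℕ => (C + 2) * w ≤ B ∧
        B * 2 ^ B ^ A ≤ n / 2).biUnion fun B => F B (n / 2)) (N + 1) ?_ ?_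
      (fun n hn => ?_) (by positivity) fun x hx M => ?_
    · rw [coe_toNNReal _ hδ.le]
      have := log_two_gt_d9
      nlinarith
    · rwa [coe_toNNReal _ hδ.le]
    · have n1 : (1 : ℝ) ≤ n := by exact_mod_cast (by omega : 1 ≤ n)
      have hb : ∀ B ∈ (range (n + 1)).filter fun B : ℕ => (C + 2) * w ≤ B ∧ B * 2 ^ B ^ A ≤ n / 2,
          ((#(F B (n / 2)) : ℕ) : ℝ) ≤ exp (δ / 2 * n) := fun B hB => by
        obtain ⟨-, g1, g2⟩ := mem_filter.1 hB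
        have g3 := hF1 B (n / 2) (two B g1) g2
        have g5 : ((n / 2 : ℕ) : ℝ) ≤ n / 2 := by exact_mod_cast Nat.cast_div_le
        have g6 : (C : ℝ) * ((n / 2 : ℕ) : ℝ) / B ≤ δ / 2 * n := by
          rw [div_le_iff₀ (by nlinarith)]
          have : (C : ℝ) ≤ δ * B := by
            rw [hδ', le_inv_mul_iff₀ (by linarith)]; nlinarith
          calc (C : ℝ) * ((n / 2 : ℕ) : ℝ) ≤ (δ * B) * (n / 2) := by gcongr
            _ = _ := by ring
        rcases Nat.eq_zero_or_pos (F B (n / 2)).card with h0 | h0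
        · rw [h0, Nat.cast_zero]; exact (exp_pos _).le
        · exact (log_le_iff_le_exp (by exact_mod_cast h0)).1 (g3.trans g6)
      have hc : ((#(((range (n + 1)).filter fun B : ℕ => (C + 2) * w ≤ B ∧
          B * 2 ^ B ^ A ≤ n / 2).biUnion fun B => F B (n / 2)) : ℕ) : ℝ) ≤
          (n + 1) * exp (δ / 2 * n) := by
        refine (Nat.cast_le.2 card_biUnion_le).trans ?_
        push_cast
        refine (sum_le_card_nsmul _ _ _ hb).trans ?_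
        rw [nsmul_eq_mul]
        gcongr
        exact_mod_cast (card_filter_le _ _).trans (card_range _).le
      rcases Nat.eq_zero_or_pos (((range (n + 1)).filter fun B : ℕ => (C + 2) * w ≤ B ∧
        B * 2 ^ B ^ A ≤ n / 2).biUnion fun B => F B (n / 2)).card with h0 | h0
      · rw [h0, Nat.cast_zero, log_zero]; positivity
      · refine (log_le_log (by exact_mod_cast h0) hc).trans ?_
        rw [log_mul (by positivity) (exp_pos _).ne', log_exp]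
        have := hN n (by omega)
        nlinarith
    · obtain ⟨T₀, hT₀⟩ := eventually_atTop.1 (hΛ.and
        (tendsto_log_atTop.eventually_ge_atTop ((M : ℝ) + 1)))
      obtain ⟨T, g1, g2⟩ := hx.1 T₀
      obtain ⟨⟨g3, g4⟩, g5⟩ := hT₀ T g1.le
      obtain ⟨-, -, m3, hP⟩ := hL (Λ T) (hL0.trans g3)
      obtain ⟨B, y, p1, p2, p4, p5, p6⟩ := hP T g4
      have mono : w ≤ log (log (Λ T)) ^ κ :=
        rpow_le_rpow (by linarith) (log_le_log (by linarith) (log_le_log (by linarith) g3)) hκ0.le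
      have q1 : (C + 2) * w ≤ B := le_trans (by gcongr) p1
      have q2 : M ≤ 2 * y := by
        have : (M : ℝ) ≤ 2 * y := by linarith
        exact_mod_cast this
      have q3 : B ≤ y := (Nat.le_mul_of_pos_right _ (by positivity)).trans p2
      have p3 : 1 / (B : ℝ) ≤ log (log (Λ T)) ^ (-κ) := by
        rw [rpow_neg (by linarith), one_div]
        exact inv_anti₀ (by linarith) (by nlinarith)
      refine ⟨2 * y, q2, mem_biUnion.2 ⟨B, mem_filter.2 ⟨mem_range.2 (by omega), q1, ?_⟩, ?_⟩⟩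
      · rwa [Nat.mul_div_cancel_left _ two_pos]
      · rw [Nat.mul_div_cancel_left _ two_pos]
        exact hF2 B y (two B q1) p2 _ _ hx.2.1 hx.2.2.1 hx.2.2.2.1 hx.2.2.2.2
          fun T₁ r1 r2 hs => g2 T₁ (p4.trans r1) (r2.trans p5) (hs.mono p3)
  have hsub : E ⊆ ⋃ z : ℤ × ℤ, (fun x : ℝ × ℝ => x + ((z.1 : ℝ), (z.2 : ℝ))) '' E₀ := fun x hx =>
    Set.mem_iUnion.2 ⟨(⌊x.1⌋, ⌊x.2⌋), (x.1 - ⌊x.1⌋, x.2 - ⌊x.2⌋),
      ⟨fun T₀ => (hx T₀).imp fun T h => ⟨h.1, fun T₁ r1 r2 hs => h.2 T₁ r1 r2 (hs.shift _ _)⟩,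
        Int.fract_nonneg _, Int.fract_lt_one _, Int.fract_nonneg _, Int.fract_lt_one _⟩,
      by ext <;> simp⟩
  refine (dimH_mono hsub).trans ?_
  rw [dimH_iUnion]
  refine iSup_le fun z => ?_
  rw [(isometry_add_right _).dimH_image]
  exact h0

end Pool.Agent.P.MP_e45b92_nt.EL92
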