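import Pool.Agent.P.MP_e45b92_nt.EL.If
import Pool.Agent.P.MP_e45b92_nt.EL.Quant92

/-! From the counting form to the form used by the cover. -/

set_option autoImplicit false

namespace Pool.Agent.P.MP_e45b92_nt.EL

open Finset Real

theorem core_of (h : S_CORE) : EL92.Core := by
  obtain ⟨A, C, hA, hC, h⟩ := h
  refine ⟨A + 2, 2 * ⌈C⌉₊, fun B x hB hx => ?_⟩
  obtain ⟨l, -, hl, h⟩ := h B hB
  obtain ⟨F, hF, h⟩ := h x (0, 0)
  have h1 : 6 * l ≤ 2 ^ B ^ (A + 2) := by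
    have g : 1 ≤ B ^ A := Nat.one_le_pow _ _ (by omega)
    have g2 : B ^ A + 3 ≤ B ^ (A + 2) := by
      have : 4 ≤ B ^ 2 := by nlinarith
      rw [pow_add]; nlinarith
    calc 6 * l ≤ 2 ^ (B ^ A + 3) := by rw [pow_add]; omega
      _ ≤ _ := Nat.pow_le_pow_right (by norm_num) g2
  refine ⟨F, hF.trans ?_, fun a b a0 a1 b0 b1 hs => h a b ?_ fun T t1 t2 => hs T t1 (t2.trans ?_)⟩
  · have hB' : (0 : ℝ) < B := by exact_mod_cast (by omega : 0 < B)
    have g : (l : ℝ) ≤ x / B := by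
      rw [le_div_iff₀ hB']
      exact_mod_cast (by nlinarith : l * B ≤ x)
    have g2 := mul_le_mul_of_nonneg_left g hC
    have g3 := mul_le_mul_of_nonneg_right (Nat.le_ceil C) (by positivity : (0 : ℝ) ≤ x / B)
    push_cast
    rw [mul_div_assoc, mul_div_assoc]
    linarith
  · rw [Int.floor_eq_zero_iff.2 ⟨a0, a1⟩, Int.floor_eq_zero_iff.2 ⟨b0, b1⟩]
  · exact pow_le_pow_right₀ one_le_two (by omega)

end Pool.Agent.P.MP_e45b92_nt.EL
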