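import Mathlib

set_option autoImplicit false

namespace Pool.Agent.P.MP_e45b92_nt.EL92

open Finset Real Filter

lemma cell_diam {Q : ℝ} (hQ : 0 < Q) (v : ℤ × ℤ) :
    Metric.ediam {x : ℝ × ℝ | (⌊Q * x.1⌋, ⌊Q * x.2⌋) = v} ≤ ENNReal.ofReal Q⁻¹ := by
  refine Metric.ediam_le fun x hx y hy => ?_
  have h : (⌊Q * x.1⌋, ⌊Q * x.2⌋) = (⌊Q * y.1⌋, ⌊Q * y.2⌋) := hx.trans hy.symm
  have key : ∀ a b : ℝ, ⌊Q * a⌋ = ⌊Q * b⌋ → dist a b ≤ Q⁻¹ := fun a b e => by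
    have h1 := (Int.abs_sub_lt_one_of_floor_eq_floor e).le
    rw [← mul_sub, abs_mul, abs_of_pos hQ] at h1
    rw [Real.dist_eq, ← one_div, le_div_iff₀ hQ, mul_comm]
    exact h1
  rw [edist_le_ofReal (by positivity), Prod.dist_eq]
  exact max_le (key _ _ (congrArg Prod.fst h)) (key _ _ (congrArg Prod.snd h))

theorem dim_limsup (E : Set (ℝ × ℝ))
    (h : ∀ δ : ℝ, 0 < δ → ∃ (F : ℕ → Finset (ℤ × ℤ)) (N : ℕ),
      (∀ n, N ≤ n → log (#(F n)) ≤ δ * n) ∧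
      ∀ x ∈ E, ∀ M : ℕ, ∃ n, M ≤ n ∧ (⌊(2 : ℝ) ^ n * x.1⌋, ⌊(2 : ℝ) ^ n * x.2⌋) ∈ F n) :
    dimH E = 0 := by
  refine le_antisymm ?_ zero_le
  refine ENNReal.le_of_forall_pos_le_add fun s hs _ => ?_
  rw [zero_add]
  refine dimH_le_of_hausdorffMeasure_ne_top ?_
  have hs' : (0 : ℝ) < s := hs
  have hl : 0 < log 2 := log_pos one_lt_two
  obtain ⟨F, N, hF, hE⟩ := h ((s : ℝ) * log 2 / 2) (by positivity)
  set ρ : ℝ := exp (-((s : ℝ) * log 2 / 2)) with hρ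
  have hρ0 : 0 < ρ := exp_pos _
  have hρ1 : ρ < 1 := by rw [hρ, exp_lt_one_iff]; have := mul_pos hs' hl; linarith
  have hr : Tendsto (fun l : ℕ => ENNReal.ofReal (((2 : ℝ) ^ l)⁻¹)) atTop (nhds 0) := by
    rw [← ENNReal.ofReal_zero]
    exact ENNReal.tendsto_ofReal
      (tendsto_pow_atTop_atTop_of_one_lt (one_lt_two (α := ℝ))).inv_tendsto_atTop
  have key := MeasureTheory.Measure.hausdorffMeasure_le_liminf_tsum
    (ι := fun l : ℕ => Σ n : ℕ, F (l + n))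
    (s : ℝ) E (fun l : ℕ => ENNReal.ofReal (((2 : ℝ) ^ l)⁻¹)) hr
    (fun l v => {x : ℝ × ℝ |
      (⌊(2 : ℝ) ^ (l + v.1) * x.1⌋, ⌊(2 : ℝ) ^ (l + v.1) * x.2⌋) = (v.2 : ℤ × ℤ)})
    (Eventually.of_forall fun l v => (cell_diam (by positivity) _).trans
      (ENNReal.ofReal_le_ofReal (inv_anti₀ (by positivity)
        (pow_le_pow_right₀ one_le_two (Nat.le_add_right _ _)))))
    (Eventually.of_forall fun l x hx => by
      obtain ⟨n, h1, h2⟩ := hE x hx l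
      obtain ⟨k, rfl⟩ := Nat.exists_eq_add_of_le h1
      exact Set.mem_iUnion.2 ⟨⟨k, ⟨_, h2⟩⟩, rfl⟩)
  refine ne_top_of_le_ne_top (ENNReal.ofReal_ne_top (r := (1 - ρ)⁻¹)) (key.trans ?_)
  refine liminf_le_of_frequently_le' (Eventually.frequently ?_)
  filter_upwards [eventually_ge_atTop N] with l hl'
  rw [ENNReal.tsum_sigma']
  have step : ∀ n : ℕ, ∑' v : F (l + n), Metric.ediam {x : ℝ × ℝ |
      (⌊(2 : ℝ) ^ (l + n) * x.1⌋, ⌊(2 : ℝ) ^ (l + n) * x.2⌋) = (v : ℤ × ℤ)} ^ (s : ℝ) ≤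
      ENNReal.ofReal (ρ ^ n) := fun n => by
    rw [tsum_fintype]
    refine (sum_le_sum fun v _ => ENNReal.rpow_le_rpow (cell_diam (by positivity) v.1) hs'.le).trans ?_
    have hp : (0 : ℝ) < ((2 : ℝ) ^ (l + n))⁻¹ := by positivity
    simp only [sum_const, card_univ, Fintype.card_coe, nsmul_eq_mul]
    rw [ENNReal.ofReal_rpow_of_nonneg hp.le hs'.le, ← ENNReal.ofReal_natCast,
      ← ENNReal.ofReal_mul (Nat.cast_nonneg _)]
    refine ENNReal.ofReal_le_ofReal ?_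
    have e : (((2 : ℝ) ^ (l + n))⁻¹) ^ (s : ℝ) = exp (-(s * log 2 * (l + n : ℕ))) := by
      rw [Real.rpow_def_of_pos hp, Real.log_inv, Real.log_pow]; congr 1; ring
    have hc : ((#(F (l + n)) : ℕ) : ℝ) ≤ exp ((s : ℝ) * log 2 / 2 * (l + n : ℕ)) := by
      rcases Nat.eq_zero_or_pos (F (l + n)).card with h0 | h0
      · rw [h0, Nat.cast_zero]; exact (exp_pos _).le
      · exact (Real.log_le_iff_le_exp (by exact_mod_cast h0)).1 (hF _ (by omega))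
    rw [e]
    refine (mul_le_mul_of_nonneg_right hc (exp_pos _).le).trans ?_
    rw [← exp_add, hρ, ← exp_nat_mul, exp_le_exp]
    push_cast
    have : 0 ≤ (s : ℝ) * log 2 * l := by positivity
    nlinarith
  refine (ENNReal.tsum_le_tsum step).trans ?_
  rw [← ENNReal.ofReal_tsum_of_nonneg (fun n => by positivity)
    (summable_geometric_of_lt_one hρ0.le hρ1), tsum_geometric_of_lt_one hρ0.le hρ1]

/-- one row of the integer matrix -/
theorem anchor_row {a b ε T c η : ℝ} {q r s : ℤ} (hq : |(q : ℝ)| ≤ T) (hr : |q * a - r| ≤ c)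
    (hs : |q * b - s| ≤ η) (hc : c * η < ε / T)
    (hno : ¬ ∃ p r q : ℤ, 1 ≤ q ∧ (q : ℝ) ≤ T ∧ |p + q * a| * |r + q * b| < ε / T) : q = 0 := by
  by_contra h0
  have hp : |q * a - r| * |q * b - s| < ε / T :=
    (mul_le_mul hr hs (abs_nonneg _) ((abs_nonneg _).trans hr)).trans_lt hc
  refine hno ?_
  rcases lt_or_gt_of_ne h0 with h | h
  · refine ⟨r, s, -q, by omega, ?_, ?_⟩
    · push_cast; exact (neg_le_abs _).trans hq
    · push_cast
      rw [show (r : ℝ) + -q * a = -(q * a - r) by ring, show (s : ℝ) + -q * b = -(q * b - s) by ring,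
        abs_neg, abs_neg]
      exact hp
  · refine ⟨-r, -s, q, by omega, (le_abs_self _).trans hq, ?_⟩
    push_cast
    rw [show -(r : ℝ) + q * a = q * a - r by ring, show -(s : ℝ) + q * b = q * b - s by ring]
    exact hp

end Pool.Agent.P.MP_e45b92_nt.EL92
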