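import Pool.Agent.P.MP_246241_nt.EK.Defs

/-! Definitions and small tools. -/

set_option autoImplicit false

namespace Pool.Agent.P.MP_e45b92_nt.EL

open Finset Matrix Real
open Pool.Agent.P.MP_bf60a1_an.RA
open Pool.Agent.P.MP_246241_nt.EK (Vc Mt Gl Bd MI MI_nonneg MI_symm det_unit)

abbrev Pos := Fin 3 → ℤ
abbrev M3 := Matrix (Fin 3) (Fin 3) ℝ

section pos

/-- `x` times the unit vector `i` -/
def ee (i : Fin 3) (x : ℤ) : Pos := Pi.single i x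
def Ball (Q : Pos) (ρ : ℤ) : Set Pos := {m | ∀ a, Q a - ρ ≤ m a ∧ m a ≤ Q a + ρ}
def Hull (R : List Pos) : Set Pos := {m | ∀ a b, ∃ r ∈ R, m b - m a ≤ r b - r a}
def Sub (R R' : List Pos) : Prop := ∀ m ∈ R, m ∈ Hull R'
def In (R : List Pos) (U : Set Pos) : Prop := ∀ m ∈ R, m ∈ U
/-- three distinct indices -/
def Tri (i j k : Fin 3) : Prop := i ≠ j ∧ i ≠ k ∧ j ≠ k

theorem ee_self (i : Fin 3) (x : ℤ) : ee i x i = x := by simp [ee]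
theorem ee_ne {i a : Fin 3} (h : a ≠ i) (x : ℤ) : ee i x a = 0 := by simp [ee, h]
theorem ee_zero (i : Fin 3) : ee i 0 = 0 := by simp [ee]
theorem ee_add (i : Fin 3) (x y : ℤ) : ee i (x + y) = ee i x + ee i y := by
  simp [ee, Pi.single_add]
theorem Tri.all {i j k : Fin 3} (h : Tri i j k) (p : Fin 3 → Prop) :
    (∀ a, p a) ↔ p i ∧ p j ∧ p k := by
  have : ∀ i j k : Fin 3, Tri i j k → ∀ a, a = i ∨ a = j ∨ a = k := by unfold Tri; decide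
  refine ⟨fun g => ⟨g _, g _, g _⟩, fun g a => ?_⟩
  rcases this i j k h a with rfl | rfl | rfl
  exacts [g.1, g.2.1, g.2.2]
theorem Tri.sum {i j k : Fin 3} (h : Tri i j k) (f : Fin 3 → ℝ) : ∑ a, f a = f i + f j + f k := by
  have : ∀ i j k : Fin 3, Tri i j k → (univ : Finset (Fin 3)) = {i, j, k} := by
    unfold Tri; decide
  rw [this i j k h, sum_insert (by simp [h.1, h.2.1]), sum_pair h.2.2, add_assoc]
theorem Tri.ee {i j k : Fin 3} (h : Tri i j k) :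
    (∀ x, ee i x j = 0) ∧ (∀ x, ee i x k = 0) ∧ (∀ x, ee j x i = 0) ∧ (∀ x, ee j x k = 0) ∧
      (∀ x, ee k x i = 0) ∧ ∀ x, ee k x j = 0 :=
  ⟨ee_ne h.1.symm, ee_ne h.2.1.symm, ee_ne h.1, ee_ne h.2.2.symm, ee_ne h.2.1, ee_ne h.2.2⟩
theorem Tri.swap {i j k : Fin 3} (h : Tri i j k) : Tri j i k := ⟨h.1.symm, h.2.2, h.2.1⟩
theorem Tri.rot {i j k : Fin 3} (h : Tri i j k) : Tri j k i := ⟨h.2.2, h.1.symm, h.2.1.symm⟩
theorem exists_tri {i j : Fin 3} (h : i ≠ j) : ∃ k, Tri i j k := by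
  revert i j; unfold Tri; decide
theorem mem_Ball {Q m : Pos} {ρ : ℤ} : m ∈ Ball Q ρ ↔ ∀ a, Q a - ρ ≤ m a ∧ m a ≤ Q a + ρ := Iff.rfl
theorem mem_Hull {R : List Pos} {m : Pos} :
    m ∈ Hull R ↔ ∀ a b, ∃ r ∈ R, m b - m a ≤ r b - r a := Iff.rfl
theorem Ball_sub {Q Q' : Pos} {ρ ρ' σ : ℤ} (h : Q ∈ Ball Q' σ) (h' : σ + ρ ≤ ρ') :
    Ball Q ρ ⊆ Ball Q' ρ' := fun m hm a => by
  have := h a; have := hm a; omega
theorem self_Ball (Q : Pos) {ρ : ℤ} (h : 0 ≤ ρ) : Q ∈ Ball Q ρ := fun a => by omega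
theorem Sub.of_subset {R R' : List Pos} (h : R ⊆ R') : Sub R R' :=
  fun m hm _ _ => ⟨m, h hm, le_rfl⟩
theorem In.mono {R : List Pos} {U U' : Set Pos} (h : In R U) (h' : U ⊆ U') : In R U' :=
  fun m hm => h' (h m hm)

/-- the past of the root `(j, k)` at `Q`, third index `i` -/
def HW (i j : Fin 3) (M : ℤ) (Q : Pos) : List Pos := [Q - ee i M, Q + ee i M, Q + ee j M]
def WW (i k : Fin 3) (P₀ : Pos) (w : ℕ) : List Pos := [P₀, P₀ + ee i (20 * w), P₀ - ee k (20 * w)]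
def AX (i j k : Fin 3) (P₀ : Pos) (w : ℕ) (t : ℤ) : List Pos := (P₀ + ee j t) :: WW i k P₀ w
def AY (i j k : Fin 3) (P₀ : Pos) (w : ℕ) (t : ℤ) : List Pos := (P₀ - ee j t) :: WW i k P₀ w
def BX (i j k : Fin 3) (P₀ : Pos) (w : ℕ) (t : ℤ) : List Pos :=
  (P₀ + ee j t) :: (P₀ + ee k (12 * w)) :: WW i k P₀ w
def BY (i j k : Fin 3) (P₀ : Pos) (w : ℕ) (t : ℤ) : List Pos :=
  (P₀ - ee j t) :: (P₀ - ee i (12 * w)) :: WW i k P₀ w
/-- base point of the chamber `(i, j, k)` -/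
def ctr (P : Pos) (j k : Fin 3) (w : ℕ) : Pos := P - ee j w - ee k (2 * w)
/-- first point of the chain through `Q + M e_c` for the root `(a, b)` -/
def Tb (P Q : Pos) (a b c : Fin 3) (M w : ℕ) : Pos :=
  Q + ee c M + ee b (-w - (Q b - P b) + (Q a - P a))
/-- the strip of positions that belongs to the window `[2 ^ x₀, 2 ^ x₁]` -/
def Reg (x₀ x₁ : ℕ) : Set Pos :=
  {m | 3 * (x₀ : ℤ) ≤ m 1 + m 2 - 2 * m 0 ∧ m 1 + m 2 - 2 * m 0 ≤ 3 * (x₁ : ℤ) ∧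
    m 1 - m 0 ≤ 2 * (m 2 - m 0) ∧ m 2 - m 0 ≤ 2 * (m 1 - m 0)}
/-- the corners of the strip -/
def cor (x₀ x₁ : ℕ) : List Pos :=
  [![0, x₀, 2 * x₀], ![0, x₁, 2 * x₁], ![0, 2 * x₀, x₀], ![0, 2 * x₁, x₁]]
abbrev Ix := Fin 3 × Fin 3 × Fin 3 × Fin 4 × ℕ

/-- approximate submodularity along hulls -/
def Cal (U : Set Pos) (e : ℝ) (ψ : List Pos → ℝ) : Prop :=
  ∀ R₀ R₁ R₂ R₃ : List Pos, R₀.length ≤ 5 → R₁.length ≤ 5 → R₂.length ≤ 5 → R₃.length ≤ 5 →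
    In R₀ U → In R₁ U → In R₂ U → In R₃ U → R₀ ≠ [] → Sub R₀ R₁ → Sub R₀ R₂ →
    Sub R₃ (R₁ ++ R₂) → ψ R₃ + ψ R₀ ≤ ψ R₁ + ψ R₂ + e
/-- the entropy of `L` more digits of the root `(j, k)` at `Q` -/
def dd (ψ : List Pos → ℝ) (i j : Fin 3) (M L : ℤ) (Q : Pos) : ℝ :=
  ψ ((Q - ee j L) :: HW i j M Q) - ψ (HW i j M Q)
def Dt (ψ : List Pos → ℝ) (e : ℝ) (M M' L : ℤ) (Q : Pos) : ℝ :=
  ∑ i, ∑ j, (dd ψ i j M L Q - dd ψ i j M' L Q + e)
/-- sum along a chain -/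
def CS (D : Pos → ℝ) (L N : ℕ) (Q : Pos) (b : Fin 3) : ℝ :=
  ∑ t ∈ range N, D (Q + ee b (t * L))
def JJ (ψ : List Pos → ℝ) (A B : ℤ → List Pos) (n : ℤ) : ℝ :=
  ψ (A n) - ψ (A 0) - (ψ (B n) - ψ (B 0))

theorem Cal.mono {U U' : Set Pos} {e : ℝ} {ψ : List Pos → ℝ} (h : Cal U e ψ) (h' : U' ⊆ U) :
    Cal U' e ψ := fun _ _ _ _ a b c d h₀ h₁ h₂ h₃ =>
  h _ _ _ _ a b c d (h₀.mono h') (h₁.mono h') (h₂.mono h') (h₃.mono h')
/-- monotone up to `e` -/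
theorem Cal.le {U : Set Pos} {e : ℝ} {ψ : List Pos → ℝ} (h : Cal U e ψ) {R R' : List Pos}
    (l : R.length ≤ 5) (l' : R'.length ≤ 5) (hR : In R U) (hR' : In R' U) (h0 : R' ≠ [])
    (hs : Sub R R') : ψ R ≤ ψ R' + e := by
  obtain ⟨r, hr⟩ := List.exists_mem_of_ne_nil _ h0
  have h1 : In [r] U := by simpa [In] using hR' r hr
  have := h [r] R' [r] R (by simp) l' (by simp) l h1 hR' h1 hR (by simp)
    (.of_subset (by simpa using hr)) (.of_subset (List.Subset.refl _)) fun m hm a b => by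
      obtain ⟨s, h2, h3⟩ := hs m hm a b
      exact ⟨s, List.mem_append_left _ h2, h3⟩
  linarith

end pos

section geo

noncomputable def wt (m : Pos) (j : Fin 3) : ℝ :=
  (2 : ℝ) ^ ((m j : ℝ) - ((m 0 : ℝ) + m 1 + m 2) / 3)
noncomputable def dg (m : Pos) : M3 := Matrix.diagonal (wt m)
def cs (g : Gl 3) : M3 := (g : Mt 3).map (Int.cast : ℤ → ℝ)
def RB (b : M3) (B : ℝ) : Prop := ∀ i j, |b i j| ≤ B
def Lam (α β : ℝ) : M3 := !![1, α, β; 0, -1, 0; 0, 0, -1]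
/-- no vector of the lattice spanned by the rows is shorter than `1 / H` -/
def NoSh (H : ℕ) (b : M3) : Prop := ∀ w : Vc 3, w ≠ 0 → ∃ j, 1 ≤ H * |(cz w ᵥ* b) j|
def Far (c : Fin 3 → ℝ) (R : ℕ) (η : ℝ) : Prop :=
  ∀ w : Vc 3, w ≠ 0 → (∀ i, |w i| ≤ (R : ℤ)) → η ≤ |cz w ⬝ᵥ c|
def Sv (α β ε T : ℝ) : Prop :=
  ∃ p r q : ℤ, 1 ≤ q ∧ (q : ℝ) ≤ T ∧ |p + q * α| * |r + q * β| < ε / T

/-- a lattice with a choice of basis at each position -/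
structure Pt where
  Λ : M3
  g : Pos → Gl 3

noncomputable def Pt.b (x : Pt) (m : Pos) : M3 := cs (x.g m) * x.Λ * dg m
def Pt.Ok (x : Pt) (B : ℕ) (U : Set Pos) : Prop := |x.Λ.det| = 1 ∧ ∀ m ∈ U, RB (x.b m) B
def Pt.rel (x : Pt) (m m' : Pos) : Gl 3 := x.g m * (x.g m')⁻¹
def Pt.V (x : Pt) (R : List Pos) : List (List (Gl 3)) := R.map fun m => R.map fun m' => x.rel m m'
noncomputable def kk (x y : Pt) (m : Pos) : M3 := (x.b m)⁻¹ * y.b m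
/-- the lattice vector `w` seen at position `m` -/
noncomputable def lv (x : Pt) (w : Vc 3) (m : Pos) : Fin 3 → ℝ := cz w ᵥ* (x.Λ * dg m)
def Ap (κ : M3) (i j k : Fin 3) (ε u v w : ℝ) (D D' : Fin 3 → ℝ) : Prop :=
  |κ i j - u * D' j / D i| ≤ ε ∧ |κ j k - v * D' k / D j| ≤ ε ∧ |κ i k - w * D' k / D i| ≤ ε ∧
    |κ k k - D' k / D k| ≤ ε ∧ |κ j i| ≤ ε ∧ |κ k i| ≤ ε ∧ |κ k j| ≤ ε

theorem wt_pos (m : Pos) (j : Fin 3) : 0 < wt m j := rpow_pos_of_pos two_pos _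
theorem wt_add (m m' : Pos) (j : Fin 3) : wt (m + m') j = wt m j * wt m' j := by
  simp only [wt, Pi.add_apply]
  rw [← rpow_add two_pos]; congr 1; push_cast; ring
theorem wt_zero (j : Fin 3) : wt 0 j = 1 := by simp [wt]
theorem wt_neg (m : Pos) (j : Fin 3) : wt (-m) j = (wt m j)⁻¹ :=
  eq_inv_of_mul_eq_one_left (by rw [← wt_add, neg_add_cancel, wt_zero])
theorem wt_ratio (m : Pos) (a b : Fin 3) : wt m b = wt m a * (2 : ℝ) ^ (m b - m a) := by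
  simp only [wt]
  rw [← rpow_intCast, ← rpow_add two_pos]; congr 1; push_cast; ring
theorem wt_prod (m : Pos) : wt m 0 * wt m 1 * wt m 2 = 1 := by
  simp only [wt]
  rw [← rpow_add two_pos, ← rpow_add two_pos, ← rpow_zero 2]; congr 1; ring
theorem sum_ee (l : Fin 3) (x : ℤ) : (ee l x 0 : ℝ) + ee l x 1 + ee l x 2 = x := by
  fin_cases l <;> simp [ee]
theorem wt_ee_self (l : Fin 3) (s : ℕ) : wt (ee l (3 * s)) l = 2 ^ (2 * s) := by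
  rw [wt, sum_ee, ee_self, ← rpow_natCast]; congr 1; push_cast; ring
theorem wt_ee_ne {l j : Fin 3} (h : j ≠ l) (s : ℕ) : wt (ee l (3 * s)) j = 1 / 2 ^ s := by
  rw [wt, sum_ee, ee_ne h, one_div, ← rpow_natCast, ← rpow_neg zero_le_two]
  congr 1; push_cast; ring
theorem wt_le {m : Pos} {κ : ℕ} (h : m ∈ Ball 0 κ) (j : Fin 3) : wt m j ≤ 4 ^ κ := by
  have g : ∀ a, -(κ : ℝ) ≤ m a ∧ (m a : ℝ) ≤ κ := fun a => by
    have := h a
    simp only [Pi.zero_apply, zero_sub, zero_add] at this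
    exact_mod_cast this
  rw [show (4 : ℝ) = 2 ^ 2 by norm_num, ← pow_mul, ← rpow_natCast]
  refine rpow_le_rpow_of_exponent_le one_le_two ?_
  push_cast
  linarith [g 0, g 1, g 2, g j]
theorem dg_add (m m' : Pos) : dg (m + m') = dg m * dg m' := by
  simp only [dg, diagonal_mul_diagonal, ← wt_add]
theorem dg_zero : dg 0 = 1 := by
  rw [dg, ← diagonal_one]; congr 1; ext j; exact wt_zero j
theorem det_dg (m : Pos) : (dg m).det = 1 := by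
  rw [dg, det_diagonal, Fin.prod_univ_three, wt_prod]
theorem mul_dg (b : M3) (m : Pos) (i j : Fin 3) : (b * dg m) i j = b i j * wt m j :=
  mul_diagonal _ _ _ _
/-- conjugation by a diagonal matrix -/
theorem conj_dg (b : M3) (m : Pos) (i j : Fin 3) :
    (dg (-m) * b * dg m) i j = b i j * (2 : ℝ) ^ (m j - m i) := by
  rw [mul_dg, dg, diagonal_mul, wt_neg, wt_ratio m i j]
  field_simp [(wt_pos m i).ne']
theorem cs_apply (g : Gl 3) (i j : Fin 3) : cs g i j = ((g : Mt 3) i j : ℝ) := rfl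
theorem cs_mul (g h : Gl 3) : cs (g * h) = cs g * cs h := by
  ext i j; simp [cs, Matrix.mul_apply]
theorem cs_one : cs 1 = 1 := by
  ext i j; by_cases h : i = j <;> simp [cs, Matrix.one_apply, h]
theorem cs_inv_mul (g : Gl 3) : cs g⁻¹ * cs g = 1 := by rw [← cs_mul, inv_mul_cancel, cs_one]
theorem cs_mul_inv (g : Gl 3) : cs g * cs g⁻¹ = 1 := by rw [← cs_mul, mul_inv_cancel, cs_one]
theorem det_cs (g : Gl 3) : |(cs g).det| = 1 := by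
  have : (cs g).det = ((g : Mt 3).det : ℝ) := ((Int.castRingHom ℝ).map_det (g : Mt 3)).symm
  rw [this, ← Int.cast_abs, det_unit, Int.cast_one]
theorem cz_vecMul (w : Vc 3) (g : Gl 3) : cz (w ᵥ* (g : Mt 3)) = cz w ᵥ* cs g := by
  ext j; simp [cz, cs, vecMul, dotProduct]
theorem vecMul_ne {w : Vc 3} (h : w ≠ 0) (g : Gl 3) : w ᵥ* (g : Mt 3) ≠ 0 := fun h' => h <| by
  have := congrArg (· ᵥ* ((g⁻¹ : Gl 3) : Mt 3)) h'
  simpa using this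
theorem row_ne (g : Gl 3) (i : Fin 3) : (g : Mt 3) i ≠ 0 := fun h => by
  have := det_unit g
  rw [det_eq_zero_of_row_eq_zero i fun j => congrFun h j] at this
  simp at this
theorem det_Lam (α β : ℝ) : (Lam α β).det = 1 := by simp [Lam, det_fin_three]
theorem RB.mul {a b : M3} {A B : ℝ} (ha : RB a A) (hb : RB b B) : RB (a * b) (3 * A * B) :=
  fun i j => by
    have h : ∀ l, |a i l * b l j| ≤ A * B := fun l => by
      rw [abs_mul]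
      exact mul_le_mul (ha _ _) (hb _ _) (abs_nonneg _) ((abs_nonneg _).trans (ha i i))
    rw [Matrix.mul_apply, Fin.sum_univ_three]
    linarith [abs_add_three (a i 0 * b 0 j) (a i 1 * b 1 j) (a i 2 * b 2 j), h 0, h 1, h 2]
theorem RB.mono {a : M3} {A B : ℝ} (ha : RB a A) (h : A ≤ B) : RB a B :=
  fun i j => (ha i j).trans h

namespace Pt
variable {x y : Pt} {B : ℕ} {U U' : Set Pos}
theorem Ok.mono (h : x.Ok B U) (h' : U' ⊆ U) : x.Ok B U' := ⟨h.1, fun m hm => h.2 m (h' hm)⟩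
theorem Ok.det (h : x.Ok B U) (m : Pos) : |(x.b m).det| = 1 := by
  rw [b, det_mul, det_mul, abs_mul, abs_mul, det_cs, h.1, det_dg]; simp
theorem Ok.unit (h : x.Ok B U) (m : Pos) : IsUnit (x.b m).det :=
  Ne.isUnit fun h0 => by have := h.det m; rw [h0] at this; simp at this
theorem Ok.inv_mul (h : x.Ok B U) (m : Pos) : (x.b m)⁻¹ * x.b m = 1 := nonsing_inv_mul _ (h.unit m)
theorem Ok.mul_inv (h : x.Ok B U) (m : Pos) : x.b m * (x.b m)⁻¹ = 1 := mul_nonsing_inv _ (h.unit m)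
theorem Ok.mul_kk (h : x.Ok B U) (y : Pt) (m : Pos) : x.b m * kk x y m = y.b m := by
  rw [kk, ← Matrix.mul_assoc, h.mul_inv, Matrix.one_mul]
theorem Ok.kk_mul (h : y.Ok B U) (x z : Pt) (m : Pos) : kk x y m * kk y z m = kk x z m := by
  rw [kk, Matrix.mul_assoc, h.mul_kk, kk]
theorem Ok.kk_self (h : x.Ok B U) (m : Pos) : kk x x m = 1 := h.inv_mul m
theorem Ok.det_kk (h : x.Ok B U) (h' : y.Ok B U) (m : Pos) : |(kk x y m).det| = 1 := by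
  have := congrArg (fun a : M3 => |a.det|) (h.mul_kk y m)
  simpa only [det_mul, abs_mul, h.det, h'.det, one_mul] using this
theorem rel_self (x : Pt) (m : Pos) : x.rel m m = 1 := mul_inv_cancel _
theorem rel_inv (x : Pt) (m m' : Pos) : (x.rel m m')⁻¹ = x.rel m' m := by simp [rel]
theorem rel_mul (x : Pt) (m m' m'' : Pos) : x.rel m m' * x.rel m' m'' = x.rel m m'' := by
  simp [rel, mul_assoc]
theorem b_rel (x : Pt) (m m' : Pos) : x.b m = cs (x.rel m m') * x.b m' * dg (m - m') := by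
  rw [b, b, Matrix.mul_assoc (cs _) (_ * _) (dg _), Matrix.mul_assoc _ (dg m') (dg _), ← dg_add,
    add_sub_cancel, ← Matrix.mul_assoc, ← Matrix.mul_assoc, ← cs_mul, rel, inv_mul_cancel_right]
theorem V_eq {R : List Pos} : x.V R = y.V R ↔ ∀ m ∈ R, ∀ m' ∈ R, x.rel m m' = y.rel m m' := by
  simp only [V, List.map_inj_left]
theorem V_sub {R R' : List Pos} (h : R ⊆ R') (e : x.V R' = y.V R') : x.V R = y.V R :=
  V_eq.2 fun m hm m' hm' => V_eq.1 e m (h hm) m' (h hm')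
/-- two lists with a common point -/
theorem V_glue {R R₁ R₂ : List Pos} {r : Pos} (h₁ : r ∈ R₁) (h₂ : r ∈ R₂) (h : R ⊆ R₁ ++ R₂)
    (e₁ : x.V R₁ = y.V R₁) (e₂ : x.V R₂ = y.V R₂) : x.V R = y.V R := by
  have g : ∀ m ∈ R, x.rel m r = y.rel m r := fun m hm => by
    rcases List.mem_append.1 (h hm) with a | a
    exacts [V_eq.1 e₁ m a r h₁, V_eq.1 e₂ m a r h₂]
  refine V_eq.2 fun m hm m' hm' => ?_
  rw [← x.rel_mul m r m', ← y.rel_mul m r m', g m hm, ← x.rel_inv m' r, ← y.rel_inv m' r,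
    g m' hm']
end Pt

theorem lv_add (x : Pt) (w : Vc 3) (m m' : Pos) (j : Fin 3) :
    lv x w (m + m') j = lv x w m j * wt m' j := by
  rw [lv, lv, dg_add, ← Matrix.mul_assoc, ← vecMul_vecMul]
  exact vecMul_diagonal _ _ _
theorem lv_g (x : Pt) (w : Vc 3) (m : Pos) : lv x (w ᵥ* (x.g m : Mt 3)) m = cz w ᵥ* x.b m := by
  rw [lv, cz_vecMul, vecMul_vecMul, Pt.b, Matrix.mul_assoc]

end geo

section digits

noncomputable def dig (x : ℝ) (t : ℕ) : ℤ := ⌊2 ^ t * x⌋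
/-- the digits `d + 1, …, d + m` as a number in `[0, 1)` -/
noncomputable def tr (x : ℝ) (d m : ℕ) : ℝ := ((dig x (d + m) : ℝ) - 2 ^ m * dig x d) / 2 ^ m
def near (q d : ℕ) (x : ℝ) : Prop := |Int.fract (2 ^ d * x) - 1 / 2| < 1 / (2 * q)
noncomputable def cnt (n : ℕ) (p : ℕ → Prop) : ℝ := ∑ d ∈ range n, ind (p d)

theorem dig_zero (x : ℝ) : dig x 0 = ⌊x⌋ := by simp [dig]
theorem dig_le (x : ℝ) (t : ℕ) : (dig x t : ℝ) ≤ 2 ^ t * x := Int.floor_le _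
theorem lt_dig (x : ℝ) (t : ℕ) : 2 ^ t * x < dig x t + 1 := Int.lt_floor_add_one _
theorem dig_div (x : ℝ) (t s : ℕ) : dig x t = dig x (t + s) / 2 ^ s := by
  have := Int.floor_div_natCast (2 ^ (t + s) * x) (2 ^ s)
  push_cast at this
  rw [dig, dig, ← this]; congr 1; field_simp; ring
theorem dig_of_le {x y : ℝ} {t s : ℕ} (h : t ≤ s) (e : dig x s = dig y s) : dig x t = dig y t := by
  obtain ⟨k, rfl⟩ := Nat.exists_eq_add_of_le h
  rw [dig_div x t k, dig_div y t k, e]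
theorem abs_sub_of_dig {x y : ℝ} {t : ℕ} (e : dig x t = dig y t) : |y - x| * 2 ^ t ≤ 1 := by
  have h : (dig x t : ℝ) = dig y t := by rw [e]
  rw [← abs_of_pos (show (0 : ℝ) < 2 ^ t by positivity), ← abs_mul, abs_le]
  constructor <;> nlinarith [dig_le x t, lt_dig x t, dig_le y t, lt_dig y t]
theorem tr_spec (x : ℝ) (d m : ℕ) : 0 ≤ tr x d m ∧ tr x d m ≤ Int.fract (2 ^ d * x) ∧
    Int.fract (2 ^ d * x) ≤ tr x d m + 1 / 2 ^ m := by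
  have h0 : (0 : ℝ) < 2 ^ m := by positivity
  have h1 := dig_le x (d + m)
  have h2 := lt_dig x (d + m)
  have h3 : (2 : ℤ) ^ m * dig x d ≤ dig x (d + m) := by
    rw [dig_div x d m]; exact Int.mul_ediv_self_le (by positivity)
  have h4 : (2 : ℝ) ^ m * dig x d ≤ dig x (d + m) := by exact_mod_cast h3
  rw [pow_add] at h1 h2
  refine ⟨div_nonneg (by linarith) h0.le, ?_, ?_⟩
  · rw [tr, div_le_iff₀ h0, Int.fract, ← dig]; linarith
  · rw [tr, ← add_div, le_div_iff₀ h0, Int.fract, ← dig]; linarith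
theorem cnt_nonneg (n : ℕ) (p : ℕ → Prop) : 0 ≤ cnt n p := sum_nonneg fun _ _ => ind_nonneg _

end digits

section prob
variable {Ω κ α β : Type} [Fintype Ω]

def Sys (P : FP Ω) (x : Ω → Pt) (B : ℕ) (U : Set Pos) : Prop := ∀ ω, 0 < P.p ω → (x ω).Ok B U
noncomputable def pH (P : FP Ω) (E : Ω → Prop) (Z : Ω → α) : ℝ := P.pr E * (P.cond E).H Z
noncomputable def ps (P : FP Ω) (x : Ω → Pt) (E : Ω → Prop) (R : List Pos) : ℝ :=
  pH P E fun ω => (x ω).V R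

/-- what the combinatorial steps use about the entropies -/
structure Fam (P : FP Ω) (U : Set Pos) (B e c : ℝ) (ψ : (Ω → Prop) → List Pos → ℝ) : Prop where
  cal : ∀ E, Cal U e (ψ E)
  nn : ∀ E R, 0 ≤ ψ E R
  siz : ∀ E R Q (s : ℕ), R.length ≤ 5 → In R U → In R (Ball Q s) → ψ E R ≤ c * (s + B) * P.pr E
  hi : ∀ E E₁ E₂ R, (∀ ω, E ω ↔ E₁ ω ∨ E₂ ω) → (∀ ω, E₁ ω → ¬ E₂ ω) → ψ E R ≤ ψ E₁ R + ψ E₂ R + 1
  lo : ∀ E E₁ E₂ R, (∀ ω, E ω ↔ E₁ ω ∨ E₂ ω) → (∀ ω, E₁ ω → ¬ E₂ ω) → ψ E₁ R + ψ E₂ R ≤ ψ E R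
  cnd : ∀ E E₁ E₂ R R', (∀ ω, E ω ↔ E₁ ω ∨ E₂ ω) → (∀ ω, E₁ ω → ¬ E₂ ω) → R ⊆ R' →
    ψ E₁ R' - ψ E₁ R + (ψ E₂ R' - ψ E₂ R) ≤ ψ E R' - ψ E R

/-- output of the high entropy step in the chamber `(i, j, k)` -/
def Hi (P : FP Ω) (ψ : (Ω → Prop) → List Pos → ℝ) (i j k : Fin 3) (P₀ : Pos) (w : ℕ) (B β : ℝ) :
    Prop :=
  ∃ GX GY : Ω → Prop, (P.pr fun ω => ¬ GX ω ∧ ¬ GY ω) ≤ 2 / B + β *
      (JJ (ψ fun _ => True) (AX i j k P₀ w) (BX i j k P₀ w) (3 * w) +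
        JJ (ψ fun _ => True) (AY i j k P₀ w) (BY i j k P₀ w) (3 * w)) / (3 * w) ∧
    (∀ E, (∀ ω, E ω → GX ω) → ψ E (BX i j k P₀ w (3 * w)) - ψ E (BX i j k P₀ w 0) ≤ 6 * w / B) ∧
    ∀ E, (∀ ω, E ω → GY ω) → ψ E (BY i j k P₀ w (3 * w)) - ψ E (BY i j k P₀ w 0) ≤ 6 * w / B
/-- the root `(a, b)` carries little entropy on `G` along the chain from `Q` -/
def Small (ψ : (Ω → Prop) → List Pos → ℝ) (G : Ω → Prop) (a b c : Fin 3) (M L N : ℕ) (Q : Pos)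
    (σ : ℝ) : Prop :=
  ∀ E, (∀ ω, E ω → G ω) → CS (dd (ψ E) c a M L) L N Q b ≤ σ

/-- coordinates on the classes of `V R` -/
structure Co (P : FP Ω) (x : Ω → Pt) (R : List Pos) (P₀ : Pos) (i j k : Fin 3) (e ε : ℝ)
    (X Y Z : Ω → ℝ) (D : Ω → Fin 3 → ℝ) : Prop where
  bd : ∀ ω, 0 < P.p ω → |X ω| ≤ e ∧ |Y ω| ≤ e ∧ ∀ a, 1 ≤ e * |D ω a| ∧ |D ω a| ≤ e
  ap : ∀ ω ω', 0 < P.p ω → 0 < P.p ω' → (x ω).V R = (x ω').V R →
    Ap (kk (x ω) (x ω') P₀) i j k ε (X ω' - X ω) (Y ω' - Y ω)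
      (Z ω' - Z ω - X ω * (Y ω' - Y ω)) (D ω) (D ω')
def Por (P : FP Ω) (W : Ω → κ) (X Y Z : Ω → ℝ) (e : ℝ) (d₁ d₂ : ℕ) : Prop :=
  ∀ ω, 0 < P.p ω → ∃ τ : ℝ, |τ| ≤ e ∧ ∀ ω', 0 < P.p ω' → W ω' = W ω →
    |X ω' - X ω| * 2 ^ d₁ ≤ 1 → |Y ω' - Y ω| * 2 ^ d₂ ≤ 1 →
    8 < |2 ^ (d₁ + d₂) * (Z ω' - Z ω - X ω * (Y ω' - Y ω)) - τ|
/-- the next digit is not the likely one -/
def mis (P : FP Ω) (W : Ω → κ) (X : Ω → ℝ) (d : ℕ) (ω : Ω) : Prop :=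
  P.cl (fun ω => (dig (X ω) (d + 1), W ω)) ω ≤ P.cl (fun ω => (dig (X ω) d, W ω)) ω / 2
def MF (P : FP Ω) (W : Ω → κ) (X : Ω → ℝ) (ρ : ℝ) (d : ℕ) (ω : Ω) : Prop :=
  mis P W X d ω ∧ 2 * ρ ≤ |Int.fract (2 ^ d * X ω) - 1 / 2|
def GG (P : FP Ω) (W : Ω → κ) (X : Ω → ℝ) (B n : ℕ) (ω : Ω) : Prop :=
  (cnt n fun d => mis P W X d ω) ≤ n / (16 * B ^ 2)
def Iso (P : FP Ω) (V : Ω → κ) (x : Ω → ℝ) (ρ : ℝ) (ω : Ω) : Prop :=
  2 * (P.pr fun ω' => V ω' = V ω ∧ |x ω' - x ω| < ρ) ≤ P.cl V ω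
/-- information between the digits of `X` and those of `(Y, Z)` -/
noncomputable def JI (P : FP Ω) (W : Ω → κ) (X Y Z : Ω → ℝ) (n l : ℕ) : ℝ :=
  MI P (fun ω => dig (X ω) n) (fun ω => (dig (Y ω) l, dig (Z ω) l)) W

variable {P : FP Ω} {x : Ω → Pt} {B : ℕ} {U U' : Set Pos}
theorem Sys.cond (h : Sys P x B U) (E : Ω → Prop) : Sys (P.cond E) x B U :=
  fun ω hω => h ω (P.cond_pos hω)
theorem Sys.mono (h : Sys P x B U) (h' : U' ⊆ U) : Sys P x B U' := fun ω hω => (h ω hω).mono h'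
theorem det_V (P : FP Ω) (x : Ω → Pt) {R R' : List Pos} (h : R ⊆ R') :
    P.Det (fun ω => (x ω).V R') fun ω => (x ω).V R := fun _ _ _ _ e => Pt.V_sub h e
theorem cond_true (P : FP Ω) : (P.cond fun _ => True) = P := by
  have h : (P.pr fun _ => True) = 1 := P.pr_eq_one fun _ _ => trivial
  have : (P.cond fun _ => True).p = P.p := by
    ext ω; rw [P.cond_p (by rw [h]; exact one_pos), h, ind_pos trivial]; simp
  revert this
  cases P.cond fun _ => True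
  cases P
  intro this
  simpa using this
theorem ps_true (P : FP Ω) (x : Ω → Pt) (R : List Pos) :
    ps P x (fun _ => True) R = P.H fun ω => (x ω).V R := by
  rw [ps, pH, cond_true, P.pr_eq_one fun _ _ => trivial, one_mul]
theorem Fam.mono {B e c : ℝ} {ψ : (Ω → Prop) → List Pos → ℝ} (h : Fam P U B e c ψ) (h' : U' ⊆ U) :
    Fam P U' B e c ψ :=
  ⟨fun E => (h.cal E).mono h', h.nn, fun E R Q s a b => h.siz E R Q s a (b.mono h'), h.hi, h.lo,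
    h.cnd⟩
variable {R : List Pos} {P₀ : Pos} {i j k : Fin 3} {e ε : ℝ} {X Y Z : Ω → ℝ} {D : Ω → Fin 3 → ℝ}
theorem Co.cond (h : Co P x R P₀ i j k e ε X Y Z D) (E : Ω → Prop) :
    Co (P.cond E) x R P₀ i j k e ε X Y Z D :=
  ⟨fun ω a => h.bd ω (P.cond_pos a), fun ω ω' a b => h.ap ω ω' (P.cond_pos a) (P.cond_pos b)⟩
theorem Co.shift (h : Co P x R P₀ i j k e ε X Y Z D) {e' u v : ℝ} (he : e + 1 ≤ e')
    (hu : |u| ≤ 1) (hv : |v| ≤ 1) : Co P x R P₀ i j k e' ε (fun ω => X ω + u) (fun ω => Y ω + v)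
      (fun ω => Z ω + u * Y ω) D := by
  refine ⟨fun ω a => ?_, fun ω ω' a b c => ?_⟩
  · obtain ⟨h1, h2, h3⟩ := h.bd ω a
    refine ⟨by linarith [abs_add_le (X ω) u], by linarith [abs_add_le (Y ω) v], fun l =>
      ⟨(h3 l).1.trans (mul_le_mul_of_nonneg_right (by linarith) (abs_nonneg _)),
        by linarith [(h3 l).2]⟩⟩
  · convert h.ap ω ω' a b c using 1 <;> ring

end prob

end Pool.Agent.P.MP_e45b92_nt.EL
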