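import Pool.Agent.P.MP_e45b92_nt.EL.Cover

set_option autoImplicit false

namespace Pool.Agent.P.MP_e45b92_nt.EL92

open Finset Real Filter

def Sol (a b ε T : ℝ) : Prop :=
  ∃ p r q : ℤ, 1 ≤ q ∧ (q : ℝ) ≤ T ∧ |p + q * a| * |r + q * b| < ε / T

def Core : Prop :=
  ∃ A C : ℕ, ∀ B x : ℕ, 2 ≤ B → B * 2 ^ B ^ A ≤ x → ∃ F : Finset (ℤ × ℤ),
    log (#F) ≤ C * x / B ∧ ∀ a b : ℝ, 0 ≤ a → a < 1 → 0 ≤ b → b < 1 →
      (∀ T : ℝ, 2 ^ x ≤ T → T ≤ 2 ^ (x + 2 ^ B ^ A) → ¬ Sol a b (1 / B) T) →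
      (⌊(2 : ℝ) ^ (2 * x) * a⌋, ⌊(2 : ℝ) ^ (2 * x) * b⌋) ∈ F

lemma Sol.mono {a b ε ε' T : ℝ} (h : Sol a b ε T) (he : ε ≤ ε') : Sol a b ε' T := by
  obtain ⟨p, r, q, h1, h2, h3⟩ := h
  have : (0 : ℝ) < T := lt_of_lt_of_le (by exact_mod_cast (by omega : 0 < q)) h2
  exact ⟨p, r, q, h1, h2, h3.trans_le (by gcongr)⟩

lemma Sol.shift {a b ε T : ℝ} (m n : ℤ) (h : Sol (a - m) (b - n) ε T) : Sol a b ε T := by
  obtain ⟨p, r, q, h1, h2, h3⟩ := h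
  refine ⟨p - q * m, r - q * n, q, h1, h2, ?_⟩
  push_cast
  convert h3 using 3 <;> ring

/-- the choice of the parameters -/
lemma params (A : ℕ) (B₀ : ℕ) : ∃ L₀ : ℝ, ∀ L T : ℝ, L₀ ≤ L → L ≤ T → ∃ B x : ℕ, B₀ ≤ B ∧
    B * 2 ^ B ^ A ≤ x ∧ 1 / (B : ℝ) ≤ log (log L) ^ (-(1 / (2 * ((A : ℝ) + 1)))) ∧
    T / L ≤ 2 ^ x ∧ (2 : ℝ) ^ (x + 2 ^ B ^ A) ≤ T := by
  set κ : ℝ := 1 / (2 * ((A : ℝ) + 1)) with hκ
  have hκ0 : 0 < κ := by positivity
  have t1 : Tendsto (fun L : ℝ => log (log L)) atTop atTop := tendsto_log_atTop.comp tendsto_log_atTop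
  have t2 : Tendsto (fun L : ℝ => log (log L) ^ κ) atTop atTop := (tendsto_rpow_atTop hκ0).comp t1
  obtain ⟨L₀, hL⟩ := eventually_atTop.1 (((t2.eventually_ge_atTop (max (B₀ : ℝ) 1)).and
    (t1.eventually_ge_atTop ((4 * 2 ^ (A + 1)) ^ 2))).and
    ((tendsto_log_atTop.eventually_ge_atTop 16).and (eventually_ge_atTop (1 : ℝ))))
  refine ⟨L₀, fun L T h1 h2 => ?_⟩
  obtain ⟨⟨a1, a2⟩, a3, a4⟩ := hL L h1
  set u := log L with hu
  set v := log u with hv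
  have v0 : 0 < v := lt_of_lt_of_le (by positivity) a2
  set B := ⌈v ^ κ⌉₊ with hB
  have b1 : v ^ κ ≤ B := Nat.le_ceil _
  have k1 : 1 ≤ v ^ κ := (le_max_right _ _).trans a1
  have b2 : (B : ℝ) ≤ 2 * v ^ κ := by
    have := Nat.ceil_lt_add_one (zero_le_one.trans k1)
    linarith
  have B1 : 1 ≤ B := by
    have : (1 : ℝ) ≤ B := k1.trans b1
    exact_mod_cast this
  have b3 : ((B ^ (A + 1) : ℕ) : ℝ) ≤ v / 4 := by
    push_cast
    refine (pow_le_pow_left₀ (by positivity) b2 _).trans ?_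
    rw [mul_pow, ← rpow_natCast (v ^ κ), ← rpow_mul v0.le]
    have e : κ * ((A + 1 : ℕ) : ℝ) = 1 / 2 := by rw [hκ]; push_cast; field_simp
    rw [e, ← sqrt_eq_rpow]
    have s1 : 4 * 2 ^ (A + 1) ≤ √v := le_sqrt_of_sq_le a2
    have s2 := mul_self_sqrt v0.le
    nlinarith [sqrt_nonneg v]
  set H : ℕ := 2 ^ B ^ (A + 1) with hH
  have u0 : 0 < u := by linarith
  have h4 : (H : ℝ) ^ 4 ≤ u := by
    have l2 : log 2 ≤ 1 := by have := log_two_lt_d9; linarith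
    rw [← log_le_log_iff (by positivity) u0, hH]
    push_cast at b3 ⊢
    rw [log_pow, log_pow]
    push_cast
    have : (0 : ℝ) ≤ (B : ℝ) ^ (A + 1) := by positivity
    nlinarith
  have hBA : B ^ A ≤ B ^ (A + 1) := Nat.pow_le_pow_right B1 (by omega)
  have hH1 : 2 ^ B ^ A ≤ H := Nat.pow_le_pow_right (by norm_num) hBA
  have hH2 : B ≤ H := by
    have : B ≤ B ^ (A + 1) := Nat.le_self_pow (by omega) B
    exact this.trans (Nat.lt_two_pow_self).le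
  have H1 : (1 : ℝ) ≤ H := by exact_mod_cast B1.trans hH2
  have h5 : 4 * (H : ℝ) ^ 2 ≤ u := by
    by_contra hh
    push Not at hh
    nlinarith [sq_nonneg ((H : ℝ) ^ 2)]
  have T1 : 1 ≤ T := a4.trans h2
  have T0 : 0 < T := by linarith
  obtain ⟨y, y1, y2⟩ := exists_nat_pow_near T1 (one_lt_two (α := ℝ))
  have y3 : u ≤ y + 1 := by
    have l2 : log 2 ≤ 1 := by have := log_two_lt_d9; linarith
    have h6 : u ≤ log T := log_le_log (by linarith) h2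
    have h7 : log T ≤ log (2 ^ (y + 1)) := log_le_log T0 y2.le
    rw [log_pow] at h7
    push_cast at h7
    have : (0 : ℝ) ≤ (y : ℝ) + 1 := by positivity
    nlinarith
  have y4 : 2 * H ^ 2 ≤ y := by
    have : ((2 * H ^ 2 : ℕ) : ℝ) ≤ y := by push_cast; nlinarith
    exact_mod_cast this
  have y5 : B * 2 ^ B ^ A + 2 ^ B ^ A ≤ y := by
    have := Nat.mul_le_mul hH2 hH1
    have h1' : 1 ≤ H := B1.trans hH2
    nlinarith
  refine ⟨B, y - 2 ^ B ^ A, ?_, by omega, ?_, ?_, ?_⟩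
  · have : (B₀ : ℝ) ≤ B := ((le_max_left _ _).trans a1).trans b1
    exact_mod_cast this
  · rw [rpow_neg v0.le, one_div]
    exact inv_anti₀ (by positivity) b1
  · rw [div_le_iff₀ (by linarith)]
    have e : (2 : ℝ) ^ (y + 1) = 2 ^ (y - 2 ^ B ^ A) * 2 ^ (2 ^ B ^ A + 1) := by
      rw [← pow_add]; congr 1; omega
    refine y2.le.trans (e.le.trans (mul_le_mul_of_nonneg_left ?_ (by positivity)))
    rw [← log_le_log_iff (by positivity) (by linarith), log_pow]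
    have l2 : log 2 ≤ 1 := by have := log_two_lt_d9; linarith
    have c1 : ((2 ^ B ^ A + 1 : ℕ) : ℝ) ≤ H + 1 := by exact_mod_cast Nat.succ_le_succ hH1
    have c0 : (0 : ℝ) ≤ ((2 ^ B ^ A + 1 : ℕ) : ℝ) := by positivity
    nlinarith
  · rw [Nat.sub_add_cancel (by omega)]; exact y1

theorem main_of_core (h : Core) : ∃ κ : ℝ, 0 < κ ∧ ∀ Λ : ℝ → ℝ, Tendsto Λ atTop atTop →
    (∀ T, Λ T ≤ T) → dimH {x : ℝ × ℝ | ∀ T₀ : ℝ, ∃ T, T₀ < T ∧ ∀ T₁, T / Λ T ≤ T₁ → T₁ ≤ T →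
      ¬ Sol x.1 x.2 (log (log (Λ T)) ^ (-κ)) T₁} = 0 := by
  obtain ⟨A, C, hC⟩ := h
  refine ⟨1 / (2 * ((A : ℝ) + 1)), by positivity, fun Λ hΛ hT => ?_⟩
  set E := {x : ℝ × ℝ | ∀ T₀ : ℝ, ∃ T, T₀ < T ∧ ∀ T₁, T / Λ T ≤ T₁ → T₁ ≤ T →
      ¬ Sol x.1 x.2 (log (log (Λ T)) ^ (-(1 / (2 * ((A : ℝ) + 1))))) T₁} with hE
  set E₀ := {x ∈ E | 0 ≤ x.1 ∧ x.1 < 1 ∧ 0 ≤ x.2 ∧ x.2 < 1} with hE₀
  have h0 : dimH E₀ = 0 := by
    refine dim_limsup _ fun δ hδ => ?_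
    choose! F hF1 hF2 using hC
    obtain ⟨B₀, hB₀⟩ := exists_nat_gt (max (C / δ) 2)
    have c2 : (2 : ℝ) < B₀ := (le_max_right _ _).trans_lt hB₀
    have c2' : 2 ≤ B₀ := by exact_mod_cast c2.le
    have c3 : (C : ℝ) ≤ δ * B₀ := by
      have := (le_max_left _ _).trans_lt hB₀
      rw [div_lt_iff₀ hδ] at this
      linarith
    obtain ⟨N, hN⟩ : ∃ N : ℕ, ∀ n : ℕ, N ≤ n → log ((n : ℝ) + 1) ≤ δ / 4 * (n + 1) := by
      have := (isLittleO_log_id_atTop.bound (c := δ / 4) (by positivity))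
      obtain ⟨a, ha⟩ := eventually_atTop.1 this
      obtain ⟨N, hN⟩ := exists_nat_ge a
      refine ⟨N, fun n hn => ?_⟩
      have h1 : (N : ℝ) ≤ n := by exact_mod_cast hn
      have := ha ((n : ℝ) + 1) (by linarith)
      rw [id, Real.norm_eq_abs, Real.norm_eq_abs, abs_of_nonneg (by positivity : (0 : ℝ) ≤ n + 1)] at this
      exact (le_abs_self _).trans this
    refine ⟨fun n => ((range (n + 1)).filter fun B => B₀ ≤ B ∧ B * 2 ^ B ^ A ≤ n / 2).biUnion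
      fun B => F B (n / 2), N + 1, fun n hn => ?_, fun x hx M => ?_⟩
    · have n1 : (1 : ℝ) ≤ n := by exact_mod_cast (by omega : 1 ≤ n)
      have hb : ∀ B ∈ (range (n + 1)).filter fun B => B₀ ≤ B ∧ B * 2 ^ B ^ A ≤ n / 2,
          ((#(F B (n / 2)) : ℕ) : ℝ) ≤ exp (δ / 2 * n) := fun B hB => by
        obtain ⟨-, g1, g2⟩ := mem_filter.1 hB
        have g3 := hF1 B (n / 2) (c2'.trans g1) g2
        have g4 : (B₀ : ℝ) ≤ B := by exact_mod_cast g1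
        have g5 : ((n / 2 : ℕ) : ℝ) ≤ n / 2 := by exact_mod_cast Nat.cast_div_le
        have g6 : (C : ℝ) * ((n / 2 : ℕ) : ℝ) / B ≤ δ / 2 * n := by
          rw [div_le_iff₀ (by linarith)]
          have : (C : ℝ) ≤ δ * B := c3.trans (by gcongr)
          calc (C : ℝ) * ((n / 2 : ℕ) : ℝ) ≤ (δ * B) * (n / 2) := by gcongr
            _ = _ := by ring
        rcases Nat.eq_zero_or_pos (F B (n / 2)).card with h0 | h0
        · rw [h0, Nat.cast_zero]; exact (exp_pos _).le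
        · exact (log_le_iff_le_exp (by exact_mod_cast h0)).1 (g3.trans g6)
      have hc : ((#(((range (n + 1)).filter fun B => B₀ ≤ B ∧ B * 2 ^ B ^ A ≤ n / 2).biUnion
          fun B => F B (n / 2)) : ℕ) : ℝ) ≤ (n + 1) * exp (δ / 2 * n) := by
        refine (Nat.cast_le.2 card_biUnion_le).trans ?_
        push_cast
        refine (sum_le_card_nsmul _ _ _ hb).trans ?_
        rw [nsmul_eq_mul]
        gcongr
        exact_mod_cast (card_filter_le _ _).trans (card_range _).le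
      rcases Nat.eq_zero_or_pos (((range (n + 1)).filter fun B => B₀ ≤ B ∧
        B * 2 ^ B ^ A ≤ n / 2).biUnion fun B => F B (n / 2)).card with h0 | h0
      · rw [h0, Nat.cast_zero, log_zero]; positivity
      · refine (log_le_log (by exact_mod_cast h0) hc).trans ?_
        rw [log_mul (by positivity) (exp_pos _).ne', log_exp]
        have := hN n (by omega)
        nlinarith
    · obtain ⟨L₀, hL⟩ := params A (max B₀ M)
      obtain ⟨T₀, hT₀⟩ := eventually_atTop.1 (hΛ.eventually_ge_atTop L₀)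
      obtain ⟨T, g1, g2⟩ := hx.1 T₀
      obtain ⟨B, y, p1, p2, p3, p4, p5⟩ := hL (Λ T) T (hT₀ T g1.le) (hT T)
      have q1 : B₀ ≤ B := (le_max_left _ _).trans p1
      have q2 : M ≤ B := (le_max_right _ _).trans p1
      have q3 : B ≤ y := (Nat.le_mul_of_pos_right _ (by positivity)).trans p2
      refine ⟨2 * y, by omega, mem_biUnion.2 ⟨B, mem_filter.2 ⟨mem_range.2 (by omega), q1, ?_⟩, ?_⟩⟩
      · rwa [Nat.mul_div_cancel_left _ two_pos]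
      · rw [Nat.mul_div_cancel_left _ two_pos]
        exact hF2 B y (c2'.trans q1) p2 _ _ hx.2.1 hx.2.2.1 hx.2.2.2.1 hx.2.2.2.2
          fun T₁ r1 r2 hs => g2 T₁ (p4.trans r1) (r2.trans p5) (hs.mono p3)
  have hsub : E ⊆ ⋃ z : ℤ × ℤ, (fun x : ℝ × ℝ => x + ((z.1 : ℝ), (z.2 : ℝ))) '' E₀ := fun x hx =>
    Set.mem_iUnion.2 ⟨(⌊x.1⌋, ⌊x.2⌋), (x.1 - ⌊x.1⌋, x.2 - ⌊x.2⌋),
      ⟨fun T₀ => (hx T₀).imp fun T h => ⟨h.1, fun T₁ r1 r2 hs => h.2 T₁ r1 r2 (hs.shift _ _)⟩,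
        Int.fract_nonneg _, Int.fract_lt_one _, Int.fract_nonneg _, Int.fract_lt_one _⟩,
      by ext <;> simp⟩
  refine le_antisymm ((dimH_mono hsub).trans ?_) zero_le
  rw [dimH_iUnion]
  refine iSup_le fun z => ?_
  rw [(isometry_add_right _).dimH_image, h0]

end Pool.Agent.P.MP_e45b92_nt.EL92
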