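import Pool.Agent.P.MP_e45b92_nt.EL.Defs

/-! The statements of the steps. -/

set_option autoImplicit false

namespace Pool.Agent.P.MP_e45b92_nt.EL

open Finset Matrix Real
open Pool.Agent.P.MP_bf60a1_an.RA
open Pool.Agent.P.MP_246241_nt.EK (Vc Mt Gl Bd MI MI_nonneg MI_symm det_unit)

/-! ### Frames -/

-- deps:
def S_INV : Prop := ∀ (b : M3) (B : ℝ), |b.det| = 1 → RB b B → RB b⁻¹ (2 * B ^ 2)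

-- deps: INV
def S_PAIR : Prop :=
  ∀ (x y : Pt) (B : ℕ) (U : Set Pos) (m m' : Pos), x.Ok B U → y.Ok B U → m ∈ U →
    x.rel m m' = y.rel m m' →
    ∀ a b, |kk x y m' a b| * (2 : ℝ) ^ (m b - m' b - (m a - m' a)) ≤ 6 * B ^ 3

-- deps: INV
def S_BACK : Prop :=
  ∀ (x y : Pt) (B : ℕ) (U : Set Pos) (m m' : Pos) (E : ℝ), x.Ok B U → y.Ok B U → m ∈ U →
    (∀ a b, |kk x y m' a b| * (2 : ℝ) ^ (m b - m' b - (m a - m' a)) ≤ E) →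
    RB (cs (x.rel m m' * (y.rel m m')⁻¹)) (18 * B ^ 3 * E)

-- deps: INV
def S_RELB : Prop :=
  ∀ (x : Pt) (B : ℕ) (U : Set Pos) (m m' : Pos) (s : ℕ), x.Ok B U → m ∈ U → m' ∈ U →
    m' ∈ Ball m s → Bd (x.rel m m' : Mt 3) (6 * B ^ 3 * 4 ^ s)

-- deps: BACK
-- imports: Pool.Agent.P.MP_246241_nt.EK.TBOX
def S_FWD : Prop :=
  ∀ (Ω τ : Type) [Fintype Ω] (P : FP Ω) (x : Ω → Pt) (B : ℕ) (U : Set Pos) (T : Ω → τ)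
    (R : List Pos) (m₀ : Pos) (E : ℝ), Sys P x B U → In R U → 1 ≤ B → 1 ≤ E →
    (∀ ω ω', 0 < P.p ω → 0 < P.p ω' → T ω = T ω' → ∀ m ∈ R, ∀ a b,
      |kk (x ω) (x ω') m₀ a b| * (2 : ℝ) ^ (m b - m₀ b - (m a - m₀ a)) ≤ E) →
    P.Hc (fun ω => (x ω).V R) T ≤ 9 * R.length * log (37 * B ^ 3 * E)

-- deps: PAIR FWD
def S_CAL : Prop :=
  ∃ a : ℕ, ∀ (Ω : Type) [Fintype Ω] (P : FP Ω) (x : Ω → Pt) (B : ℕ) (U : Set Pos), 2 ≤ B →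
    Sys P x B U → Cal U (B ^ a) fun R => P.H fun ω => (x ω).V R

-- deps: RELB
-- imports: Pool.Agent.P.MP_246241_nt.EK.TBOX
def S_SIZE : Prop :=
  ∃ c : ℝ, 1 ≤ c ∧ ∀ (Ω : Type) [Fintype Ω] (P : FP Ω) (x : Ω → Pt) (B : ℕ) (U : Set Pos)
    (R : List Pos) (Q : Pos) (s : ℕ), 2 ≤ B → Sys P x B U → R.length ≤ 5 → In R U →
    In R (Ball Q s) → (P.H fun ω => (x ω).V R) ≤ c * (s + B)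

-- deps:
def S_SPLIT : Prop :=
  ∀ (Ω α β : Type) [Fintype Ω] (P : FP Ω) (E E₁ E₂ : Ω → Prop) (Z : Ω → α) (Z' : Ω → β),
    (∀ ω, E ω ↔ E₁ ω ∨ E₂ ω) → (∀ ω, E₁ ω → ¬ E₂ ω) →
    pH P E Z ≤ pH P E₁ Z + pH P E₂ Z + 1 ∧ pH P E₁ Z + pH P E₂ Z ≤ pH P E Z ∧
      (P.Det Z' Z → pH P E₁ Z' - pH P E₁ Z + (pH P E₂ Z' - pH P E₂ Z) ≤ pH P E Z' - pH P E Z)

-- deps: CAL SIZE SPLIT
def S_FAM : Prop :=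
  ∃ (a : ℕ) (c : ℝ), 1 ≤ c ∧ ∀ (Ω : Type) [Fintype Ω] (P : FP Ω) (x : Ω → Pt) (B : ℕ)
    (U : Set Pos), 2 ≤ B → Sys P x B U → Fam P U B (B ^ a) c (ps P x)

/-! ### The Liouville step -/

-- deps: INV
def S_FAR : Prop :=
  ∀ (x : Pt) (B : ℕ) (U : Set Pos) (w : Vc 3) (m : Pos) (l : Fin 3) (s : ℕ) (E : ℝ), x.Ok B U →
    w ≠ 0 → m + ee l (3 * s) ∈ U → (∀ j, j ≠ l → |lv x w m j| ≤ E) → 6 * B ^ 2 * E < 2 ^ s →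
    6 * (B : ℝ) ^ 2 ≤ 2 ^ s → 1 / 2 ^ (3 * s) ≤ |lv x w m l|

-- deps: PAIR
def S_EIGV : Prop :=
  ∀ (x y : Pt) (B : ℕ) (U : Set Pos) (Q Q' : Pos) (l : Fin 3) (s L : ℕ), x.Ok B U → y.Ok B U →
    Q ∈ U → Q' ∈ U → Q + ee l L ∈ U → Q' + ee l L ∈ U → Q' ∈ Ball Q s →
    x.rel (Q + ee l L) Q = y.rel (Q + ee l L) Q → x.rel (Q' + ee l L) Q' = y.rel (Q' + ee l L) Q' →
    ∃ μ : ℝ, ∀ i, |∑ j, cs ((x.rel Q' Q)⁻¹ * y.rel Q' Q) i j * x.b Q j l - μ * x.b Q i l| ≤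
      216 * B ^ 7 * 4 ^ s / 2 ^ L

-- deps: RELB FAR EIGV
-- imports: Pool.Agent.P.MP_e45b92_nt.EL.RFib
def S_FIB : Prop :=
  ∃ C₀ A : ℕ, ∀ (Ω : Type) [Fintype Ω] (P : FP Ω) (x : Ω → Pt) (B : ℕ) (U : Set Pos) (Q Q' : Pos)
    (l : Fin 3) (s L : ℕ), 2 ≤ B → Sys P x B U → B ^ A ≤ s → C₀ * s ≤ L → Q' ∈ Ball Q s →
    Ball Q (s + L) ⊆ U →
    (P.H fun ω => (x ω).V [Q, Q']) ≤ (P.H fun ω => (x ω).V [Q, Q + ee l L]) +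
      (P.H fun ω => (x ω).V [Q', Q' + ee l L]) + s / B

/-! ### Coordinates in a chamber -/

-- deps:
def S_DIAG : Prop :=
  ∀ (h : M3) (i j k : Fin 3) (G δ : ℝ), Tri i j k → |h.det| = 1 → RB h G → |h j i| ≤ δ →
    |h k i| ≤ δ → |h k j| ≤ δ → 10 * G ^ 2 * δ ≤ 1 → ∀ a, 1 ≤ 2 * G ^ 2 * |h a a|

-- deps:
def S_ALG : Prop :=
  ∀ (h h' κ : M3) (i j k : Fin 3) (G δ : ℝ), Tri i j k → h * κ = h' → 1 ≤ G → RB h G → RB κ G →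
    (∀ a, 1 ≤ G * |h a a| ∧ 1 ≤ G * |h' a a|) → |h j i| ≤ δ → |h k i| ≤ δ → |h k j| ≤ δ →
    |κ j i| ≤ δ → |κ k i| ≤ δ → |κ k j| ≤ δ →
    Ap κ i j k (5 * G ^ 6 * δ) (h' i j / h' j j - h i j / h j j) (h' j k / h' k k - h j k / h k k)
      (h' i k / h' k k - h i k / h k k - h i j / h j j * (h' j k / h' k k - h j k / h k k))
      (fun a => h a a) fun a => h' a a

-- deps: PAIR DIAG ALG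
def S_KF : Prop :=
  ∃ a : ℕ, ∀ (Ω : Type) [Fintype Ω] (P : FP Ω) (x : Ω → Pt) (B w : ℕ) (U : Set Pos) (P₀ : Pos)
    (i j k : Fin 3), 2 ≤ B → Tri i j k → Sys P x B U → In (WW i k P₀ w) U →
    B ^ a ≤ 2 ^ (20 * w) → ∃ (X Y Z : Ω → ℝ) (D : Ω → Fin 3 → ℝ),
      Co P x (WW i k P₀ w) P₀ i j k (B ^ a) (B ^ a / 2 ^ (20 * w)) X Y Z D

-- deps:
def S_STRAD : Prop :=
  ∀ (Ω : Type) [Fintype Ω] (P : FP Ω) (X : Ω → ℝ) (q n : ℕ), Odd q →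
    ∃ u : ℝ, |u| ≤ 1 ∧ (P.E fun ω => cnt n fun d => near q d (X ω + u)) ≤ n / q

-- deps: PAIR FWD
def S_CF : Prop :=
  ∀ a : ℕ, ∃ a' : ℕ, ∀ (Ω : Type) [Fintype Ω] (P : FP Ω) (x : Ω → Pt) (B t : ℕ) (U : Set Pos)
    (R : List Pos) (P₀ : Pos) (i j k : Fin 3) (ε : ℝ) (X Y Z : Ω → ℝ) (D : Ω → Fin 3 → ℝ),
    2 ≤ B → Tri i j k → Sys P x B U → In R U → P₀ ∈ R → R.length ≤ 3 →
    Co P x R P₀ i j k (B ^ a) ε X Y Z D → ε * 2 ^ t ≤ 1 →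
    (P₀ + ee j t ∈ U → P.Hc (fun ω => (x ω).V ((P₀ + ee j t) :: R))
      (fun ω => (dig (X ω) t, (x ω).V R)) ≤ B ^ a') ∧
    (P₀ - ee j t ∈ U → P.Hc (fun ω => (x ω).V ((P₀ - ee j t) :: R))
      (fun ω => (dig (Y ω) t, (x ω).V R)) ≤ B ^ a')

-- deps: PAIR
def S_CB : Prop :=
  ∀ a : ℕ, ∃ a' : ℕ, ∀ (Ω : Type) [Fintype Ω] (P : FP Ω) (x : Ω → Pt) (B t : ℕ) (U : Set Pos)
    (R : List Pos) (P₀ : Pos) (i j k : Fin 3) (ε : ℝ) (X Y Z : Ω → ℝ) (D : Ω → Fin 3 → ℝ),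
    2 ≤ B → Tri i j k → Sys P x B U → P₀ ∈ R →
    Co P x R P₀ i j k (B ^ a) ε X Y Z D → ε * 2 ^ t ≤ 1 →
    (P₀ + ee j t ∈ U → P.Hc (fun ω => dig (X ω) t)
      (fun ω => (x ω).V ((P₀ + ee j t) :: R)) ≤ B ^ a') ∧
    (P₀ - ee j t ∈ U → P.Hc (fun ω => dig (Y ω) t)
      (fun ω => (x ω).V ((P₀ - ee j t) :: R)) ≤ B ^ a') ∧
    (P₀ - ee i t ∈ U → P.Hc (fun ω => (dig (X ω) t, dig (Z ω - X ω * Y ω) t))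
      (fun ω => (x ω).V ((P₀ - ee i t) :: R)) ≤ B ^ a') ∧
    (P₀ + ee k t ∈ U → P.Hc (fun ω => (dig (Y ω) t, dig (Z ω) t))
      (fun ω => (x ω).V ((P₀ + ee k t) :: R)) ≤ B ^ a')

-- deps: INV FAR
def S_PORV : Prop :=
  ∀ (x : Pt) (B : ℕ) (U : Set Pos) (P₀ o : Pos) (i k : Fin 3) (s : ℕ), x.Ok B U → P₀ + o ∈ U →
    P₀ + o + ee k (3 * s) ∈ U → 6 * (B : ℝ) ^ 2 ≤ 2 ^ s →
    ∃ v : Fin 3 → ℝ, (∀ b, |v b| ≤ B) ∧ 1 ≤ 6 * B ^ 2 * |v i| ∧ ∀ (y : Pt) (E : ℝ), y.Ok B U →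
      (∀ b, b ≠ k → |∑ c, v c * kk x y P₀ c b * (2 : ℝ) ^ (o b - o c)| ≤ E) →
      6 * B ^ 2 * E < 2 ^ s → 1 / 2 ^ (3 * s) ≤ |∑ c, v c * kk x y P₀ c k * (2 : ℝ) ^ (o k - o c)|

-- deps: PAIR PORV
def S_POR : Prop :=
  ∀ a : ℕ, ∃ a' : ℕ, ∀ (Ω : Type) [Fintype Ω] (P : FP Ω) (x : Ω → Pt) (B n d₁ d₂ : ℕ)
    (U : Set Pos) (R : List Pos) (P₀ : Pos) (i j k : Fin 3) (ε : ℝ) (X Y Z : Ω → ℝ)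
    (D : Ω → Fin 3 → ℝ), 2 ≤ B → Tri i j k → Sys P x B U → Ball P₀ (3 * n) ⊆ U →
    Co P x R P₀ i j k (B ^ a) ε X Y Z D → B ^ a' ≤ n → ε * 2 ^ (4 * n) ≤ 1 → d₁ ≤ n → d₂ ≤ n →
    Por P (fun ω => (x ω).V R) X Y Z (B ^ a') d₁ d₂

/-! ### High entropy -/

-- deps:
-- imports: Pool.Agent.P.MP_246241_nt.EK.TPINS
def S_LOC : Prop :=
  ∀ (Ω α β : Type) [Fintype Ω] (P : FP Ω) (A : Ω → α) (B : Ω → β) (x y z z' : Ω → ℝ) (ρ e : ℝ)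
    (K : ℕ), 0 < ρ → ρ ≤ 1 → 2 * e < K * ρ ^ 2 →
    (∀ ω, 0 < P.p ω → 0 ≤ x ω ∧ x ω ≤ 1 ∧ 0 ≤ y ω ∧ y ω ≤ 1 ∧
      |z' ω - z ω - x ω * y ω| ≤ ρ ^ 2 / 8) →
    (∀ ω, 0 < P.p ω → ∃ τ, |τ| ≤ e ∧ ∀ ω', 0 < P.p ω' → A ω' = A ω → B ω' = B ω → x ω' = x ω →
      1 ≤ |z ω' - z ω - τ|) →
    (P.pr fun ω => Iso P A x ρ ω ∧ Iso P B y ρ ω) ≤ (64 * K + 2) *
      (√(MI P y (fun ω => (A ω, x ω, z ω)) B) + √(MI P x (fun ω => (B ω, y ω, z' ω)) A))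

-- deps:
def S_MISS : Prop :=
  ∀ (Ω κ : Type) [Fintype Ω] (P : FP Ω) (W : Ω → κ) (X : Ω → ℝ) (d m : ℕ) (ρ : ℝ) (ω : Ω),
    1 ≤ 2 ^ m * ρ → MF P W X ρ d ω →
    Iso P (fun ω => (dig (X ω) d, W ω)) (fun ω => tr (X ω) d m) ρ ω

-- deps: LOC MISS
def S_DLOC : Prop :=
  ∀ (Ω κ : Type) [Fintype Ω] (P : FP Ω) (W : Ω → κ) (X Y Z : Ω → ℝ) (d₁ d₂ m l K : ℕ) (e ρ : ℝ),
    0 < ρ → ρ ≤ 1 → 2 * e < K * ρ ^ 2 → d₁ + m ≤ l → d₂ + m ≤ l → 32 ≤ 2 ^ m * ρ ^ 2 →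
    32 * (e + 2) * 2 ^ (d₁ + d₂) ≤ 2 ^ l * ρ ^ 2 → (∀ ω, 0 < P.p ω → |X ω| ≤ e ∧ |Y ω| ≤ e) →
    Por P W X Y Z e d₁ d₂ →
    (P.pr fun ω => MF P W X ρ d₁ ω ∧ MF P W Y ρ d₂ ω) ≤ (64 * K + 2) *
      (√(MI P (fun ω => dig (Y ω) (d₂ + m)) (fun ω => (dig (X ω) l, dig (Z ω - X ω * Y ω) l))
          fun ω => (dig (Y ω) d₂, W ω)) +
        √(MI P (fun ω => dig (X ω) (d₁ + m)) (fun ω => (dig (Y ω) l, dig (Z ω) l))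
          fun ω => (dig (X ω) d₁, W ω)))

-- deps: DLOC
-- imports: Pool.Agent.P.MP_246241_nt.EK.TOVER
def S_AVG : Prop :=
  ∀ (Ω κ : Type) [Fintype Ω] (P : FP Ω) (W : Ω → κ) (X Y Z : Ω → ℝ) (n m K : ℕ) (e ρ s θ : ℝ),
    0 < ρ → ρ ≤ 1 → 2 * e < K * ρ ^ 2 → 0 < s → 0 < θ → 0 < n → m ≤ n → 32 ≤ 2 ^ m * ρ ^ 2 →
    32 * (e + 2) ≤ 2 ^ (2 * n) * ρ ^ 2 → (∀ ω, 0 < P.p ω → |X ω| ≤ e ∧ |Y ω| ≤ e) →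
    (∀ d₁ < n, ∀ d₂ < n, Por P W X Y Z e d₁ d₂) →
    (P.pr fun ω => θ * n ≤ (cnt n fun d => MF P W X ρ d ω) ∧
        θ * n ≤ cnt n fun d => MF P W Y ρ d ω) ≤
      (64 * K + 2) / θ ^ 2 * (s + m * (JI P W X Y Z n (4 * n) +
        JI P W Y X (fun ω => Z ω - X ω * Y ω) n (4 * n) + 2 * m) / (s * n))

-- deps: AVG
def S_HIGH : Prop :=
  ∀ a : ℕ, ∃ A : ℕ, ∀ (Ω κ : Type) [Fintype Ω] (P : FP Ω) (W : Ω → κ) (X Y Z : Ω → ℝ) (B n : ℕ),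
    2 ≤ B → B ^ A ≤ n → (∀ ω, 0 < P.p ω → |X ω| ≤ B ^ a ∧ |Y ω| ≤ B ^ a) →
    (∀ d₁ < n, ∀ d₂ < n, Por P W X Y Z (B ^ a) d₁ d₂) →
    (P.E fun ω => cnt n fun d => near (128 * B ^ 3 + 1) d (X ω)) ≤ n / (128 * B ^ 3 + 1 : ℕ) →
    (P.E fun ω => cnt n fun d => near (128 * B ^ 3 + 1) d (Y ω)) ≤ n / (128 * B ^ 3 + 1 : ℕ) →
    (P.pr fun ω => ¬ GG P W X B n ω ∧ ¬ GG P W Y B n ω) ≤ 1 / B + B ^ A *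
      (JI P W X Y Z n (4 * n) + JI P W Y X (fun ω => Z ω - X ω * Y ω) n (4 * n)) / n

-- deps:
def S_PRED : Prop :=
  ∀ (Ω κ : Type) [Fintype Ω] (P : FP Ω) (W : Ω → κ) (X : Ω → ℝ) (E : Ω → Prop) (B n : ℕ) (e : ℝ),
    1 ≤ B → 0 < P.pr E → (∀ ω, 0 < P.p ω → |X ω| ≤ e) → (∀ ω, E ω → GG P W X B n ω) →
    (P.cond E).Hc (fun ω => dig (X ω) n) W ≤ n / B + log (2 * e + 3)

-- deps:
def S_JB : Prop :=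
  ∀ (Ω α β γ : Type) [Fintype Ω] (P : FP Ω) (T : Ω → α) (Γ : Ω → β) (W A B₀ B₁ : Ω → γ) (e : ℝ),
    P.Det A W → P.Det B₀ W → P.Det B₁ B₀ → P.Det (fun ω => (A ω, B₀ ω)) B₁ →
    P.Hc A (fun ω => (T ω, W ω)) ≤ e →
    P.H B₁ - P.H B₀ ≤ P.Hc T W + e ∧ (P.Hc T A ≤ e → P.Hc Γ B₀ ≤ e →
      MI P T Γ W ≤ P.H A - P.H W - (P.H B₁ - P.H B₀) + 3 * e)

-- deps: CF CB POR HIGH JB
def S_HIA : Prop :=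
  ∀ a : ℕ, ∃ A A' : ℕ, ∀ (Ω : Type) [Fintype Ω] (P : FP Ω) (x : Ω → Pt) (B w : ℕ) (P₀ : Pos)
    (i j k : Fin 3) (ε : ℝ) (X Y Z : Ω → ℝ) (D : Ω → Fin 3 → ℝ), 2 ≤ B → Tri i j k → B ^ A' ≤ w →
    Sys P x B (Ball P₀ (60 * w)) → Co P x (WW i k P₀ w) P₀ i j k (B ^ a) ε X Y Z D →
    ε * 2 ^ (12 * w) ≤ 1 →
    (P.E fun ω => cnt (3 * w) fun d => near (128 * B ^ 3 + 1) d (X ω)) ≤
      (3 * w : ℕ) / (128 * B ^ 3 + 1 : ℕ) →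
    (P.E fun ω => cnt (3 * w) fun d => near (128 * B ^ 3 + 1) d (Y ω)) ≤
      (3 * w : ℕ) / (128 * B ^ 3 + 1 : ℕ) →
    (P.pr fun ω => ¬ GG P (fun ω => (x ω).V (WW i k P₀ w)) X B (3 * w) ω ∧
        ¬ GG P (fun ω => (x ω).V (WW i k P₀ w)) Y B (3 * w) ω) ≤ 2 / B + B ^ A *
      (JJ (ps P x fun _ => True) (AX i j k P₀ w) (BX i j k P₀ w) (3 * w) +
        JJ (ps P x fun _ => True) (AY i j k P₀ w) (BY i j k P₀ w) (3 * w)) / (3 * w)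

-- deps: CF PRED JB
def S_HIB : Prop :=
  ∀ a : ℕ, ∃ A : ℕ, ∀ (Ω : Type) [Fintype Ω] (P : FP Ω) (x : Ω → Pt) (B w : ℕ) (P₀ : Pos)
    (i j k : Fin 3) (ε : ℝ) (X Y Z : Ω → ℝ) (D : Ω → Fin 3 → ℝ) (E : Ω → Prop), 2 ≤ B →
    Tri i j k → B ^ A ≤ w → Sys P x B (Ball P₀ (60 * w)) →
    Co P x (WW i k P₀ w) P₀ i j k (B ^ a) ε X Y Z D → ε * 2 ^ (12 * w) ≤ 1 →
    ((∀ ω, E ω → GG P (fun ω => (x ω).V (WW i k P₀ w)) X B (3 * w) ω) →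
      ps P x E (BX i j k P₀ w (3 * w)) - ps P x E (BX i j k P₀ w 0) ≤ 6 * w / B) ∧
    ((∀ ω, E ω → GG P (fun ω => (x ω).V (WW i k P₀ w)) Y B (3 * w) ω) →
      ps P x E (BY i j k P₀ w (3 * w)) - ps P x E (BY i j k P₀ w 0) ≤ 6 * w / B)

-- deps: KF STRAD HIA HIB
def S_HI : Prop :=
  ∃ A A' : ℕ, ∀ (Ω : Type) [Fintype Ω] (P : FP Ω) (x : Ω → Pt) (B w : ℕ) (P₀ : Pos)
    (i j k : Fin 3), 2 ≤ B → Tri i j k → B ^ A' ≤ w → Sys P x B (Ball P₀ (60 * w)) →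
    Hi P (ps P x) i j k P₀ w B (B ^ A)

/-! ### The calculus of hulls -/

-- deps:
def S_DD : Prop :=
  ∀ (U : Set Pos) (e : ℝ) (ψ : List Pos → ℝ) (i j : Fin 3) (M M' L ρ : ℤ) (Q : Pos), Cal U e ψ →
    (∀ R, 0 ≤ ψ R) → Ball Q ρ ⊆ U → 0 ≤ L → L ≤ ρ → 0 ≤ M → M ≤ M' → M' ≤ ρ →
    -e ≤ dd ψ i j M L Q ∧ dd ψ i j M L Q ≤ ψ [Q - ee j L, Q] + e ∧
      dd ψ i j M' L Q ≤ dd ψ i j M L Q + e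

-- deps:
def S_STX : Prop :=
  ∀ (e : ℝ) (ψ : List Pos → ℝ) (i j k : Fin 3) (P₀ : Pos) (w : ℕ) (M L t : ℤ), Tri i j k →
    Cal (Ball P₀ (60 * w)) e ψ → 0 ≤ L → L ≤ M → M ≤ w → 0 ≤ t → t + L ≤ 3 * w →
    ψ (AX i j k P₀ w (t + L)) - ψ (AX i j k P₀ w t) ≤ dd ψ k i M L (P₀ - ee k M + ee j t) + e ∧
    ∀ Q ∈ Ball P₀ (4 * w), Q j - Q i = P₀ j - P₀ i →
      dd ψ k i (40 * w) L (Q + ee j t) ≤ ψ (BX i j k P₀ w (t + L)) - ψ (BX i j k P₀ w t) + e ∧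
      ψ (BX i j k P₀ w (t + L)) - ψ (BX i j k P₀ w t) ≤ dd ψ k i M L (Q + ee j t) + e

-- deps:
def S_STY : Prop :=
  ∀ (e : ℝ) (ψ : List Pos → ℝ) (i j k : Fin 3) (P₀ : Pos) (w : ℕ) (M L t : ℤ), Tri i j k →
    Cal (Ball P₀ (60 * w)) e ψ → 0 ≤ L → L ≤ M → M ≤ w → 0 ≤ t → t + L ≤ 3 * w →
    ψ (AY i j k P₀ w (t + L)) - ψ (AY i j k P₀ w t) ≤
      dd ψ i j M L (P₀ + ee i (M + 3 * w) + ee k t) + e ∧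
    ∀ Q ∈ Ball P₀ (4 * w), Q k - Q j = P₀ k - P₀ j →
      dd ψ i j (40 * w) L (Q + ee k t) ≤ ψ (BY i j k P₀ w (t + L)) - ψ (BY i j k P₀ w t) + e ∧
      ψ (BY i j k P₀ w (t + L)) - ψ (BY i j k P₀ w t) ≤ dd ψ i j M L (Q + ee k t) + e

-- deps: STX STY
def S_ROOT : Prop :=
  ∀ (Ω : Type) [Fintype Ω] (P : FP Ω) (ψ : (Ω → Prop) → List Pos → ℝ) (D : Pos → ℝ)
    (i j k : Fin 3) (P₀ : Pos) (w M L N : ℕ) (B e c β : ℝ), Tri i j k →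
    Fam P (Ball P₀ (60 * w)) B e c ψ → 0 ≤ β → L ≤ M → M ≤ w → N * L = 3 * w →
    Hi P ψ i j k P₀ w B β →
    (∀ a b, ∀ Q ∈ Ball P₀ (7 * w), dd (ψ fun _ => True) a b M L Q -
      dd (ψ fun _ => True) a b (40 * w) L Q + e ≤ D Q) →
    ∃ GX GY : Ω → Prop, (P.pr fun ω => ¬ GX ω ∧ ¬ GY ω) ≤ 2 / B + β *
        (CS D L N (P₀ - ee k M) j + CS D L N (P₀ + ee i (M + 3 * w)) k + 2 * N * e) / (3 * w) ∧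
      (∀ Q ∈ Ball P₀ (4 * w), Q j - Q i = P₀ j - P₀ i →
        Small ψ GX i j k M L N Q (6 * w / B + CS D L N Q j + N * e + 1)) ∧
      ∀ Q ∈ Ball P₀ (4 * w), Q k - Q j = P₀ k - P₀ j →
        Small ψ GY j k i M L N Q (6 * w / B + CS D L N Q k + N * e + 1)

-- deps: DD
def S_TUBE : Prop :=
  ∀ (e σ : ℝ) (ψ : List Pos → ℝ) (i j k : Fin 3) (P Q : Pos) (w s M L N N' : ℕ), Tri i j k →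
    Cal (Ball P (100 * w)) e ψ → (∀ R, 0 ≤ ψ R) → 0 ≤ e → 0 < L → L ≤ M → M ≤ s →
    N' * L + 2 * s = w → N * L = 3 * w → L ∣ w → Q ∈ Ball P s → (∀ a, (L : ℤ) ∣ Q a - P a) →
    CS (dd ψ j i M L) L N (Tb P Q i k j M w) k ≤ σ →
    CS (dd ψ i j M L) L N (Tb P Q j k i M w) k ≤ σ →
    ψ [Q, Q + ee k (N' * L)] ≤ ψ [Q, Q + ee i (2 * M), Q + ee j (2 * M)] + 2 * σ + 5 * N * e

-- deps: ROOT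
def S_GRA : Prop :=
  ∀ (Ω : Type) [Fintype Ω] (P : FP Ω) (ψ : (Ω → Prop) → List Pos → ℝ) (D : Pos → ℝ)
    (Q Q' : Pos) (w s M L N : ℕ) (B e c β S : ℝ), Fam P (Ball Q (100 * w)) B e c ψ → 0 ≤ β →
    L ≤ M → M ≤ s → 2 * s ≤ w → N * L = 3 * w → Q' ∈ Ball Q s →
    (∀ i j k, Tri i j k → Hi P ψ i j k (ctr Q j k w) w B β) →
    (∀ a b, ∀ m ∈ Ball Q (10 * w), dd (ψ fun _ => True) a b M L m -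
      dd (ψ fun _ => True) a b (40 * w) L m + e ≤ D m) →
    (∀ i j k, Tri i j k → CS D L N (ctr Q j k w - ee k M) j ≤ S ∧
      CS D L N (ctr Q j k w + ee i (M + 3 * w)) k ≤ S ∧ CS D L N (Tb Q Q i j k M w) j ≤ S ∧
      CS D L N (Tb Q Q' i j k M w) j ≤ S) →
    ∃ G : Fin 3 → Fin 3 → Ω → Prop,
      (P.pr fun ω => ¬ ∃ k, ∀ a, a ≠ k → G a k ω) ≤ 12 / B + 12 * β * (S + N * e) / (3 * w) ∧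
      ∀ a b c, Tri a b c →
        Small ψ (G a b) a b c M L N (Tb Q Q a b c M w) (2 * (6 * w / B + S + N * e + 1) + N) ∧
        Small ψ (G a b) a b c M L N (Tb Q Q' a b c M w) (2 * (6 * w / B + S + N * e + 1) + N)

-- deps: TUBE
def S_GRB : Prop :=
  ∀ (Ω : Type) [Fintype Ω] (P : FP Ω) (ψ : (Ω → Prop) → List Pos → ℝ)
    (G : Fin 3 → Fin 3 → Ω → Prop) (Q Q' : Pos) (w s M L N N' : ℕ) (B e c σ δ : ℝ),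
    Fam P (Ball Q (100 * w)) B e c ψ → 0 ≤ B → 0 ≤ e → 0 ≤ c → 0 < L → L ≤ M → M ≤ s →
    N' * L + 2 * s = w → N * L = 3 * w → L ∣ w → Q' ∈ Ball Q s → (∀ a, (L : ℤ) ∣ Q' a - Q a) →
    (∀ E l, ψ E [Q, Q'] ≤ ψ E [Q, Q + ee l (N' * L)] + ψ E [Q', Q' + ee l (N' * L)] + δ) →
    (∀ a b c, Tri a b c → Small ψ (G a b) a b c M L N (Tb Q Q a b c M w) σ ∧
      Small ψ (G a b) a b c M L N (Tb Q Q' a b c M w) σ) →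
    ψ (fun _ => True) [Q, Q'] ≤ 3 * (2 * (c * (2 * M + B) + 2 * σ + 5 * N * e) + δ) + 3 +
      c * (s + B) * P.pr fun ω => ¬ ∃ k, ∀ a, a ≠ k → G a k ω

-- deps: GRA GRB
def S_GRAPH : Prop :=
  ∀ (Ω : Type) [Fintype Ω] (P : FP Ω) (ψ : (Ω → Prop) → List Pos → ℝ) (D : Pos → ℝ)
    (Q Q' : Pos) (B C₁ w M L N N' : ℕ) (e c β S : ℝ), Fam P (Ball Q (100 * w)) B e c ψ →
    1 ≤ e → 1 ≤ c → 1 ≤ β → 0 ≤ S → 2 ≤ B → B ≤ M → 0 < L → L ≤ M → w = C₁ * (B * M) →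
    N' * L + 2 * (B * M) = w → N * L = 3 * w → L ∣ w → β * e * N ≤ M →
    Q' ∈ Ball Q (B * M : ℕ) → (∀ a, (L : ℤ) ∣ Q' a - Q a) →
    (∀ E l, ψ E [Q, Q'] ≤ ψ E [Q, Q + ee l (N' * L)] + ψ E [Q', Q' + ee l (N' * L)] + M) →
    (∀ i j k, Tri i j k → Hi P ψ i j k (ctr Q j k w) w B β) →
    (∀ a b, ∀ m ∈ Ball Q (10 * w), dd (ψ fun _ => True) a b M L m -
      dd (ψ fun _ => True) a b (40 * w) L m + e ≤ D m) →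
    (∀ i j k, Tri i j k → CS D L N (ctr Q j k w - ee k M) j ≤ S ∧
      CS D L N (ctr Q j k w + ee i (M + 3 * w)) k ≤ S ∧ CS D L N (Tb Q Q i j k M w) j ≤ S ∧
      CS D L N (Tb Q Q' i j k M w) j ≤ S) →
    ψ (fun _ => True) [Q, Q'] ≤ 500 * c * C₁ * M + 40 * c * β * S

-- deps: FIB HI DD GRAPH
def S_ONE : Prop :=
  ∀ (a : ℕ) (c : ℝ), 1 ≤ c → ∃ (C₁ A : ℕ) (C : ℝ), 1 ≤ C₁ ∧ 1 ≤ C ∧ ∀ B L M : ℕ, 2 ≤ B →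
    B ^ A ≤ L → L ∣ M → 0 < M → ∃ (T : Finset Ix) (o : Ix → Pos), (#T : ℝ) * L ≤ C * (B * M) ∧
      (∀ t ∈ T, o t ∈ Ball 0 (10 * (C₁ * (B * M) : ℕ))) ∧
      ∀ (Ω : Type) [Fintype Ω] (P : FP Ω) (x : Ω → Pt) (Q : Pos),
        Sys P x B (Ball Q (100 * (C₁ * (B * M) : ℕ))) →
        Fam P (Ball Q (100 * (C₁ * (B * M) : ℕ))) B (B ^ a) c (ps P x) →
        ps P x (fun _ => True) [Q, Q + ee 1 (B * M : ℕ) - ee 2 (B * M : ℕ)] ≤ C * M + B ^ A *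
          ∑ t ∈ T, Dt (ps P x fun _ => True) (B ^ a) M (40 * (C₁ * (B * M) : ℕ)) L (Q + o t)

/-! ### Scales -/

-- deps: DD
def S_DT : Prop :=
  ∀ (U : Set Pos) (e γ : ℝ) (ψ : List Pos → ℝ) (M : ℕ → ℕ) (L r : ℕ) (Q : Pos), Cal U e ψ →
    (∀ R, 0 ≤ ψ R) → Monotone M → L ≤ M 0 → Ball Q (M r) ⊆ U → (∀ j, ψ [Q - ee j L, Q] ≤ γ) →
    (∀ s < r, 0 ≤ Dt ψ e (M s) (M (s + 1)) L Q) ∧
      ∑ s ∈ range r, Dt ψ e (M s) (M (s + 1)) L Q ≤ 9 * (γ + 2 * e + r * e)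

-- deps:
def S_SCALE : Prop :=
  ∀ (r n l : ℕ) (k : ℕ → ℕ) (h : Pos → ℝ) (D : ℕ → Pos → ℝ) (T : ℕ → Finset Ix)
    (o : ℕ → Ix → Pos) (c : Pos) (β Γ τ δ lo hi : ℝ), 0 < r → l ≤ n → 0 ≤ β → 0 ≤ τ →
    (∀ s < r, 1 ≤ k s ∧ k s ≤ l ∧ (#(T s) : ℝ) ≤ τ * k s ∧ ∀ t ∈ T s, o s t ∈ Ball 0 l) →
    (∀ y : Pos, (∀ a, c a - l ≤ y a) → y 0 ≤ c 0 + 2 * l → y 1 ≤ c 1 + n + l → y 2 ≤ c 2 + 2 * l →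
      (∀ s < r, 0 ≤ D s y) ∧ ∑ s ∈ range r, D s y ≤ Γ) →
    (∀ y : Pos, (∀ a, c a ≤ y a) → y 0 ≤ c 0 + l → y 1 ≤ c 1 + n + l → y 2 ≤ c 2 + l →
      (y 1 ≤ c 1 + l → h y ≤ lo) ∧ (c 1 + n ≤ y 1 → hi ≤ h y) ∧ (y 1 ≤ c 1 + n → ∀ s < r,
        h (y + ee 1 (k s)) ≤ h y + δ * k s + β * ∑ t ∈ T s, D s (y + o s t))) →
    hi - lo ≤ n * (δ + 27 * β * τ * Γ / r)

-- deps:
def S_NUM : Prop :=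
  ∀ (a A C₁ : ℕ) (c C : ℝ), 0 ≤ c → 0 ≤ C → ∃ A' : ℕ, ∀ B : ℕ, 2 ≤ B → ∃ L r : ℕ, B ^ A ≤ L ∧
    B ≤ L ∧ 0 < r ∧ 100 * (C₁ * (B * (L * (40 * C₁ * B) ^ r))) ≤ 2 ^ B ^ A' ∧
    27 * (B : ℝ) ^ A * (C / L) * (9 * (c * (L + B) + 2 * B ^ a + r * B ^ a)) / r ≤ 1 / B

-- deps: FAM ONE DT SCALE NUM
def S_ENT : Prop :=
  ∃ (A : ℕ) (C : ℝ), 0 ≤ C ∧ ∀ B : ℕ, 2 ≤ B → ∃ l : ℕ, 4 * B ≤ l ∧ l ≤ 2 ^ B ^ A ∧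
    ∀ (x₀ : ℕ) (Ω : Type) [Fintype Ω] (P : FP Ω) (x : Ω → Pt), Sys P x B (Reg x₀ (x₀ + 6 * l)) →
      (P.H fun ω => (x ω).V (cor x₀ (x₀ + 6 * l))) ≤ C * x₀ / B + C * l

/-! ### Dimension -/

-- deps: PAIR
-- imports: Pool.Agent.P.MP_e45b92_nt.EL.Cover
def S_ANCH : Prop :=
  ∀ (Ω : Type) [Fintype Ω] (P : FP Ω) (x : Ω → Pt) (α β : Ω → ℝ) (B x₀ x₁ : ℕ) (ε : ℝ)
    (z : ℤ × ℤ), 1 ≤ B → x₀ ≤ x₁ → Sys P x B (Reg x₀ x₁) →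
    216 * (B : ℝ) ^ 9 * 2 ^ x₀ < ε * 2 ^ x₁ → ε ≤ 1 →
    (∀ ω, 0 < P.p ω → (x ω).Λ = Lam (α ω) (β ω) ∧ (⌊α ω⌋, ⌊β ω⌋) = z ∧
      ¬ Sv (α ω) (β ω) ε (6 * B ^ 3 * 2 ^ x₀)) →
    P.Hc (fun ω => (dig (α ω) (2 * x₀), dig (β ω) (2 * x₀))) (fun ω => (x ω).V (cor x₀ x₁)) ≤ 10

-- deps:
-- imports: Pool.Agent.P.MP_fc15d7_nt.TREDU
def S_FRAME : Prop :=
  ∃ a : ℕ, 1 ≤ a ∧ ∀ (H : ℕ) (b : M3), 2 ≤ H → |b.det| = 1 → NoSh H b →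
    ∃ g : Gl 3, RB (cs g * b) (H ^ a)

-- deps:
def S_FIN : Prop :=
  ∀ (α β : ℝ) (H x₀ x₁ : ℕ), 2 ≤ H →
    (∀ T : ℝ, 2 ^ x₀ ≤ T → T ≤ 2 ^ x₁ → ¬ Sv α β (1 / H) T) →
    ∀ m ∈ Reg x₀ x₁, NoSh H (Lam α β * dg m)

-- deps: ENT ANCH FRAME FIN
def S_CORE : Prop :=
  ∃ (A : ℕ) (C : ℝ), 1 ≤ A ∧ 0 ≤ C ∧ ∀ H : ℕ, 2 ≤ H → ∃ l : ℕ, 1 ≤ l ∧ l ≤ 2 ^ H ^ A ∧
    ∀ (x₀ : ℕ) (z : ℤ × ℤ), ∃ F : Finset (ℤ × ℤ), log (#F) ≤ C * x₀ / H + C * l ∧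
      ∀ α β : ℝ, (⌊α⌋, ⌊β⌋) = z →
        (∀ T : ℝ, 2 ^ x₀ ≤ T → T ≤ 2 ^ (x₀ + 6 * l) → ¬ Sv α β (1 / H) T) →
        (dig α (2 * x₀), dig β (2 * x₀)) ∈ F

-- deps: CORE
-- imports: Pool.Agent.P.MP_e45b92_nt.EL.Cover
def S_MAIN : Prop :=
  ∃ κ : ℝ, 0 < κ ∧ ∀ Λ : ℝ → ℝ, Filter.Tendsto Λ Filter.atTop Filter.atTop →
    (∀ᶠ T in Filter.atTop, Λ T ≤ T) →
    dimH {x : ℝ × ℝ | ∀ T₀ : ℝ, ∃ T : ℝ, T₀ ≤ T ∧ ∀ T₁ : ℝ, T / Λ T ≤ T₁ → T₁ ≤ T →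
      ¬ Sv x.1 x.2 (log (log (Λ T)) ^ (-κ)) T₁} = 0

end Pool.Agent.P.MP_e45b92_nt.EL
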