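import Pool.Agent.P.MP_e45b92_nt.EL.If

/-! Step ALG. -/

set_option autoImplicit false

namespace Pool.Agent.P.MP_e45b92_nt.EL

open Finset Matrix Real
open Pool.Agent.P.MP_bf60a1_an.RA
open Pool.Agent.P.MP_246241_nt.EK (Vc Mt Gl Bd MI MI_nonneg MI_symm det_unit)

namespace ALGc

theorem st {G D t a x b y X Y : ℝ} (hG : 1 ≤ G) (hD : 1 ≤ G * |D|) (e : D * t = -(a * x + b * y))
    (ha : |a| ≤ G) (hx : |x| ≤ X) (hb : |b| ≤ G) (hy : |y| ≤ Y) : |t| ≤ G ^ 2 * (X + Y) := by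
  have h1 : |D| * |t| ≤ G * X + G * Y := by
    rw [← abs_mul, e, abs_neg]
    refine (abs_add_le _ _).trans (add_le_add ?_ ?_) <;> rw [abs_mul]
    exacts [mul_le_mul ha hx (abs_nonneg _) (by linarith),
      mul_le_mul hb hy (abs_nonneg _) (by linarith)]
  have h2 := mul_le_mul_of_nonneg_right hD (abs_nonneg t)
  have h3 := mul_le_mul_of_nonneg_left h1 (by linarith : 0 ≤ G)
  linarith

theorem ne {G D : ℝ} (hD : 1 ≤ G * |D|) : D ≠ 0 := fun h => by
  rw [h, abs_zero, mul_zero] at hD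
  linarith

end ALGc

open ALGc in
theorem p_ALG :
    S_ALG := by
  intro h h' κ i j k G δ T e hG bh bκ hD d1 d2 d3 d4 d5 d6
  have E : ∀ a b, h' a b = h a i * κ i b + h a j * κ j b + h a k * κ k b := fun a b => by
    rw [← e, Matrix.mul_apply, T.sum]
  have ni := ne (hD i).1
  have nj := ne (hD j).1
  have nk := ne (hD k).1
  have nj' := ne (hD j).2
  have nk' := ne (hD k).2
  have δ0 : 0 ≤ δ := (abs_nonneg _).trans d1
  have Ekk := st (t := κ k k - h' k k / h k k) hG (hD k).1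
    (by rw [mul_sub, mul_div_cancel₀ _ nk, E k k]; ring) (bκ i k) d2 (bκ j k) d3
  have Ejj := st (t := κ j j - h' j j / h j j) hG (hD j).1
    (by rw [mul_sub, mul_div_cancel₀ _ nj, E j j]; ring) (bκ i j) d1 (bh j k) d6
  have Ejk := st (t := κ j k - (h' j k / h' k k - h j k / h k k) * h' k k / h j j) hG (hD j).1
    (by rw [mul_sub, mul_div_cancel₀ _ nj, sub_mul, div_mul_cancel₀ _ nk', E j k]; ring)
    (bκ i k) d1 (bh j k) Ekk
  have Eij := st (t := κ i j - (h' i j / h' j j - h i j / h j j) * h' j j / h i i) hG (hD i).1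
    (by rw [mul_sub, mul_div_cancel₀ _ ni, sub_mul, div_mul_cancel₀ _ nj', E i j]; ring)
    (bh i j) Ejj (bh i k) d6
  have Eik := st (t := κ i k - (h' i k / h' k k - h i k / h k k -
      h i j / h j j * (h' j k / h' k k - h j k / h k k)) * h' k k / h i i) hG (hD i).1
    (by rw [mul_sub, mul_div_cancel₀ _ ni, sub_mul, sub_mul, div_mul_cancel₀ _ nk', E i k]; ring)
    (bh i j) Ejk (bh i k) Ekk
  have p0 : δ ≤ G ^ 2 * δ := le_mul_of_one_le_left δ0 (one_le_pow₀ hG)
  have p2 : G ^ 2 * δ ≤ G ^ 4 * δ :=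
    mul_le_mul_of_nonneg_right (pow_le_pow_right₀ hG (by norm_num)) δ0
  have p4 : G ^ 4 * δ ≤ G ^ 6 * δ :=
    mul_le_mul_of_nonneg_right (pow_le_pow_right₀ hG (by norm_num)) δ0
  exact ⟨Eij.trans (by linarith), Ejk.trans (by linarith), Eik.trans (by linarith),
    Ekk.trans (by linarith), d4.trans (by linarith), d5.trans (by linarith),
    d6.trans (by linarith)⟩

end Pool.Agent.P.MP_e45b92_nt.EL
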