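import Pool.Agent.P.MP_e45b92_nt.EL.If
import Pool.Agent.P.MP_246241_nt.EK.TOVER

/-! Step AVG. -/

set_option autoImplicit false

namespace Pool.Agent.P.MP_e45b92_nt.EL

open Finset Matrix Real
open Pool.Agent.P.MP_bf60a1_an.RA
open Pool.Agent.P.MP_246241_nt.EK (Vc Mt Gl Bd MI MI_nonneg MI_symm det_unit)

namespace AVGc

variable {Ω α β γ κ : Type} [Fintype Ω] (P : FP Ω)

theorem more (X : Ω → ℝ) (G : Ω → β) (W : Ω → κ) (n m : ℕ) :
    MI P (fun ω => dig (X ω) (n + m)) G W ≤ MI P (fun ω => dig (X ω) n) G W + m := by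
  have h1 := P.Hc_le_add (fun ω => dig (X ω) (n + m)) (fun ω => dig (X ω) n) W
  have h2 := P.Hc_mono_left (Z := fun ω => dig (X ω) (n + m)) (G := fun ω => dig (X ω) n)
    (C := fun ω => (G ω, W ω)) fun _ _ _ _ e =>
      dig_of_le (Nat.le_add_right n m) (congrArg Prod.fst e)
  have h3 := P.Hc_le_E (Z := fun ω => dig (X ω) (n + m)) (V := fun ω => (dig (X ω) n, W ω))
    (N := fun _ => 2 ^ m) fun ω _ => ⟨Ico (2 ^ m * dig (X ω) n) (2 ^ m * dig (X ω) n + 2 ^ m), by
      rw [Int.card_Ico, add_sub_cancel_left, show (2 : ℤ) ^ m = ((2 ^ m : ℕ) : ℤ) by push_cast; rfl,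
        Int.toNat_natCast]
      push_cast
      exact le_rfl, fun ω' _ e => by
      have e1 : dig (X ω') n = dig (X ω) n := congrArg Prod.fst e
      have p : (0 : ℤ) < 2 ^ m := by positivity
      rw [← e1, dig_div (X ω') n m, mem_Ico]
      have := Int.mul_ediv_add_emod (dig (X ω') (n + m)) (2 ^ m)
      have := Int.emod_nonneg (dig (X ω') (n + m)) p.ne'
      have := Int.emod_lt_of_pos (dig (X ω') (n + m)) p
      omega⟩
  rw [FP.E_const, log_pow] at h3
  have h4 := mul_le_mul_of_nonneg_left (log_le_sub_one_of_pos two_pos) (Nat.cast_nonneg (α := ℝ) m)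
  unfold MI
  linarith

theorem ovr (X : Ω → ℝ) (G : Ω → β) (W : Ω → κ) (n m : ℕ) :
    ∑ d ∈ range n, MI P (fun ω => dig (X ω) (d + m)) G (fun ω => (dig (X ω) d, W ω)) ≤
      m * (MI P (fun ω => dig (X ω) n) G W + m) := by
  have o := Pool.Agent.P.MP_246241_nt.EK.p_OVER Ω _ _ _ P (fun i ω => dig (X ω) i) G W m 0 n (n + m)
    (fun i _ _ _ _ e => dig_of_le (Nat.le_succ i) e) le_rfl
  rw [← range_eq_Ico] at o
  exact o.trans (mul_le_mul_of_nonneg_left (more P X G W n m) (Nat.cast_nonneg _))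

end AVGc

open AVGc in
theorem p_AVG (hDLOC : S_DLOC) :
    S_AVG := by
  intro Ω κ _ P W X Y Z n m K e ρ s θ h0 h1 hK s0 θ0 n0 hm h32 he hG hP
  obtain ⟨ω0, p0⟩ := P.exists_pos
  have e0 : 0 ≤ e := (abs_nonneg _).trans (hG ω0 p0).1
  have n1 : (0 : ℝ) < n := by exact_mod_cast n0
  have t0 : 0 < θ * n := mul_pos θ0 n1
  have C0 : (0 : ℝ) ≤ 64 * K + 2 := by positivity
  have sq : ∀ I : ℝ, 0 ≤ I → √I ≤ s / 2 + I / s := fun I hI => by
    rw [← sub_le_iff_le_add', le_div_iff₀ s0]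
    nlinarith [sq_nonneg (√I - s), sq_sqrt hI]
  have o1 := ovr P Y (fun ω => (dig (X ω) (4 * n), dig (Z ω - X ω * Y ω) (4 * n))) W n m
  have o2 := ovr P X (fun ω => (dig (Y ω) (4 * n), dig (Z ω) (4 * n))) W n m
  have av : (P.E fun ω => (cnt n fun d => MF P W X ρ d ω) * cnt n fun d => MF P W Y ρ d ω) ≤
      (64 * K + 2) * (s * n ^ 2 + n * (m * (JI P W X Y Z n (4 * n) +
        JI P W Y X (fun ω => Z ω - X ω * Y ω) n (4 * n) + 2 * m)) / s) := by
    simp only [cnt, sum_mul_sum, ← ind_and, P.E_sum]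
    refine (sum_le_sum fun d1 k1 => sum_le_sum fun d2 k2 => (hDLOC Ω κ P W X Y Z d1 d2 m (4 * n) K
      e ρ h0 h1 hK (by have := mem_range.1 k1; omega) (by have := mem_range.1 k2; omega) h32 ?_ hG
      (hP d1 (mem_range.1 k1) d2 (mem_range.1 k2))).trans (mul_le_mul_of_nonneg_left
        (add_le_add (sq _ (MI_nonneg _ _ _ _)) (sq _ (MI_nonneg _ _ _ _))) C0)).trans ?_
    · have a : (2 : ℝ) ^ (d1 + d2) ≤ 2 ^ (2 * n) := pow_le_pow_right₀ one_le_two (by
        have := mem_range.1 k1; have := mem_range.1 k2; omega)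
      rw [show 4 * n = 2 * n + 2 * n by ring, pow_add 2 (2 * n), mul_right_comm _ _ (ρ ^ 2)]
      exact mul_le_mul he a (by positivity) (by positivity)
    simp only [← mul_sum, sum_add_distrib, sum_const, card_range, nsmul_eq_mul, ← sum_div]
    refine mul_le_mul_of_nonneg_left ?_ C0
    have b1 := mul_le_mul_of_nonneg_left (div_le_div_of_nonneg_right o1 s0.le) n1.le
    have b2 := mul_le_mul_of_nonneg_left (div_le_div_of_nonneg_right o2 s0.le) n1.le
    have e : ∀ a b : ℝ, n * (m * (a + b + 2 * m)) / s =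
        n * (m * (b + m) / s) + n * (m * (a + m) / s) := fun a b => by ring
    unfold JI
    rw [e]
    linarith
  refine (P.pr_mono fun ω _ k => mul_le_mul k.1 k.2 t0.le (cnt_nonneg _ _)).trans
    ((P.markov (fun ω _ => mul_nonneg (cnt_nonneg _ _) (cnt_nonneg _ _)) (mul_pos t0 t0)).trans
      ((div_le_div_of_nonneg_right av (mul_pos t0 t0).le).trans (le_of_eq ?_)))
  field_simp

end Pool.Agent.P.MP_e45b92_nt.EL
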