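import Pool.Agent.P.MP_e45b92_nt.EL.If

/-! Step BACK. -/

set_option autoImplicit false

namespace Pool.Agent.P.MP_e45b92_nt.EL

open Finset Matrix Real
open Pool.Agent.P.MP_bf60a1_an.RA
open Pool.Agent.P.MP_246241_nt.EK (Vc Mt Gl Bd MI MI_nonneg MI_symm det_unit)

theorem p_BACK (hINV : S_INV) :
    S_BACK := by
  intro x y B U m m' E hx hy hm hE
  have hn : RB (dg (-(m - m')) * kk x y m' * dg (m - m')) E := fun a b => by
    rw [conj_dg, abs_mul, abs_of_pos (show (0 : ℝ) < 2 ^ ((m - m') b - (m - m') a) by positivity)]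
    exact hE a b
  have h1 : cs (x.rel m m' * (y.rel m m')⁻¹) * y.b m =
      x.b m * (dg (-(m - m')) * kk x y m' * dg (m - m')) := by
    have e : dg (m - m') * dg (-(m - m')) = 1 := by rw [← dg_add, add_neg_cancel, dg_zero]
    rw [y.b_rel m m', x.b_rel m m', cs_mul, ← hx.mul_kk y m']
    simp only [Matrix.mul_assoc]
    rw [← Matrix.mul_assoc (cs (y.rel m m')⁻¹), cs_inv_mul, Matrix.one_mul,
      ← Matrix.mul_assoc (dg (m - m')) (dg (-(m - m'))), e, Matrix.one_mul]
  have h2 : cs (x.rel m m' * (y.rel m m')⁻¹) =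
      x.b m * (dg (-(m - m')) * kk x y m' * dg (m - m')) * (y.b m)⁻¹ := by
    rw [← h1, Matrix.mul_assoc, hy.mul_inv, Matrix.mul_one]
  rw [h2]
  exact (((hx.2 m hm).mul hn).mul (hINV _ _ (hy.det m) (hy.2 m hm))).mono (le_of_eq (by ring))

end Pool.Agent.P.MP_e45b92_nt.EL
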