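import Pool.Agent.P.MP_e45b92_nt.EL.If

/-! Step CAL. -/

set_option autoImplicit false

namespace Pool.Agent.P.MP_e45b92_nt.EL

open Finset Matrix Real
open Pool.Agent.P.MP_bf60a1_an.RA
open Pool.Agent.P.MP_246241_nt.EK (Vc Mt Gl Bd MI MI_nonneg MI_symm det_unit)

namespace CALc

theorem amb (hPAIR : S_PAIR) (hFWD : S_FWD) {Ω τ : Type} [Fintype Ω] {P : FP Ω} {x : Ω → Pt}
    {B : ℕ} {U : Set Pos} (hB : 2 ≤ B) (hS : Sys P x B U) (T : Ω → τ) {R R' : List Pos}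
    (r₀ : Pos) (hR : In R U) (hR' : In R' U) (hs : Sub R' R) {n : ℕ} (hn : R'.length ≤ n)
    (hT : ∀ ω ω', 0 < P.p ω → 0 < P.p ω' → T ω = T ω' → ∀ r ∈ R,
      (x ω).rel r r₀ = (x ω').rel r r₀) :
    P.Hc (fun ω => (x ω).V R') T ≤ n * (1998 * (B : ℝ) ^ 6) := by
  have hB' : (2 : ℝ) ≤ B := by exact_mod_cast hB
  have h3 : (1 : ℝ) ≤ (B : ℝ) ^ 3 := one_le_pow₀ (by linarith)
  have h1 := hFWD Ω τ P x B U T R' r₀ (6 * (B : ℝ) ^ 3) hS hR' (by omega) (by linarith)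
    fun ω ω' a a' e m hm i j => by
      obtain ⟨r, hr, h⟩ := hs m hm i j
      refine le_trans ?_ (hPAIR (x ω) (x ω') B U r r₀ (hS ω a) (hS ω' a') (hR r hr)
        (hT ω ω' a a' e r hr) i j)
      exact mul_le_mul_of_nonneg_left (zpow_le_zpow_right₀ one_le_two (by omega)) (abs_nonneg _)
  have h6 : (B : ℝ) ^ 6 = (B : ℝ) ^ 3 * (B : ℝ) ^ 3 := by ring
  have h2 : log (37 * (B : ℝ) ^ 3 * (6 * (B : ℝ) ^ 3)) ≤ 222 * (B : ℝ) ^ 6 := by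
    refine (log_le_self (by positivity)).trans (le_of_eq ?_)
    ring
  have h4 : (R'.length : ℝ) ≤ n := by exact_mod_cast hn
  refine h1.trans ?_
  calc 9 * (R'.length : ℝ) * log (37 * (B : ℝ) ^ 3 * (6 * (B : ℝ) ^ 3))
      ≤ 9 * (R'.length : ℝ) * (222 * (B : ℝ) ^ 6) :=
        mul_le_mul_of_nonneg_left h2 (by positivity)
    _ = (R'.length : ℝ) * (1998 * (B : ℝ) ^ 6) := by ring
    _ ≤ n * (1998 * (B : ℝ) ^ 6) := mul_le_mul_of_nonneg_right h4 (by positivity)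

theorem amb' (hPAIR : S_PAIR) (hFWD : S_FWD) {Ω : Type} [Fintype Ω] {P : FP Ω} {x : Ω → Pt}
    {B : ℕ} {U : Set Pos} (hB : 2 ≤ B) (hS : Sys P x B U) {R R' : List Pos} (h0 : R ≠ [])
    (hR : In R U) (hR' : In R' U) (hs : Sub R' R) {n : ℕ} (hn : R'.length ≤ n) :
    P.Hc (fun ω => (x ω).V R') (fun ω => (x ω).V R) ≤ n * (1998 * (B : ℝ) ^ 6) := by
  obtain ⟨r₀, h⟩ := List.exists_mem_of_ne_nil _ h0
  exact amb hPAIR hFWD hB hS _ r₀ hR hR' hs hn fun ω ω' _ _ e r hr => Pt.V_eq.1 e r hr r₀ h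

theorem cons_sub {R₀ R : List Pos} {r : Pos} (hr : r ∈ R₀) (hs : Sub R₀ R) : Sub (r :: R) R := by
  intro m hm
  rcases List.mem_cons.1 hm with rfl | hm
  · exact hs _ hr
  · exact fun _ _ => ⟨m, hm, le_rfl⟩

theorem cons_in {R₀ R : List Pos} {U : Set Pos} {r : Pos} (hr : r ∈ R₀) (h₀ : In R₀ U)
    (h : In R U) : In (r :: R) U := by
  intro m hm
  rcases List.mem_cons.1 hm with rfl | hm
  · exact h₀ _ hr
  · exact h _ hm

theorem ne_nil {R₀ R : List Pos} {r : Pos} (hr : r ∈ R₀) (hs : Sub R₀ R) : R ≠ [] := by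
  obtain ⟨s, h, _⟩ := hs r hr 0 0
  exact List.ne_nil_of_mem h

end CALc

theorem p_CAL (hPAIR : S_PAIR) (hFWD : S_FWD) :
    S_CAL := by
  refine ⟨22, fun Ω _ P x B U hB hS R₀ R₁ R₂ R₃ l₀ l₁ l₂ l₃ i₀ i₁ i₂ i₃ h0 s₁ s₂ s₃ => ?_⟩
  obtain ⟨r, hr⟩ := List.exists_mem_of_ne_nil _ h0
  have n₁ := CALc.ne_nil hr s₁
  have n₂ := CALc.ne_nil hr s₂
  have a₁ := CALc.amb' hPAIR hFWD hB hS n₁ i₁ i₀ s₁ l₀
  have a₂ := CALc.amb' hPAIR hFWD hB hS n₂ i₂ i₀ s₂ l₀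
  have a₃ := CALc.amb' hPAIR hFWD hB hS n₁ i₁ (CALc.cons_in hr i₀ i₁) (CALc.cons_sub hr s₁)
    (n := 6) (by rw [List.length_cons]; omega)
  have a₄ := CALc.amb' hPAIR hFWD hB hS n₂ i₂ (CALc.cons_in hr i₀ i₂) (CALc.cons_sub hr s₂)
    (n := 6) (by rw [List.length_cons]; omega)
  have i₄ : In (R₁ ++ R₂) U := fun m hm => (List.mem_append.1 hm).elim (i₁ m) (i₂ m)
  have a₅ := CALc.amb hPAIR hFWD hB hS
    (fun ω => (((x ω).V (r :: R₁), (x ω).V (r :: R₂)), ((x ω).V R₁, (x ω).V R₂))) r i₄ i₃ s₃ l₃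
    fun ω ω' _ _ e m hm => by
      have e₁ : (x ω).V (r :: R₁) = (x ω').V (r :: R₁) := congrArg (fun z => z.1.1) e
      have e₂ : (x ω).V (r :: R₂) = (x ω').V (r :: R₂) := congrArg (fun z => z.1.2) e
      rcases List.mem_append.1 hm with h | h
      · exact Pt.V_eq.1 e₁ m (List.mem_cons_of_mem _ h) r List.mem_cons_self
      · exact Pt.V_eq.1 e₂ m (List.mem_cons_of_mem _ h) r List.mem_cons_self
  have b₁ := P.sub_H (fun ω => (x ω).V R₃) (fun ω => (x ω).V R₀) (fun ω => (x ω).V R₁)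
    fun ω => (x ω).V R₂
  have b₂ := P.Hc_le_add (fun ω => (x ω).V R₃) (fun ω => ((x ω).V (r :: R₁), (x ω).V (r :: R₂)))
    fun ω => ((x ω).V R₁, (x ω).V R₂)
  have b₃ := P.Hc_pair_le (fun ω => (x ω).V (r :: R₁)) (fun ω => (x ω).V (r :: R₂))
    fun ω => ((x ω).V R₁, (x ω).V R₂)
  have b₄ := P.Hc_mono_right (fun ω => (x ω).V (r :: R₁)) (C := fun ω => (x ω).V R₁)
    (C' := fun ω => ((x ω).V R₁, (x ω).V R₂)) fun _ _ _ _ h => congrArg Prod.fst h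
  have b₅ := P.Hc_mono_right (fun ω => (x ω).V (r :: R₂)) (C := fun ω => (x ω).V R₂)
    (C' := fun ω => ((x ω).V R₁, (x ω).V R₂)) fun _ _ _ _ h => congrArg Prod.snd h
  have hB' : (2 : ℝ) ≤ B := by exact_mod_cast hB
  have c₁ : (2 : ℝ) ^ 16 ≤ (B : ℝ) ^ 16 := pow_le_pow_left₀ zero_le_two hB' 16
  have c₂ : (0 : ℝ) ≤ (B : ℝ) ^ 6 := by positivity
  have c₃ : (2 : ℝ) ^ 16 * (B : ℝ) ^ 6 ≤ (B : ℝ) ^ 22 := by
    rw [show (B : ℝ) ^ 22 = (B : ℝ) ^ 16 * (B : ℝ) ^ 6 by ring]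
    exact mul_le_mul_of_nonneg_right c₁ c₂
  push_cast at a₁ a₂ a₃ a₄ a₅
  norm_num only at c₃
  beta_reduce
  linarith

end Pool.Agent.P.MP_e45b92_nt.EL
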