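import Pool.Agent.P.MP_e45b92_nt.EL.If

/-! Step CB. -/

set_option autoImplicit false

namespace Pool.Agent.P.MP_e45b92_nt.EL

open Finset Matrix Real
open Pool.Agent.P.MP_bf60a1_an.RA
open Pool.Agent.P.MP_246241_nt.EK (Vc Mt Gl Bd MI MI_nonneg MI_symm det_unit)

namespace CBc

theorem close {Ω τ : Type} [Fintype Ω] (P : FP Ω) (X : Ω → ℝ) (T : Ω → τ) (t : ℕ) {E : ℝ}
    (hE : 0 ≤ E) (h : ∀ ω ω', 0 < P.p ω → 0 < P.p ω' → T ω = T ω' → |X ω' - X ω| * 2 ^ t ≤ E) :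
    P.Hc (fun ω => dig (X ω) t) T ≤ 2 * E + 2 := by
  refine (P.Hc_le_E (N := fun _ => 2 * (E + 1) + 1) fun ω hω => ?_).trans ?_
  · obtain ⟨F, h1, h2⟩ := exists_int_box (2 ^ t * X ω) (M := E + 1) (by linarith)
    refine ⟨F, h1, fun ω' hω' e => h2 _ ?_⟩
    have h3 := h ω ω' hω hω' e.symm
    rw [← abs_of_pos (show (0 : ℝ) < 2 ^ t by positivity), ← abs_mul, abs_le] at h3
    rw [abs_le]
    constructor <;> nlinarith [dig_le (X ω') t, lt_dig (X ω') t, h3.1, h3.2]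
  · rw [FP.E_const]
    linarith [log_le_sub_one_of_pos (show 0 < 2 * (E + 1) + 1 by linarith)]

theorem ent {κ u d d' e ε K s : ℝ} (hs : 0 < s) (h1 : |κ| * s ≤ K) (h2 : |κ - u * d' / d| ≤ ε)
    (h3 : ε * s ≤ 1) (h4 : 1 ≤ e * |d'|) (h5 : 1 ≤ e * |d|) (h6 : |d| ≤ e) :
    |u| * s ≤ e ^ 2 * (K + 1) := by
  have d0 : d ≠ 0 := fun h => by rw [h, abs_zero, mul_zero] at h5; linarith
  have e0 : 0 ≤ e := (abs_nonneg _).trans h6
  have a1 : |u * d' / d| ≤ |κ| + ε := by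
    have := abs_sub_abs_le_abs_sub (u * d' / d) κ
    rw [abs_sub_comm] at this
    linarith
  have a2 : |u| * |d'| = |u * d' / d| * |d| := by
    rw [← abs_mul, ← abs_mul, div_mul_cancel₀ _ d0]
  have a3 : |u * d' / d| * s ≤ K + 1 := by nlinarith
  calc |u| * s = |u| * 1 * s := by ring
    _ ≤ |u| * (e * |d'|) * s := by gcongr
    _ = e * |d| * (|u * d' / d| * s) := by linear_combination e * s * a2
    _ ≤ e * e * (K + 1) := by gcongr
    _ = _ := by ring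

theorem comb {w u y K e s : ℝ} (hs : 0 < s) (h1 : |w| * s ≤ K) (h2 : |u| * s ≤ K) (h3 : |y| ≤ e) :
    |w + y * u| * s ≤ K + e * K := by
  have a1 : |w + y * u| ≤ |w| + |y| * |u| := by rw [← abs_mul]; exact abs_add_le _ _
  have a2 : |y| * (|u| * s) ≤ e * K :=
    mul_le_mul h3 h2 (by positivity) ((abs_nonneg _).trans h3)
  nlinarith

end CBc

open CBc in
theorem p_CB (hPAIR : S_PAIR) :
    S_CB := by
  intro a
  refine ⟨3 * a + 10, ?_⟩
  intro Ω _ P x B t U R P₀ i j k ε X Y Z D hB hT hS hP hC hε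
  have hs : (0 : ℝ) < 2 ^ t := by positivity
  have b2 : (2 : ℝ) ≤ B := by exact_mod_cast hB
  have e1 : (1 : ℝ) ≤ (B : ℝ) ^ a := one_le_pow₀ (by linarith)
  have b3 : (8 : ℝ) ≤ (B : ℝ) ^ 3 := by
    calc (8 : ℝ) = 2 ^ 3 := by norm_num
      _ ≤ _ := by gcongr
  have hM : (B : ℝ) ^ (3 * a + 10) = (B : ℝ) ^ a * ((B : ℝ) ^ a) ^ 2 * (B ^ 3) ^ 3 * B := by ring
  set K : ℝ := ((B : ℝ) ^ a) ^ 2 * (6 * B ^ 3 + 1) with hK
  have K1 : 1 ≤ K := by rw [hK]; nlinarith [one_le_pow₀ (n := 2) e1]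
  have eK : K ≤ (B : ℝ) ^ a * K := le_mul_of_one_le_left (by linarith) e1
  have tot : 10 * ((B : ℝ) ^ a * K) ≤ (B : ℝ) ^ (3 * a + 10) := by
    rw [hM, hK]
    generalize (B : ℝ) ^ 3 = c at *
    have h1 : 10 * (6 * c + 1) ≤ c ^ 3 * B := by
      have : 64 * c ≤ c ^ 3 := by nlinarith [mul_nonneg (by linarith : 0 ≤ c) (by nlinarith : 0 ≤ c ^ 2 - 64)]
      nlinarith
    calc _ = (B : ℝ) ^ a * ((B : ℝ) ^ a) ^ 2 * (10 * (6 * c + 1)) := by ring
      _ ≤ (B : ℝ) ^ a * ((B : ℝ) ^ a) ^ 2 * (c ^ 3 * B) := by gcongr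
      _ = _ := by ring
  have key : ∀ m ∈ U, ∀ ω ω', 0 < P.p ω → 0 < P.p ω' → (x ω).V (m :: R) = (x ω').V (m :: R) →
      (m j - P₀ j - (m i - P₀ i) = t → |X ω' - X ω| * 2 ^ t ≤ K) ∧
      (m k - P₀ k - (m j - P₀ j) = t → |Y ω' - Y ω| * 2 ^ t ≤ K) ∧
      (m k - P₀ k - (m i - P₀ i) = t → |Z ω' - Z ω - X ω * (Y ω' - Y ω)| * 2 ^ t ≤ K) := by
    intro m hm ω ω' h h' e
    have a1 := hC.ap ω ω' h h' (Pt.V_sub (List.subset_cons_self _ _) e)
    have a2 := hPAIR _ _ B U m P₀ (hS ω h) (hS ω' h') hm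
      (Pt.V_eq.1 e m List.mem_cons_self P₀ (List.mem_cons_of_mem _ hP))
    have d := (hC.bd ω h).2.2
    have d' := (hC.bd ω' h').2.2
    refine ⟨fun g => ?_, fun g => ?_, fun g => ?_⟩
    · have := a2 i j
      rw [g, zpow_natCast] at this
      exact ent hs this a1.1 hε (d' j).1 (d i).1 (d i).2
    · have := a2 j k
      rw [g, zpow_natCast] at this
      exact ent hs this a1.2.1 hε (d' k).1 (d j).1 (d j).2
    · have := a2 i k
      rw [g, zpow_natCast] at this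
      exact ent hs this a1.2.2.1 hε (d' k).1 (d i).1 (d i).2
  obtain ⟨t1, t2, t3, t4, t5, t6⟩ := hT.ee
  refine ⟨fun hm => ?_, fun hm => ?_, fun hm => ?_, fun hm => ?_⟩
  · refine (close P X _ t (E := K) (by linarith) fun ω ω' h h' e =>
      (key _ hm ω ω' h h' e).1 ?_).trans (by linarith)
    simp [ee_self, t3]
  · refine (close P Y _ t (E := K) (by linarith) fun ω ω' h h' e =>
      (key _ hm ω ω' h h' e).2.1 ?_).trans (by linarith)
    simp [ee_self, t4]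
  · have g1 : (P₀ - ee i t) j - P₀ j - ((P₀ - ee i t) i - P₀ i) = t := by simp [ee_self, t1]
    have g2 : (P₀ - ee i t) k - P₀ k - ((P₀ - ee i t) i - P₀ i) = t := by simp [ee_self, t2]
    refine (P.Hc_pair_le _ _ _).trans ((add_le_add
      (close P X _ t (E := K) (by linarith) fun ω ω' h h' e => (key _ hm ω ω' h h' e).1 g1)
      (close P (fun ω => Z ω - X ω * Y ω) _ t (E := K + B ^ a * K) (by linarith)
        fun ω ω' h h' e => ?_)).trans (by linarith))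
    have := comb (y := -Y ω') (e := B ^ a) hs ((key _ hm ω ω' h h' e).2.2 g2) ((key _ hm ω ω' h h' e).1 g1)
      (by rw [abs_neg]; exact (hC.bd ω' h').2.1)
    convert this using 3
    ring
  · have g1 : (P₀ + ee k t) k - P₀ k - ((P₀ + ee k t) j - P₀ j) = t := by simp [ee_self, t6]
    have g2 : (P₀ + ee k t) k - P₀ k - ((P₀ + ee k t) i - P₀ i) = t := by simp [ee_self, t5]
    refine (P.Hc_pair_le _ _ _).trans ((add_le_add
      (close P Y _ t (E := K) (by linarith) fun ω ω' h h' e => (key _ hm ω ω' h h' e).2.1 g1)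
      (close P Z _ t (E := K + B ^ a * K) (by linarith)
        fun ω ω' h h' e => ?_)).trans (by linarith))
    have := comb (y := X ω) hs ((key _ hm ω ω' h h' e).2.2 g2) ((key _ hm ω ω' h h' e).2.1 g1)
      (hC.bd ω h).1
    convert this using 3
    ring

end Pool.Agent.P.MP_e45b92_nt.EL
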