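import Pool.Agent.P.MP_e45b92_nt.EL.If

/-! Step CF. -/

set_option autoImplicit false

namespace Pool.Agent.P.MP_e45b92_nt.EL

open Finset Matrix Real
open Pool.Agent.P.MP_bf60a1_an.RA
open Pool.Agent.P.MP_246241_nt.EK (Vc Mt Gl Bd MI MI_nonneg MI_symm det_unit)

namespace CFc

theorem ent {κ u d d' e ε s : ℝ} (hs : 0 < s) (h1 : |u| * s ≤ 1) (h2 : |κ - u * d' / d| ≤ ε)
    (h3 : ε * s ≤ 1) (h5 : 1 ≤ e * |d|) (h6 : |d'| ≤ e) : |κ| * s ≤ e ^ 2 + 1 := by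
  have d0 : d ≠ 0 := fun h => by rw [h, abs_zero, mul_zero] at h5; linarith
  have e0 : 0 ≤ e := (abs_nonneg _).trans h6
  have a1 : |κ| ≤ |u * d' / d| + ε := by
    have := abs_sub_abs_le_abs_sub κ (u * d' / d)
    linarith
  have a2 : |u| * |d'| = |u * d' / d| * |d| := by
    rw [← abs_mul, ← abs_mul, div_mul_cancel₀ _ d0]
  have a3 : |u * d' / d| * s ≤ e ^ 2 := by
    calc |u * d' / d| * s = |u * d' / d| * 1 * s := by ring
      _ ≤ |u * d' / d| * (e * |d|) * s := by gcongr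
      _ = e * |d'| * (|u| * s) := by linear_combination -e * s * a2
      _ ≤ e * e * 1 := by gcongr
      _ = _ := by ring
  nlinarith

end CFc

open CFc in
theorem p_CF (hPAIR : S_PAIR) (hFWD : S_FWD) :
    S_CF := by
  intro a
  refine ⟨2 * a + 20, ?_⟩
  intro Ω _ P x B t U R P₀ i j k ε X Y Z D hB hT hS hR hP hl hC hε
  have hs : (0 : ℝ) < 2 ^ t := by positivity
  have b2 : (2 : ℝ) ≤ B := by exact_mod_cast hB
  have e1 : (1 : ℝ) ≤ ((B : ℝ) ^ a) ^ 2 := one_le_pow₀ (one_le_pow₀ (by linarith))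
  have b3 : (8 : ℝ) ≤ (B : ℝ) ^ 3 := by
    calc (8 : ℝ) = 2 ^ 3 := by norm_num
      _ ≤ _ := by gcongr
  have key : ∀ m ∈ U, ∀ Q : Ω → ℤ, (∀ ω ω', 0 < P.p ω → 0 < P.p ω' → Q ω = Q ω' →
      (x ω).V R = (x ω').V R → ∀ c b, m b - P₀ b - (m c - P₀ c) ≤ 0 ∨
        (m b - P₀ b - (m c - P₀ c) = t ∧
          |kk (x ω) (x ω') P₀ c b| * 2 ^ t ≤ ((B : ℝ) ^ a) ^ 2 + 1)) →
      P.Hc (fun ω => (x ω).V (m :: R)) (fun ω => (Q ω, (x ω).V R)) ≤ (B : ℝ) ^ (2 * a + 20) := by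
    intro m hm Q h
    refine (hFWD Ω _ P x B U (fun ω => (Q ω, (x ω).V R)) (m :: R) P₀
      (((B : ℝ) ^ a) ^ 2 + 1 + 6 * B ^ 3) hS (List.forall_mem_cons.2 ⟨hm, hR⟩) (by omega)
      (by linarith) fun ω ω' h1 h2 e => List.forall_mem_cons.2 ⟨fun c b => ?_, fun m' hm' c b => ?_⟩).trans ?_
    · rcases h ω ω' h1 h2 (congrArg Prod.fst e) (congrArg Prod.snd e) c b with g | ⟨g, g'⟩
      · have a1 := hPAIR _ _ B U P₀ P₀ (hS ω h1) (hS ω' h2) (hR _ hP)
          (by rw [Pt.rel_self, Pt.rel_self]) c b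
        simp only [sub_self, zpow_zero, mul_one] at a1
        have a2 := zpow_le_one_of_nonpos₀ (one_le_two (α := ℝ)) g
        have a3 := mul_le_of_le_one_right (abs_nonneg (kk (x ω) (x ω') P₀ c b)) a2
        linarith
      · rw [g, zpow_natCast]; linarith
    · have := hPAIR _ _ B U m' P₀ (hS ω h1) (hS ω' h2) (hR _ hm')
        (Pt.V_eq.1 (congrArg Prod.snd e) m' hm' P₀ hP) c b
      linarith
    · have hM : (B : ℝ) ^ (2 * a + 20) = ((B : ℝ) ^ a) ^ 2 * (B ^ 3) ^ 2 * B ^ 14 := by ring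
      have b14 : (2 : ℝ) ^ 14 ≤ (B : ℝ) ^ 14 := by gcongr
      have l4 : (((m :: R).length : ℕ) : ℝ) ≤ 4 := by
        rw [List.length_cons]; exact_mod_cast Nat.succ_le_succ hl
      rw [hM]
      generalize (B : ℝ) ^ 14 = w at *
      generalize (B : ℝ) ^ 3 = c at *
      generalize ((B : ℝ) ^ a) ^ 2 = f at *
      have a1 : f + 1 + 6 * c ≤ 8 * (f * c) := by nlinarith
      have a0 : 1 ≤ 37 * c * (f + 1 + 6 * c) := by nlinarith
      have a2 := log_le_sub_one_of_pos (lt_of_lt_of_le one_pos a0)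
      have a3 : 37 * c * (f + 1 + 6 * c) ≤ 37 * c * (8 * (f * c)) := by gcongr
      have a4 := mul_le_mul_of_nonneg_right l4 (log_nonneg a0)
      have a5 : f * c ^ 2 * 2 ^ 14 ≤ f * c ^ 2 * w := by gcongr
      have a6 : 0 ≤ f * c ^ 2 := by positivity
      nlinarith
  obtain ⟨t1, t2, t3, t4, t5, t6⟩ := hT.ee
  refine ⟨fun hm => key _ hm _ fun ω ω' h h' e e' => ?_,
    fun hm => key _ hm _ fun ω ω' h h' e e' => ?_⟩
  all_goals
    have a1 := hC.ap ω ω' h h' e'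
    have d := (hC.bd ω h).2.2
    have d' := (hC.bd ω' h').2.2
    have a2 := abs_sub_of_dig e
    simp only [hT.all, Pi.add_apply, Pi.sub_apply, ee_self, t3, t4]
  · have a3 := ent hs a2 a1.1 hε (d i).1 (d' j).2
    have a4 := mul_le_mul_of_nonneg_right a1.2.2.2.2.2.2 hs.le
    exact ⟨⟨.inl (by omega), .inr ⟨by omega, a3⟩, .inl (by omega)⟩,
      ⟨.inl (by omega), .inl (by omega), .inl (by omega)⟩,
      .inl (by omega), .inr ⟨by omega, by linarith⟩, .inl (by omega)⟩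
  · have a3 := ent hs a2 a1.2.1 hε (d j).1 (d' k).2
    have a4 := mul_le_mul_of_nonneg_right a1.2.2.2.2.1 hs.le
    exact ⟨⟨.inl (by omega), .inl (by omega), .inl (by omega)⟩,
      ⟨.inr ⟨by omega, by linarith⟩, .inl (by omega), .inr ⟨by omega, a3⟩⟩,
      .inl (by omega), .inl (by omega), .inl (by omega)⟩

end Pool.Agent.P.MP_e45b92_nt.EL
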