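import Pool.Agent.P.MP_e45b92_nt.EL.If

/-! Step CORE. -/

set_option autoImplicit false

namespace Pool.Agent.P.MP_e45b92_nt.EL

open Finset Matrix Real
open Pool.Agent.P.MP_bf60a1_an.RA
open Pool.Agent.P.MP_246241_nt.EK (Vc Mt Gl Bd MI MI_nonneg MI_symm det_unit)

namespace COREc

theorem mem_Ico (x : ℝ) (t : ℕ) : dig x t ∈ Finset.Ico (2 ^ t * ⌊x⌋) (2 ^ t * (⌊x⌋ + 1)) := by
  have h : (0 : ℤ) < 2 ^ t := by positivity
  have e := dig_div x 0 t
  rw [dig_zero, zero_add] at e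
  rw [e, Finset.mem_Ico]
  exact ⟨Int.mul_ediv_self_le h.ne', (Int.lt_mul_ediv_self_add h).trans_eq (by ring)⟩

theorem num {B l : ℕ} (hB : 2 ≤ B) (hl : 4 * B ≤ l) : 216 * B ^ 10 < 2 ^ (6 * l) :=
  calc 216 * B ^ 10 < 2 ^ 8 * (2 ^ B) ^ 10 :=
        Nat.mul_lt_mul'' (by norm_num) (Nat.pow_lt_pow_left Nat.lt_two_pow_self (by norm_num))
    _ ≤ _ := by
        rw [← pow_mul, ← pow_add]
        exact Nat.pow_le_pow_right (by norm_num) (by omega)

end COREc

theorem p_CORE (hENT : S_ENT) (hANCH : S_ANCH) (hFRAME : S_FRAME) (hFIN : S_FIN) :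
    S_CORE := by
  classical
  obtain ⟨a, a1, ha⟩ := hFRAME
  obtain ⟨A, C, C0, hA⟩ := hENT
  refine ⟨a * A + 1, C + 10, Nat.le_add_left _ _, by positivity, fun H h2 => ?_⟩
  have hB : H ≤ H ^ a := Nat.le_self_pow (by omega) H
  obtain ⟨l, l1, l2, hl⟩ := hA (H ^ a) (h2.trans hB)
  have l0 : 1 ≤ l := by omega
  refine ⟨l, l0, l2.trans (Nat.pow_le_pow_right (by norm_num) ?_), fun x₀ z => ?_⟩
  · rw [← pow_mul]
    exact Nat.pow_le_pow_right (by omega) (Nat.le_succ _)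
  obtain ⟨S, hS⟩ : ∃ S : Finset (ℤ × ℤ), S =
      (Finset.Ico (2 ^ (2 * x₀) * z.1) (2 ^ (2 * x₀) * (z.1 + 1)) ×ˢ
        Finset.Ico (2 ^ (2 * x₀) * z.2) (2 ^ (2 * x₀) * (z.2 + 1))).filter fun d =>
          ∃ α β : ℝ, (⌊α⌋, ⌊β⌋) = z ∧
            (∀ T : ℝ, 2 ^ x₀ ≤ T → T ≤ 2 ^ (x₀ + 6 * l) → ¬ Sv α β (1 / H) T) ∧
            (dig α (2 * x₀), dig β (2 * x₀)) = d := ⟨_, rfl⟩
  refine ⟨S, ?_, fun α β hz hs => ?_⟩
  · rcases S.eq_empty_or_nonempty with h0 | h0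
    · rw [h0]; simp only [card_empty, Nat.cast_zero, log_zero]; positivity
    have c0 : (0 : ℝ) < #S := by exact_mod_cast h0.card_pos
    let P : FP S := ⟨fun _ => 1 / #S, fun _ => by positivity, by
      rw [sum_const, card_univ, Fintype.card_coe, nsmul_eq_mul]; field_simp⟩
    choose α β hz hs hd using fun ω : S => (mem_filter.1 (hS.le ω.2)).2
    have hg : ∀ (ω : S) (m : Pos), ∃ g : Gl 3, m ∈ Reg x₀ (x₀ + 6 * l) →
        RB (cs g * (Lam (α ω) (β ω) * dg m)) (H ^ a) := fun ω m => by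
      by_cases hm : m ∈ Reg x₀ (x₀ + 6 * l)
      · obtain ⟨g, hg⟩ := ha H _ h2 (by rw [det_mul, det_Lam, det_dg, mul_one, abs_one])
          (hFIN _ _ H _ _ h2 (hs ω) m hm)
        exact ⟨g, fun _ => hg⟩
      · exact ⟨1, fun h => absurd h hm⟩
    choose g hg using hg
    have hx : Sys P (fun ω => ⟨Lam (α ω) (β ω), g ω⟩) (H ^ a) (Reg x₀ (x₀ + 6 * l)) :=
      fun ω _ => ⟨by rw [det_Lam, abs_one], fun m hm => by
        rw [Pt.b, Matrix.mul_assoc, Nat.cast_pow]; exact hg ω m hm⟩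
    have k := hl x₀ S P _ hx
    have n1 := COREc.num (h2.trans hB) l1
    generalize H ^ a = B at hB hx k n1
    have n2 : 216 * (B : ℝ) ^ 10 < 2 ^ (6 * l) := by exact_mod_cast n1
    have H2 : (2 : ℝ) ≤ H := by exact_mod_cast h2
    have HB : (H : ℝ) ≤ B := by exact_mod_cast hB
    have B1 : (1 : ℝ) ≤ B := by linarith
    have x0 : (0 : ℝ) < 2 ^ x₀ := by positivity
    have k2 := hANCH S P _ α β B x₀ _ (1 / H) z (by omega) (Nat.le_add_right _ _) hx (by
        rw [pow_add, one_div, inv_mul_eq_div, lt_div_iff₀ (by linarith)]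
        calc 216 * (B : ℝ) ^ 9 * 2 ^ x₀ * H ≤ 216 * (B : ℝ) ^ 9 * 2 ^ x₀ * B := by gcongr
          _ = 2 ^ x₀ * (216 * (B : ℝ) ^ 10) := by ring
          _ < _ := by gcongr)
      (by rw [div_le_one (by linarith)]; linarith) fun ω _ => ⟨rfl, hz ω, hs ω _
        (le_mul_of_one_le_left x0.le (by linarith [one_le_pow₀ (n := 3) B1])) (by
          rw [pow_add, mul_comm]
          gcongr
          linarith [pow_le_pow_right₀ B1 (show 3 ≤ 10 by norm_num), one_le_pow₀ (n := 3) B1])⟩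
    have e : log (#S) ≤ P.H fun ω => (dig (α ω) (2 * x₀), dig (β ω) (2 * x₀)) :=
      P.le_E fun ω _ => by
        have : P.cl (fun ω => (dig (α ω) (2 * x₀), dig (β ω) (2 * x₀))) ω = 1 / #S := by
          simp only [FP.cl, FP.pr, FP.E, hd]
          rw [sum_eq_single ω]
          · rw [ind_pos rfl, mul_one]
          · intro b _ hb
            rw [ind_neg fun h => hb (Subtype.ext h), mul_zero]
          · intro h; exact absurd (mem_univ ω) h
        rw [this, one_div, log_inv, neg_neg]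
    refine e.trans ((P.H_le_add _ _).trans ((add_le_add k k2).trans ?_))
    have l3 : (1 : ℝ) ≤ l := by exact_mod_cast l0
    have : C * x₀ / B ≤ (C + 10) * x₀ / H := by gcongr; linarith
    linarith
  · rw [hS, mem_filter, mem_product, ← hz]
    exact ⟨⟨COREc.mem_Ico _ _, COREc.mem_Ico _ _⟩, α, β, rfl, hs, rfl⟩

end Pool.Agent.P.MP_e45b92_nt.EL
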