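import Pool.Agent.P.MP_e45b92_nt.EL.If

/-! Step DD. -/

set_option autoImplicit false

namespace Pool.Agent.P.MP_e45b92_nt.EL

open Finset Matrix Real
open Pool.Agent.P.MP_bf60a1_an.RA
open Pool.Agent.P.MP_246241_nt.EK (Vc Mt Gl Bd MI MI_nonneg MI_symm det_unit)

namespace DDc

theorem in_add {Q : Pos} {ρ x : ℤ} (i : Fin 3) (h0 : 0 ≤ x) (h : x ≤ ρ) :
    Q + ee i x ∈ Ball Q ρ := fun a => by
  simp only [Pi.add_apply, ee, Pi.single_apply]
  split_ifs <;> omega

theorem in_sub {Q : Pos} {ρ x : ℤ} (i : Fin 3) (h0 : 0 ≤ x) (h : x ≤ ρ) :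
    Q - ee i x ∈ Ball Q ρ := fun a => by
  simp only [Pi.sub_apply, ee, Pi.single_apply]
  split_ifs <;> omega

theorem in_HW {Q : Pos} {ρ x : ℤ} (i j : Fin 3) (h0 : 0 ≤ x) (h : x ≤ ρ) :
    In (HW i j x Q) (Ball Q ρ) := by
  simp only [In, HW, List.mem_cons, List.not_mem_nil, or_false, forall_eq_or_imp, forall_eq]
  exact ⟨in_sub i h0 h, in_add i h0 h, in_add j h0 h⟩

theorem in_cons {m : Pos} {R : List Pos} {U : Set Pos} (h : m ∈ U) (h' : In R U) :
    In (m :: R) U := by
  simp only [In, List.mem_cons, forall_eq_or_imp]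
  exact ⟨h, h'⟩

theorem sub_Q {Q : Pos} {x : ℤ} (i j : Fin 3) (h0 : 0 ≤ x) : Sub [Q] (HW i j x Q) := by
  simp only [Sub, mem_Hull, HW, List.mem_cons, List.not_mem_nil, or_false, forall_eq,
    exists_eq_or_imp, exists_eq_left, Pi.add_apply, Pi.sub_apply]
  intro a b
  omega

theorem sub_HW {Q : Pos} {x y : ℤ} (i j : Fin 3) (h0 : 0 ≤ x) (h : x ≤ y) :
    Sub (HW i j x Q) (HW i j y Q) := by
  simp only [Sub, mem_Hull, HW, List.mem_cons, List.not_mem_nil, or_false, forall_eq_or_imp,
    forall_eq, exists_eq_or_imp, exists_eq_left, Pi.add_apply, Pi.sub_apply, ee, Pi.single_apply]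
  and_intros <;> intro a b <;> split_ifs <;> omega

end DDc

open DDc in
theorem p_DD :
    S_DD := by
  intro U e ψ i j M M' L ρ Q hc h0 hU hL hLρ hM hMM hρ
  have a : In (HW i j M Q) U := (in_HW i j hM (by omega)).mono hU
  have a' : In (HW i j M' Q) U := (in_HW i j (by omega) hρ).mono hU
  have n : Q - ee j L ∈ U := hU (in_sub j hL hLρ)
  have q : In [Q] U := by simpa [In] using hU (self_Ball Q (by omega))
  unfold dd
  refine ⟨?_, ?_, ?_⟩
  · have := hc.le (R := HW i j M Q) (R' := (Q - ee j L) :: HW i j M Q) (by simp [HW])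
      (by simp [HW]) a (in_cons n a) (by simp) (.of_subset (List.subset_cons_self _ _))
    linarith
  · have := hc [Q] (HW i j M Q) [Q - ee j L, Q] ((Q - ee j L) :: HW i j M Q) (by simp)
      (by simp [HW]) (by simp) (by simp [HW]) q a (in_cons n q) (in_cons n a) (by simp)
      (sub_Q i j hM) (.of_subset (by simp)) (.of_subset (by simp))
    linarith [h0 [Q]]
  · have := hc (HW i j M Q) ((Q - ee j L) :: HW i j M Q) (HW i j M' Q)
      ((Q - ee j L) :: HW i j M' Q) (by simp [HW]) (by simp [HW]) (by simp [HW]) (by simp [HW])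
      a (in_cons n a) a' (in_cons n a') (by simp [HW]) (.of_subset (List.subset_cons_self _ _))
      (sub_HW i j hM hMM) (.of_subset (by
        intro m hm
        rcases List.mem_cons.1 hm with rfl | hm
        · simp
        · exact List.mem_append_right _ hm))
    linarith

end Pool.Agent.P.MP_e45b92_nt.EL
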