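import Pool.Agent.P.MP_e45b92_nt.EL.If

/-! Step DIAG. -/

set_option autoImplicit false

namespace Pool.Agent.P.MP_e45b92_nt.EL

open Finset Matrix Real
open Pool.Agent.P.MP_bf60a1_an.RA
open Pool.Agent.P.MP_246241_nt.EK (Vc Mt Gl Bd MI MI_nonneg MI_symm det_unit)

namespace DIAGc

theorem det_eq (h : M3) {i j k : Fin 3} (hT : Tri i j k) : h.det =
    h i i * h j j * h k k - h i i * h j k * h k j - h i j * h k k * h j i + h i j * h j k * h k i +
      h i k * h j i * h k j - h i k * h j j * h k i := by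
  have : ∀ i j k : Fin 3, Tri i j k → (i = 0 ∧ j = 1 ∧ k = 2) ∨ (i = 0 ∧ j = 2 ∧ k = 1) ∨
      (i = 1 ∧ j = 0 ∧ k = 2) ∨ (i = 1 ∧ j = 2 ∧ k = 0) ∨ (i = 2 ∧ j = 0 ∧ k = 1) ∨
      (i = 2 ∧ j = 1 ∧ k = 0) := by
    intro i j k
    unfold Tri
    omega
  rw [det_fin_three]
  rcases this i j k hT with g | g | g | g | g | g <;> obtain ⟨rfl, rfl, rfl⟩ := g <;> ring

theorem tm {x y s G δ : ℝ} (hx : |x| ≤ G) (hy : |y| ≤ G) (hs : |s| ≤ δ) :
    |x * y * s| ≤ G ^ 2 * δ := by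
  have g : 0 ≤ G := (abs_nonneg _).trans hx
  rw [abs_mul, abs_mul, sq]
  exact mul_le_mul (mul_le_mul hx hy (abs_nonneg _) g) hs (abs_nonneg _) (mul_nonneg g g)

end DIAGc

theorem p_DIAG :
    S_DIAG := by
  intro h i j k G δ hT hd hG a1 a2 a3 hδ
  have e := DIAGc.det_eq h hT
  have t1 := abs_le.1 (DIAGc.tm (hG i i) (hG j k) a3)
  have t2 := abs_le.1 (DIAGc.tm (hG i j) (hG k k) a1)
  have t3 := abs_le.1 (DIAGc.tm (hG i j) (hG j k) a2)
  have t4 := abs_le.1 (DIAGc.tm (hG i k) (hG j i) a3)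
  have t5 := abs_le.1 (DIAGc.tm (hG i k) (hG j j) a2)
  have m : 1 / 2 ≤ |h i i * h j j * h k k| := by
    rcases (abs_eq zero_le_one).1 hd with g | g
    · exact le_abs.2 (Or.inl (by linarith [t1.1, t2.1, t3.2, t4.2, t5.1]))
    · exact le_abs.2 (Or.inr (by linarith [t1.2, t2.2, t3.1, t4.1, t5.2]))
  refine (hT.all _).2 ⟨?_, ?_, ?_⟩
  · have := DIAGc.tm (hG j j) (hG k k) (le_refl |h i i|)
    rw [show h j j * h k k * h i i = h i i * h j j * h k k by ring] at this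
    linarith
  · have := DIAGc.tm (hG i i) (hG k k) (le_refl |h j j|)
    rw [show h i i * h k k * h j j = h i i * h j j * h k k by ring] at this
    linarith
  · have := DIAGc.tm (hG i i) (hG j j) (le_refl |h k k|)
    linarith

end Pool.Agent.P.MP_e45b92_nt.EL
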