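import Pool.Agent.P.MP_e45b92_nt.EL.If

/-! Step DLOC. -/

set_option autoImplicit false

namespace Pool.Agent.P.MP_e45b92_nt.EL

open Finset Matrix Real
open Pool.Agent.P.MP_bf60a1_an.RA
open Pool.Agent.P.MP_246241_nt.EK (Vc Mt Gl Bd MI MI_nonneg MI_symm det_unit)

namespace DLOCc

variable {Ω α α' β γ κ : Type} [Fintype Ω] (P : FP Ω)

theorem MI_right (A : Ω → α) {G : Ω → β} {G' : Ω → γ} {C : Ω → κ}
    (h : P.Det (fun ω => (G' ω, C ω)) G) : MI P A G C ≤ MI P A G' C := by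
  unfold MI
  have := P.Hc_mono_right A (C := fun ω => (G ω, C ω)) (C' := fun ω => (G' ω, C ω))
    fun ω ω' h1 h2 e => Prod.ext (h ω ω' h1 h2 e) (congrArg Prod.snd e :)
  linarith
theorem MI_mono {A : Ω → α} {A' : Ω → α'} {G : Ω → β} {G' : Ω → γ} {C : Ω → κ}
    (h : P.Det (fun ω => (A' ω, C ω)) A) (h' : P.Det (fun ω => (G' ω, C ω)) G) :
    MI P A G C ≤ MI P A' G' C := by
  refine (MI_right P A h').trans ?_
  rw [MI_symm, MI_symm P A']
  exact MI_right P G' h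

theorem tl (x : ℝ) (l : ℕ) : |(dig x l : ℝ) / 2 ^ l - x| ≤ 1 / 2 ^ l := by
  have h0 : (0 : ℝ) < 2 ^ l := by positivity
  rw [div_sub' h0.ne', abs_div, abs_of_pos h0]
  refine div_le_div_of_nonneg_right (abs_le.2 ?_) h0.le
  constructor <;> linarith [dig_le x l, lt_dig x l]

theorem db {x e : ℝ} (d : ℕ) (h : |x| ≤ e) : |(dig x d : ℝ)| ≤ 2 ^ d * (e + 1) := by
  have h0 : (1 : ℝ) ≤ 2 ^ d := one_le_pow₀ one_le_two
  have h1 := abs_le.1 h
  have a := mul_le_mul_of_nonneg_left h1.1 (zero_le_one.trans h0)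
  have b := mul_le_mul_of_nonneg_left h1.2 (zero_le_one.trans h0)
  rw [abs_le]
  constructor <;> linarith [dig_le x d, lt_dig x d]

theorem er {D1 D2 c e u v a : ℝ} (h1 : 0 ≤ D1) (h2 : 0 ≤ D2) (hu : |u| ≤ c) (hv : |v| ≤ c)
    (ha : |a| ≤ D2 * (e + 1)) : |D1 * D2 * u + D1 * v * a| ≤ D1 * D2 * c * (e + 2) := by
  refine (abs_add_le _ _).trans ?_
  rw [abs_mul, abs_mul _ a, abs_mul D1 v, abs_of_nonneg (mul_nonneg h1 h2), abs_of_nonneg h1]
  have b1 := mul_le_mul_of_nonneg_left hu (mul_nonneg h1 h2)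
  have b2 := mul_le_mul (mul_le_mul_of_nonneg_left hv h1) ha (abs_nonneg _)
    (mul_nonneg h1 ((abs_nonneg _).trans hu))
  linarith

end DLOCc

open DLOCc in
theorem p_DLOC (hLOC : S_LOC) (hMISS : S_MISS) :
    S_DLOC := by
  intro Ω κ _ P W X Y Z d1 d2 m l K e ρ h0 h1 hK hd1 hd2 hm hl hG hP
  have M0 : (0 : ℝ) < 1 / 2 ^ m := by positivity
  have r1 : ρ ^ 2 ≤ 1 := pow_le_one₀ h0.le h1
  have hm1 : (1 : ℝ) / 2 ^ m ≤ ρ ^ 2 / 32 := by
    rw [div_le_div_iff₀ (by positivity) (by norm_num)]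
    linarith
  have hm2 : 1 ≤ 2 ^ m * ρ := by
    have := mul_le_mul_of_nonneg_left (show ρ ^ 2 ≤ ρ by nlinarith)
      (show (0 : ℝ) ≤ 2 ^ m by positivity)
    linarith
  unfold Por at hP
  rw [pow_add] at hl hP
  have hc : 2 ^ d1 * 2 ^ d2 * (1 / 2 ^ l) * (e + 2) ≤ ρ ^ 2 / 32 := by
    rw [mul_one_div, div_mul_eq_mul_div, div_le_div_iff₀ (by positivity) (by norm_num)]
    linarith
  let z : Ω → ℝ := fun ω => 2 ^ d1 * 2 ^ d2 * ((dig (Z ω - X ω * Y ω) l : ℝ) / 2 ^ l) +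
    (2 ^ d1 * ((dig (X ω) l : ℝ) / 2 ^ l) - dig (X ω) d1) * dig (Y ω) d2
  let z' : Ω → ℝ := fun ω => 2 ^ d1 * 2 ^ d2 * ((dig (Z ω) l : ℝ) / 2 ^ l) -
    dig (X ω) d1 * (2 ^ d2 * ((dig (Y ω) l : ℝ) / 2 ^ l))
  let zt : Ω → ℝ := fun ω => 2 ^ d1 * 2 ^ d2 * (Z ω - X ω * Y ω) +
    (2 ^ d1 * X ω - dig (X ω) d1) * dig (Y ω) d2
  have ez : ∀ ω, 0 < P.p ω → |z ω - zt ω| ≤ ρ ^ 2 / 32 := fun ω h => by
    refine le_trans (le_of_eq ?_) ((er (D1 := 2 ^ d1) (D2 := 2 ^ d2) (by positivity)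
      (by positivity) (tl (Z ω - X ω * Y ω) l) (tl (X ω) l) (db d2 (hG ω h).2)).trans hc)
    congr 1
    simp only [z, zt]
    ring
  have ez' : ∀ ω, 0 < P.p ω → |z' ω - zt ω -
      Int.fract (2 ^ d1 * X ω) * Int.fract (2 ^ d2 * Y ω)| ≤ ρ ^ 2 / 32 := fun ω h => by
    have := er (D1 := 2 ^ d2) (D2 := 2 ^ d1) (by positivity) (by positivity) (tl (Z ω) l)
      ((abs_neg _).le.trans (tl (Y ω) l)) (db d1 (hG ω h).1)
    rw [mul_comm ((2 : ℝ) ^ d2) (2 ^ d1)] at this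
    refine le_trans (le_of_eq ?_) (this.trans hc)
    congr 1
    simp only [z', zt, Int.fract, ← dig.eq_1]
    ring
  refine (P.pr_mono fun ω _ k => ⟨hMISS Ω κ P W X d1 m ρ ω hm2 k.1,
    hMISS Ω κ P W Y d2 m ρ ω hm2 k.2⟩).trans ((hLOC Ω _ _ P (fun o => (dig (X o) d1, W o))
    (fun o => (dig (Y o) d2, W o)) (fun o => tr (X o) d1 m) (fun o => tr (Y o) d2 m) z z' ρ e K h0
    h1 hK (fun ω h => ?_) fun ω h => ?_).trans ?_)
  · obtain ⟨x0, x1, x2⟩ := tr_spec (X ω) d1 m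
    obtain ⟨y0, y1, y2⟩ := tr_spec (Y ω) d2 m
    have x3 := Int.fract_lt_one (2 ^ d1 * X ω)
    have y3 := Int.fract_lt_one (2 ^ d2 * Y ω)
    refine ⟨x0, by linarith, y0, by linarith, ?_⟩
    have a1 := abs_le.1 (ez ω h)
    have a2 := abs_le.1 (ez' ω h)
    generalize Int.fract (2 ^ d1 * X ω) = f at *
    generalize Int.fract (2 ^ d2 * Y ω) = g at *
    have a3 : tr (X ω) d1 m * tr (Y ω) d2 m ≤ f * g := mul_le_mul x1 y1 y0 (by linarith)
    have b1 : f * (g - tr (Y ω) d2 m) ≤ 1 * (1 / 2 ^ m) :=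
      mul_le_mul x3.le (by linarith) (by linarith) zero_le_one
    have b2 : (f - tr (X ω) d1 m) * tr (Y ω) d2 m ≤ (1 / 2 ^ m) * 1 :=
      mul_le_mul (by linarith) (by linarith) y0 M0.le
    rw [abs_le]
    constructor <;> linarith [a1.1, a1.2, a2.1, a2.2]
  · obtain ⟨τ, k, k'⟩ := hP ω h
    refine ⟨τ, k, fun ω' h' eA eB _ => ?_⟩
    have e1 : dig (X ω') d1 = dig (X ω) d1 := congrArg Prod.fst eA
    have e2 : dig (Y ω') d2 = dig (Y ω) d2 := congrArg Prod.fst eB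
    have a0 := k' ω' h' (congrArg Prod.snd eA) (abs_sub_of_dig e1.symm) (abs_sub_of_dig e2.symm)
    have a1 := abs_le.1 (ez ω h)
    have a2 := abs_le.1 (ez ω' h')
    have e : zt ω' - zt ω = 2 ^ d1 * 2 ^ d2 * (Z ω' - Z ω - X ω * (Y ω' - Y ω)) -
        (X ω' - X ω) * 2 ^ d1 * Int.fract (2 ^ d2 * Y ω') := by
      simp only [zt, Int.fract, ← dig.eq_1, e1, e2]
      ring
    have a3 : |(X ω' - X ω) * 2 ^ d1 * Int.fract (2 ^ d2 * Y ω')| ≤ 1 := by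
      rw [abs_mul, abs_mul, abs_of_nonneg (Int.fract_nonneg (2 ^ d2 * Y ω')),
        abs_of_nonneg (by positivity : (0 : ℝ) ≤ 2 ^ d1)]
      exact mul_le_one₀ (abs_sub_of_dig e1.symm) (Int.fract_nonneg _) (Int.fract_lt_one _).le
    have a4 := abs_le.1 a3
    rw [lt_abs] at a0
    rw [le_abs]
    rcases a0 with a0 | a0
    · left; linarith [a1.1, a1.2, a2.1, a2.2, a4.1, a4.2]
    · right; linarith [a1.1, a1.2, a2.1, a2.2, a4.1, a4.2]
  · refine mul_le_mul_of_nonneg_left (add_le_add (sqrt_le_sqrt (MI_mono P ?_ ?_))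
      (sqrt_le_sqrt (MI_mono P ?_ ?_))) (by positivity)
    · intro ω ω' _ _ e
      simp only [Prod.mk.injEq] at e
      simp only [tr, e.1, e.2.1]
    · intro ω ω' _ _ e
      simp only [Prod.mk.injEq] at e
      have e1 := dig_of_le (show d1 ≤ l by omega) e.1.1
      have e2 := dig_of_le hd1 e.1.1
      simp only [tr, z, e1, e2, e.1.1, e.1.2, e.2.1, e.2.2]
    · intro ω ω' _ _ e
      simp only [Prod.mk.injEq] at e
      simp only [tr, e.1, e.2.1]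
    · intro ω ω' _ _ e
      simp only [Prod.mk.injEq] at e
      have e1 := dig_of_le (show d2 ≤ l by omega) e.1.1
      have e2 := dig_of_le hd2 e.1.1
      simp only [tr, z', e1, e2, e.1.1, e.1.2, e.2.1, e.2.2]

end Pool.Agent.P.MP_e45b92_nt.EL
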