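import Pool.Agent.P.MP_e45b92_nt.EL.If

/-! Step DT. -/

set_option autoImplicit false

namespace Pool.Agent.P.MP_e45b92_nt.EL

open Finset Matrix Real
open Pool.Agent.P.MP_bf60a1_an.RA
open Pool.Agent.P.MP_246241_nt.EK (Vc Mt Gl Bd MI MI_nonneg MI_symm det_unit)

theorem p_DT (hDD : S_DD) :
    S_DT := by
  intro U e γ ψ M L r Q hC h0 hM hL hU hγ
  have H : ∀ (i j : Fin 3) (s t : ℕ), s ≤ t → t ≤ r → -e ≤ dd ψ i j (M s) L Q ∧
      dd ψ i j (M s) L Q ≤ ψ [Q - ee j L, Q] + e ∧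
      dd ψ i j (M t) L Q ≤ dd ψ i j (M s) L Q + e := fun i j s t h1 h2 =>
    hDD U e ψ i j (M s) (M t) L (M r) Q hC h0 hU (Int.natCast_nonneg _)
      (by exact_mod_cast hL.trans (hM r.zero_le)) (Int.natCast_nonneg _)
      (by exact_mod_cast hM h1) (by exact_mod_cast hM h2)
  refine ⟨fun s hs => sum_nonneg fun i _ => sum_nonneg fun j _ => ?_, ?_⟩
  · linarith [(H i j s (s + 1) s.le_succ hs).2.2]
  · have g : ∀ i j : Fin 3, ∑ s ∈ range r,
        (dd ψ i j (M s) L Q - dd ψ i j (M (s + 1)) L Q + e) ≤ γ + 2 * e + r * e := fun i j => by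
      rw [sum_add_distrib, sum_range_sub' (fun s => dd ψ i j (M s) L Q), sum_const, card_range,
        nsmul_eq_mul]
      linarith [(H i j 0 0 le_rfl r.zero_le).2.1, (H i j r r le_rfl le_rfl).1, hγ j]
    simp only [Dt]
    rw [sum_comm]
    calc _ ≤ ∑ _i : Fin 3, ∑ _j : Fin 3, (γ + 2 * e + r * e) :=
          sum_le_sum fun i _ => by
            rw [sum_comm]
            exact sum_le_sum fun j _ => g i j
      _ = _ := by
          simp only [Fin.sum_univ_three]
          ring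

end Pool.Agent.P.MP_e45b92_nt.EL
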