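import Pool.Agent.P.MP_e45b92_nt.EL.If

/-! Step ENT. -/

set_option autoImplicit false

namespace Pool.Agent.P.MP_e45b92_nt.EL

open Finset Matrix Real
open Pool.Agent.P.MP_bf60a1_an.RA
open Pool.Agent.P.MP_246241_nt.EK (Vc Mt Gl Bd MI MI_nonneg MI_symm det_unit)

namespace ENTc

theorem glue {Ω : Type} [Fintype Ω] (P : FP Ω) (x : Ω → Pt) {R R₁ R₂ : List Pos} (r : Pos)
    (h₁ : r ∈ R₁) (h₂ : r ∈ R₂) (h : R ⊆ R₁ ++ R₂) :
    ps P x (fun _ => True) R ≤ ps P x (fun _ => True) R₁ + ps P x (fun _ => True) R₂ := by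
  simp only [ps_true]
  exact (P.H_mono fun _ _ _ _ e => Pt.V_glue h₁ h₂ h (congrArg Prod.fst e)
    (congrArg Prod.snd e)).trans (P.H_pair_le _ _)

def phi (y : Pos) : Pos := ![y 0, y 1, y 2 - y 1]

theorem phi_ee (y : Pos) (k : ℤ) : phi (y + ee 1 k) = phi y + ee 1 k - ee 2 k := by
  ext a
  fin_cases a
  · show y 0 + 0 = y 0 + 0 - 0
    ring
  · show y 1 + k = y 1 + k - 0
    ring
  · show y 2 + 0 - (y 1 + k) = y 2 - y 1 + 0 - k
    ring

theorem phi_off (y o : Pos) : phi (y + ![o 0, o 1, o 1 + o 2]) = phi y + o := by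
  ext a
  fin_cases a <;> simp [phi]
  ring

theorem ball3 {Q m : Pos} {ρ : ℤ} (h0 : Q 0 - ρ ≤ m 0 ∧ m 0 ≤ Q 0 + ρ)
    (h1 : Q 1 - ρ ≤ m 1 ∧ m 1 ≤ Q 1 + ρ) (h2 : Q 2 - ρ ≤ m 2 ∧ m 2 ≤ Q 2 + ρ) : m ∈ Ball Q ρ :=
  fun a => by fin_cases a; exacts [h0, h1, h2]

theorem ball_reg {x₀ l : ℕ} {y : Pos} (a0 : -(l : ℤ) ≤ y 0) (b0 : y 0 ≤ 2 * l)
    (a1 : (x₀ : ℤ) + 7 * l ≤ y 1) (b1 : y 1 ≤ 2 * x₀ + 2 * l) (a2 : 3 * (x₀ : ℤ) + 8 * l ≤ y 2)
    (b2 : y 2 ≤ 3 * x₀ + 11 * l) : Ball (phi y) l ⊆ Reg x₀ (x₀ + 6 * l) := fun m hm => by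
  have h0 : y 0 - l ≤ m 0 ∧ m 0 ≤ y 0 + l := hm 0
  have h1 : y 1 - l ≤ m 1 ∧ m 1 ≤ y 1 + l := hm 1
  have h2 : y 2 - y 1 - l ≤ m 2 ∧ m 2 ≤ y 2 - y 1 + l := hm 2
  refine ⟨?_, ?_, ?_, ?_⟩ <;> push_cast <;> omega

theorem in2 {p q : Pos} {U : Set Pos} (hp : p ∈ U) (hq : q ∈ U) : In [p, q] U := fun m hm => by
  rcases List.mem_pair.1 hm with rfl | rfl
  exacts [hp, hq]

end ENTc

open ENTc in
theorem p_ENT (hFAM : S_FAM) (hONE : S_ONE) (hDT : S_DT) (hSCALE : S_SCALE) (hNUM : S_NUM) :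
    S_ENT := by
  obtain ⟨a, c, hc, hF⟩ := hFAM
  obtain ⟨C₁, A, C, hC₁, hC, hO⟩ := hONE a c hc
  obtain ⟨A', hN⟩ := hNUM a A C₁ c C (by linarith) (by linarith)
  refine ⟨A', 50 * c + C + 1, by linarith, fun B hB => ?_⟩
  obtain ⟨L, r, hL, hBL, hr, hl, hnum⟩ := hN B hB
  obtain ⟨M, hM⟩ : ∃ M : ℕ → ℕ, M = fun s => L * (40 * C₁ * B) ^ s := ⟨_, rfl⟩
  have G1 : 1 ≤ 40 * C₁ * B := by nlinarith
  have Mm : Monotone M := fun s t h => by
    rw [hM]; exact Nat.mul_le_mul_left _ (Nat.pow_le_pow_right G1 h)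
  have M0 : M 0 = L := by simp [hM]
  have Mp : ∀ s, L ≤ M s := fun s => M0 ▸ Mm (Nat.zero_le s)
  have Ms : ∀ s, (M (s + 1) : ℤ) = 40 * (C₁ * (B * M s) : ℕ) := fun s => by
    rw [hM]; push_cast; ring
  choose T o hT ho hS using fun s => hO B L (M s) hB hL (by rw [hM]; exact dvd_mul_right _ _)
    (by have := Mp s; omega)
  obtain ⟨l, el⟩ : ∃ l : ℕ, l = 100 * (C₁ * (B * M r)) := ⟨_, rfl⟩
  have w1 : ∀ s, M s ≤ B * M s := fun s => Nat.le_mul_of_pos_left _ (by omega)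
  have w2 : ∀ s, B * M s ≤ C₁ * (B * M s) := fun s => Nat.le_mul_of_pos_left _ hC₁
  have w3 : ∀ s < r, 100 * (C₁ * (B * M s)) ≤ l := fun s hs => by
    rw [el]; gcongr; exact Mm hs.le
  have w4 : B ≤ B * M r := Nat.le_mul_of_pos_right _ (by have := Mp r; omega)
  have w5 : 4 * B ≤ l := by have := w2 r; omega
  have w6 : M r ≤ l := by have := w2 r; have := w1 r; omega
  refine ⟨l, w5, by rw [el, hM]; exact hl, fun x₀ Ω _ P x hx => ?_⟩
  have F := hF Ω P x B _ hB hx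
  have B0 : (0 : ℝ) < B := by exact_mod_cast (by omega : 0 < B)
  have L0 : (0 : ℝ) < L := by exact_mod_cast (by omega : 0 < L)
  have Bl : 4 * (B : ℝ) ≤ l := by exact_mod_cast w5
  have sz : ∀ R Q (s : ℕ), R.length ≤ 5 → In R (Reg x₀ (x₀ + 6 * l)) → In R (Ball Q s) →
      ps P x (fun _ => True) R ≤ c * (s + B) := fun R Q s h1 h2 h3 => by
    simpa only [P.pr_eq_one fun _ _ => trivial, mul_one] using F.siz (fun _ => True) R Q s h1 h2 h3
  obtain ⟨c1, e1⟩ : ∃ p : Pos, p = ![0, (x₀ : ℤ), 2 * x₀] := ⟨_, rfl⟩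
  obtain ⟨c2, e2⟩ : ∃ p : Pos, p = ![(0 : ℤ), (x₀ + 6 * l : ℕ), 2 * (x₀ + 6 * l : ℕ)] := ⟨_, rfl⟩
  obtain ⟨c3, e3⟩ : ∃ p : Pos, p = ![(0 : ℤ), 2 * x₀, x₀] := ⟨_, rfl⟩
  obtain ⟨c4, e4⟩ : ∃ p : Pos, p = ![(0 : ℤ), 2 * (x₀ + 6 * l : ℕ), (x₀ + 6 * l : ℕ)] := ⟨_, rfl⟩
  have ec : cor x₀ (x₀ + 6 * l) = [c1, c2, c3, c4] := by rw [e1, e2, e3, e4, cor]
  have v1 : c1 0 = 0 ∧ c1 1 = x₀ ∧ c1 2 = 2 * x₀ := by rw [e1]; exact ⟨rfl, rfl, rfl⟩
  have v2 : c2 0 = 0 ∧ c2 1 = (x₀ + 6 * l : ℕ) ∧ c2 2 = 2 * (x₀ + 6 * l : ℕ) := by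
    rw [e2]; exact ⟨rfl, rfl, rfl⟩
  have v3 : c3 0 = 0 ∧ c3 1 = 2 * x₀ ∧ c3 2 = x₀ := by rw [e3]; exact ⟨rfl, rfl, rfl⟩
  have v4 : c4 0 = 0 ∧ c4 1 = 2 * (x₀ + 6 * l : ℕ) ∧ c4 2 = (x₀ + 6 * l : ℕ) := by
    rw [e4]; exact ⟨rfl, rfl, rfl⟩
  clear e1 e2 e3 e4
  have r1 : c1 ∈ Reg x₀ (x₀ + 6 * l) := ⟨by omega, by omega, by omega, by omega⟩
  have r2 : c2 ∈ Reg x₀ (x₀ + 6 * l) := ⟨by omega, by omega, by omega, by omega⟩
  have r3 : c3 ∈ Reg x₀ (x₀ + 6 * l) := ⟨by omega, by omega, by omega, by omega⟩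
  have r4 : c4 ∈ Reg x₀ (x₀ + 6 * l) := ⟨by omega, by omega, by omega, by omega⟩
  have x0 : 0 ≤ (50 * c + C + 1) * x₀ / B := by positivity
  have l0 : (0 : ℝ) ≤ l := Nat.cast_nonneg l
  rw [← ps_true, ec]
  rcases lt_or_ge x₀ (8 * l) with hx0 | hx0
  · have := sz [c1, c2, c3, c4] c1 (20 * l) (by simp) (by simp [In, r1, r2, r3, r4]) (by
      simp only [In, List.forall_mem_cons, List.not_mem_nil, false_imp_iff, implies_true, and_true]
      exact ⟨ball3 (by omega) (by omega) (by omega), ball3 (by omega) (by omega) (by omega),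
        ball3 (by omega) (by omega) (by omega), ball3 (by omega) (by omega) (by omega)⟩)
    push_cast at this
    nlinarith
  obtain ⟨n, rfl⟩ : ∃ n, x₀ = n + 7 * l := ⟨x₀ - 7 * l, by omega⟩
  have key := hSCALE r n l (fun s => B * M s) (fun y => ps P x (fun _ => True) [c1, phi y])
    (fun s y => Dt (ps P x fun _ => True) (B ^ a) (M s) (M (s + 1)) L (phi y)) T
    (fun s t => ![o s t 0, o s t 1, o s t 1 + o s t 2]) ![0, n + 15 * l, 3 * n + 30 * l] (B ^ A)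
    (9 * (c * (L + B) + 2 * B ^ a + r * B ^ a)) (C / L) (C / B) (c * ((9 * l : ℕ) + B))
    (ps P x (fun _ => True) [c1, c3] - c * ((9 * l : ℕ) + B)) hr (by omega) (by positivity)
    (by positivity)
    (fun s hs => ⟨by have := w1 s; have := Mp s; omega, by have := w2 s; have := w3 s hs; omega,
      by rw [div_mul_eq_mul_div, le_div_iff₀ L0]; push_cast; exact hT s, fun t ht => by
        have h0 : (0 : ℤ) - _ ≤ _ ∧ _ ≤ (0 : ℤ) + _ := ho s t ht 0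
        have h1 : (0 : ℤ) - _ ≤ _ ∧ _ ≤ (0 : ℤ) + _ := ho s t ht 1
        have h2 : (0 : ℤ) - _ ≤ _ ∧ _ ≤ (0 : ℤ) + _ := ho s t ht 2
        have h3 := w3 s hs
        generalize C₁ * (B * M s) = w at *
        exact ball3 (show (0 : ℤ) - l ≤ o s t 0 ∧ o s t 0 ≤ 0 + l by omega)
          (show (0 : ℤ) - l ≤ o s t 1 ∧ o s t 1 ≤ 0 + l by omega)
          (show (0 : ℤ) - l ≤ o s t 1 + o s t 2 ∧ o s t 1 + o s t 2 ≤ 0 + l by omega)⟩)
    (fun y g (b0 : y 0 ≤ 0 + 2 * l) (b1 : y 1 ≤ n + 15 * l + n + l)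
        (b2 : y 2 ≤ 3 * n + 30 * l + 2 * l) => by
      have a0 : (0 : ℤ) - l ≤ y 0 := g 0
      have a1 : (n : ℤ) + 15 * l - l ≤ y 1 := g 1
      have a2 : 3 * (n : ℤ) + 30 * l - l ≤ y 2 := g 2
      have hb := ball_reg (x₀ := n + 7 * l) (l := l) (y := y) (by omega) (by omega) (by omega)
        (by omega) (by omega) (by omega)
      have hLl : L ≤ l := (Mp r).trans w6
      refine hDT _ _ _ _ M L r _ (F.cal _) (F.nn _) Mm M0.ge
        ((Ball_sub (self_Ball _ le_rfl) (by omega)).trans hb) fun j => ?_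
      have h1 : In [phi y - ee j L, phi y] (Ball (phi y) L) := in2 (fun b => by
        by_cases e : b = j
        · rw [e, Pi.sub_apply, ee_self]; omega
        · rw [Pi.sub_apply, ee_ne e]; omega) (self_Ball _ (by omega))
      exact sz _ _ L (by simp) (h1.mono ((Ball_sub (self_Ball _ le_rfl) (by omega)).trans hb)) h1)
    (fun y g (b0 : y 0 ≤ 0 + l) (b1 : y 1 ≤ n + 15 * l + n + l)
        (b2 : y 2 ≤ 3 * n + 30 * l + l) => by
      have a0 : (0 : ℤ) ≤ y 0 := g 0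
      have a1 : (n : ℤ) + 15 * l ≤ y 1 := g 1
      have a2 : 3 * (n : ℤ) + 30 * l ≤ y 2 := g 2
      have hb := ball_reg (x₀ := n + 7 * l) (l := l) (y := y) (by omega) (by omega) (by omega)
        (by omega) (by omega) (by omega)
      have hy := hb (self_Ball _ (by omega))
      have p0 : phi y 0 = y 0 := rfl
      have p1 : phi y 1 = y 1 := rfl
      have p2 : phi y 2 = y 2 - y 1 := rfl
      refine ⟨fun (h : y 1 ≤ n + 15 * l + l) => sz _ c1 _ (by simp) (in2 r1 hy)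
        (in2 (self_Ball _ (by omega)) (ball3 (by omega) (by omega) (by omega))),
        fun (h : (n : ℤ) + 15 * l + n ≤ y 1) => ?_, fun _ s hs => ?_⟩
      · have h1 := sz [phi y, c3] c3 (9 * l) (by simp) (in2 hy r3)
          (in2 (ball3 (by omega) (by omega) (by omega)) (self_Ball _ (by omega)))
        have h2 := glue P x (R := [c1, c3]) (R₁ := [c1, phi y]) (R₂ := [phi y, c3]) (phi y)
          (by simp) (by simp) (by simp)
        linarith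
      · have hb' : Ball (phi y) (100 * (C₁ * (B * M s) : ℕ)) ⊆ Reg (n + 7 * l) (n + 7 * l + 6 * l) :=
          (Ball_sub (self_Ball _ le_rfl) (by have := w3 s hs; omega)).trans hb
        have h1 := hS s Ω P x (phi y) (hx.mono hb') (F.mono hb')
        have h2 := glue P x (R := [c1, phi y + ee 1 (B * M s : ℕ) - ee 2 (B * M s : ℕ)])
          (R₁ := [c1, phi y]) (R₂ := [phi y, phi y + ee 1 (B * M s : ℕ) - ee 2 (B * M s : ℕ)])
          (phi y) (by simp) (by simp) (by simp)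
        have h3 : C / B * ((B * M s : ℕ) : ℝ) = C * M s := by push_cast; field_simp
        simp only [phi_ee, phi_off, Ms, h3]
        linarith)
  have g1 := glue P x (R := [c1, c2, c3, c4]) (R₁ := [c1, c2, c3]) (R₂ := [c3, c4]) c3
    (by simp) (by simp) (by simp)
  have g2 := glue P x (R := [c1, c2, c3]) (R₁ := [c1, c2]) (R₂ := [c1, c3]) c1
    (by simp) (by simp) (by simp)
  have g3 := sz [c1, c2] c1 (12 * l) (by simp) (in2 r1 r2)
    (in2 (self_Ball _ (by omega)) (ball3 (by omega) (by omega) (by omega)))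
  have g4 := sz [c3, c4] c3 (12 * l) (by simp) (in2 r3 r4)
    (in2 (self_Ball _ (by omega)) (ball3 (by omega) (by omega) (by omega)))
  have g5 : (n : ℝ) * (C / B + 1 / B) ≤ (50 * c + C + 1) * (n + 7 * l : ℕ) / B := by
    rw [← add_div, ← mul_div_assoc]
    refine div_le_div_of_nonneg_right ?_ B0.le
    push_cast
    nlinarith [Nat.cast_nonneg (α := ℝ) n]
  have g6 := key.trans (mul_le_mul_of_nonneg_left (add_le_add_right hnum _) (Nat.cast_nonneg n))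
  push_cast at g3 g4 g6
  nlinarith

end Pool.Agent.P.MP_e45b92_nt.EL
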