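import Pool.Agent.P.MP_e45b92_nt.EL.If

/-! Step FAM. -/

set_option autoImplicit false

namespace Pool.Agent.P.MP_e45b92_nt.EL

open Finset Matrix Real
open Pool.Agent.P.MP_bf60a1_an.RA
open Pool.Agent.P.MP_246241_nt.EK (Vc Mt Gl Bd MI MI_nonneg MI_symm det_unit)

theorem p_FAM (hCAL : S_CAL) (hSIZE : S_SIZE) (hSPLIT : S_SPLIT) :
    S_FAM := by
  obtain ⟨a, ha⟩ := hCAL
  obtain ⟨c, hc1, hc⟩ := hSIZE
  refine ⟨a, c, hc1, fun Ω _ P x B U hB hS => ⟨fun E => ?_, fun E R => ?_,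
    fun E R Q s h1 h2 h3 => ?_, fun E E₁ E₂ R h1 h2 => ?_, fun E E₁ E₂ R h1 h2 => ?_,
    fun E E₁ E₂ R R' h1 h2 h3 => ?_⟩⟩
  · intro R₀ R₁ R₂ R₃ l₀ l₁ l₂ l₃ i₀ i₁ i₂ i₃ h0 s₁ s₂ s₃
    have h := ha Ω (P.cond E) x B U hB (hS.cond E) R₀ R₁ R₂ R₃ l₀ l₁ l₂ l₃ i₀ i₁ i₂ i₃ h0 s₁ s₂ s₃
    have h' := mul_le_mul_of_nonneg_left h (P.pr_nonneg E)
    have he : (0 : ℝ) ≤ (B : ℝ) ^ a := by positivity
    have h'' := mul_le_mul_of_nonneg_right (P.pr_le_one E) he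
    simp only [ps, pH]
    linarith
  · exact mul_nonneg (P.pr_nonneg E) ((P.cond E).H_nonneg _)
  · have h := hc Ω (P.cond E) x B U R Q s hB (hS.cond E) h1 h2 h3
    have h' := mul_le_mul_of_nonneg_left h (P.pr_nonneg E)
    simp only [ps, pH]
    linarith
  · exact (hSPLIT Ω _ _ P E E₁ E₂ (fun ω => (x ω).V R) (fun ω => (x ω).V R) h1 h2).1
  · exact (hSPLIT Ω _ _ P E E₁ E₂ (fun ω => (x ω).V R) (fun ω => (x ω).V R) h1 h2).2.1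
  · exact (hSPLIT Ω _ _ P E E₁ E₂ (fun ω => (x ω).V R) (fun ω => (x ω).V R') h1 h2).2.2
      (det_V P x h3)

end Pool.Agent.P.MP_e45b92_nt.EL
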