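import Pool.Agent.P.MP_e45b92_nt.EL.If

/-! Step FAR. -/

set_option autoImplicit false

namespace Pool.Agent.P.MP_e45b92_nt.EL

open Finset Matrix Real
open Pool.Agent.P.MP_bf60a1_an.RA
open Pool.Agent.P.MP_246241_nt.EK (Vc Mt Gl Bd MI MI_nonneg MI_symm det_unit)

theorem p_FAR (hINV : S_INV) :
    S_FAR := by
  intro x B U w m l s E hx hw hm hE h1 h2
  by_contra hc
  rw [not_le] at hc
  obtain ⟨m', hm'⟩ : ∃ m', m' = m + ee l (3 * s) := ⟨_, rfl⟩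
  have hU : m' ∈ U := hm' ▸ hm
  have e1 : lv x w m' = cz (w ᵥ* (((x.g m')⁻¹ : Gl 3) : Mt 3)) ᵥ* x.b m' := by
    rw [← lv_g]; simp
  have e2 : cz (w ᵥ* (((x.g m')⁻¹ : Gl 3) : Mt 3)) = lv x w m' ᵥ* (x.b m')⁻¹ := by
    rw [e1, vecMul_vecMul, hx.mul_inv, vecMul_one]
  obtain ⟨a, ha⟩ := Function.ne_iff.1 (vecMul_ne hw (x.g m')⁻¹)
  have h3 : (1 : ℝ) ≤ |cz (w ᵥ* (((x.g m')⁻¹ : Gl 3) : Mt 3)) a| := by
    rw [cz, ← Int.cast_abs]
    exact_mod_cast Int.one_le_abs ha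
  have hI := hINV _ _ (hx.det m') (hx.2 m' hU)
  have p2 : (0 : ℝ) < 2 ^ s := by positivity
  have hB : (0 : ℝ) ≤ 2 * B ^ 2 := by positivity
  have hne : ∀ j, j ≠ l → |lv x w m' j| * (2 * B ^ 2) < 1 / 3 := fun j hj => by
    rw [hm', lv_add, wt_ee_ne hj, abs_mul, abs_of_pos (show (0 : ℝ) < 1 / 2 ^ s by positivity),
      mul_right_comm, mul_one_div, div_lt_iff₀ p2]
    nlinarith [mul_le_mul_of_nonneg_right (hE j hj) hB]
  have hl : |lv x w m' l| * (2 * B ^ 2) ≤ 1 / 3 := by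
    rw [lt_div_iff₀ (by positivity), show 3 * s = 2 * s + s by ring, pow_add] at hc
    rw [hm', lv_add, wt_ee_self, abs_mul, abs_of_pos (show (0 : ℝ) < 2 ^ (2 * s) by positivity)]
    have q : 0 ≤ |lv x w m l| * 2 ^ (2 * s) := by positivity
    nlinarith [mul_le_mul_of_nonneg_left h2 q]
  have h4 : ∑ j, |lv x w m' j| * (2 * B ^ 2) < ∑ _j : Fin 3, (1 / 3 : ℝ) := by
    obtain ⟨j, hj⟩ := exists_ne l
    refine sum_lt_sum (fun k _ => ?_) ⟨j, mem_univ _, hne j hj⟩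
    by_cases hk : k = l
    · exact hk ▸ hl
    · exact (hne k hk).le
  have h5 : |(lv x w m' ᵥ* (x.b m')⁻¹) a| ≤ ∑ j, |lv x w m' j| * (2 * B ^ 2) := by
    change |∑ j, lv x w m' j * (x.b m')⁻¹ j a| ≤ _
    refine (abs_sum_le_sum_abs _ _).trans (sum_le_sum fun j _ => ?_)
    rw [abs_mul]
    exact mul_le_mul_of_nonneg_left (hI j a) (abs_nonneg _)
  rw [e2] at h3
  rw [Fin.sum_univ_three (fun _ => (1 / 3 : ℝ))] at h4
  linarith

end Pool.Agent.P.MP_e45b92_nt.EL
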