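import Pool.Agent.P.MP_246241_nt.EK.TCNT
import Pool.Agent.P.MP_246241_nt.EK.TEIG
import Pool.Agent.P.MP_246241_nt.EK.TCOEF
import Pool.Agent.P.MP_246241_nt.EK.TCHAR
import Pool.Agent.P.MP_246241_nt.EK.TFIB

/-! Few small unimodular matrices have a common approximate real eigenvector. -/

set_option autoImplicit false

namespace Pool.Agent.P.MP_e45b92_nt.EL.RF

open Finset Matrix Real
open Pool.Agent.P.MP_246241_nt.EK

/-- a singular nonzero integer matrix has a small left kernel row -/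
theorem ker {N : Mt 3} {R : ℕ} (hR : 1 ≤ R) (hb : Bd N R) (h0 : N ≠ 0) (hd : N.det = 0) :
    ∃ ρ : Vc 3, ρ ≠ 0 ∧ (∀ j, |ρ j| ≤ 2 * (R : ℤ) ^ 2) ∧ ρ ᵥ* N = 0 := by
  have hR' : (1 : ℤ) ≤ R := by exact_mod_cast hR
  have mm : ∀ {p q r s : ℤ}, |p| ≤ R → |q| ≤ R → |r| ≤ R → |s| ≤ R →
      |p * q - r * s| ≤ 2 * (R : ℤ) ^ 2 ∧ |-(p * q) + r * s| ≤ 2 * (R : ℤ) ^ 2 := by
    intro p q r s hp hq hr hs
    have h1 : |p * q| ≤ (R : ℤ) * R := by
      rw [abs_mul]; exact mul_le_mul hp hq (abs_nonneg _) (by positivity)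
    have h2 : |r * s| ≤ (R : ℤ) * R := by
      rw [abs_mul]; exact mul_le_mul hr hs (abs_nonneg _) (by positivity)
    have := abs_sub (p * q) (r * s)
    rw [neg_add_eq_sub, abs_sub_comm (r * s)]
    constructor <;> nlinarith
  by_cases ha : N.adjugate = 0
  · obtain ⟨a, b, hab⟩ : ∃ a b, N a b ≠ 0 := by
      by_contra h
      push Not at h
      exact h0 (Matrix.ext h)
    have hm : ∀ i j, N.adjugate i j = 0 := fun i j => by rw [ha]; rfl
    have m00 := hm 0 0; have m01 := hm 0 1; have m02 := hm 0 2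
    have m10 := hm 1 0; have m11 := hm 1 1; have m12 := hm 1 2
    have m20 := hm 2 0; have m21 := hm 2 1; have m22 := hm 2 2
    simp only [adjugate_fin_three, of_apply, cons_val', cons_val_zero, cons_val_one, cons_val_two,
      cons_val_fin_one, head_cons, tail_cons, head_fin_const, empty_val'] at m00 m01 m02 m10 m11 m12 m20 m21 m22
    have hb2 : ∀ i j, |N i j| ≤ 2 * (R : ℤ) ^ 2 := fun i j => (hb i j).trans (by nlinarith)
    refine ⟨fun i => if i = a + 1 then N a b else if i = a then -N (a + 1) b else 0, fun h => ?_,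
      fun j => ?_, ?_⟩
    · have := congrFun h (a + 1)
      simp at this
      exact hab this
    · dsimp only
      split_ifs
      · exact hb2 _ _
      · rw [abs_neg]; exact hb2 _ _
      · simp
    · funext j
      simp only [vecMul, dotProduct, Fin.sum_univ_three, Pi.zero_apply]
      fin_cases a <;> fin_cases b <;> fin_cases j <;> simp <;> linarith
  · obtain ⟨a, b, hab⟩ : ∃ a b, N.adjugate a b ≠ 0 := by
      by_contra h
      push Not at h
      exact ha (Matrix.ext h)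
    refine ⟨N.adjugate a, fun h => hab (congrFun h b), fun j => ?_, ?_⟩
    · rw [adjugate_fin_three]
      fin_cases a <;> fin_cases j <;> simp
      exacts [(mm (hb _ _) (hb _ _) (hb _ _) (hb _ _)).1, (mm (hb _ _) (hb _ _) (hb _ _) (hb _ _)).2,
        (mm (hb _ _) (hb _ _) (hb _ _) (hb _ _)).1, (mm (hb _ _) (hb _ _) (hb _ _) (hb _ _)).2,
        (mm (hb _ _) (hb _ _) (hb _ _) (hb _ _)).1, (mm (hb _ _) (hb _ _) (hb _ _) (hb _ _)).2,
        (mm (hb _ _) (hb _ _) (hb _ _) (hb _ _)).1, (mm (hb _ _) (hb _ _) (hb _ _) (hb _ _)).2,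
        (mm (hb _ _) (hb _ _) (hb _ _) (hb _ _)).1]
    · have := congrFun (adjugate_mul N) a
      rw [hd, zero_smul] at this
      exact this

/-- the real vector `N c` -/
def ap (N : Mt 3) (c : Fin 3 → ℝ) (i : Fin 3) : ℝ := ∑ j, (N i j : ℝ) * c j

theorem ap_le {N : Mt 3} {R : ℕ} (hb : Bd N R) {e : Fin 3 → ℝ} {ε : ℝ} (he : ∀ j, |e j| ≤ ε)
    (i : Fin 3) : |ap N e i| ≤ 3 * R * ε := by
  have h : ∀ j, |(N i j : ℝ) * e j| ≤ R * ε := fun j => by
    rw [abs_mul]
    exact mul_le_mul (by exact_mod_cast hb i j) (he j) (abs_nonneg _) (by positivity)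
  have := abs_sum_le_sum_abs (fun j => (N i j : ℝ) * e j) univ
  rw [Fin.sum_univ_three (fun j => |(N i j : ℝ) * e j|)] at this
  have h0 := h 0; have h1 := h 1; have h2 := h 2
  unfold ap
  linarith

theorem rfib : ∃ (a : ℕ) (C : ℝ), ∀ (c : Fin 3 → ℝ) (S : Finset (Gl 3)) (R : ℕ) (δ ε : ℝ),
    2 ≤ R → (∀ j, |c j| ≤ R) →
    (∀ ρ : Vc 3, ρ ≠ 0 → (∀ j, |ρ j| ≤ (R : ℤ) ^ a) → δ ≤ |∑ j, (ρ j : ℝ) * c j|) →
    0 < δ → δ ≤ 1 → ε * (R : ℝ) ^ a < δ ^ 2 →
    (∀ g ∈ S, Bd (g : Mt 3) R ∧ Bd ((g⁻¹ : Gl 3) : Mt 3) R) →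
    (∀ g ∈ S, ∃ l : ℝ, ∀ i, |∑ j, ((g : Mt 3) i j : ℝ) * c j - l * c i| ≤ ε) →
    (#S : ℝ) ≤ C * (1 + log R) ^ 3 := by
  obtain ⟨C, hC⟩ := p_CNT p_EIG (p_COEF) p_CHAR 3
  refine ⟨12, C, fun c S R δ ε hR hc hF h0 h1 hε hB hS => ?_⟩
  have hR' : (2 : ℝ) ≤ R := by exact_mod_cast hR
  have hR1 : (1 : ℝ) ≤ R := by linarith
  have kill : ∀ (N : Mt 3) (k : ℕ), k ≤ 12 → Bd N (R ^ k) → (∀ i, |ap N c i| < δ) → N = 0 := by
    intro N k hk hb hs
    funext i
    by_contra hi
    refine absurd (hF (N i) hi fun j => (hb i j).trans ?_) (not_le.2 (hs i))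
    push_cast
    exact pow_le_pow_right₀ (by exact_mod_cast (by omega : 1 ≤ R)) hk
  have c0 : δ ≤ |c 0| := by
    have := hF (Pi.single 0 1) (fun h => by simpa using congrFun h 0) fun j => by
      have : (1 : ℤ) ≤ (R : ℤ) ^ 12 := one_le_pow₀ (by exact_mod_cast (by omega : 1 ≤ R))
      fin_cases j <;> simp
      omega
    simpa [Fin.sum_univ_three] using this
  have p12 : (0 : ℝ) < (R : ℝ) ^ 12 := by positivity
  have pw : ∀ k : ℕ, k ≤ 12 → ∀ A : ℝ, A ≤ 2 ^ (12 - k) → A * (R : ℝ) ^ k ≤ (R : ℝ) ^ 12 := by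
    intro k hk A hA
    calc A * (R : ℝ) ^ k ≤ (R : ℝ) ^ (12 - k) * (R : ℝ) ^ k :=
          mul_le_mul_of_nonneg_right (hA.trans (pow_le_pow_left₀ (by norm_num) hR' _))
            (by positivity)
      _ = _ := by rw [← pow_add]; congr 1; omega
  refine hC S R (by omega) (fun g hg h hh => ?_) hB fun g hg h hh hd => ?_
  · obtain ⟨l, hl⟩ := hS g hg
    obtain ⟨m, hm⟩ := hS h hh
    have e0 : 0 ≤ ε := (abs_nonneg _).trans (hl 0)
    have e1 : ε ≤ 1 := by
      have := one_le_pow₀ (n := 12) hR1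
      nlinarith
    have bg := (hB g hg).1
    have bh := (hB h hh).1
    have lam : ∀ (x : Gl 3) (t : ℝ), Bd (x : Mt 3) R →
        (∀ i, |∑ j, ((x : Mt 3) i j : ℝ) * c j - t * c i| ≤ ε) → |t| * δ ≤ 4 * (R : ℝ) ^ 2 := by
      intro x t bx ht
      have a1 := ap_le bx hc 0
      have a2 := ht 0
      have a3 : |t * c 0| ≤ |ap (x : Mt 3) c 0| + ε := by
        have := abs_sub_abs_le_abs_sub (t * c 0) (ap (x : Mt 3) c 0)
        rw [abs_sub_comm] at this
        unfold ap at *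
        linarith
      rw [abs_mul] at a3
      have := mul_le_mul_of_nonneg_left c0 (abs_nonneg t)
      nlinarith
    have ll := lam g l bg hl
    have lm := lam h m bh hm
    rw [← pow_one R] at bg bh
    refine Units.ext (sub_eq_zero.1 (kill _ _ (by norm_num)
      (FIBc.bd_sub hR (FIBc.bd_mul hR bg bh) (FIBc.bd_mul hR bh bg)) fun i => ?_))
    rw [pow_one] at bg bh
    set e : Fin 3 → ℝ := fun i => ∑ j, ((g : Mt 3) i j : ℝ) * c j - l * c i with he
    set e' : Fin 3 → ℝ := fun i => ∑ j, ((h : Mt 3) i j : ℝ) * c j - m * c i with he'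
    have id : ap ((g : Mt 3) * (h : Mt 3) - (h : Mt 3) * (g : Mt 3)) c i =
        m * e i - l * e' i + ap (g : Mt 3) e' i - ap (h : Mt 3) e i := by
      simp only [ap, he, he', Matrix.sub_apply, Matrix.mul_apply, Fin.sum_univ_three]
      push_cast
      ring
    rw [Units.val_mul, Units.val_mul, id]
    have a1 := ap_le bg hm i
    have a2 := ap_le bh hl i
    have a3 : |m * e i| ≤ |m| * ε := by
      rw [abs_mul]; exact mul_le_mul_of_nonneg_left (hl i) (abs_nonneg _)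
    have a4 : |l * e' i| ≤ |l| * ε := by
      rw [abs_mul]; exact mul_le_mul_of_nonneg_left (hm i) (abs_nonneg _)
    have a5 : |m * e i - l * e' i + ap (g : Mt 3) e' i - ap (h : Mt 3) e i| ≤
        |m| * ε + |l| * ε + 6 * R * ε := by
      have b1 := abs_sub (m * e i - l * e' i + ap (g : Mt 3) e' i) (ap (h : Mt 3) e i)
      have b2 := abs_add_le (m * e i - l * e' i) (ap (g : Mt 3) e' i)
      have b3 := abs_sub (m * e i) (l * e' i)
      linarith
    refine a5.trans_lt (lt_of_mul_lt_mul_right ?_ h0.le)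
    have q1 := mul_le_mul_of_nonneg_right ll e0
    have q2 := mul_le_mul_of_nonneg_right lm e0
    have q3 : 6 * R * ε * δ ≤ 6 * (R : ℝ) ^ 2 * ε := by
      have : (R : ℝ) * δ ≤ (R : ℝ) ^ 2 := by nlinarith
      nlinarith
    have q4 := mul_le_mul_of_nonneg_right (pw 2 (by norm_num) 14 (by norm_num)) e0
    nlinarith
  · obtain ⟨l, hl⟩ := hS g hg
    obtain ⟨m, hm⟩ := hS h hh
    have e0 : 0 ≤ ε := (abs_nonneg _).trans (hl 0)
    have bg := (hB g hg).1
    have bh := (hB h hh).1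
    rw [← pow_one R] at bg bh
    have bN := FIBc.bd_sub hR bg bh
    by_contra hne
    have hN : (g : Mt 3) - (h : Mt 3) ≠ 0 := fun h' => hne (Units.ext (sub_eq_zero.1 h'))
    obtain ⟨ρ, r0, r1, r2⟩ := ker (Nat.one_le_pow _ _ (by omega)) bN hN hd
    set N := (g : Mt 3) - (h : Mt 3) with hNd
    set e : Fin 3 → ℝ := fun i => ap N c i - (l - m) * c i with he
    have eb : ∀ i, |e i| ≤ 2 * ε := fun i => by
      have id : e i = (∑ j, ((g : Mt 3) i j : ℝ) * c j - l * c i) -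
          (∑ j, ((h : Mt 3) i j : ℝ) * c j - m * c i) := by
        simp only [he, ap, hNd, Matrix.sub_apply, Fin.sum_univ_three]
        push_cast
        ring
      rw [id]
      have := abs_sub (∑ j, ((g : Mt 3) i j : ℝ) * c j - l * c i)
        (∑ j, ((h : Mt 3) i j : ℝ) * c j - m * c i)
      linarith [hl i, hm i]
    have r5 : ∀ j, |ρ j| ≤ ((R ^ 5 : ℕ) : ℤ) := fun j => (r1 j).trans (by
      have : (2 : ℤ) ≤ R := by exact_mod_cast hR
      push_cast
      have h4 : (0 : ℤ) ≤ (R : ℤ) ^ 4 := by positivity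
      nlinarith)
    have f1 := hF ρ r0 fun j => (r5 j).trans (by
      push_cast
      exact pow_le_pow_right₀ (by exact_mod_cast (by omega : 1 ≤ R)) (by norm_num))
    have f2 := ap_le (N := Matrix.of fun _ j => ρ j) (fun _ j => r5 j) eb 0
    have id : (l - m) * ∑ j, (ρ j : ℝ) * c j = -ap (Matrix.of fun _ j => ρ j) e 0 := by
      have z : ∀ j, (ρ 0 : ℝ) * N 0 j + ρ 1 * N 1 j + ρ 2 * N 2 j = 0 := fun j => by
        have := congrFun r2 j
        simp only [vecMul, dotProduct, Fin.sum_univ_three, Pi.zero_apply] at this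
        exact_mod_cast this
      simp only [ap, he, of_apply, Fin.sum_univ_three]
      linear_combination c 0 * z 0 + c 1 * z 1 + c 2 * z 2
    have f3 : |l - m| * δ ≤ 3 * (R : ℝ) ^ 5 * (2 * ε) := by
      have := congrArg abs id
      rw [abs_mul, abs_neg] at this
      push_cast at f2
      have := mul_le_mul_of_nonneg_left f1 (abs_nonneg (l - m))
      linarith
    refine hN (kill N _ (by norm_num) bN fun i => ?_)
    have f4 : |ap N c i| ≤ |l - m| * R + 2 * ε := by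
      have b1 : ap N c i = (l - m) * c i + e i := by simp [he]
      have b2 := abs_add_le ((l - m) * c i) (e i)
      rw [abs_mul] at b2
      have := mul_le_mul_of_nonneg_left (hc i) (abs_nonneg (l - m))
      rw [b1]
      linarith [eb i]
    refine f4.trans_lt (lt_of_mul_lt_mul_right ?_ h0.le)
    have q1 := mul_le_mul_of_nonneg_right f3 (by positivity : (0 : ℝ) ≤ R)
    have q2 : 2 * ε * δ ≤ 2 * (R : ℝ) ^ 6 * ε := by
      have := one_le_pow₀ (n := 6) hR1
      nlinarith [mul_nonneg e0 (sub_nonneg.2 (h1.trans this))]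
    have q4 := mul_le_mul_of_nonneg_right (pw 6 (by norm_num) 8 (by norm_num)) e0
    nlinarith

end Pool.Agent.P.MP_e45b92_nt.EL.RF
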