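import Pool.Agent.P.MP_e45b92_nt.EL.If
import Pool.Agent.P.MP_e45b92_nt.EL.RFib

/-! Step FIB. -/

set_option autoImplicit false

namespace Pool.Agent.P.MP_e45b92_nt.EL

open Finset Matrix Real
open Pool.Agent.P.MP_bf60a1_an.RA
open Pool.Agent.P.MP_246241_nt.EK (Vc Mt Gl Bd MI MI_nonneg MI_symm det_unit)

namespace FIBc

theorem bd_mul {g h : Mt 3} {A R : ℕ} (hg : Bd g A) (hh : Bd h A) (hR : 3 * A ^ 2 ≤ R) :
    Bd (g * h) R := fun i j => by
  have e : ∀ l, |g i l * h l j| ≤ (A : ℤ) * A := fun l => by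
    rw [abs_mul]
    exact mul_le_mul (hg _ _) (hh _ _) (abs_nonneg _) (by positivity)
  have hR' : 3 * (A : ℤ) ^ 2 ≤ R := by exact_mod_cast hR
  rw [Matrix.mul_apply, Fin.sum_univ_three]
  nlinarith [abs_add_three (g i 0 * h 0 j) (g i 1 * h 1 j) (g i 2 * h 2 j), e 0, e 1, e 2]

theorem big {B s k : ℕ} (hB : 2 ≤ B) (hs : B ^ (2 * k + 6) ≤ s) : 216 * B ^ 7 ≤ 2 ^ s := by
  have h1 : B ^ 5 ≤ s := (Nat.pow_le_pow_right (by omega) (by omega)).trans hs
  have h2 : 2 ^ 4 * B ≤ B ^ 5 := by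
    rw [pow_succ B]; exact Nat.mul_le_mul_right _ (Nat.pow_le_pow_left hB 4)
  have h3 : B ^ 7 ≤ (2 ^ B) ^ 7 := Nat.pow_le_pow_left Nat.lt_two_pow_self.le 7
  calc 216 * B ^ 7 ≤ 2 ^ 8 * (2 ^ B) ^ 7 := Nat.mul_le_mul (by norm_num) h3
    _ = 2 ^ (8 + B * 7) := by rw [← pow_mul, ← pow_add]
    _ ≤ 2 ^ s := Nat.pow_le_pow_right (by norm_num) (by omega)

theorem fin {C : ℝ} {B s k : ℕ} (hC : 1 ≤ C) (hk : 18 + log C ≤ 2 ^ k) (hB : 2 ≤ B)
    (hs : B ^ (2 * k + 6) ≤ s) : log (C * (1 + log ((2 ^ (5 * s) : ℕ) : ℝ)) ^ 3) ≤ s / B := by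
  have hB' : (2 : ℝ) ≤ B := by exact_mod_cast hB
  have hs' : (B : ℝ) ^ (2 * k + 6) ≤ s := by exact_mod_cast hs
  have h1 : (B : ℝ) ^ (k + 3) ≤ √s := by
    refine le_sqrt_of_sq_le ?_
    rwa [← pow_mul, show (k + 3) * 2 = 2 * k + 6 by ring]
  have h2 : (2 : ℝ) ^ k * B ≤ (B : ℝ) ^ (k + 3) := by
    rw [pow_add]
    refine mul_le_mul (pow_le_pow_left₀ zero_le_two hB' k) ?_ (by positivity) (by positivity)
    exact le_self_pow₀ (by linarith) (by norm_num)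
  have h3 : (1 : ℝ) ≤ √s := (one_le_pow₀ (by linarith)).trans h1
  have h4 : √(s : ℝ) * √s = s := mul_self_sqrt (by positivity)
  generalize √(s : ℝ) = r at h1 h3 h4
  have h5 : log ((2 ^ (5 * s) : ℕ) : ℝ) ≤ 5 * s := by
    push_cast
    rw [log_pow]; push_cast
    nlinarith [log_two_lt_d9, log_pos one_lt_two]
  have h6 : 0 ≤ log ((2 ^ (5 * s) : ℕ) : ℝ) := log_natCast_nonneg _
  have h7 : log (1 + log ((2 ^ (5 * s) : ℕ) : ℝ)) ≤ 6 * r := by
    calc _ ≤ log ((3 * r) ^ 2) := log_le_log (by linarith) (by nlinarith)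
      _ = 2 * log (3 * r) := by rw [log_pow]; norm_num
      _ ≤ 6 * r := by linarith [log_le_sub_one_of_pos (show 0 < 3 * r by linarith)]
  have h8 := log_nonneg hC
  rw [log_mul (by linarith) (by positivity), log_pow, le_div_iff₀ (by linarith)]
  push_cast at h7 ⊢
  have h9 : (18 + log C) * B ≤ r := by nlinarith
  have h10 : log C + 3 * log (1 + log (2 ^ (5 * s))) ≤ (18 + log C) * r := by nlinarith
  calc _ ≤ (18 + log C) * r * B := mul_le_mul_of_nonneg_right h10 (by linarith)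
    _ = (18 + log C) * B * r := by ring
    _ ≤ r * r := mul_le_mul_of_nonneg_right h9 (by linarith)
    _ = s := h4

theorem ball {Q Q' : Pos} {l : Fin 3} {s L t : ℕ} (h : Q' ∈ Ball Q s) (ht : t ≤ L) :
    Q' + ee l t ∈ Ball Q (s + L) := fun a => by
  have := h a
  by_cases e : a = l
  · subst e; simp only [Pi.add_apply, ee_self]; omega
  · simp only [Pi.add_apply, ee_ne e]; omega

end FIBc

theorem p_FIB (hRELB : S_RELB) (hFAR : S_FAR) (hEIGV : S_EIGV) :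
    S_FIB := by
  classical
  obtain ⟨a, C, hC⟩ := RF.rfib
  obtain ⟨k, hk⟩ := pow_unbounded_of_one_lt (18 + log (max C 1)) (one_lt_two (α := ℝ))
  refine ⟨35 * a + 10, 2 * k + 6, fun Ω _ P x B U Q Q' l s L hB hS hs hL hQ hU => ?_⟩
  have hK := FIBc.big hB hs
  have hs1 : 1 ≤ s := (Nat.pow_pos (by omega)).trans_le hs
  have hB' : (2 : ℝ) ≤ B := by exact_mod_cast hB
  have hK' : 216 * (B : ℝ) ^ 7 ≤ 2 ^ s := by exact_mod_cast hK
  have hQ0 : Q ∈ Ball Q s := self_Ball Q (by positivity)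
  have hQ1 : Q ∈ Ball Q' s := fun a => by have := hQ a; omega
  have u0 : Q ∈ U := hU (self_Ball Q (by positivity))
  have u1 : Q' ∈ U := hU fun a => by have := hQ a; omega
  have hA : 3 * (6 * B ^ 3 * 4 ^ s) ^ 2 ≤ 2 ^ (5 * s) := by
    have h1 : 108 * B ^ 6 ≤ 2 ^ s := le_trans
      (Nat.mul_le_mul (by norm_num) (Nat.pow_le_pow_right (by omega) (by omega))) hK
    calc _ = 108 * B ^ 6 * (4 ^ s) ^ 2 := by ring
      _ ≤ 2 ^ s * (4 ^ s) ^ 2 := Nat.mul_le_mul_right _ h1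
      _ = 2 ^ (5 * s) := by
        rw [show 4 = 2 ^ 2 by norm_num, ← pow_mul, ← pow_mul, ← pow_add]; congr 1; ring
  have key : P.Hc (fun ω => (x ω).rel Q' Q)
      (fun ω => ((x ω).V [Q, Q + ee l L], (x ω).V [Q', Q' + ee l L])) ≤
      P.E fun _ => log (max C 1 * (1 + log ((2 ^ (5 * s) : ℕ) : ℝ)) ^ 3) := by
    refine P.Hc_le_E fun ω hω => ?_
    have ok := hS ω hω
    let T : Finset Ω := univ.filter fun ω' => 0 < P.p ω' ∧
      ((x ω').V [Q, Q + ee l L], (x ω').V [Q', Q' + ee l L]) =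
        ((x ω).V [Q, Q + ee l L], (x ω).V [Q', Q' + ee l L])
    let S : Finset (Gl 3) := T.image fun ω' => ((x ω).rel Q' Q)⁻¹ * (x ω').rel Q' Q
    refine ⟨S.image fun g => (x ω).rel Q' Q * g, ?_, fun ω' h1 h2 => ?_⟩
    swap
    · exact mem_image.2 ⟨_, mem_image_of_mem _ (mem_filter.2 ⟨mem_univ ω', h1, h2⟩),
        mul_inv_cancel_left _ _⟩
    have hp : (0 : ℝ) < 2 ^ s := by positivity
    have b7 : ∀ n, n ≤ 7 → (B : ℝ) ^ n ≤ B ^ 7 := fun n hn => pow_le_pow_right₀ (by linarith) hn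
    have b0 : (0 : ℝ) < B ^ 7 := by positivity
    have h := hC (fun j => (x ω).b Q j l) S (2 ^ (5 * s)) (1 / 2 ^ (3 * ((5 * a + 1) * s)))
      (216 * B ^ 7 * 4 ^ s / 2 ^ L)
      (le_trans (by norm_num) (Nat.pow_le_pow_right (by norm_num) (show 1 ≤ 5 * s by omega)))
      (fun j => (ok.2 Q u0 j l).trans ?_) (fun ρ h0 hρ => ?_) (by positivity)
      (by rw [div_le_one (by positivity)]; exact one_le_pow₀ one_le_two) ?_ (fun g hg => ?_)
      fun g hg => ?_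
    · refine (Nat.cast_le.2 card_image_le).trans (h.trans ?_)
      exact mul_le_mul_of_nonneg_right (le_max_left _ _)
        (pow_nonneg (by linarith [log_natCast_nonneg (2 ^ (5 * s))]) 3)
    · push_cast
      have := b7 1 (by norm_num)
      have h2 : (2 : ℝ) ^ s ≤ 2 ^ (5 * s) := pow_le_pow_right₀ one_le_two (by omega)
      rw [pow_one] at this
      linarith
    · have e : (2 : ℝ) ^ ((5 * a + 1) * s) = 2 ^ s * (2 ^ (5 * s)) ^ a := by
        rw [← pow_mul, ← pow_add]; congr 1; ring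
      have r1 : (1 : ℝ) ≤ (2 ^ (5 * s)) ^ a := one_le_pow₀ (one_le_pow₀ one_le_two)
      have h3 := hFAR (x ω) B U (ρ ᵥ* ((x ω).g Q : Mt 3)) Q l ((5 * a + 1) * s)
        (3 * (2 ^ (5 * s)) ^ a * B) ok (vecMul_ne h0 _)
        (hU (by
          have := FIBc.ball (l := l) (t := 3 * ((5 * a + 1) * s)) (L := L) hQ0 (by nlinarith)
          exact_mod_cast this)) (fun j _ => ?_) ?_ ?_
      · rw [lv_g] at h3
        exact h3
      · have e1 : ∀ i, |cz ρ i * (x ω).b Q i j| ≤ (2 ^ (5 * s)) ^ a * B := fun i => by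
          rw [abs_mul]
          refine mul_le_mul ?_ (ok.2 Q u0 i j) (abs_nonneg _) (by positivity)
          have := hρ i
          unfold cz
          exact_mod_cast this
        rw [lv_g, vecMul, dotProduct, Fin.sum_univ_three]
        linarith [abs_add_three (cz ρ 0 * (x ω).b Q 0 j) (cz ρ 1 * (x ω).b Q 1 j)
          (cz ρ 2 * (x ω).b Q 2 j), e1 0, e1 1, e1 2]
      · rw [e]
        have h4 : 18 * (B : ℝ) ^ 3 < 2 ^ s := by linarith [b7 3 (by norm_num)]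
        calc _ = 18 * (B : ℝ) ^ 3 * (2 ^ (5 * s)) ^ a := by ring
          _ < _ := mul_lt_mul_of_pos_right h4 (by positivity)
      · rw [e]
        have h4 : 6 * (B : ℝ) ^ 2 ≤ 2 ^ s := by linarith [b7 2 (by norm_num)]
        nlinarith
    · push_cast
      rw [div_mul_eq_mul_div, div_pow, one_pow, div_lt_div_iff₀ (by positivity) (by positivity),
        one_mul]
      calc _ ≤ (2 : ℝ) ^ s * 4 ^ s * (2 ^ (5 * s)) ^ a * (2 ^ (3 * ((5 * a + 1) * s))) ^ 2 := by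
            gcongr
        _ = 2 ^ ((35 * a + 9) * s) := by
          rw [show (4 : ℝ) = 2 ^ 2 by norm_num]
          simp only [← pow_mul, ← pow_add]; congr 1; ring
        _ < 2 ^ L := pow_lt_pow_right₀ one_lt_two (by nlinarith)
    · obtain ⟨ω', h1, rfl⟩ := mem_image.1 hg
      have ok' := hS ω' (mem_filter.1 h1).2.1
      rw [_root_.mul_inv_rev, inv_inv, Pt.rel_inv, Pt.rel_inv]
      exact ⟨FIBc.bd_mul (hRELB _ B U Q Q' s ok u0 u1 hQ) (hRELB _ B U Q' Q s ok' u1 u0 hQ1) hA,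
        FIBc.bd_mul (hRELB _ B U Q Q' s ok' u0 u1 hQ) (hRELB _ B U Q' Q s ok u1 u0 hQ1) hA⟩
    · obtain ⟨ω', h1, rfl⟩ := mem_image.1 hg
      obtain ⟨h2, h3⟩ := (mem_filter.1 h1).2
      obtain ⟨h4, h5⟩ := Prod.mk.inj h3
      exact hEIGV (x ω) (x ω') B U Q Q' l s L ok (hS ω' h2) u0 u1 (hU (FIBc.ball hQ0 le_rfl))
        (hU (FIBc.ball hQ le_rfl)) hQ (Pt.V_eq.1 h4 _ (by simp) _ (by simp)).symm
        (Pt.V_eq.1 h5 _ (by simp) _ (by simp)).symm
  rw [P.E_const] at key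
  have h1 : (P.H fun ω => (x ω).V [Q, Q']) ≤ P.H fun ω => (x ω).rel Q' Q :=
    P.H_mono fun ω ω' _ _ e => Pt.V_eq.2 fun m hm m' hm' => by
      have e' : (x ω).rel Q Q' = (x ω').rel Q Q' := by rw [← Pt.rel_inv, e, Pt.rel_inv]
      simp only [List.mem_cons, List.not_mem_nil, or_false] at hm hm'
      rcases hm with rfl | rfl <;> rcases hm' with rfl | rfl <;>
        first | exact e | exact e' | rw [Pt.rel_self, Pt.rel_self]
  have h2 := P.H_le_add (fun ω => (x ω).rel Q' Q)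
    fun ω => ((x ω).V [Q, Q + ee l L], (x ω).V [Q', Q' + ee l L])
  have h3 := P.H_pair_le (fun ω => (x ω).V [Q, Q + ee l L]) fun ω => (x ω).V [Q', Q' + ee l L]
  have h4 := FIBc.fin (le_max_right C 1) hk.le hB hs
  linarith

end Pool.Agent.P.MP_e45b92_nt.EL
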