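import Pool.Agent.P.MP_e45b92_nt.EL.If

/-! Step FIN. -/

set_option autoImplicit false

namespace Pool.Agent.P.MP_e45b92_nt.EL

open Finset Matrix Real
open Pool.Agent.P.MP_bf60a1_an.RA
open Pool.Agent.P.MP_246241_nt.EK (Vc Mt Gl Bd MI MI_nonneg MI_symm det_unit)

namespace FINc

theorem ent (α β : ℝ) (m : Pos) (w : Vc 3) (j : Fin 3) : (cz w ᵥ* (Lam α β * dg m)) j =
    ![(w 0 : ℝ), w 0 * α - w 1, w 0 * β - w 2] j * wt m j := by
  rw [← vecMul_vecMul, dg, vecMul_diagonal]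
  congr 1
  fin_cases j <;> simp [cz, Lam, vecMul, dotProduct, Fin.sum_univ_three, sub_eq_add_neg]

theorem sv {α β H a b c : ℝ} {q r s : ℤ} (hH : 2 ≤ H) (hb : 0 < b) (hc : 0 < c)
    (h : a * b * c = 1) (hq : 1 ≤ q) (h0 : H * (q * a) < 1) (h1 : H * (|r + q * α| * b) < 1)
    (h2 : H * (|s + q * β| * c) < 1) : Sv α β (1 / H) (b * c) := by
  have hq' : (1 : ℝ) ≤ q := mod_cast hq
  have hT := mul_pos hb hc
  have ha : 0 < a := (mul_pos_iff_of_pos_right hT).1 (by rw [← mul_assoc, h]; exact one_pos)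
  have p0 : 0 ≤ q * a := by positivity
  have p1 : 0 ≤ |r + q * α| * b := by positivity
  have p2 : 0 ≤ |s + q * β| * c := by positivity
  refine ⟨r, s, q, hq, ?_, ?_⟩
  · have : q * a ≤ 1 := by nlinarith
    calc (q : ℝ) = q * a * (b * c) := by linear_combination (-q : ℝ) * h
      _ ≤ 1 * (b * c) := by gcongr
      _ = _ := one_mul _
  · have : |s + q * β| * c ≤ 1 := by nlinarith
    rw [lt_div_iff₀ hT, lt_div_iff₀ (by linarith)]
    calc _ = H * (|r + q * α| * b) * (|s + q * β| * c) := by ring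
      _ ≤ H * (|r + q * α| * b) * 1 := by gcongr
      _ < 1 := by rwa [mul_one]

theorem zero {H c : ℝ} {r : ℤ} (hH : 2 ≤ H) (hc : 1 ≤ c) (h : H * (|(r : ℝ)| * c) < 1) :
    r = 0 := by
  by_contra e
  have h1 : (1 : ℝ) ≤ |(r : ℝ)| := mod_cast Int.one_le_abs e
  have := one_le_mul_of_one_le_of_one_le h1 hc
  nlinarith

end FINc

theorem p_FIN :
    S_FIN := by
  intro α β H x₀ x₁ hH h m ⟨h1, h2, h3, h4⟩ w hw
  by_contra hc
  have hH' : (2 : ℝ) ≤ H := mod_cast hH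
  have g : ∀ j, H * (|![(w 0 : ℝ), w 0 * α - w 1, w 0 * β - w 2] j| * wt m j) < 1 := fun j => by
    rw [← abs_of_pos (wt_pos m j), ← abs_mul, ← FINc.ent]
    exact not_le.1 fun e => hc ⟨j, e⟩
  have g0 : H * (|(w 0 : ℝ)| * wt m 0) < 1 := g 0
  have g1 : H * (|(w 0 : ℝ) * α - w 1| * wt m 1) < 1 := g 1
  have g2 : H * (|(w 0 : ℝ) * β - w 2| * wt m 2) < 1 := g 2
  have r1 : 3 * (x₀ : ℝ) ≤ m 1 + m 2 - 2 * m 0 := mod_cast h1
  have r2 : (m 1 + m 2 - 2 * m 0 : ℝ) ≤ 3 * (x₁ : ℝ) := mod_cast h2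
  have r3 : (m 1 - m 0 : ℝ) ≤ 2 * (m 2 - m 0) := mod_cast h3
  have r4 : (m 2 - m 0 : ℝ) ≤ 2 * (m 1 - m 0) := mod_cast h4
  have w1 : 1 ≤ wt m 1 := one_le_rpow one_le_two (by linarith)
  have w2 : 1 ≤ wt m 2 := one_le_rpow one_le_two (by linarith)
  have hT := h (wt m 1 * wt m 2) (by
    rw [wt, wt, ← rpow_add two_pos, ← rpow_natCast]
    exact rpow_le_rpow_of_exponent_le one_le_two (by linarith)) (by
    rw [wt, wt, ← rpow_add two_pos, ← rpow_natCast]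
    exact rpow_le_rpow_of_exponent_le one_le_two (by linarith))
  rcases lt_trichotomy (w 0) 0 with e | e | e
  · have e' : (w 0 : ℝ) < 0 := mod_cast e
    refine hT (FINc.sv (q := -w 0) (r := w 1) (s := w 2) hH' (wt_pos m 1) (wt_pos m 2) (wt_prod m)
      (by omega) ?_ ?_ ?_)
    · rwa [Int.cast_neg, ← abs_of_neg e']
    · rwa [← abs_neg, show -((w 1 : ℝ) + (-w 0 : ℤ) * α) = w 0 * α - w 1 by push_cast; ring]
    · rwa [← abs_neg, show -((w 2 : ℝ) + (-w 0 : ℤ) * β) = w 0 * β - w 2 by push_cast; ring]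
  · rw [e, Int.cast_zero, zero_mul, zero_sub, abs_neg] at g1 g2
    refine hw (funext fun j => ?_)
    fin_cases j
    exacts [e, FINc.zero hH' w1 g1, FINc.zero hH' w2 g2]
  · have e' : (0 : ℝ) < w 0 := mod_cast e
    refine hT (FINc.sv (q := w 0) (r := -w 1) (s := -w 2) hH' (wt_pos m 1) (wt_pos m 2) (wt_prod m)
      (by omega) ?_ ?_ ?_)
    · rwa [← abs_of_pos e']
    · rwa [Int.cast_neg, neg_add_eq_sub]
    · rwa [Int.cast_neg, neg_add_eq_sub]

end Pool.Agent.P.MP_e45b92_nt.EL
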