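import Pool.Agent.P.MP_e45b92_nt.EL.If
import Pool.Agent.P.MP_fc15d7_nt.TREDU

/-! Step FRAME. -/

set_option autoImplicit false

namespace Pool.Agent.P.MP_e45b92_nt.EL

open Finset Matrix Real
open Pool.Agent.P.MP_bf60a1_an.RA
open Pool.Agent.P.MP_246241_nt.EK (Vc Mt Gl Bd MI MI_nonneg MI_symm det_unit)

namespace FRAMEc

theorem mu_le {μ : Fin 3 → ℝ} {C : ℝ} (hμ : ∀ i, 0 < μ i) (hp : ∏ i, μ i = 1)
    (h : ∀ i, 1 ≤ C * μ i) (j : Fin 3) : μ j ≤ C ^ 2 := by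
  rw [Fin.prod_univ_succAbove _ j, Fin.prod_univ_two] at hp
  have h1 : 1 ≤ (C * μ (j.succAbove 0)) * (C * μ (j.succAbove 1)) :=
    one_le_mul_of_one_le_of_one_le (h _) (h _)
  calc μ j = μ j * 1 := (mul_one _).symm
    _ ≤ μ j * ((C * μ (j.succAbove 0)) * (C * μ (j.succAbove 1))) :=
        mul_le_mul_of_nonneg_left h1 (hμ j).le
    _ = C ^ 2 * (μ j * (μ (j.succAbove 0) * μ (j.succAbove 1))) := by ring
    _ = C ^ 2 := by rw [hp, mul_one]

end FRAMEc

open FRAMEc in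
theorem p_FRAME :
    S_FRAME := by
  obtain ⟨K, hK, hR⟩ := Pool.Agent.P.MP_fc15d7_nt.t_REDU 3
  obtain ⟨c, hc⟩ := pow_unbounded_of_one_lt (K ^ 3) (one_lt_two (α := ℝ))
  refine ⟨c + 2, by omega, fun H b hH hd hs => ?_⟩
  obtain ⟨V, μ, hV, hμ, hpr, hb⟩ := hR bᵀ (by
    intro h; rw [det_transpose] at h; rw [h, abs_zero] at hd; exact zero_ne_one hd)
  rw [det_transpose, hd] at hpr
  have hU : IsUnit Vᵀ := (isUnit_iff_isUnit_det _).2 (by rwa [det_transpose])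
  have hent : ∀ j i, |(cs hU.unit * b) j i| ≤ K * μ j := fun j i => by
    refine le_of_eq_of_le ?_ (hb i j).2
    congr 1
    simp [cs, Matrix.mul_apply, mul_comm]
  have hH' : (2 : ℝ) ≤ H := by exact_mod_cast hH
  have hlow : ∀ j, 1 ≤ (H * K) * μ j := fun j => by
    have hne : Vᵀ j ≠ 0 := fun h => by
      have : Vᵀ.det = 0 := det_eq_zero_of_row_eq_zero j fun i => congrFun h i
      rw [det_transpose] at this
      exact hV.ne_zero this
    obtain ⟨i, hi⟩ := hs _ hne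
    have e : (cz (Vᵀ j) ᵥ* b) i = (cs hU.unit * b) j i := by
      simp [cs, cz, Matrix.mul_apply, vecMul, dotProduct]
    rw [e] at hi
    rw [mul_assoc]
    exact hi.trans (mul_le_mul_of_nonneg_left (hent j i) (by positivity))
  refine ⟨hU.unit, fun j i => ?_⟩
  have hK0 : 0 ≤ K := by linarith
  calc _ ≤ K * (H * K) ^ 2 :=
        (hent j i).trans (mul_le_mul_of_nonneg_left (mu_le hμ hpr hlow j) hK0)
    _ = K ^ 3 * (H : ℝ) ^ 2 := by ring
    _ ≤ (H : ℝ) ^ c * (H : ℝ) ^ 2 :=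
        mul_le_mul_of_nonneg_right (hc.le.trans (pow_le_pow_left₀ (by norm_num) hH' c))
          (by positivity)
    _ = _ := by ring

end Pool.Agent.P.MP_e45b92_nt.EL
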