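import Pool.Agent.P.MP_e45b92_nt.EL.If
import Pool.Agent.P.MP_246241_nt.EK.TBOX

/-! Step FWD. -/

set_option autoImplicit false

namespace Pool.Agent.P.MP_e45b92_nt.EL

open Finset Matrix Real
open Pool.Agent.P.MP_bf60a1_an.RA
open Pool.Agent.P.MP_246241_nt.EK (Vc Mt Gl Bd MI MI_nonneg MI_symm det_unit)

theorem p_FWD (hBACK : S_BACK) :
    S_FWD := by
  classical
  intro Ω τ _ P x B U T R m₀ E hS hR hB hE h
  have hB' : (1 : ℝ) ≤ (B : ℝ) ^ 3 := one_le_pow₀ (by exact_mod_cast hB)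
  have h1 : (1 : ℝ) ≤ (B : ℝ) ^ 3 * E := one_le_mul_of_one_le_of_one_le hB' hE
  have one : ∀ m ∈ R, P.Hc (fun ω => ((x ω).rel m m₀ : Mt 3)) T ≤ 9 * log (37 * B ^ 3 * E) := by
    intro m hm
    obtain ⟨F, hF, hF'⟩ := Pool.Agent.P.MP_246241_nt.EK.p_BOX 3 ⌊18 * (B : ℝ) ^ 3 * E⌋₊
    have := P.Hc_le_E (Z := fun ω => ((x ω).rel m m₀ : Mt 3)) (V := T)
      (N := fun _ => (37 * (B : ℝ) ^ 3 * E) ^ 9) fun ω hω => by
        refine ⟨F.image fun g => g * ((x ω).rel m m₀ : Mt 3), ?_, fun ω' hω' e => ?_⟩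
        · have h2 : (⌊18 * (B : ℝ) ^ 3 * E⌋₊ : ℝ) ≤ 18 * (B : ℝ) ^ 3 * E :=
            Nat.floor_le (by linarith)
          calc ((F.image fun g => g * ((x ω).rel m m₀ : Mt 3)).card : ℝ)
              ≤ (((2 * ⌊18 * (B : ℝ) ^ 3 * E⌋₊ + 1) ^ (3 * 3) : ℕ) : ℝ) := by
                exact_mod_cast card_image_le.trans hF
            _ ≤ (37 * (B : ℝ) ^ 3 * E) ^ 9 := by
                push_cast
                exact pow_le_pow_left₀ (by positivity) (by linarith) 9
        · have hb := hBACK (x ω') (x ω) B U m m₀ E (hS ω' hω') (hS ω hω) (hR m hm)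
            (h ω' ω hω' hω e m hm)
          refine mem_image.2 ⟨((x ω').rel m m₀ * ((x ω).rel m m₀)⁻¹ : Gl 3), hF' _ fun i j => ?_, ?_⟩
          · have h3 := hb i j
            rw [cs_apply, ← Int.cast_abs] at h3
            have h4 := Int.le_floor.2 h3
            rwa [← Int.natCast_floor_eq_floor (by linarith)] at h4
          · rw [← Units.val_mul, inv_mul_cancel_right]
    rwa [FP.E_const, log_pow, Nat.cast_ofNat] at this
  have all : ∀ R' : List Pos, R' ⊆ R →
      P.Hc (fun ω => R'.map fun m => ((x ω).rel m m₀ : Mt 3)) T ≤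
        9 * R'.length * log (37 * B ^ 3 * E) := by
    intro R'
    induction R' with
    | nil =>
      intro _
      simpa using P.Hc_nonpos (G := fun _ => ([] : List (Mt 3))) (C := T) fun _ _ _ _ _ => rfl
    | cons m R' ih =>
      intro hs
      have h2 := ih fun a ha => hs (List.mem_cons_of_mem _ ha)
      have h3 := one m (hs List.mem_cons_self)
      have h4 := P.Hc_pair_le (fun ω => ((x ω).rel m m₀ : Mt 3))
        (fun ω => R'.map fun m => ((x ω).rel m m₀ : Mt 3)) T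
      have h5 := P.Hc_mono_left (Z := fun ω => (((x ω).rel m m₀ : Mt 3),
        R'.map fun m => ((x ω).rel m m₀ : Mt 3)))
        (G := fun ω => (m :: R').map fun m => ((x ω).rel m m₀ : Mt 3)) (C := T)
        fun ω ω' _ _ e => by
          simp only [Prod.mk.injEq] at e
          simp only [List.map_cons, e.1.1, e.1.2]
      rw [List.length_cons]
      push_cast
      linarith
  refine le_trans (P.Hc_mono_left fun ω ω' _ _ e => ?_) (all R (List.Subset.refl _))
  have e1 : ∀ m ∈ R, (x ω).rel m m₀ = (x ω').rel m m₀ := fun m hm =>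
    Units.ext (List.map_inj_left.1 (congrArg Prod.fst e) m hm)
  refine Pt.V_eq.2 fun m hm m' hm' => ?_
  rw [← (x ω).rel_mul m m₀ m', ← (x ω').rel_mul m m₀ m', e1 m hm, ← (x ω).rel_inv m' m₀,
    ← (x ω').rel_inv m' m₀, e1 m' hm']

end Pool.Agent.P.MP_e45b92_nt.EL
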