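import Pool.Agent.P.MP_e45b92_nt.EL.If

/-! Step GRA. -/

set_option autoImplicit false

namespace Pool.Agent.P.MP_e45b92_nt.EL

open Finset Matrix Real
open Pool.Agent.P.MP_bf60a1_an.RA
open Pool.Agent.P.MP_246241_nt.EK (Vc Mt Gl Bd MI MI_nonneg MI_symm det_unit)

namespace GRAc

theorem graph (G : Fin 3 → Fin 3 → Prop) (h : ∀ i j k, Tri i j k → G i j ∨ G j k) :
    ∃ k, ∀ a, a ≠ k → G a k := by
  have h1 := h 0 1 2 (by unfold Tri; decide)
  have h2 := h 0 2 1 (by unfold Tri; decide)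
  have h3 := h 1 0 2 (by unfold Tri; decide)
  have h4 := h 1 2 0 (by unfold Tri; decide)
  have h5 := h 2 0 1 (by unfold Tri; decide)
  have h6 := h 2 1 0 (by unfold Tri; decide)
  simp only [Fin.exists_fin_succ, Fin.forall_fin_succ]
  simp
  tauto

theorem union {Ω : Type} [Fintype Ω] {P : FP Ω} {ψ : (Ω → Prop) → List Pos → ℝ} {U : Set Pos}
    {B e c σ : ℝ} (hF : Fam P U B e c ψ) {G G₁ G₂ : Ω → Prop} {a b d : Fin 3} {M L N : ℕ} {Q : Pos}
    (h : ∀ ω, G ω → G₁ ω ∨ G₂ ω) (h₁ : Small ψ G₁ a b d M L N Q σ)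
    (h₂ : Small ψ G₂ a b d M L N Q σ) : Small ψ G a b d M L N Q (2 * σ + N) := by
  intro E hE
  have g₁ := h₁ (fun ω => E ω ∧ G₁ ω) fun ω => And.right
  have g₂ := h₂ (fun ω => E ω ∧ ¬ G₁ ω) fun ω x => (h ω (hE ω x.1)).resolve_left x.2
  have s1 : ∀ ω, E ω ↔ (E ω ∧ G₁ ω) ∨ (E ω ∧ ¬ G₁ ω) := fun ω => by tauto
  have s2 : ∀ ω, E ω ∧ G₁ ω → ¬ (E ω ∧ ¬ G₁ ω) := fun ω => by tauto
  have : CS (dd (ψ E) d a M L) L N Q b ≤ CS (dd (ψ fun ω => E ω ∧ G₁ ω) d a M L) L N Q b +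
      CS (dd (ψ fun ω => E ω ∧ ¬ G₁ ω) d a M L) L N Q b + ∑ _t ∈ range N, (1 : ℝ) := by
    simp only [CS, ← sum_add_distrib]
    refine sum_le_sum fun t _ => ?_
    unfold dd
    linarith [hF.hi _ _ _ ((Q + ee b (t * L) - ee a L) :: HW d a M (Q + ee b (t * L))) s1 s2,
      hF.lo _ _ _ (HW d a M (Q + ee b (t * L))) s1 s2]
  simp only [sum_const, card_range, nsmul_eq_mul, mul_one] at this
  linarith

theorem Small.mono {Ω : Type} {ψ : (Ω → Prop) → List Pos → ℝ} {G : Ω → Prop} {a b d : Fin 3}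
    {M L N : ℕ} {Q : Pos} {σ σ' : ℝ} (h : Small ψ G a b d M L N Q σ) (h' : σ ≤ σ') :
    Small ψ G a b d M L N Q σ' := fun E hE => (h E hE).trans h'

end GRAc

open GRAc in
theorem p_GRA (hROOT : S_ROOT) :
    S_GRA := by
  intro Ω _ P ψ D Q Q' w s M L N B e c β S hF hβ hL hM hs hN hQ hH hD hS
  have hb : ∀ i j k, Tri i j k → ctr Q j k w ∈ Ball Q (2 * w) := fun i j k h => by
    simp only [mem_Ball, ctr, h.all, Pi.sub_apply, ee_self, h.ee]
    and_intros <;> omega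
  choose GX GY hp hX hY using fun i j k (h : Tri i j k) =>
    hROOT Ω P ψ D i j k (ctr Q j k w) w M L N B e c β h
      (hF.mono (Ball_sub (hb i j k h) (by omega))) hβ hL (by omega) hN (hH i j k h)
      fun a b m hm => hD a b m (Ball_sub (hb i j k h) (by omega) hm)
  refine ⟨fun a b ω => ∃ c, ∃ h : Tri a b c, GX a b c h ω ∨ GY c a b h.rot.rot ω, ?_, ?_⟩
  · let F : Finset (Fin 3 × Fin 3 × Fin 3) :=
      univ.filter fun t => t.1 ≠ t.2.1 ∧ t.1 ≠ t.2.2 ∧ t.2.1 ≠ t.2.2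
    have hc : #F = 6 := by decide
    refine (P.pr_mono (t := fun ω => ∃ t ∈ F, ∃ h : Tri t.1 t.2.1 t.2.2,
      ¬ GX _ _ _ h ω ∧ ¬ GY _ _ _ h ω) fun ω _ hω => ?_).trans ((P.pr_exists_le F _).trans ?_)
    · by_contra g
      refine hω (graph _ fun i j k h => ?_)
      by_contra g'
      rw [not_or] at g'
      exact g ⟨(i, j, k), mem_filter.2 ⟨mem_univ _, h⟩, h, fun x => g'.1 ⟨k, h, .inl x⟩,
        fun x => g'.2 ⟨i, h.rot, .inr x⟩⟩
    · refine (sum_le_card_nsmul F _ (2 / B + β * (2 * S + 2 * N * e) / (3 * w)) fun t ht => ?_).trans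
        (le_of_eq (by rw [hc]; simp only [nsmul_eq_mul]; push_cast; ring))
      have h : Tri t.1 t.2.1 t.2.2 := (mem_filter.1 ht).2
      refine (P.pr_mono fun ω _ x => x.2).trans ((hp _ _ _ h).trans ?_)
      have := hS _ _ _ h
      exact add_le_add_right (div_le_div_of_nonneg_right
        (mul_le_mul_of_nonneg_left (by linarith [this.1, this.2.1]) hβ) (by positivity)) _
  · intro a b c h
    have key : ∀ R ∈ Ball Q s, CS D L N (Tb Q R a b c M w) b ≤ S →
        Small ψ (fun ω => ∃ c, ∃ h : Tri a b c, GX a b c h ω ∨ GY c a b h.rot.rot ω) a b c M L N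
          (Tb Q R a b c M w) (2 * (6 * w / B + S + N * e + 1) + N) := fun R hR hC => by
      rw [mem_Ball, h.all] at hR
      refine union hF (G₁ := GX a b c h) (G₂ := GY c a b h.rot.rot) ?_
        (Small.mono (hX a b c h _ ?_ ?_) (by linarith))
        (Small.mono (hY c a b h.rot.rot _ ?_ ?_) (by linarith))
      · rintro ω ⟨c', h', x⟩
        obtain rfl : c' = c := by
          have := (h.all fun a' => Tri a b a' → a' = c).2
            ⟨fun g => absurd rfl g.2.1, fun g => absurd rfl g.2.2, fun _ => rfl⟩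
          exact this c' h'
        exact x
      all_goals
        simp only [mem_Ball, ctr, Tb, h.all, Pi.sub_apply, Pi.add_apply, ee_self, h.ee]
        and_intros <;> omega
    exact ⟨key Q (self_Ball Q (by omega)) (hS a b c h).2.2.1, key Q' hQ (hS a b c h).2.2.2⟩

end Pool.Agent.P.MP_e45b92_nt.EL
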