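import Pool.Agent.P.MP_e45b92_nt.EL.If

/-! Step GRAPH. -/

set_option autoImplicit false

namespace Pool.Agent.P.MP_e45b92_nt.EL

open Finset Matrix Real
open Pool.Agent.P.MP_bf60a1_an.RA
open Pool.Agent.P.MP_246241_nt.EK (Vc Mt Gl Bd MI MI_nonneg MI_symm det_unit)

namespace GRAPHc

theorem num {B C M w N e c β S p y : ℝ} (he : 1 ≤ e) (hc : 1 ≤ c) (hβ : 1 ≤ β) (hS : 0 ≤ S)
    (hB : 2 ≤ B) (hM : B ≤ M) (hw : w = C * (B * M)) (h2 : 2 * (B * M) ≤ w) (hC : 1 ≤ C)
    (hN : 0 ≤ N) (hb : β * e * N ≤ M) (hp : p ≤ 12 / B + 12 * β * (S + N * e) / (3 * w))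
    (hy : y ≤ 3 * (2 * (c * (2 * M + B) + 2 * (2 * (6 * w / B + S + N * e + 1) + N) +
      5 * N * e) + M) + 3 + c * (B * M + B) * p) : y ≤ 500 * c * C * M + 40 * c * β * S := by
  have B0 : 0 < B := by linarith
  have M0 : 0 < M := by linarith
  have BM : 0 < B * M := mul_pos B0 M0
  have w0 : 0 < w := by linarith
  have a0 : 0 ≤ N * e := by positivity
  have a1 : N * e ≤ M := by nlinarith
  have a2 : N ≤ M := by nlinarith
  have a3 : 6 * w / B = 6 * (C * M) := by rw [hw]; field_simp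
  have a4 : (B * M + B) * (12 / B) = 12 * (M + 1) := by field_simp
  have a5 : B * M + B ≤ w := by nlinarith
  have a6 : (B * M + B) * (12 * β * (S + N * e) / (3 * w)) ≤ 4 * (β * S) + 4 * M := by
    have b1 : w * (12 * β * (S + N * e) / (3 * w)) = 4 * (β * S) + 4 * (β * e * N) := by
      field_simp
      ring
    have b2 := mul_le_mul_of_nonneg_right a5
      (show 0 ≤ 12 * β * (S + N * e) / (3 * w) by positivity)
    linarith
  have a7 : (B * M + B) * p ≤ 28 * M + 4 * (β * S) := by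
    have b1 := mul_le_mul_of_nonneg_left hp (show 0 ≤ B * M + B by positivity)
    rw [mul_add, a4] at b1
    linarith
  have a8 := mul_le_mul_of_nonneg_left a7 (show 0 ≤ c by linarith)
  have a9 : c * B ≤ c * M := mul_le_mul_of_nonneg_left hM (by linarith)
  have b1 : M ≤ C * M := by nlinarith
  have b2 : C * M ≤ c * (C * M) := by nlinarith
  have b3 : c * M ≤ c * (C * M) := mul_le_mul_of_nonneg_left b1 (by linarith)
  have b4 : S ≤ β * S := by nlinarith
  have b5 : β * S ≤ c * (β * S) := by nlinarith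
  rw [a3, mul_assoc c] at hy
  nlinarith

end GRAPHc

theorem p_GRAPH (hGRA : S_GRA) (hGRB : S_GRB) :
    S_GRAPH := by
  intro Ω _ P ψ D Q Q' B C₁ w M L N N' e c β S hF he hc hβ hS hB hM hL hLM hw h1 h2 h3 hb hQ hd
    ht hH hD hC
  have m1 : M ≤ B * M := Nat.le_mul_of_pos_left M (by omega)
  have m2 : 2 * (B * M) ≤ w := by omega
  have m3 : 1 ≤ C₁ := by
    rcases Nat.eq_zero_or_pos C₁ with h | h
    · rw [h, zero_mul] at hw
      omega
    · exact h
  obtain ⟨G, g1, g2⟩ := hGRA Ω P ψ D Q Q' w (B * M) M L N B e c β S hF (by linarith) hLM m1 m2 h2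
    hQ hH hD hC
  have g3 := hGRB Ω P ψ G Q Q' w (B * M) M L N N' B e c _ M hF (by positivity) (by linarith)
    (by linarith) hL hLM m1 h1 h2 h3 hQ hd ht g2
  rw [Nat.cast_mul] at g3
  exact GRAPHc.num he hc hβ hS (by exact_mod_cast hB) (by exact_mod_cast hM)
    (by exact_mod_cast hw) (by exact_mod_cast m2) (by exact_mod_cast m3) (Nat.cast_nonneg N) hb
    g1 g3

end Pool.Agent.P.MP_e45b92_nt.EL
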