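import Pool.Agent.P.MP_e45b92_nt.EL.If

/-! Step GRB. -/

set_option autoImplicit false

namespace Pool.Agent.P.MP_e45b92_nt.EL

open Finset Matrix Real
open Pool.Agent.P.MP_bf60a1_an.RA
open Pool.Agent.P.MP_246241_nt.EK (Vc Mt Gl Bd MI MI_nonneg MI_symm det_unit)

namespace GRBc

theorem ee_ball (Q : Pos) (i : Fin 3) {x : ℤ} (h : 0 ≤ x) : Q + ee i x ∈ Ball Q x := fun a => by
  rw [Pi.add_apply]
  by_cases e : a = i
  · subst e; rw [ee_self]; omega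
  · rw [ee_ne e]; omega

theorem ex_tri (k : Fin 3) : ∃ i j, Tri i j k := by
  revert k; unfold Tri; decide

end GRBc

theorem p_GRB (hTUBE : S_TUBE) :
    S_GRB := by
  intro Ω _ P ψ G Q Q' w s M L N N' B e c σ δ hF hB he hc hL hLM hMs hw hN hLw hQ' hdv hδ hsm
  have hs0 : (0 : ℤ) ≤ s := Int.natCast_nonneg s
  have hM0 : (0 : ℤ) ≤ M := Int.natCast_nonneg M
  have hMs' : (M : ℤ) ≤ s := by exact_mod_cast hMs
  have hsw : 2 * (s : ℤ) ≤ w := by exact_mod_cast (by omega : 2 * s ≤ w)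
  have hQ : Q ∈ Ball Q s := self_Ball Q hs0
  have tube : ∀ (E : Ω → Prop) (i j k : Fin 3) (Q₁ : Pos), Tri i j k → Q₁ ∈ Ball Q s →
      (∀ a, (L : ℤ) ∣ Q₁ a - Q a) →
      CS (dd (ψ E) j i M L) L N (Tb Q Q₁ i k j M w) k ≤ σ →
      CS (dd (ψ E) i j M L) L N (Tb Q Q₁ j k i M w) k ≤ σ →
      ψ E [Q₁, Q₁ + ee k (N' * L)] ≤ c * (2 * M + B) + 2 * σ + 5 * N * e := by
    intro E i j k Q₁ ht h1 h2 h3 h4
    have a1 := hTUBE e σ (ψ E) i j k Q Q₁ w s M L N N' ht (hF.cal E) (hF.nn E) he hL hLM hMs hw hN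
      hLw h1 h2 h3 h4
    have a2 : In [Q₁, Q₁ + ee i (2 * M), Q₁ + ee j (2 * M)] (Ball Q₁ ((2 * M : ℕ) : ℤ)) := by
      intro m hm
      push_cast
      simp only [List.mem_cons, List.not_mem_nil, or_false] at hm
      rcases hm with rfl | rfl | rfl
      exacts [self_Ball _ (by omega), GRBc.ee_ball _ _ (by omega), GRBc.ee_ball _ _ (by omega)]
    have a3 := hF.siz E _ Q₁ (2 * M) (by simp)
      (a2.mono (Ball_sub h1 (by push_cast; omega))) a2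
    push_cast at a3
    have a4 : c * (2 * (M : ℝ) + B) * P.pr E ≤ c * (2 * M + B) :=
      mul_le_of_le_one_right (by positivity) (P.pr_le_one E)
    linarith
  have cls : ∀ (E : Ω → Prop) (k : Fin 3), (∀ ω, E ω → ∀ a, a ≠ k → G a k ω) →
      ψ E [Q, Q'] ≤ 2 * (c * (2 * M + B) + 2 * σ + 5 * N * e) + δ := by
    intro E k hE
    obtain ⟨i, j, ht⟩ := GRBc.ex_tri k
    have t1 : Tri i k j := ⟨ht.2.1, ht.1, ht.2.2.symm⟩
    have g1 := fun ω h => hE ω h i ht.2.1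
    have g2 := fun ω h => hE ω h j ht.2.2
    have b1 := tube E i j k Q ht hQ (fun a => by simp) ((hsm i k j t1).1 E g1)
      ((hsm j k i ht.rot).1 E g2)
    have b2 := tube E i j k Q' ht hQ' hdv ((hsm i k j t1).2 E g1) ((hsm j k i ht.rot).2 E g2)
    linarith [hδ E k]
  obtain ⟨S, hS⟩ : ∃ S : Fin 3 → Ω → Prop, S = fun k ω => ∀ a, a ≠ k → G a k ω := ⟨_, rfl⟩
  have h0 := hF.hi (fun _ => True) (S 0) (fun ω => ¬ S 0 ω) [Q, Q'] (fun ω => by tauto)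
    (fun ω h h' => h' h)
  have h1 := hF.hi (fun ω => ¬ S 0 ω) (fun ω => ¬ S 0 ω ∧ S 1 ω) (fun ω => ¬ S 0 ω ∧ ¬ S 1 ω)
    [Q, Q'] (fun ω => by tauto) (fun ω h h' => h'.2 h.2)
  have h2 := hF.hi (fun ω => ¬ S 0 ω ∧ ¬ S 1 ω) (fun ω => (¬ S 0 ω ∧ ¬ S 1 ω) ∧ S 2 ω)
    (fun ω => (¬ S 0 ω ∧ ¬ S 1 ω) ∧ ¬ S 2 ω) [Q, Q'] (fun ω => by tauto) (fun ω h h' => h'.2 h.2)
  have c0 := cls (S 0) 0 (fun ω h => by rw [hS] at h; exact h)
  have c1 := cls (fun ω => ¬ S 0 ω ∧ S 1 ω) 1 (fun ω h => by rw [hS] at h; exact h.2)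
  have c2 := cls (fun ω => (¬ S 0 ω ∧ ¬ S 1 ω) ∧ S 2 ω) 2 (fun ω h => by rw [hS] at h; exact h.2)
  have i1 : In [Q, Q'] (Ball Q s) := by
    intro m hm
    simp only [List.mem_cons, List.not_mem_nil, or_false] at hm
    rcases hm with rfl | rfl
    exacts [hQ, hQ']
  have c3 := hF.siz (fun ω => (¬ S 0 ω ∧ ¬ S 1 ω) ∧ ¬ S 2 ω) [Q, Q'] Q s (by simp)
    (i1.mono (Ball_sub (self_Ball Q le_rfl) (by omega))) i1
  have c4 : (P.pr fun ω => (¬ S 0 ω ∧ ¬ S 1 ω) ∧ ¬ S 2 ω) ≤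
      P.pr fun ω => ¬ ∃ k, ∀ a, a ≠ k → G a k ω := P.pr_mono fun ω _ h ⟨k, hk⟩ => by
    rw [hS] at h
    fin_cases k
    exacts [h.1.1 hk, h.1.2 hk, h.2 hk]
  have c5 := mul_le_mul_of_nonneg_left c4 (show 0 ≤ c * ((s : ℝ) + B) by positivity)
  linarith

end Pool.Agent.P.MP_e45b92_nt.EL
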