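import Pool.Agent.P.MP_e45b92_nt.EL.If

/-! Step HI. -/

set_option autoImplicit false

namespace Pool.Agent.P.MP_e45b92_nt.EL

open Finset Matrix Real
open Pool.Agent.P.MP_bf60a1_an.RA
open Pool.Agent.P.MP_246241_nt.EK (Vc Mt Gl Bd MI MI_nonneg MI_symm det_unit)

theorem p_HI (hKF : S_KF) (hSTRAD : S_STRAD) (hHIA : S_HIA) (hHIB : S_HIB) :
    S_HI := by
  obtain ⟨a, h₀⟩ := hKF
  obtain ⟨A, A₁, h₁⟩ := hHIA (a + 1)
  obtain ⟨A₂, h₂⟩ := hHIB (a + 1)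
  refine ⟨A, a + A₁ + A₂, ?_⟩
  intro Ω _ P x B w P₀ i j k hB ht hw hS
  have pw : ∀ {c : ℕ}, c ≤ a + A₁ + A₂ → B ^ c ≤ w := fun h =>
    (Nat.pow_le_pow_right (by omega) h).trans hw
  have h8 : ∀ {c : ℕ}, 1 ≤ c → B ^ a ≤ 2 ^ (c * w) := fun h => (pw (by omega)).trans
    (Nat.lt_two_pow_self.le.trans (Nat.pow_le_pow_right two_pos (by nlinarith)))
  have g : ∀ l b, 0 ≤ ee l (20 * w) b ∧ ee l (20 * w) b ≤ 60 * w := fun l b => by
    by_cases e : b = l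
    · rw [e, ee_self]; omega
    · rw [ee_ne e]; omega
  have hI : In (WW i k P₀ w) (Ball P₀ (60 * w)) := fun m hm b => by
    simp only [WW, List.mem_cons, List.not_mem_nil, or_false] at hm
    have := g i b
    have := g k b
    rcases hm with rfl | rfl | rfl <;> (try simp only [Pi.add_apply, Pi.sub_apply]) <;> omega
  obtain ⟨X, Y, Z, D, hC⟩ := h₀ Ω P x B w _ P₀ i j k hB ht hS hI (h8 (by omega))
  have od : Odd (128 * B ^ 3 + 1) := ⟨64 * B ^ 3, by ring⟩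
  obtain ⟨u, hu, hX⟩ := hSTRAD Ω P X _ (3 * w) od
  obtain ⟨v, hv, hY⟩ := hSTRAD Ω P Y _ (3 * w) od
  have hB' : (2 : ℝ) ≤ B := by exact_mod_cast hB
  have hC' := hC.shift (e' := B ^ (a + 1)) (by
    rw [pow_succ]; nlinarith [one_le_pow₀ (n := a) (show (1 : ℝ) ≤ B by linarith)]) hu hv
  have hε : (B : ℝ) ^ a / 2 ^ (20 * w) * 2 ^ (12 * w) ≤ 1 := by
    have : (B : ℝ) ^ a ≤ 2 ^ (8 * w) := by exact_mod_cast h8 (c := 8) (by omega)
    rw [div_mul_eq_mul_div, div_le_one (by positivity), show 20 * w = 8 * w + 12 * w by ring,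
      pow_add]
    gcongr
  exact ⟨_, _, h₁ Ω P x B w P₀ i j k _ _ _ _ D hB ht (pw (by omega)) hS hC' hε hX hY,
    fun E => (h₂ Ω P x B w P₀ i j k _ _ _ _ D E hB ht (pw (by omega)) hS hC' hε).1,
    fun E => (h₂ Ω P x B w P₀ i j k _ _ _ _ D E hB ht (pw (by omega)) hS hC' hε).2⟩

end Pool.Agent.P.MP_e45b92_nt.EL
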