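import Pool.Agent.P.MP_e45b92_nt.EL.If

/-! Step HIA. -/

set_option autoImplicit false

namespace Pool.Agent.P.MP_e45b92_nt.EL

open Finset Matrix Real
open Pool.Agent.P.MP_bf60a1_an.RA
open Pool.Agent.P.MP_246241_nt.EK (Vc Mt Gl Bd MI MI_nonneg MI_symm det_unit)

namespace HIAc

theorem key (hJB : S_JB) {Ω β : Type} [Fintype Ω] (P : FP Ω) (x : Ω → Pt) (W : List Pos)
    (P₀ p q : Pos) (T : Ω → ℤ) (Γ : Ω → β) (e : ℝ) (h0 : P₀ ∈ W)
    (h1 : P.Hc (fun ω => (x ω).V (p :: W)) (fun ω => (T ω, (x ω).V W)) ≤ e)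
    (h2 : P.Hc T (fun ω => (x ω).V (p :: W)) ≤ e)
    (h3 : P.Hc Γ (fun ω => (x ω).V (q :: W)) ≤ e) :
    MI P T Γ (fun ω => (x ω).V W) ≤
      ps P x (fun _ => True) (p :: W) - ps P x (fun _ => True) (P₀ :: W) -
        (ps P x (fun _ => True) (p :: q :: W) - ps P x (fun _ => True) (P₀ :: q :: W)) + 3 * e := by
  simp only [ps_true]
  have a : (P.H fun ω => (x ω).V (P₀ :: W)) = P.H fun ω => (x ω).V W :=
    P.H_congr (det_V P x (by simpa using h0)) (det_V P x (by simp))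
  rw [a]
  refine (hJB Ω ℤ β _ P T Γ (fun ω => (x ω).V W) (fun ω => (x ω).V (p :: W))
    (fun ω => (x ω).V (P₀ :: q :: W)) (fun ω => (x ω).V (p :: q :: W)) e (det_V P x (by simp))
    (det_V P x fun m hm => by simp [hm]) (det_V P x ?_) ?_ h1).2 h2
    ((P.Hc_mono_right Γ (det_V P x (by simp))).trans h3)
  · intro m hm
    simp only [List.mem_cons] at hm ⊢
    rcases hm with rfl | rfl | hm <;> simp [*]
  · intro ω ω' _ _ g
    simp only [Prod.mk.injEq] at g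
    refine Pt.V_glue (r := P₀) (by simp [h0]) (by simp) ?_ g.1 g.2
    intro m hm
    simp only [List.mem_cons, List.mem_append] at hm ⊢
    tauto

theorem mem (P₀ : Pos) (j : Fin 3) {t ρ : ℤ} (h : 0 ≤ t) (h' : t ≤ ρ) :
    P₀ + ee j t ∈ Ball P₀ ρ ∧ P₀ - ee j t ∈ Ball P₀ ρ := by
  have g : ∀ a, 0 ≤ ee j t a ∧ ee j t a ≤ ρ := fun a => by
    by_cases e : a = j
    · rw [e, ee_self]; exact ⟨h, h'⟩
    · rw [ee_ne e]; omega
  constructor <;> intro a <;> have := g a <;> simp only [Pi.add_apply, Pi.sub_apply] <;> omega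

end HIAc

theorem p_HIA (hCF : S_CF) (hCB : S_CB) (hPOR : S_POR) (hHIGH : S_HIGH) (hJB : S_JB) :
    S_HIA := by
  intro a
  obtain ⟨a₁, h₁⟩ := hCF a
  obtain ⟨a₂, h₂⟩ := hCB a
  obtain ⟨a₃, h₃⟩ := hPOR a
  obtain ⟨A, h₄⟩ := hHIGH (a + a₃)
  refine ⟨A, A + a₁ + a₂ + a₃ + 2, ?_⟩
  intro Ω _ P x B w P₀ i j k ε X Y Z D hB ht hw hS hC hε hX hY
  have pw : ∀ {c d : ℕ}, c ≤ d → B ^ c ≤ B ^ d := fun h => Nat.pow_le_pow_right (by omega) h
  have hB' : (2 : ℝ) ≤ B := by exact_mod_cast hB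
  have pr : ∀ {c d : ℕ}, c ≤ d → (B : ℝ) ^ c ≤ B ^ d := fun h => pow_le_pow_right₀ (by linarith) h
  have hε3 : ε * 2 ^ (3 * w) ≤ 1 := by
    rcases le_total ε 0 with h | h
    · exact (mul_nonpos_of_nonpos_of_nonneg h (by positivity)).trans zero_le_one
    · exact (mul_le_mul_of_nonneg_left (pow_le_pow_right₀ one_le_two (by omega)) h).trans hε
  have h0 : P₀ ∈ WW i k P₀ w := by simp [WW]
  have hI : In (WW i k P₀ w) (Ball P₀ (60 * w)) := fun m hm => by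
    simp only [WW, List.mem_cons, List.not_mem_nil, or_false] at hm
    rcases hm with rfl | rfl | rfl
    exacts [self_Ball _ (by omega), (HIAc.mem P₀ i (by omega) (by omega)).1,
      (HIAc.mem P₀ k (by omega) (by omega)).2]
  have m3 := HIAc.mem P₀ j (t := (3 * w : ℕ)) (ρ := 60 * w) (by omega) (by omega)
  obtain ⟨f₁, f₂⟩ := h₁ Ω P x B (3 * w) _ _ P₀ i j k ε X Y Z D hB ht hS hI h0 (by simp [WW]) hC hε3
  obtain ⟨b₁, b₂, -, -⟩ := h₂ Ω P x B (3 * w) _ _ P₀ i j k ε X Y Z D hB ht hS h0 hC hε3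
  obtain ⟨-, -, b₃, b₄⟩ := h₂ Ω P x B (12 * w) _ _ P₀ i j k ε X Y Z D hB ht hS h0 hC hε
  have e₁ := pr (show a₁ ≤ a₁ + a₂ by omega)
  have e₂ := pr (show a₂ ≤ a₁ + a₂ by omega)
  have kX := HIAc.key hJB P x _ P₀ _ _ _ _ _ h0 ((f₁ m3.1).trans e₁) ((b₁ m3.1).trans e₂)
    ((b₄ (HIAc.mem P₀ k (by omega) (by omega)).1).trans e₂)
  have kY := HIAc.key hJB P x _ P₀ _ _ _ _ _ h0 ((f₂ m3.2).trans e₁) ((b₂ m3.2).trans e₂)
    ((b₃ (HIAc.mem P₀ i (by omega) (by omega)).2).trans e₂)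
  have e4 : 4 * (3 * w) = 12 * w := by ring
  have main := h₄ Ω _ P (fun ω => (x ω).V (WW i k P₀ w)) X Y Z B (3 * w) hB
    ((pw (by omega)).trans (hw.trans (by omega)))
    (fun ω hω => ⟨(hC.bd ω hω).1.trans (pr (by omega)), (hC.bd ω hω).2.1.trans (pr (by omega))⟩)
    (fun d₁ g₁ d₂ g₂ ω hω => by
      obtain ⟨τ, c₁, c₂⟩ := h₃ Ω P x B (3 * w) d₁ d₂ _ _ P₀ i j k ε X Y Z D hB ht hS
        (Ball_sub (self_Ball P₀ le_rfl) (by omega)) hC
        ((pw (by omega)).trans (hw.trans (by omega))) (by rwa [e4]) g₁.le g₂.le ω hω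
      exact ⟨τ, c₁.trans (pr (by omega)), c₂⟩) hX hY
  simp only [JI, e4] at main
  simp only [JJ, AX, AY, BX, BY, ee_zero, add_zero, sub_zero]
  push_cast at kX kY main
  have hw' : (B : ℝ) ^ (A + a₁ + a₂ + a₃ + 2) ≤ w := by exact_mod_cast hw
  have hp : (0 : ℝ) < B ^ A := by positivity
  have w0 : (0 : ℝ) < w := lt_of_lt_of_le (by positivity) hw'
  have num : (B : ℝ) ^ A * (6 * B ^ (a₁ + a₂)) / (3 * w) ≤ 1 / B := by
    rw [div_le_div_iff₀ (by positivity) (by positivity)]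
    have := (pr (show A + (a₁ + a₂) + 1 + 1 ≤ _ by omega)).trans hw'
    rw [pow_succ, pow_succ, pow_add] at this
    nlinarith [show (0 : ℝ) < B ^ A * B ^ (a₁ + a₂) * B by positivity]
  refine main.trans ?_
  refine (add_le_add_right (div_le_div_of_nonneg_right (mul_le_mul_of_nonneg_left
    (add_le_add kX kY) hp.le) (by positivity)) _).trans ?_
  rw [show (2 : ℝ) / B = 1 / B + 1 / B by ring]
  refine le_trans (le_of_eq ?_) (add_le_add_left (add_le_add_right num _) _)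
  ring

end Pool.Agent.P.MP_e45b92_nt.EL
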