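import Pool.Agent.P.MP_e45b92_nt.EL.If

/-! Step HIB. -/

set_option autoImplicit false

namespace Pool.Agent.P.MP_e45b92_nt.EL

open Finset Matrix Real
open Pool.Agent.P.MP_bf60a1_an.RA
open Pool.Agent.P.MP_246241_nt.EK (Vc Mt Gl Bd MI MI_nonneg MI_symm det_unit)

namespace HIBc

theorem core (hJB : S_JB) {Ω : Type} [Fintype Ω] (P : FP Ω) (x : Ω → Pt) (E : Ω → Prop)
    {R : List Pos} {P₀ : Pos} (h0 : P₀ ∈ R) (p q : Pos) (T : Ω → ℤ) {e s : ℝ} (hs : 0 ≤ s + e)
    (h1 : (P.cond E).Hc (fun ω => (x ω).V (p :: R)) (fun ω => (T ω, (x ω).V R)) ≤ e)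
    (h2 : 0 < P.pr E → (P.cond E).Hc T (fun ω => (x ω).V R) ≤ s) :
    ps P x E (p :: q :: R) - ps P x E (P₀ :: q :: R) ≤ s + e := by
  rw [ps, ps, pH, pH, ← mul_sub]
  rcases (P.pr_nonneg E).eq_or_lt with h | h
  · rw [← h, zero_mul]; exact hs
  have h3 := (hJB Ω ℤ ℤ _ (P.cond E) T T (fun ω => (x ω).V R) (fun ω => (x ω).V (p :: R))
    (fun ω => (x ω).V (P₀ :: q :: R)) (fun ω => (x ω).V (p :: q :: R)) e
    (det_V _ x (by simp)) (det_V _ x fun m hm => by simp [hm])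
    (det_V _ x fun m hm => by
      rcases List.mem_cons.1 hm with rfl | hm
      exacts [by simp [h0], List.mem_cons_of_mem _ hm])
    (fun _ _ _ _ g => Pt.V_glue (r := P₀) (List.mem_cons_of_mem _ h0) List.mem_cons_self
      (fun m hm => by
        rcases List.mem_cons.1 hm with rfl | hm
        exacts [by simp, List.mem_append_right _ (List.mem_cons_of_mem _ hm)])
      (congrArg Prod.fst g) (congrArg Prod.snd g)) h1).1
  exact (mul_le_mul_of_nonneg_left (h3.trans (add_le_add_left (h2 h) e)) h.le).trans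
    (mul_le_of_le_one_left hs (P.pr_le_one E))

theorem ball (Q : Pos) (i : Fin 3) {t ρ : ℤ} (h0 : 0 ≤ t) (h : t ≤ ρ) :
    Q + ee i t ∈ Ball Q ρ ∧ Q - ee i t ∈ Ball Q ρ := by
  constructor <;> intro b <;> by_cases e : b = i
  · rw [e, Pi.add_apply, ee_self]; omega
  · rw [Pi.add_apply, ee_ne e]; omega
  · rw [e, Pi.sub_apply, ee_self]; omega
  · rw [Pi.sub_apply, ee_ne e]; omega

end HIBc

open HIBc in
theorem p_HIB (hCF : S_CF) (hPRED : S_PRED) (hJB : S_JB) :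
    S_HIB := by
  intro a
  obtain ⟨a', hC⟩ := hCF a
  refine ⟨a + a' + 2, ?_⟩
  intro Ω _ P x B w P₀ i j k ε X Y Z D E hB T hw hS hCo hε
  have B2 : (2 : ℝ) ≤ B := by exact_mod_cast hB
  have B0 : (0 : ℝ) < B := by linarith
  have hε' : ε * 2 ^ (3 * w) ≤ 1 := by
    rcases le_total ε 0 with h | h
    · exact (mul_nonpos_of_nonpos_of_nonneg h (by positivity)).trans zero_le_one
    · exact (mul_le_mul_of_nonneg_left (pow_le_pow_right₀ one_le_two (by omega)) h).trans hε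
  have hI : In (WW i k P₀ w) (Ball P₀ (60 * w)) := by
    simp only [In, WW, List.forall_mem_cons, List.not_mem_nil, false_imp_iff, implies_true,
      and_true]
    exact ⟨self_Ball _ (by omega), (ball P₀ i (by omega) (by omega)).1,
      (ball P₀ k (by omega) (by omega)).2⟩
  have h0 : P₀ ∈ WW i k P₀ w := List.mem_cons_self
  obtain ⟨c1, c2⟩ := hC Ω (P.cond E) x B (3 * w) _ _ P₀ i j k ε X Y Z D hB T (hS.cond E) hI h0
    (by simp [WW]) (hCo.cond E) hε'
  have b3 := ball P₀ j (t := (3 * w : ℕ)) (ρ := 60 * w) (by omega) (by omega)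
  have p1 : (1 : ℝ) ≤ B ^ a := one_le_pow₀ (by linarith)
  have p2 : (1 : ℝ) ≤ B ^ a' := one_le_pow₀ (by linarith)
  have l0 : 0 ≤ log (2 * (B : ℝ) ^ a + 3) := log_nonneg (by linarith)
  have hn : ((3 * w : ℕ) : ℝ) / B + log (2 * (B : ℝ) ^ a + 3) + B ^ a' ≤ 6 * w / B := by
    have h1 := log_le_sub_one_of_pos (by linarith : 0 < 2 * (B : ℝ) ^ a + 3)
    have h2 : (B : ℝ) ^ a * B ^ a' * B * B ≤ w := by
      have : ((B ^ (a + a' + 2) : ℕ) : ℝ) ≤ w := by exact_mod_cast hw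
      push_cast at this
      linarith [show (B : ℝ) ^ (a + a' + 2) = B ^ a * B ^ a' * B * B by ring]
    have h3 := (le_div_iff₀ B0).2 h2
    have h4 := mul_le_mul_of_nonneg_left B2 (by positivity : 0 ≤ (B : ℝ) ^ a * B ^ a')
    push_cast
    rw [mul_div_assoc, mul_div_assoc]
    nlinarith
  have e3 : (3 * w : ℤ) = (3 * w : ℕ) := by push_cast; rfl
  refine ⟨fun g => le_trans ?_ hn, fun g => le_trans ?_ hn⟩
  · rw [BX, BX, ee_zero, add_zero, e3]
    exact core hJB P x E h0 _ _ _ (by positivity) (c1 b3.1) fun h =>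
      hPRED Ω _ P _ X E B (3 * w) _ (by omega) h (fun ω hω => (hCo.bd ω hω).1) g
  · rw [BY, BY, ee_zero, sub_zero, e3]
    exact core hJB P x E h0 _ _ _ (by positivity) (c2 b3.2) fun h =>
      hPRED Ω _ P _ Y E B (3 * w) _ (by omega) h (fun ω hω => (hCo.bd ω hω).2.1) g

end Pool.Agent.P.MP_e45b92_nt.EL
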