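import Pool.Agent.P.MP_e45b92_nt.EL.If

/-! Step HIGH. -/

set_option autoImplicit false

namespace Pool.Agent.P.MP_e45b92_nt.EL

open Finset Matrix Real
open Pool.Agent.P.MP_bf60a1_an.RA
open Pool.Agent.P.MP_246241_nt.EK (Vc Mt Gl Bd MI MI_nonneg MI_symm det_unit)

namespace HIGHc

theorem split {Ω κ : Type} [Fintype Ω] (P : FP Ω) (W : Ω → κ) (X : Ω → ℝ) (B n q : ℕ) (ω : Ω)
    (h : ¬ GG P W X B n ω) :
    1 / (32 * (B : ℝ) ^ 2) * n ≤ (cnt n fun d => MF P W X (1 / (4 * q)) d ω) ∨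
      1 / (32 * (B : ℝ) ^ 2) * n ≤ cnt n fun d => near q d (X ω) := by
  have h1 : (cnt n fun d => mis P W X d ω) ≤
      (cnt n fun d => MF P W X (1 / (4 * q)) d ω) + cnt n fun d => near q d (X ω) := by
    unfold cnt
    rw [← sum_add_distrib]
    refine sum_le_sum fun d _ => (ind_mono fun g => ?_).trans (ind_or_le _ _)
    by_cases g' : near q d (X ω)
    · exact Or.inr g'
    · refine Or.inl ⟨g, ?_⟩
      rw [show (2 : ℝ) * (1 / (4 * q)) = 1 / (2 * q) by ring]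
      exact not_lt.1 g'
  have h2 := not_le.1 h
  have h3 : (n : ℝ) / (16 * B ^ 2) = 2 * (1 / (32 * (B : ℝ) ^ 2) * n) := by ring
  by_contra g
  rw [not_or, not_le, not_le] at g
  linarith [g.1, g.2]

theorem mk {Ω : Type} [Fintype Ω] (P : FP Ω) (X : Ω → ℝ) (B n : ℕ) (hB : 2 ≤ B) (hn : 0 < n)
    (h : (P.E fun ω => cnt n fun d => near (128 * B ^ 3 + 1) d (X ω)) ≤
      n / (128 * B ^ 3 + 1 : ℕ)) :
    (P.pr fun ω => 1 / (32 * (B : ℝ) ^ 2) * n ≤ cnt n fun d => near (128 * B ^ 3 + 1) d (X ω)) ≤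
      1 / (4 * B) := by
  have b : (0 : ℝ) < B := by exact_mod_cast (by omega : 0 < B)
  have n0 : (0 : ℝ) < n := by exact_mod_cast hn
  refine (P.markov (fun _ _ => cnt_nonneg _ _) (by positivity)).trans ?_
  rw [div_le_iff₀ (by positivity)]
  refine h.trans ?_
  rw [show 1 / (4 * (B : ℝ)) * (1 / (32 * (B : ℝ) ^ 2) * n) = n / (128 * B ^ 3) by
    field_simp; norm_num]
  push_cast
  exact div_le_div_of_nonneg_left n0.le (by positivity) (by linarith)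

theorem tw {B : ℕ} (hB : 2 ≤ B) (c k : ℕ) : 2 ^ c * B ^ k ≤ B ^ (c + k) := by
  rw [pow_add]; exact Nat.mul_le_mul_right _ (Nat.pow_le_pow_left hB c)

theorem bds {B : ℕ} (hB : 2 ≤ B) (a : ℕ) :
    512 * (128 * B ^ 3 + 1) ^ 2 ≤ B ^ 31 ∧
      64 * (32 * (128 * B ^ 3 + 1) ^ 2 * B ^ a + 1) + 2 ≤ B ^ (a + 35) := by
  have p : ∀ k, 1 ≤ B ^ k := fun k => Nat.one_le_pow _ _ (by omega)
  have h1 : 128 * B ^ 3 + 1 ≤ B ^ 11 := by
    have : 2 ^ 8 * B ^ 3 ≤ B ^ 11 := tw hB 8 3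
    have := p 3
    omega
  have h2 : (128 * B ^ 3 + 1) ^ 2 ≤ B ^ 22 := by
    rw [show B ^ 22 = (B ^ 11) ^ 2 by ring]; exact Nat.pow_le_pow_left h1 2
  have h0 : 2 ^ 9 * B ^ 22 ≤ B ^ 31 := tw hB 9 22
  refine ⟨by omega, ?_⟩
  have h3 : (128 * B ^ 3 + 1) ^ 2 * B ^ a ≤ B ^ (22 + a) := by
    rw [pow_add]; exact Nat.mul_le_mul_right _ h2
  have h4 := tw hB 13 (22 + a)
  rw [show 13 + (22 + a) = a + 35 by omega] at h4
  have := p (22 + a)
  rw [mul_assoc 32]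
  omega

theorem fin {b L m n J : ℝ} {a : ℕ} (hb : 2 ≤ b) (hL : 0 < L) (hm : 0 ≤ m) (hJ : 0 ≤ J)
    (h1 : m ≤ b ^ 31) (h2 : L ≤ b ^ (a + 35)) (hn : b ^ (2 * a + 167) ≤ n) :
    L / (1 / (32 * b ^ 2)) ^ 2 * ((1 / (32 * b ^ 2)) ^ 2 / (4 * b * L) + m * (J + 2 * m) /
      ((1 / (32 * b ^ 2)) ^ 2 / (4 * b * L) * n)) ≤ 1 / (2 * b) + b ^ (2 * a + 167) * J / n := by
  have b0 : 0 < b := by linarith
  have n0 : 0 < n := lt_of_lt_of_le (by positivity) hn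
  have h3 : 2 ^ 22 * b ^ 9 * L ^ 2 * m ≤ b ^ (2 * a + 132) := by
    calc _ ≤ b ^ 22 * b ^ 9 * (b ^ (a + 35)) ^ 2 * b ^ 31 := by gcongr
      _ = _ := by ring
  set β := 2 ^ 22 * b ^ 9 * L ^ 2 * m with hβ
  have β0 : 0 ≤ β := by positivity
  have h4 : β ≤ b ^ (2 * a + 167) := h3.trans (pow_le_pow_right₀ (by linarith) (by omega))
  have h5 : 2 ^ 3 * b * m * β ≤ n := by
    calc _ ≤ b ^ 3 * b * b ^ 31 * b ^ (2 * a + 132) := by gcongr
      _ = _ := by ring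
      _ ≤ _ := hn
  have h6 : 2 * m * β / n ≤ 1 / (4 * b) := by
    rw [div_le_div_iff₀ n0 (by positivity)]; linarith
  have h7 : β * J / n ≤ b ^ (2 * a + 167) * J / n := by gcongr
  calc _ = 1 / (4 * b) + (β * J / n + 2 * m * β / n) := by rw [hβ]; field_simp; ring
    _ ≤ 1 / (4 * b) + (b ^ (2 * a + 167) * J / n + 1 / (4 * b)) := by gcongr
    _ = _ := by field_simp; ring

end HIGHc

theorem p_HIGH (hAVG : S_AVG) :
    S_HIGH := by
  intro a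
  refine ⟨2 * a + 167, fun Ω κ _ P W X Y Z B n hB hn hXY hP hX hY => ?_⟩
  obtain ⟨hm, hL⟩ := HIGHc.bds hB a
  have p : ∀ k, 1 ≤ B ^ k := fun k => Nat.one_le_pow _ _ (by omega)
  have pl : ∀ k, k ≤ 2 * a + 167 → B ^ k ≤ n := fun k h =>
    (Nat.pow_le_pow_right (by omega) h).trans hn
  have n0 : 0 < n := by have := p (2 * a + 167); omega
  have b2 : (2 : ℝ) ≤ B := by exact_mod_cast hB
  have mX := HIGHc.mk P X B n hB n0 hX
  have mY := HIGHc.mk P Y B n hB n0 hY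
  have sp := fun V ω => HIGHc.split P W V B n (128 * B ^ 3 + 1) ω
  generalize hq : 128 * B ^ 3 + 1 = q at *
  have q1 : (1 : ℝ) ≤ q := by exact_mod_cast (by omega : 1 ≤ q)
  have g : ∀ (x t : ℕ) (c : ℝ), (x : ℝ) = 16 * q ^ 2 * c → x ≤ t →
      c ≤ 2 ^ t * (1 / (4 * (q : ℝ))) ^ 2 := fun x t c e h => by
    have : (x : ℝ) ≤ 2 ^ t := by exact_mod_cast h.trans Nat.lt_two_pow_self.le
    rw [div_pow, one_pow, mul_one_div, le_div_iff₀ (by positivity)]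
    linarith
  have hA := hAVG Ω κ P W X Y Z n (512 * q ^ 2) (32 * q ^ 2 * B ^ a + 1) (B ^ a) (1 / (4 * q))
    ((1 / (32 * (B : ℝ) ^ 2)) ^ 2 / (4 * B * (64 * (32 * q ^ 2 * B ^ a + 1 : ℕ) + 2)))
    (1 / (32 * (B : ℝ) ^ 2)) (by positivity)
    (by rw [div_le_one (by positivity)]; linarith)
    (by
      rw [div_pow, one_pow, mul_one_div, lt_div_iff₀ (by positivity)]
      push_cast; linarith)
    (by positivity) (by positivity) n0 (hm.trans (pl _ (by omega)))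
    (g (512 * q ^ 2) _ _ (by push_cast; ring) le_rfl)
    (g (512 * q ^ 2 * (B ^ a + 2)) _ _ (by push_cast; ring) (by
      have h1 : B ^ a + 2 ≤ B ^ (2 + a) := by have := HIGHc.tw hB 2 a; have := p a; omega
      have h2 := Nat.mul_le_mul hm h1
      rw [← pow_add] at h2
      have := pl (31 + (2 + a)) (by omega)
      omega)) hXY hP
  have hJ : 0 ≤ JI P W X Y Z n (4 * n) + JI P W Y X (fun ω => Z ω - X ω * Y ω) n (4 * n) :=
    add_nonneg (MI_nonneg _ _ _ _) (MI_nonneg _ _ _ _)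
  have hF := HIGHc.fin (L := 64 * (32 * q ^ 2 * B ^ a + 1 : ℕ) + 2) (m := (512 * q ^ 2 : ℕ))
    (n := n) (a := a) b2 (by positivity) (by positivity) hJ (by exact_mod_cast hm)
    (by exact_mod_cast hL) (by exact_mod_cast hn)
  refine (P.pr_mono (t := fun ω => _ ∨ _ ∨ _) fun ω _ h => ?_).trans
    ((P.pr_or_le _ _).trans ((add_le_add (hA.trans hF)
      ((P.pr_or_le _ _).trans (add_le_add mX mY))).trans (le_of_eq ?_)))
  · rcases sp X ω h.1 with h1 | h1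
    · rcases sp Y ω h.2 with h2 | h2
      exacts [Or.inl ⟨h1, h2⟩, Or.inr (Or.inr h2)]
    · exact Or.inr (Or.inl h1)
  · ring

end Pool.Agent.P.MP_e45b92_nt.EL
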