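import Pool.Agent.P.MP_e45b92_nt.EL.If

/-! Step JB. -/

set_option autoImplicit false

namespace Pool.Agent.P.MP_e45b92_nt.EL

open Finset Matrix Real
open Pool.Agent.P.MP_bf60a1_an.RA
open Pool.Agent.P.MP_246241_nt.EK (Vc Mt Gl Bd MI MI_nonneg MI_symm det_unit)

theorem p_JB :
    S_JB := by
  intro Ω α β γ _ P T Γ W A B₀ B₁ e hAW hBW _ hAB hA
  have h1 : P.H B₁ ≤ P.H fun ω => (B₁ ω, B₀ ω) :=
    P.H_mono fun _ _ _ _ h => congrArg Prod.fst h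
  have h2 : P.Hc B₁ B₀ ≤ P.Hc A B₀ := P.Hc_mono_left hAB
  have h3 := P.Hc_le_add A T B₀
  have h4 : P.Hc A (fun ω => (T ω, B₀ ω)) ≤ P.Hc A fun ω => (T ω, W ω) :=
    P.Hc_mono_right A fun ω ω' a b h =>
      Prod.ext (congrArg Prod.fst h :) (hBW ω ω' a b (congrArg Prod.snd h :))
  have h5 : P.Hc T B₀ ≤ P.Hc T W := P.Hc_mono_right T hBW
  have h6 : P.H B₁ - P.H B₀ ≤ P.Hc T B₀ + e := by
    have : P.Hc B₁ B₀ = (P.H fun ω => (B₁ ω, B₀ ω)) - P.H B₀ := rfl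
    linarith
  refine ⟨by linarith, fun hT hΓ => ?_⟩
  have h7 := P.Hc_le_add T A W
  have h8 : P.Hc T (fun ω => (A ω, W ω)) ≤ P.Hc T A :=
    P.Hc_mono_right T fun _ _ _ _ h => congrArg Prod.fst h
  have h9 : (P.H fun ω => (A ω, W ω)) ≤ P.H A :=
    P.H_mono fun ω ω' a b h => Prod.ext h (hAW ω ω' a b h)
  have h10 : P.Hc A W = (P.H fun ω => (A ω, W ω)) - P.H W := rfl
  have h11 := P.Hc_le_add T Γ B₀
  have h12 : P.Hc T (fun ω => (Γ ω, B₀ ω)) ≤ P.Hc T fun ω => (Γ ω, W ω) :=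
    P.Hc_mono_right T fun ω ω' a b h =>
      Prod.ext (congrArg Prod.fst h :) (hBW ω ω' a b (congrArg Prod.snd h :))
  unfold MI
  linarith

end Pool.Agent.P.MP_e45b92_nt.EL
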