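import Pool.Agent.P.MP_e45b92_nt.EL.If

/-! Step KF. -/

set_option autoImplicit false

namespace Pool.Agent.P.MP_e45b92_nt.EL

open Finset Matrix Real
open Pool.Agent.P.MP_bf60a1_an.RA
open Pool.Agent.P.MP_246241_nt.EK (Vc Mt Gl Bd MI MI_nonneg MI_symm det_unit)

namespace KFc

theorem pair (hPAIR : S_PAIR) {x y : Pt} {B w : ℕ} {U : Set Pos} {P₀ : Pos} {i j k : Fin 3}
    (ht : Tri i j k) (hx : x.Ok B U) (hy : y.Ok B U) (hU : In (WW i k P₀ w) U)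
    (e : x.V (WW i k P₀ w) = y.V (WW i k P₀ w)) :
    RB (kk x y P₀) (6 * B ^ 3) ∧ |kk x y P₀ j i| ≤ 6 * B ^ 3 / 2 ^ (20 * w) ∧
      |kk x y P₀ k i| ≤ 6 * B ^ 3 / 2 ^ (20 * w) ∧ |kk x y P₀ k j| ≤ 6 * B ^ 3 / 2 ^ (20 * w) := by
  have g := fun m hm => hPAIR x y B U m P₀ hx hy (hU m hm)
    (Pt.V_eq.1 e m hm P₀ (by simp [WW]))
  obtain ⟨e1, e2, -, -, e5, e6⟩ := ht.ee
  have hp : (0 : ℝ) < 2 ^ (20 * w) := by positivity
  have hz : (2 : ℝ) ^ (20 * (w : ℤ)) = 2 ^ (20 * w) := by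
    rw [← zpow_natCast]; push_cast; rfl
  refine ⟨fun a b => by simpa using g P₀ (by simp [WW]) a b, ?_, ?_, ?_⟩ <;> rw [le_div_iff₀ hp, ← hz]
  · simpa [e1, ee_self] using g (P₀ + ee i (20 * w)) (by simp [WW]) j i
  · simpa [e2, ee_self] using g (P₀ + ee i (20 * w)) (by simp [WW]) k i
  · simpa [e6, ee_self] using g (P₀ - ee k (20 * w)) (by simp [WW]) k j

theorem ap_mono {κ : M3} {i j k : Fin 3} {ε ε' u v w : ℝ} {D D' : Fin 3 → ℝ}
    (h : Ap κ i j k ε u v w D D') (e : ε ≤ ε') : Ap κ i j k ε' u v w D D' := by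
  obtain ⟨a, b, c, d, f, g, l⟩ := h
  exact ⟨a.trans e, b.trans e, c.trans e, d.trans e, f.trans e, g.trans e, l.trans e⟩

theorem le_pow {b c : ℝ} (hb : 2 ≤ b) {s t a : ℕ} (hc : c ≤ 2 ^ s) (h : s + t ≤ a) :
    c * b ^ t ≤ b ^ a := by
  have h1 : c ≤ b ^ s := hc.trans (pow_le_pow_left₀ zero_le_two hb s)
  calc c * b ^ t ≤ b ^ s * b ^ t := mul_le_mul_of_nonneg_right h1 (by positivity)
    _ = b ^ (s + t) := (pow_add _ _ _).symm
    _ ≤ b ^ a := pow_le_pow_right₀ (by linarith) h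

theorem div_le {u v G G' : ℝ} (hG : 0 ≤ G) (hu : |u| ≤ G) (hv : 1 ≤ G' * |v|) :
    |u / v| ≤ G * G' := by
  have h0 : 0 < |v| := by
    rcases (abs_nonneg v).eq_or_lt with e | e
    · rw [← e] at hv; norm_num at hv
    · exact e
  rw [abs_div, div_le_iff₀ h0, mul_assoc]
  exact hu.trans (le_mul_of_one_le_right hG hv)

end KFc

theorem p_KF (hPAIR : S_PAIR) (hDIAG : S_DIAG) (hALG : S_ALG) :
    S_KF := by
  classical
  refine ⟨90, fun Ω _ P x B w U P₀ i j k hB ht hS hU hw => ?_⟩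
  have hb : (2 : ℝ) ≤ B := by exact_mod_cast hB
  have hw' : (B : ℝ) ^ 90 ≤ 2 ^ (20 * w) := by exact_mod_cast hw
  have hp : (0 : ℝ) < 2 ^ (20 * w) := by positivity
  have hex : ∀ ω, ∃ ω₀, (0 < P.p ω → 0 < P.p ω₀ ∧
      (x ω₀).V (WW i k P₀ w) = (x ω).V (WW i k P₀ w)) ∧ ∀ h : ∃ ω', 0 < P.p ω' ∧
        (x ω').V (WW i k P₀ w) = (x ω).V (WW i k P₀ w), ω₀ = h.choose := by
    intro ω
    by_cases h : ∃ ω', 0 < P.p ω' ∧ (x ω').V (WW i k P₀ w) = (x ω).V (WW i k P₀ w)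
    · exact ⟨h.choose, fun _ => h.choose_spec, fun _ => rfl⟩
    · exact ⟨ω, fun a => ⟨a, rfl⟩, fun a => absurd a h⟩
  choose r hr hr' using hex
  have hrr : ∀ ω ω', 0 < P.p ω → (x ω).V (WW i k P₀ w) = (x ω').V (WW i k P₀ w) →
      r ω = r ω' := by
    intro ω ω' a e
    rw [hr' ω ⟨ω, a, rfl⟩, hr' ω' ⟨ω, a, e⟩]
    simp only [e]
  let h : Ω → M3 := fun ω => kk (x (r ω)) (x ω) P₀
  have h1 := fun ω a => KFc.pair hPAIR ht (hS _ (hr ω a).1) (hS ω a) hU (hr ω a).2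
  have hδ : 10 * (6 * (B : ℝ) ^ 3) ^ 2 * (6 * B ^ 3 / 2 ^ (20 * w)) ≤ 1 := by
    rw [← mul_div_assoc, div_le_one hp]
    have := KFc.le_pow (c := 2160) (s := 12) (t := 9) (a := 90) hb (by norm_num) (by norm_num)
    linarith
  have h2 : ∀ ω, 0 < P.p ω → ∀ a, 1 ≤ 72 * (B : ℝ) ^ 6 * |h ω a a| := fun ω a c => by
    have := hDIAG (h ω) i j k _ _ ht ((hS _ (hr ω a).1).det_kk (hS ω a) P₀) (h1 ω a).1
      (h1 ω a).2.1 (h1 ω a).2.2.1 (h1 ω a).2.2.2 hδ c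
    convert this using 2; ring
  have b3 : (1 : ℝ) ≤ B ^ 3 := one_le_pow₀ (by linarith)
  have hG : 6 * (B : ℝ) ^ 3 ≤ 72 * B ^ 6 := by nlinarith
  have c1 := KFc.le_pow (c := 432) (s := 9) (t := 9) (a := 90) hb (by norm_num) (by norm_num)
  have c2 := KFc.le_pow (c := 72) (s := 7) (t := 6) (a := 90) hb (by norm_num) (by norm_num)
  have c3 := KFc.le_pow (c := 30 * 72 ^ 6) (s := 43) (t := 39) (a := 90) hb (by norm_num)
    (by norm_num)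
  refine ⟨fun ω => h ω i j / h ω j j, fun ω => h ω j k / h ω k k, fun ω => h ω i k / h ω k k,
    fun ω a => h ω a a, fun ω a => ⟨?_, ?_, fun c => ⟨?_, ?_⟩⟩, fun ω ω' a a' e => ?_⟩
  · have := KFc.div_le (by positivity) ((h1 ω a).1 i j) (h2 ω a j)
    exact this.trans (by linarith)
  · have := KFc.div_le (by positivity) ((h1 ω a).1 j k) (h2 ω a k)
    exact this.trans (by linarith)
  · exact (h2 ω a c).trans (mul_le_mul_of_nonneg_right c2 (abs_nonneg _))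
  · exact ((h1 ω a).1 c c).trans (hG.trans c2)
  · have h3 := KFc.pair hPAIR ht (hS ω a) (hS ω' a') hU e
    have hm : h ω * kk (x ω) (x ω') P₀ = h ω' := by
      simp only [h, ← hrr ω ω' a e]
      exact (hS ω a).kk_mul _ _ _
    refine KFc.ap_mono (hALG (h ω) (h ω') _ i j k (72 * B ^ 6) _ ht hm (by linarith)
      ((h1 ω a).1.mono hG) (h3.1.mono hG) (fun c => ⟨h2 ω a c, h2 ω' a' c⟩) (h1 ω a).2.1
      (h1 ω a).2.2.1 (h1 ω a).2.2.2 h3.2.1 h3.2.2.1 h3.2.2.2) ?_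
    rw [← mul_div_assoc]
    refine div_le_div_of_nonneg_right ?_ hp.le
    linarith

end Pool.Agent.P.MP_e45b92_nt.EL
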