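import Pool.Agent.P.MP_e45b92_nt.EL.If
import Pool.Agent.P.MP_246241_nt.EK.TPINS

/-! Step LOC. -/

set_option autoImplicit false

namespace Pool.Agent.P.MP_e45b92_nt.EL

open Finset Matrix Real
open Pool.Agent.P.MP_bf60a1_an.RA
open Pool.Agent.P.MP_246241_nt.EK (Vc Mt Gl Bd MI MI_nonneg MI_symm det_unit)

namespace LOCc

theorem drift (ν : Set ℝ → ℝ) (U : Set ℝ) (r e D : ℝ) (K : ℕ)
    (mono : ∀ S T : Set ℝ, (∀ u ∈ S, u ∈ U → u ∈ T) → ν S ≤ ν T)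
    (sub : ∀ S T, ν (S ∪ T) ≤ ν S + ν T) (emp : ν ∅ ≤ 0)
    (step : ∀ ε : ℝ, ε = 1 ∨ ε = -1 → ∀ S,
      ν S ≤ ν {u' | ∃ u ∈ S, r ≤ ε * (u' - u) ∧ ε * (u' - u) ≤ 3 / 2} + D)
    (hole : ∀ u ∈ U, ∃ c, |c - u| ≤ e ∧ ∀ u' ∈ U, 1 ≤ |u' - c|) (hK : e < K * r) :
    ν Set.univ ≤ 2 * K * D := by
  let S : ℝ → ℕ → Set ℝ := fun ε j =>
    {u | u ∈ U ∧ ∃ c, (∀ u' ∈ U, 1 ≤ |u' - c|) ∧ 0 ≤ ε * (c - u) ∧ ε * (c - u) ≤ e - j * r}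
  have h1 : ∀ ε : ℝ, ε = 1 ∨ ε = -1 → ∀ j : ℕ, ν (S ε 0) ≤ ν (S ε j) + j * D := by
    intro ε hε j
    induction j with
    | zero => simp
    | succ j ih =>
      have a := step ε hε (S ε j)
      have b : ν {u' | ∃ u ∈ S ε j, r ≤ ε * (u' - u) ∧ ε * (u' - u) ≤ 3 / 2} ≤ ν (S ε (j + 1)) := by
        refine mono _ _ ?_
        rintro u' ⟨u, ⟨hu, c, hc, c0, c1⟩, s0, s1⟩ hu'
        have k1 := le_abs.1 (hc u hu)
        have k2 := le_abs.1 (hc u' hu')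
        refine ⟨hu', c, hc, ?_, ?_⟩
        · rcases hε with rfl | rfl <;> rcases k1 with k1 | k1 <;> rcases k2 with k2 | k2 <;> linarith
        · push_cast
          linarith
      push_cast
      linarith
  have h2 : ∀ ε : ℝ, ε = 1 ∨ ε = -1 → ν (S ε 0) ≤ K * D := fun ε hε => by
    have a := h1 ε hε K
    have b : ν (S ε K) ≤ ν ∅ := mono _ _ (by
      rintro u ⟨_, c, _, c0, c1⟩ _
      exact absurd (c0.trans c1) (by linarith))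
    linarith
  have h3 : ν Set.univ ≤ ν (S 1 0 ∪ S (-1) 0) := mono _ _ fun u _ hu => by
    obtain ⟨c, h, hc⟩ := hole u hu
    have := abs_le.1 h
    rcases le_total u c with k | k
    · exact Or.inl ⟨hu, c, hc, by linarith, by simp; linarith⟩
    · exact Or.inr ⟨hu, c, hc, by linarith, by simp; linarith⟩
  linarith [sub (S 1 0) (S (-1) 0), h2 1 (Or.inl rfl), h2 (-1) (Or.inr rfl)]

def th (η a : ℝ) (S : Set ℝ) : Set ℝ := {u | ∃ v ∈ S, |u - v - a| ≤ η}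

section cell
variable {p q : ℝ → ℝ} {N N' : ℝ → Set ℝ → ℝ} {δ : ℝ → ℝ → ℝ} {U : ℝ → Set ℝ} {ρ e : ℝ} {K : ℕ}

theorem cyc (hp : ∀ ξ, 0 ≤ p ξ) (hq : ∀ υ, 0 ≤ q υ)
    (F : ∀ ξ υ S, q υ * N ξ S ≤ p ξ * N' υ (th (ρ ^ 2 / 8) (ξ * υ) S) + δ ξ υ)
    (G : ∀ ξ υ S, p ξ * N' υ S ≤ q υ * N ξ (th (ρ ^ 2 / 8) (-(ξ * υ)) S) + δ ξ υ)
    (mono : ∀ ξ, ∀ S T : Set ℝ, (∀ u ∈ S, u ∈ U ξ → u ∈ T) → N ξ S ≤ N ξ T)
    (x1 x2 y1 y2 : ℝ) (S T : Set ℝ)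
    (hT : ∀ u, ∀ v ∈ S, |u - v - (x1 - x2) * (y1 - y2)| ≤ ρ ^ 2 / 2 → u ∈ T) :
    p x2 * q y1 * q y2 * N x1 S ≤ p x2 * q y1 * q y2 * N x1 T +
      (p x2 * q y2 * δ x1 y1 + p x1 * q y2 * δ x2 y1 + p x1 * q y1 * δ x2 y2 +
        p x2 * q y1 * δ x1 y2) := by
  have h1 := mul_le_mul_of_nonneg_left (F x1 y1 S) (mul_nonneg (hp x2) (hq y2))
  have h2 := mul_le_mul_of_nonneg_left (G x2 y1 (th (ρ ^ 2 / 8) (x1 * y1) S))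
    (mul_nonneg (hp x1) (hq y2))
  have h3 := mul_le_mul_of_nonneg_left
    (F x2 y2 (th (ρ ^ 2 / 8) (-(x2 * y1)) (th (ρ ^ 2 / 8) (x1 * y1) S)))
    (mul_nonneg (hp x1) (hq y1))
  have h4 := mul_le_mul_of_nonneg_left (G x1 y2 (th (ρ ^ 2 / 8) (x2 * y2)
    (th (ρ ^ 2 / 8) (-(x2 * y1)) (th (ρ ^ 2 / 8) (x1 * y1) S)))) (mul_nonneg (hp x2) (hq y1))
  have h5 := mul_le_mul_of_nonneg_left (mono x1 (th (ρ ^ 2 / 8) (-(x1 * y2))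
    (th (ρ ^ 2 / 8) (x2 * y2) (th (ρ ^ 2 / 8) (-(x2 * y1)) (th (ρ ^ 2 / 8) (x1 * y1) S)))) T (by
      rintro u ⟨u3, ⟨u2, ⟨u1, ⟨v, hv, a1⟩, a2⟩, a3⟩, a4⟩ _
      refine hT u v hv ?_
      rw [abs_le] at a1 a2 a3 a4 ⊢
      constructor <;> linarith [a1.1, a1.2, a2.1, a2.2, a3.1, a3.2, a4.1, a4.2]))
    (mul_nonneg (mul_nonneg (hp x2) (hq y1)) (hq y2))
  linarith

theorem quad (hp : ∀ ξ, 0 ≤ p ξ) (hq : ∀ υ, 0 ≤ q υ)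
    (F : ∀ ξ υ S, q υ * N ξ S ≤ p ξ * N' υ (th (ρ ^ 2 / 8) (ξ * υ) S) + δ ξ υ)
    (G : ∀ ξ υ S, p ξ * N' υ S ≤ q υ * N ξ (th (ρ ^ 2 / 8) (-(ξ * υ)) S) + δ ξ υ)
    (mono : ∀ ξ, ∀ S T : Set ℝ, (∀ u ∈ S, u ∈ U ξ → u ∈ T) → N ξ S ≤ N ξ T)
    (sub : ∀ ξ S T, N ξ (S ∪ T) ≤ N ξ S + N ξ T) (emp : ∀ ξ, N ξ ∅ ≤ 0)
    (hole : ∀ ξ, ∀ u ∈ U ξ, ∃ c, |c - u| ≤ e ∧ ∀ u' ∈ U ξ, 1 ≤ |u' - c|)
    (h0 : 0 < ρ) (h1 : ρ ≤ 1) (hK : 2 * e < K * ρ ^ 2) (x1 x2 y1 y2 : ℝ)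
    (hx : ρ ≤ |x2 - x1|) (hx' : |x2 - x1| ≤ 1) (hy : ρ ≤ |y2 - y1|) (hy' : |y2 - y1| ≤ 1) :
    p x2 * q y1 * q y2 * N x1 Set.univ ≤ 2 * K *
      (p x2 * q y2 * δ x1 y1 + p x1 * q y2 * δ x2 y1 + p x1 * q y1 * δ x2 y2 +
        p x2 * q y1 * δ x1 y2) := by
  have hc := mul_nonneg (mul_nonneg (hp x2) (hq y1)) (hq y2)
  have s1 : ρ ^ 2 ≤ |(x1 - x2) * (y1 - y2)| := by
    rw [abs_mul, abs_sub_comm x1, abs_sub_comm y1, sq]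
    exact mul_le_mul hx hy h0.le (abs_nonneg _)
  have s2 : |(x1 - x2) * (y1 - y2)| ≤ 1 := by
    rw [abs_mul, abs_sub_comm x1, abs_sub_comm y1]
    exact mul_le_one₀ hx' (abs_nonneg _) hy'
  have s3 : ρ ^ 2 ≤ 1 := pow_le_one₀ h0.le h1
  refine drift (fun S => p x2 * q y1 * q y2 * N x1 S) (U x1) (ρ ^ 2 / 2) e _ K
    (fun S T h => mul_le_mul_of_nonneg_left (mono x1 S T h) hc)
    (fun S T => by rw [← mul_add]; exact mul_le_mul_of_nonneg_left (sub x1 S T) hc)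
    (mul_nonpos_of_nonneg_of_nonpos hc (emp x1)) (fun ε hε S => ?_) (hole x1) (by linarith)
  by_cases k : 0 ≤ ε * ((x1 - x2) * (y1 - y2))
  · refine cyc hp hq F G mono x1 x2 y1 y2 S _ fun u v hv h => ⟨v, hv, ?_⟩
    rw [abs_le] at h
    rcases hε with rfl | rfl
    · rw [abs_of_nonneg (by linarith)] at s1 s2
      constructor <;> linarith [h.1, h.2]
    · rw [abs_of_nonpos (by linarith)] at s1 s2
      constructor <;> linarith [h.1, h.2]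
  · have := cyc hp hq F G mono x1 x2 y2 y1 S
      {u' | ∃ u ∈ S, ρ ^ 2 / 2 ≤ ε * (u' - u) ∧ ε * (u' - u) ≤ 3 / 2} fun u v hv h => ⟨v, hv, by
        rw [abs_le] at h
        rcases hε with rfl | rfl
        · rw [abs_of_nonpos (by linarith)] at s1 s2
          constructor <;> linarith [h.1, h.2]
        · rw [abs_of_nonneg (by linarith)] at s1 s2
          constructor <;> linarith [h.1, h.2]⟩
    linarith

theorem cell (hp : ∀ ξ, 0 ≤ p ξ) (hq : ∀ υ, 0 ≤ q υ) (hδ : ∀ ξ υ, 0 ≤ δ ξ υ)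
    (hN : ∀ ξ, 0 ≤ N ξ Set.univ) (X Y FX FY : Finset ℝ) (hFX : FX ⊆ X) (hFY : FY ⊆ Y)
    (sp : ∑ ξ ∈ X, p ξ ≤ 1) (sq : ∑ υ ∈ Y, q υ ≤ 1)
    (fx : ∀ ξ ∈ FX, 1 / 2 ≤ ∑ ξ' ∈ X with ρ ≤ |ξ' - ξ|, p ξ')
    (fy : ∀ υ ∈ FY, 1 / 2 ≤ ∑ υ' ∈ Y with ρ ≤ |υ' - υ|, q υ')
    (h : ∀ x1 ∈ X, ∀ x2 ∈ X, ∀ y1 ∈ Y, ∀ y2 ∈ Y, ρ ≤ |x2 - x1| → ρ ≤ |y2 - y1| →
      p x2 * q y1 * q y2 * N x1 Set.univ ≤ 2 * K *
      (p x2 * q y2 * δ x1 y1 + p x1 * q y2 * δ x2 y1 + p x1 * q y1 * δ x2 y2 +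
        p x2 * q y1 * δ x1 y2)) :
    ∑ ξ ∈ FX, ∑ υ ∈ FY, q υ * N ξ Set.univ ≤ 32 * K * ∑ ξ ∈ X, ∑ υ ∈ Y, δ ξ υ := by
  set Δ := ∑ ξ ∈ X, ∑ υ ∈ Y, δ ξ υ with hΔ
  have hK : (0 : ℝ) ≤ K := Nat.cast_nonneg _
  have hr : ∀ ξ, 0 ≤ ∑ υ ∈ Y, δ ξ υ := fun ξ => sum_nonneg fun _ _ => hδ _ _
  have hcc : ∀ υ, 0 ≤ ∑ ξ ∈ X, δ ξ υ := fun υ => sum_nonneg fun _ _ => hδ _ _
  have hΔ0 : 0 ≤ Δ := sum_nonneg fun _ _ => hr _
  have sp0 : 0 ≤ ∑ ξ ∈ X, p ξ := sum_nonneg fun _ _ => hp _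
  have sq0 : 0 ≤ ∑ υ ∈ Y, q υ := sum_nonneg fun _ _ => hq _
  let g : ℝ → ℝ → ℝ := fun x1 y1 => δ x1 y1 + p x1 * ∑ ξ ∈ X, δ ξ y1 + p x1 * q y1 * Δ +
    q y1 * ∑ υ ∈ Y, δ x1 υ
  have g0 : ∀ x1 y1, 0 ≤ g x1 y1 := fun x1 y1 => by
    have := hp x1; have := hq y1; have := hr x1; have := hcc y1; have := hδ x1 y1
    positivity
  have a1 : ∀ x1 ∈ FX, ∀ y1 ∈ FY, q y1 * N x1 Set.univ ≤ 8 * K * g x1 y1 := by
    intro x1 hx1 y1 hy1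
    have n0 := mul_nonneg (hq y1) (hN x1)
    have b1 : ∑ x2 ∈ X with ρ ≤ |x2 - x1|, ∑ y2 ∈ Y with ρ ≤ |y2 - y1|,
        p x2 * q y1 * q y2 * N x1 Set.univ = (∑ x2 ∈ X with ρ ≤ |x2 - x1|, p x2) *
          (∑ y2 ∈ Y with ρ ≤ |y2 - y1|, q y2) * (q y1 * N x1 Set.univ) := by
      rw [sum_mul_sum, sum_mul]
      refine sum_congr rfl fun _ _ => ?_
      rw [sum_mul]
      exact sum_congr rfl fun _ _ => by ring
    have e0 : ∀ x2 y2, 0 ≤ 2 * K * (p x2 * q y2 * δ x1 y1 + p x1 * q y2 * δ x2 y1 +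
        p x1 * q y1 * δ x2 y2 + p x2 * q y1 * δ x1 y2) := fun x2 y2 => by
      have := hp x1; have := hq y1; have := hp x2; have := hq y2
      have := hδ x1 y1; have := hδ x2 y1; have := hδ x1 y2; have := hδ x2 y2
      positivity
    have b2 : ∑ x2 ∈ X with ρ ≤ |x2 - x1|, ∑ y2 ∈ Y with ρ ≤ |y2 - y1|,
        p x2 * q y1 * q y2 * N x1 Set.univ ≤ ∑ x2 ∈ X, ∑ y2 ∈ Y, 2 * K *
        (p x2 * q y2 * δ x1 y1 + p x1 * q y2 * δ x2 y1 + p x1 * q y1 * δ x2 y2 +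
          p x2 * q y1 * δ x1 y2) := by
      refine (sum_le_sum fun x2 hx2 => (sum_le_sum fun y2 hy2 => h x1 (hFX hx1) x2
        (mem_filter.1 hx2).1 y1 (hFY hy1) y2 (mem_filter.1 hy2).1 (mem_filter.1 hx2).2
        (mem_filter.1 hy2).2).trans (sum_le_sum_of_subset_of_nonneg (filter_subset _ _)
          fun _ _ _ => e0 _ _)).trans ?_
      exact sum_le_sum_of_subset_of_nonneg (filter_subset _ _)
        fun _ _ _ => sum_nonneg fun _ _ => e0 _ _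
    have b3 : ∑ x2 ∈ X, ∑ y2 ∈ Y, 2 * K *
        (p x2 * q y2 * δ x1 y1 + p x1 * q y2 * δ x2 y1 + p x1 * q y1 * δ x2 y2 +
          p x2 * q y1 * δ x1 y2) = 2 * K * ((∑ ξ ∈ X, p ξ) * (∑ υ ∈ Y, q υ) * δ x1 y1 +
          (∑ υ ∈ Y, q υ) * (p x1 * ∑ ξ ∈ X, δ ξ y1) + p x1 * q y1 * Δ +
          (∑ ξ ∈ X, p ξ) * (q y1 * ∑ υ ∈ Y, δ x1 υ)) := by
      have c1 : ∀ x2, ∑ y2 ∈ Y, 2 * K *
          (p x2 * q y2 * δ x1 y1 + p x1 * q y2 * δ x2 y1 + p x1 * q y1 * δ x2 y2 +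
            p x2 * q y1 * δ x1 y2) = 2 * K * (p x2 * ((∑ υ ∈ Y, q υ) * δ x1 y1) +
            (∑ υ ∈ Y, q υ) * p x1 * δ x2 y1 + p x1 * q y1 * ∑ υ ∈ Y, δ x2 υ +
            p x2 * (q y1 * ∑ υ ∈ Y, δ x1 υ)) := fun x2 => by
        rw [← mul_sum]
        simp only [sum_mul, mul_sum, ← sum_add_distrib]
        exact sum_congr rfl fun _ _ => by ring
      rw [sum_congr rfl fun x2 _ => c1 x2, ← mul_sum]
      simp only [sum_add_distrib, ← mul_sum, ← sum_mul]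
      ring
    have b4 : (1 : ℝ) / 2 * (1 / 2) ≤ (∑ x2 ∈ X with ρ ≤ |x2 - x1|, p x2) *
        (∑ y2 ∈ Y with ρ ≤ |y2 - y1|, q y2) :=
      mul_le_mul (fx x1 hx1) (fy y1 hy1) (by norm_num) (sum_nonneg fun _ _ => hp _)
    have b5 := mul_le_mul_of_nonneg_right b4 n0
    have b6 : (∑ ξ ∈ X, p ξ) * (∑ υ ∈ Y, q υ) * δ x1 y1 +
        (∑ υ ∈ Y, q υ) * (p x1 * ∑ ξ ∈ X, δ ξ y1) + p x1 * q y1 * Δ +
        (∑ ξ ∈ X, p ξ) * (q y1 * ∑ υ ∈ Y, δ x1 υ) ≤ g x1 y1 :=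
      add_le_add (add_le_add (add_le_add
        (mul_le_of_le_one_left (hδ _ _) (mul_le_one₀ sp sq0 sq))
        (mul_le_of_le_one_left (mul_nonneg (hp _) (hcc _)) sq)) le_rfl)
        (mul_le_of_le_one_left (mul_nonneg (hq _) (hr _)) sp)
    have b7 := mul_le_mul_of_nonneg_left b6 (mul_nonneg zero_le_two hK)
    linarith
  have a2 : ∑ ξ ∈ FX, ∑ υ ∈ FY, q υ * N ξ Set.univ ≤ ∑ ξ ∈ X, ∑ υ ∈ Y, 8 * K * g ξ υ := by
    have e0 : ∀ ξ υ, 0 ≤ 8 * K * g ξ υ := fun ξ υ => by have := g0 ξ υ; positivity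
    refine (sum_le_sum fun ξ hξ => (sum_le_sum fun υ hυ => a1 ξ hξ υ hυ).trans
      (sum_le_sum_of_subset_of_nonneg hFY fun _ _ _ => e0 _ _)).trans ?_
    exact sum_le_sum_of_subset_of_nonneg hFX fun _ _ _ => sum_nonneg fun _ _ => e0 _ _
  have a3 : ∑ ξ ∈ X, ∑ υ ∈ Y, 8 * K * g ξ υ = 8 * K * (Δ + (∑ ξ ∈ X, p ξ) * Δ +
      (∑ ξ ∈ X, p ξ) * (∑ υ ∈ Y, q υ) * Δ + (∑ υ ∈ Y, q υ) * Δ) := by
    have c0 : ∑ υ ∈ Y, ∑ ξ ∈ X, δ ξ υ = Δ := sum_comm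
    simp only [g, sum_add_distrib, ← mul_sum, ← sum_mul, c0, ← hΔ]
  have a4 := mul_le_of_le_one_left hΔ0 sp
  have a5 := mul_le_of_le_one_left hΔ0 sq
  have a6 := mul_le_of_le_one_left hΔ0 (mul_le_one₀ sp sq0 sq)
  have a7 := mul_le_mul_of_nonneg_left (show Δ + (∑ ξ ∈ X, p ξ) * Δ +
      (∑ ξ ∈ X, p ξ) * (∑ υ ∈ Y, q υ) * Δ + (∑ υ ∈ Y, q υ) * Δ ≤ 4 * Δ by linarith)
    (show (0 : ℝ) ≤ 8 * K by positivity)
  linarith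

end cell

section prob
variable {Ω α β γ κ μ : Type} [Fintype Ω] (P : FP Ω)

theorem sumE (W : Ω → α) (F : Finset α) (hF : ∀ ω, 0 < P.p ω → W ω ∈ F) (g : α → ℝ) :
    ∑ a ∈ F, (P.pr fun ω => W ω = a) * g a = P.E fun ω => g (W ω) := by
  have h1 : (P.E fun ω => g (W ω)) = P.E fun ω => ∑ a ∈ F, ind (W ω = a) * g a :=
    P.E_congr fun ω h => (sum_ind_eq F g (hF ω h)).symm
  rw [h1, P.E_sum]
  exact sum_congr rfl fun a _ => (P.E_mul_right _ _).symm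

theorem dec (s : Ω → Prop) (W : Ω → α) (F : Finset α) (hF : ∀ ω, 0 < P.p ω → W ω ∈ F)
    (t : α → Prop) :
    (P.pr fun ω => s ω ∧ t (W ω)) = ∑ a ∈ F, ind (t a) * P.pr fun ω => s ω ∧ W ω = a := by
  unfold FP.pr
  simp only [← P.E_mul_left]
  rw [← P.E_sum]
  refine P.E_congr fun ω h => ?_
  rw [ind_and, ← sum_ind_eq F (fun a => ind (s ω) * ind (t a)) (hF ω h)]
  exact sum_congr rfl fun a _ => by rw [ind_and]; ring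

theorem mass (s : Ω → Prop) (W : Ω → α) (F : Finset α) :
    ∑ a ∈ F, (P.pr fun ω => s ω ∧ W ω = a) ≤ P.pr s := by
  unfold FP.pr
  rw [← P.E_sum]
  refine P.E_mono fun ω _ => ?_
  by_cases h : W ω ∈ F
  · rw [← sum_ind_eq F (fun _ => ind (s ω)) h]
    exact le_of_eq (sum_congr rfl fun a _ => by rw [ind_and]; ring)
  · rw [sum_eq_zero fun a ha => ind_neg fun e : s ω ∧ W ω = a => h (e.2 ▸ ha)]
    exact ind_nonneg _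

/-- conditional law -/
noncomputable def cw (B : Ω → β) (y : Ω → γ) (b : β) (υ : γ) : ℝ :=
  (P.pr fun ω => B ω = b ∧ y ω = υ) / P.pr fun ω => B ω = b

theorem cw_nonneg (B : Ω → β) (y : Ω → γ) (b : β) (υ : γ) : 0 ≤ cw P B y b υ :=
  div_nonneg (P.pr_nonneg _) (P.pr_nonneg _)

theorem cw_sum (B : Ω → β) (y : Ω → γ) (b : β) (Y : Finset γ) : ∑ υ ∈ Y, cw P B y b υ ≤ 1 := by
  unfold cw
  rw [← sum_div]
  exact div_le_one_of_le₀ (mass P _ y Y) (P.pr_nonneg _)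

/-- local error -/
noncomputable def dl (A : Ω → α) (B : Ω → β) (x : Ω → κ) (y : Ω → γ) (z : Ω → μ) (Z : Finset μ)
    (a : α) (b : β) (ξ : κ) (υ : γ) : ℝ :=
  ∑ ζ ∈ Z, |(P.pr fun ω => (((A ω = a ∧ B ω = b) ∧ x ω = ξ) ∧ y ω = υ) ∧ z ω = ζ) -
    cw P B y b υ * P.pr fun ω => ((A ω = a ∧ B ω = b) ∧ x ω = ξ) ∧ z ω = ζ|

theorem dl_nonneg (A : Ω → α) (B : Ω → β) (x : Ω → κ) (y : Ω → γ) (z : Ω → μ) (Z : Finset μ)
    (a : α) (b : β) (ξ : κ) (υ : γ) : 0 ≤ dl P A B x y z Z a b ξ υ :=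
  sum_nonneg fun _ _ => abs_nonneg _

theorem tv (A : Ω → α) (B : Ω → β) (x : Ω → κ) (y : Ω → γ) (z : Ω → μ) (Z : Finset μ)
    (hZ : ∀ ω, 0 < P.p ω → z ω ∈ Z) (a : α) (b : β) (ξ : κ) (υ : γ) (S : Set μ) :
    |(P.pr fun ω => (((A ω = a ∧ B ω = b) ∧ x ω = ξ) ∧ y ω = υ) ∧ z ω ∈ S) -
      cw P B y b υ * P.pr fun ω => ((A ω = a ∧ B ω = b) ∧ x ω = ξ) ∧ z ω ∈ S| ≤
      dl P A B x y z Z a b ξ υ := by
  rw [dec P _ z Z hZ (· ∈ S), dec P _ z Z hZ (· ∈ S), mul_sum, ← sum_sub_distrib]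
  refine (abs_sum_le_sum_abs _ _).trans (sum_le_sum fun ζ _ => ?_)
  rw [mul_left_comm, ← mul_sub, abs_mul, abs_of_nonneg (ind_nonneg _)]
  exact mul_le_of_le_one_left (abs_nonneg _) (ind_le_one _)

theorem cp (hPINS : Pool.Agent.P.MP_246241_nt.EK.S_PINS) (A : Ω → α) (B : Ω → β) (x : Ω → κ) (y : Ω → γ) (z : Ω → μ)
    (FA : Finset α) (FB : Finset β) (X : Finset κ) (Y : Finset γ) (Z : Finset μ)
    (hA : ∀ ω, 0 < P.p ω → A ω ∈ FA) (hB : ∀ ω, 0 < P.p ω → B ω ∈ FB)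
    (hX : ∀ ω, 0 < P.p ω → x ω ∈ X) (hY : ∀ ω, 0 < P.p ω → y ω ∈ Y)
    (hZ : ∀ ω, 0 < P.p ω → z ω ∈ Z) :
    ∑ a ∈ FA, ∑ b ∈ FB, ∑ ξ ∈ X, ∑ υ ∈ Y, dl P A B x y z Z a b ξ υ ≤
      2 * √(MI P y (fun ω => (A ω, x ω, z ω)) B) := by
  let T : Ω → α × β × κ × γ × μ := fun ω => (A ω, B ω, x ω, y ω, z ω)
  let J := FA ×ˢ FB ×ˢ X ×ˢ Y ×ˢ Z
  let q : α × β × κ × γ × μ → ℝ := fun j => cw P B y j.2.1 j.2.2.2.1 *
    P.pr fun ω => ((A ω = j.1 ∧ B ω = j.2.1) ∧ x ω = j.2.2.1) ∧ z ω = j.2.2.2.2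
  have hm : ∀ ω, 0 < P.p ω → T ω ∈ J := fun ω h => by
    simp only [T, J, mem_product]
    exact ⟨hA ω h, hB ω h, hX ω h, hY ω h, hZ ω h⟩
  have h := hPINS _ J (fun j => P.pr fun ω => T ω = j) q
    (fun j _ => ⟨P.pr_nonneg _, mul_nonneg (cw_nonneg P _ _ _ _) (P.pr_nonneg _), fun hp => by
      obtain ⟨ω, hω, e⟩ := P.exists_of_pr_pos hp
      subst e
      exact mul_pos (div_pos (P.pr_pos hω ⟨rfl, rfl⟩) (P.pr_pos hω rfl))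
        (P.pr_pos hω ⟨⟨⟨rfl, rfl⟩, rfl⟩, rfl⟩)⟩)
    (by
      have := sumE P T J hm fun _ => 1
      simpa only [mul_one, P.E_const] using this)
    (by
      simp only [J, q, sum_product]
      have c0 : ∑ a ∈ FA, (P.pr fun ω => A ω = a) ≤ 1 := by
        have := sumE P A FA hA fun _ => 1
        simp only [mul_one, P.E_const] at this
        exact this.le
      refine le_trans (sum_le_sum fun a _ => le_trans (sum_le_sum fun b _ => le_trans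
        (sum_le_sum fun ξ _ => ?_) (mass P (fun ω => A ω = a ∧ B ω = b) x X))
        (mass P (fun ω => A ω = a) B FB)) c0
      rw [← sum_mul_sum]
      exact (mul_le_of_le_one_left (sum_nonneg fun _ _ => P.pr_nonneg _) (cw_sum P B y b Y)).trans
        (mass P _ z Z))
  rw [sumE P T J hm fun j => log ((P.pr fun ω => T ω = j) / q j)] at h
  have e2 : (P.E fun ω => log ((P.pr fun ω' => T ω' = T ω) / q (T ω))) =
      MI P y (fun ω => (A ω, x ω, z ω)) B := by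
    unfold MI FP.Hc FP.H
    rw [← P.E_sub, ← P.E_sub, ← P.E_sub]
    refine P.E_congr fun ω hω => ?_
    have a1 := P.cl_pos (fun ω => (y ω, B ω)) hω
    have a2 := P.cl_pos B hω
    have a3 := P.cl_pos (fun ω => ((A ω, x ω, z ω), B ω)) hω
    have a4 := P.cl_pos (fun ω => (y ω, (A ω, x ω, z ω), B ω)) hω
    have b1 : (P.pr fun ω' => T ω' = T ω) = P.cl (fun ω => (y ω, (A ω, x ω, z ω), B ω)) ω :=
      P.pr_congr fun ω' _ => by simp only [T, Prod.mk.injEq]; tauto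
    have b2 : (P.pr fun ω' => B ω' = B ω ∧ y ω' = y ω) = P.cl (fun ω => (y ω, B ω)) ω :=
      P.pr_congr fun ω' _ => by simp only [Prod.mk.injEq]; tauto
    have b3 : (P.pr fun ω' => ((A ω' = A ω ∧ B ω' = B ω) ∧ x ω' = x ω) ∧ z ω' = z ω) =
        P.cl (fun ω => ((A ω, x ω, z ω), B ω)) ω :=
      P.pr_congr fun ω' _ => by simp only [Prod.mk.injEq]; tauto
    have b4 : q (T ω) = P.cl (fun ω => (y ω, B ω)) ω / P.cl B ω *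
        P.cl (fun ω => ((A ω, x ω, z ω), B ω)) ω := by
      rw [← b2, ← b3]; rfl
    rw [b1, b4, log_div a4.ne' (mul_pos (div_pos a1 a2) a3).ne', log_mul (div_pos a1 a2).ne' a3.ne',
      log_div a1.ne' a2.ne']
    ring
  rw [e2] at h
  have h4 : (2 : ℝ) * √(MI P y (fun ω => (A ω, x ω, z ω)) B) =
      √(4 * MI P y (fun ω => (A ω, x ω, z ω)) B) := by
    rw [sqrt_mul (by norm_num), show (4 : ℝ) = 2 ^ 2 by norm_num, sqrt_sq (by norm_num)]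
  rw [h4]
  refine le_trans (le_of_eq ?_) (le_sqrt_of_sq_le h)
  simp only [J, q, sum_product, dl]
  refine sum_congr rfl fun a _ => sum_congr rfl fun b _ => sum_congr rfl fun ξ _ =>
    sum_congr rfl fun υ _ => sum_congr rfl fun ζ _ => ?_
  congr 2
  exact P.pr_congr fun ω _ => by simp only [T, Prod.mk.injEq]; tauto

theorem far (A : Ω → α) (x : Ω → ℝ) (X : Finset ℝ) (hX : ∀ ω, 0 < P.p ω → x ω ∈ X) (ρ : ℝ) (a : α)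
    (ξ : ℝ) (h0 : 0 < P.pr fun ω => A ω = a)
    (h : 2 * (P.pr fun ω => A ω = a ∧ |x ω - ξ| < ρ) ≤ P.pr fun ω => A ω = a) :
    1 / 2 ≤ ∑ ξ' ∈ X with ρ ≤ |ξ' - ξ|, cw P A x a ξ' := by
  unfold cw
  rw [← sum_div, le_div_iff₀ h0, sum_filter]
  have a1 := dec P (fun ω => A ω = a) x X hX fun t => ρ ≤ |t - ξ|
  have a2 : (P.pr fun ω => A ω = a) ≤ (P.pr fun ω => A ω = a ∧ |x ω - ξ| < ρ) +
      P.pr fun ω => A ω = a ∧ ρ ≤ |x ω - ξ| :=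
    (P.pr_mono fun ω _ e => (lt_or_ge _ _).imp (And.intro e) (And.intro e)).trans (P.pr_or_le _ _)
  have a3 : ∑ t ∈ X, ind (ρ ≤ |t - ξ|) * (P.pr fun ω => A ω = a ∧ x ω = t) =
      ∑ t ∈ X, if ρ ≤ |t - ξ| then P.pr fun ω => A ω = a ∧ x ω = t else 0 :=
    sum_congr rfl fun t _ => by
      split_ifs with k
      · rw [ind_pos k, one_mul]
      · rw [ind_neg k, zero_mul]
  linarith

theorem split (s : Ω → Prop) (W : Ω → α) (F : Finset α) (hF : ∀ ω, 0 < P.p ω → s ω → W ω ∈ F) :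
    P.pr s ≤ ∑ a ∈ F, P.pr fun ω => s ω ∧ W ω = a :=
  (P.pr_mono fun ω h e => ⟨W ω, hF ω h e, e, rfl⟩).trans
    (P.pr_exists_le F fun a ω => s ω ∧ W ω = a)

end prob

end LOCc

open LOCc in
theorem p_LOC :
    S_LOC := by
  have hPINS := Pool.Agent.P.MP_246241_nt.EK.p_PINS
  intro Ω α β _ P A B x y z z' ρ e K h0 h1 hK hb hh
  classical
  let G := univ.filter fun ω => 0 < P.p ω
  have hG : ∀ {γ : Type} (W : Ω → γ) ω, 0 < P.p ω → W ω ∈ G.image W := fun W ω h =>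
    mem_image_of_mem _ (mem_filter.2 ⟨mem_univ _, h⟩)
  have hG' : ∀ {γ : Type} (W : Ω → γ), ∀ a ∈ G.image W, ∃ ω, 0 < P.p ω ∧ W ω = a := fun W a h => by
    obtain ⟨ω, k, e⟩ := mem_image.1 h
    exact ⟨ω, (mem_filter.1 k).2, e⟩
  have c1 := cp P hPINS A B x y z _ _ _ _ _ (hG A) (hG B) (hG x) (hG y) (hG z)
  have c2 := cp P hPINS B A y x z' _ _ _ _ _ (hG B) (hG A) (hG y) (hG x) (hG z')
  rw [sum_comm] at c2
  simp only [fun a b => sum_comm (s := G.image y) (t := G.image x)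
    (f := fun υ ξ => dl P B A y x z' (G.image z') b a υ ξ)] at c2
  let δ : α → β → ℝ → ℝ → ℝ := fun a b ξ υ =>
    dl P A B x y z (G.image z) a b ξ υ + dl P B A y x z' (G.image z') b a υ ξ
  have key : ∀ a ∈ G.image A, ∀ b ∈ G.image B,
      (P.pr fun ω => ((Iso P A x ρ ω ∧ Iso P B y ρ ω) ∧ A ω = a) ∧ B ω = b) ≤
        (32 * K + 1) * ∑ ξ ∈ G.image x, ∑ υ ∈ G.image y, δ a b ξ υ := by
    intro a ha b hb'
    obtain ⟨ωa, pa, ea⟩ := hG' A a ha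
    obtain ⟨ωb, pb, eb⟩ := hG' B b hb'
    let N : ℝ → Set ℝ → ℝ := fun ξ S => P.pr fun ω => ((A ω = a ∧ B ω = b) ∧ x ω = ξ) ∧ z ω ∈ S
    let N' : ℝ → Set ℝ → ℝ := fun υ S => P.pr fun ω => ((B ω = b ∧ A ω = a) ∧ y ω = υ) ∧ z' ω ∈ S
    let U : ℝ → Set ℝ := fun ξ => {u | ∃ ω, 0 < P.p ω ∧ A ω = a ∧ B ω = b ∧ x ω = ξ ∧ z ω = u}
    let FX := (G.image x).filter fun ξ =>
      2 * (P.pr fun ω => A ω = a ∧ |x ω - ξ| < ρ) ≤ P.pr fun ω => A ω = a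
    let FY := (G.image y).filter fun υ =>
      2 * (P.pr fun ω => B ω = b ∧ |y ω - υ| < ρ) ≤ P.pr fun ω => B ω = b
    have t1 := fun ξ υ S => abs_le.1 (tv P A B x y z _ (hG z) a b ξ υ S)
    have t2 := fun ξ υ S => abs_le.1 (tv P B A y x z' _ (hG z') b a υ ξ S)
    have hδ : ∀ ξ υ, 0 ≤ δ a b ξ υ := fun _ _ =>
      add_nonneg (dl_nonneg _ _ _ _ _ _ _ _ _ _ _) (dl_nonneg _ _ _ _ _ _ _ _ _ _ _)
    have F : ∀ ξ υ S, cw P B y b υ * N ξ S ≤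
        cw P A x a ξ * N' υ (th (ρ ^ 2 / 8) (ξ * υ) S) + δ a b ξ υ := fun ξ υ S => by
      have m : (P.pr fun ω => (((A ω = a ∧ B ω = b) ∧ x ω = ξ) ∧ y ω = υ) ∧ z ω ∈ S) ≤
          P.pr fun ω => (((B ω = b ∧ A ω = a) ∧ y ω = υ) ∧ x ω = ξ) ∧
            z' ω ∈ th (ρ ^ 2 / 8) (ξ * υ) S :=
        P.pr_mono fun ω h ⟨⟨⟨⟨k1, k2⟩, k3⟩, k4⟩, k5⟩ =>
          ⟨⟨⟨⟨k2, k1⟩, k4⟩, k3⟩, z ω, k5, k3 ▸ k4 ▸ (hb ω h).2.2.2.2⟩
      linarith [(t1 ξ υ S).1, (t2 ξ υ (th (ρ ^ 2 / 8) (ξ * υ) S)).2]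
    have F' : ∀ ξ υ S, cw P A x a ξ * N' υ S ≤
        cw P B y b υ * N ξ (th (ρ ^ 2 / 8) (-(ξ * υ)) S) + δ a b ξ υ := fun ξ υ S => by
      have m : (P.pr fun ω => (((B ω = b ∧ A ω = a) ∧ y ω = υ) ∧ x ω = ξ) ∧ z' ω ∈ S) ≤
          P.pr fun ω => (((A ω = a ∧ B ω = b) ∧ x ω = ξ) ∧ y ω = υ) ∧
            z ω ∈ th (ρ ^ 2 / 8) (-(ξ * υ)) S :=
        P.pr_mono fun ω h ⟨⟨⟨⟨k1, k2⟩, k3⟩, k4⟩, k5⟩ =>
          ⟨⟨⟨⟨k2, k1⟩, k4⟩, k3⟩, z' ω, k5, by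
            have := (hb ω h).2.2.2.2
            rw [k3, k4, abs_le] at this
            rw [abs_le]
            constructor <;> linarith [this.1, this.2]⟩
      linarith [(t2 ξ υ S).1, (t1 ξ υ (th (ρ ^ 2 / 8) (-(ξ * υ)) S)).2]
    have in1 : ∀ (w : Ω → ℝ), (∀ ω, 0 < P.p ω → 0 ≤ w ω ∧ w ω ≤ 1) → ∀ u ∈ G.image w,
        ∀ v ∈ G.image w, |v - u| ≤ 1 := fun w hw u hu v hv => by
      obtain ⟨ω, k, rfl⟩ := hG' w u hu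
      obtain ⟨ω', k', rfl⟩ := hG' w v hv
      rw [abs_le]
      constructor <;> linarith [hw ω k, hw ω' k']
    have hc := cell (p := cw P A x a) (q := cw P B y b) (N := N) (δ := δ a b) (ρ := ρ) (K := K)
      (cw_nonneg P _ _ _) (cw_nonneg P _ _ _) hδ (fun _ => P.pr_nonneg _) (G.image x) (G.image y)
      FX FY (filter_subset _ _) (filter_subset _ _) (cw_sum P _ _ _ _) (cw_sum P _ _ _ _)
      (fun ξ hξ => far P A x _ (hG x) ρ a ξ (P.pr_pos pa ea) (mem_filter.1 hξ).2)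
      (fun υ hυ => far P B y _ (hG y) ρ b υ (P.pr_pos pb eb) (mem_filter.1 hυ).2)
      fun x1 k1 x2 k2 y1 k3 y2 k4 k5 k6 => quad (N' := N') (U := U) (e := e) (cw_nonneg P _ _ _)
        (cw_nonneg P _ _ _) F F'
        (fun ξ S T h => P.pr_mono fun ω hω k => ⟨k.1, h _ k.2 ⟨ω, hω, k.1.1.1, k.1.1.2, k.1.2, rfl⟩⟩)
        (fun ξ S T => (P.pr_mono fun ω _ k => k.2.imp (And.intro k.1) (And.intro k.1)).trans
          (P.pr_or_le _ _))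
        (fun ξ => (P.pr_eq_zero fun ω _ k => k.2).le)
        (by
          rintro ξ u ⟨ω, hω, e1, e2, e3, rfl⟩
          obtain ⟨τ, k, k'⟩ := hh ω hω
          refine ⟨z ω + τ, by simpa using k, ?_⟩
          rintro u' ⟨ω', hω', f1, f2, f3, rfl⟩
          rw [← sub_sub]
          exact k' ω' hω' (f1.trans e1.symm) (f2.trans e2.symm) (f3.trans e3.symm))
        h0 h1 hK x1 x2 y1 y2 k5
        (in1 x (fun ω h => ⟨(hb ω h).1, (hb ω h).2.1⟩) _ k1 _ k2) k6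
        (in1 y (fun ω h => ⟨(hb ω h).2.2.1, (hb ω h).2.2.2.1⟩) _ k3 _ k4)
    have s1 : (P.pr fun ω => ((Iso P A x ρ ω ∧ Iso P B y ρ ω) ∧ A ω = a) ∧ B ω = b) ≤
        ∑ ξ ∈ FX, ∑ υ ∈ FY, (cw P B y b υ * N ξ Set.univ + δ a b ξ υ) := by
      refine (split P _ x FX fun ω h k => ?_).trans
        (sum_le_sum fun ξ _ => (split P _ y FY fun ω h k => ?_).trans (sum_le_sum fun υ _ => ?_))
      · obtain ⟨⟨⟨k1, _⟩, rfl⟩, _⟩ := k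
        exact mem_filter.2 ⟨hG x ω h, k1⟩
      · obtain ⟨⟨⟨⟨_, k1⟩, _⟩, rfl⟩, _⟩ := k
        exact mem_filter.2 ⟨hG y ω h, k1⟩
      have m : (P.pr fun ω => ((((Iso P A x ρ ω ∧ Iso P B y ρ ω) ∧ A ω = a) ∧ B ω = b) ∧
          x ω = ξ) ∧ y ω = υ) ≤
          P.pr fun ω => (((A ω = a ∧ B ω = b) ∧ x ω = ξ) ∧ y ω = υ) ∧ z ω ∈ Set.univ :=
        P.pr_mono fun ω _ k => ⟨⟨⟨⟨k.1.1.1.2, k.1.1.2⟩, k.1.2⟩, k.2⟩, trivial⟩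
      linarith [(t1 ξ υ Set.univ).2, dl_nonneg P B A y x z' (G.image z') b a υ ξ]
    have s2 : ∑ ξ ∈ FX, ∑ υ ∈ FY, δ a b ξ υ ≤ ∑ ξ ∈ G.image x, ∑ υ ∈ G.image y, δ a b ξ υ :=
      (sum_le_sum fun ξ _ => sum_le_sum_of_subset_of_nonneg (filter_subset _ _)
        fun _ _ _ => hδ _ _).trans (sum_le_sum_of_subset_of_nonneg (filter_subset _ _)
        fun _ _ _ => sum_nonneg fun _ _ => hδ _ _)
    simp only [sum_add_distrib] at s1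
    linarith
  have fin : (P.pr fun ω => Iso P A x ρ ω ∧ Iso P B y ρ ω) ≤ (32 * K + 1) *
      ∑ a ∈ G.image A, ∑ b ∈ G.image B, ∑ ξ ∈ G.image x, ∑ υ ∈ G.image y, δ a b ξ υ := by
    rw [mul_sum]
    refine (split P _ A _ fun ω h _ => hG A ω h).trans (sum_le_sum fun a ha => ?_)
    rw [mul_sum]
    exact (split P _ B _ fun ω h _ => hG B ω h).trans (sum_le_sum fun b hb' => key a ha b hb')
  simp only [δ, sum_add_distrib] at fin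
  have := mul_le_mul_of_nonneg_left (add_le_add c1 c2) (show (0 : ℝ) ≤ 32 * K + 1 by positivity)
  linarith


end Pool.Agent.P.MP_e45b92_nt.EL
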