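import Pool.Agent.P.MP_e45b92_nt.EL.If

/-! Step NUM. -/

set_option autoImplicit false

namespace Pool.Agent.P.MP_e45b92_nt.EL

open Finset Matrix Real
open Pool.Agent.P.MP_bf60a1_an.RA
open Pool.Agent.P.MP_246241_nt.EK (Vc Mt Gl Bd MI MI_nonneg MI_symm det_unit)

theorem p_NUM :
    S_NUM := by
  intro a A C₁ c C hc hC
  obtain ⟨k, hk⟩ := pow_unbounded_of_one_lt (243 * C * (2 * c + 3)) (one_lt_two (α := ℝ))
  refine ⟨1 + 2 * (100 * C₁ + 1 + (A + a + 1 + k)) + (A + a + 1 + k), fun B hB => ?_⟩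
  have B1 : 1 ≤ B := by omega
  have pw : ∀ y : ℕ, y ≤ B ^ y := fun y =>
    (Nat.lt_two_pow_self).le.trans (Nat.pow_le_pow_left hB y)
  have hL : B ≤ B ^ (A + a + 1 + k) := Nat.le_self_pow (by omega) B
  refine ⟨B ^ (A + a + 1 + k), B ^ (A + a + 1 + k), Nat.pow_le_pow_right B1 (by omega), hL,
    by positivity, ?_, ?_⟩
  · generalize A + a + 1 + k = p at hL
    have a1 := pw (100 * C₁)
    have a2 : 40 * C₁ * B ≤ B ^ (100 * C₁ + 1) :=
      (Nat.mul_le_mul_right B (le_trans (by omega) a1)).trans_eq (pow_succ _ _).symm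
    have a3 : 100 * C₁ + 1 + p + (100 * C₁ + 1) * B ^ p ≤ B ^ (2 * (100 * C₁ + 1 + p)) * B ^ p := by
      refine le_trans ?_ (Nat.mul_le_mul_right _ (pw _))
      have : 1 ≤ B ^ p := B1.trans hL
      nlinarith
    calc _ = 100 * C₁ * (B * (B ^ p * (40 * C₁ * B) ^ B ^ p)) := by ring
      _ ≤ B ^ (100 * C₁) * (B * (B ^ p * (B ^ (100 * C₁ + 1)) ^ B ^ p)) := by gcongr
      _ = B ^ (100 * C₁ + 1 + p + (100 * C₁ + 1) * B ^ p) := by
          rw [← pow_mul, pow_add, pow_add, pow_add, pow_one, mul_assoc, mul_assoc]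
      _ ≤ (2 ^ B) ^ (B ^ (2 * (100 * C₁ + 1 + p)) * B ^ p) :=
          (Nat.pow_le_pow_right B1 a3).trans (Nat.pow_le_pow_left Nat.lt_two_pow_self.le _)
      _ = _ := by rw [← pow_mul, pow_add, pow_add, pow_one, mul_assoc]
  · have b2 : (2 : ℝ) ≤ B := by exact_mod_cast hB
    have a1 : 243 * C * (2 * c + 3) * ((B : ℝ) ^ A * B ^ a * B) ≤ (B ^ (A + a + 1 + k) : ℕ) := by
      rw [Nat.cast_pow, pow_add _ _ k, pow_succ, pow_add, mul_comm]
      exact mul_le_mul_of_nonneg_left (hk.le.trans (pow_le_pow_left₀ (by norm_num) b2 k))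
        (by positivity)
    have a2 : (B : ℝ) ≤ (B ^ (A + a + 1 + k) : ℕ) := by exact_mod_cast hL
    generalize ((B ^ (A + a + 1 + k) : ℕ) : ℝ) = L at a1 a2
    have L0 : 0 < L := by linarith
    have a3 : (1 : ℝ) ≤ (B : ℝ) ^ a := one_le_pow₀ (by linarith)
    have a4 : c * (L + B) + 2 * (B : ℝ) ^ a + L * (B : ℝ) ^ a ≤ (2 * c + 3) * (B : ℝ) ^ a * L := by
      have h1 : c * (L + B) ≤ c * (2 * L * (B : ℝ) ^ a) :=
        mul_le_mul_of_nonneg_left (by nlinarith) hc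
      nlinarith
    rw [div_le_div_iff₀ L0 (by linarith), one_mul]
    calc _ ≤ 27 * (B : ℝ) ^ A * (C / L) * (9 * ((2 * c + 3) * (B : ℝ) ^ a * L)) * B := by gcongr
      _ = 243 * C * (2 * c + 3) * ((B : ℝ) ^ A * B ^ a * B) := by field_simp; ring
      _ ≤ _ := a1

end Pool.Agent.P.MP_e45b92_nt.EL
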