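import Pool.Agent.P.MP_e45b92_nt.EL.If

/-! Step ONE. -/

set_option autoImplicit false

namespace Pool.Agent.P.MP_e45b92_nt.EL

open Finset Matrix Real
open Pool.Agent.P.MP_bf60a1_an.RA
open Pool.Agent.P.MP_246241_nt.EK (Vc Mt Gl Bd MI MI_nonneg MI_symm det_unit)

namespace ONEc

theorem eb (i a : Fin 3) (x : ℤ) : ee i x a = x ∨ ee i x a = 0 := by
  by_cases h : a = i
  exacts [Or.inl (h ▸ ee_self _ _), Or.inr (ee_ne h _)]

/-- the points of the four chains -/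
def pt (u : Pos) (M w L : ℕ) (t : Ix) : Pos :=
  ![ctr 0 t.2.1 t.2.2.1 w - ee t.2.2.1 M + ee t.2.1 (t.2.2.2.2 * L),
    ctr 0 t.2.1 t.2.2.1 w + ee t.1 (M + 3 * w) + ee t.2.2.1 (t.2.2.2.2 * L),
    Tb 0 0 t.1 t.2.1 t.2.2.1 M w + ee t.2.1 (t.2.2.2.2 * L),
    Tb 0 u t.1 t.2.1 t.2.2.1 M w + ee t.2.1 (t.2.2.2.2 * L)] t.2.2.2.1

theorem pt_mem {u : Pos} {M w L s : ℕ} (hu : u ∈ Ball 0 s) (h1 : M ≤ s) (h2 : 2 * s ≤ w) (t : Ix)
    (ht : t.2.2.2.2 * L ≤ 3 * w) : pt u M w L t ∈ Ball 0 (10 * w) := by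
  obtain ⟨i, j, k, c, b⟩ := t
  intro a
  have h3 : (b : ℤ) * L ≤ 3 * w := by exact_mod_cast ht
  have h4 : 0 ≤ (b : ℤ) * L := by positivity
  have := hu a
  have := hu i
  have := hu j
  have := eb j a w
  have := eb k a (2 * w)
  have := eb k a M
  have := eb j a (b * L)
  fin_cases c <;> simp [pt, ctr, Tb] at *
  · omega
  · have := eb i a (M + 3 * w)
    have := eb k a (b * L)
    omega
  · have := eb j a (-w)
    omega
  · have := eb j a (-w - u j + u i)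
    omega

theorem chain_le {F : Ix → ℝ} {N : ℕ}
    (h : ∀ t ∈ (univ ×ˢ univ ×ˢ univ ×ˢ univ ×ˢ range N : Finset Ix), 0 ≤ F t) (i j k : Fin 3)
    (c : Fin 4) : ∑ b ∈ range N, F (i, j, k, c, b) ≤
      ∑ t ∈ (univ ×ˢ univ ×ˢ univ ×ˢ univ ×ˢ range N : Finset Ix), F t := by
  rw [← sum_image (s := range N) (g := fun b => ((i, j, k, c, b) : Ix)) fun _ _ _ _ e => by
    simpa using e]
  refine sum_le_sum_of_subset_of_nonneg (fun t ht => ?_) fun t ht _ => h t ht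
  obtain ⟨b, hb, rfl⟩ := mem_image.1 ht
  simpa using hb

end ONEc

open ONEc in
theorem p_ONE (hFIB : S_FIB) (hHI : S_HI) (hDD : S_DD) (hGRAPH : S_GRAPH) :
    S_ONE := by
  obtain ⟨C₀, A₀, hF⟩ := hFIB
  obtain ⟨A₁, A', hH⟩ := hHI
  intro a c hc
  obtain ⟨n, hn⟩ := exists_nat_ge (40 * c + 3 * (C₀ + 2))
  have C0 : (0 : ℝ) ≤ C₀ := Nat.cast_nonneg _
  refine ⟨C₀ + 2, A₀ + A' + (A₁ + a + 1 + n), 500 * c * (C₀ + 2 : ℕ), by omega,
    by push_cast; nlinarith, fun B L M hB hL ⟨μ, hμ⟩ hM => ?_⟩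
  obtain ⟨s, hs⟩ : ∃ s, s = B * M := ⟨_, rfl⟩
  obtain ⟨w, hw⟩ : ∃ w, w = (C₀ + 2) * s := ⟨_, rfl⟩
  obtain ⟨N, hN⟩ : ∃ N, N = 3 * ((C₀ + 2) * (B * μ)) := ⟨_, rfl⟩
  have pw : ∀ {p r : ℕ}, p ≤ r → B ^ p ≤ B ^ r := fun h => Nat.pow_le_pow_right (by omega) h
  have μ0 : 1 ≤ μ := Nat.pos_of_ne_zero fun e => by simp [e] at hμ; omega
  have LM : L ≤ M := hμ ▸ Nat.le_mul_of_pos_right _ μ0
  have Ms : M ≤ s := hs ▸ Nat.le_mul_of_pos_left _ (by omega)
  have sw : C₀ * s + 2 * s = w := by rw [hw]; ring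
  have NL : N * L = 3 * w := by rw [hN, hw, hs, hμ]; ring
  have NL' : C₀ * (B * μ) * L = C₀ * s := by rw [hs, hμ]; ring
  have nB : n ≤ B ^ n := Nat.lt_two_pow_self.le.trans (Nat.pow_le_pow_left hB n)
  have nR : (n : ℝ) ≤ B ^ n := by exact_mod_cast nB
  have B1 : (1 : ℝ) ≤ B := by exact_mod_cast (by omega : 1 ≤ B)
  have L0 : 0 < L := lt_of_lt_of_le (by positivity) hL
  obtain ⟨u, hu⟩ : ∃ u : Pos, u = ee 1 s - ee 2 s := ⟨_, rfl⟩
  have u1 : ∀ a, u a = 0 ∨ u a = s ∨ u a = -s := fun a => by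
    have := eb 1 a s
    have := eb 2 a s
    rw [hu, Pi.sub_apply]
    omega
  have u2 : ∀ Q : Pos, Q + u ∈ Ball Q s := fun Q a => by
    have := u1 a
    rw [Pi.add_apply]
    omega
  have po : ∀ t ∈ (univ ×ˢ univ ×ˢ univ ×ˢ univ ×ˢ range N : Finset Ix),
      pt u M w L t ∈ Ball 0 (10 * w) := fun t ht =>
    pt_mem (zero_add u ▸ u2 0) Ms (by omega) t
      (NL ▸ Nat.mul_le_mul_right L (by simp at ht; omega))
  rw [← hs, ← hw]
  refine ⟨_, pt u M w L, ?_, po, fun Ω _ P x Q hS hF' => ?_⟩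
  · have : (N : ℝ) * L = 3 * ((C₀ + 2) * (B * M)) := by
      rw [hw, hs] at NL; exact_mod_cast NL
    have : (0 : ℝ) ≤ (C₀ + 2) * (B * M) := by positivity
    simp
    nlinarith
  have dn : ∀ m ∈ Ball Q (10 * w), ∀ i j, 0 ≤ dd (ps P x fun _ => True) i j M L m -
      dd (ps P x fun _ => True) i j (40 * w) L m + B ^ a := fun m hm i j => by
    have := (hDD _ _ _ i j M (40 * w) L (40 * w) m (hF'.cal fun _ => True) (hF'.nn _)
      (Ball_sub hm (by omega)) (by omega) (by omega) (by omega) (by omega) le_rfl).2.2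
    linarith
  have S0 : ∀ t ∈ (univ ×ˢ univ ×ˢ univ ×ˢ univ ×ˢ range N : Finset Ix),
      0 ≤ Dt (ps P x fun _ => True) (B ^ a) M (40 * w) L (Q + pt u M w L t) := fun t ht =>
    sum_nonneg fun i _ => sum_nonneg fun j _ => dn _ (fun a => by
      have := po t ht a
      simp only [Pi.add_apply, Pi.zero_apply] at this ⊢
      omega) i j
  have key := hGRAPH Ω P (ps P x) (Dt (ps P x fun _ => True) (B ^ a) M (40 * w) L) Q (Q + u) B
    (C₀ + 2) w M L N (C₀ * (B * μ)) (B ^ a) c (B ^ A₁) _ hF' (one_le_pow₀ B1) hc (one_le_pow₀ B1)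
    (sum_nonneg S0) hB (((pow_one B).ge.trans (pw (by omega))).trans (hL.trans LM)) L0 LM
    (hs ▸ hw) (by rw [← hs]; omega) NL ⟨(C₀ + 2) * (B * μ), by rw [hw, hs, hμ]; ring⟩ ?_
    (hs ▸ u2 Q) (fun a => ?_) (fun E l => ?_)
    (fun i j k h => hH Ω P x B w _ i j k hB h (((pw (by omega)).trans hL).trans (by omega))
      (hS.mono (Ball_sub (σ := 3 * w) (fun a => ?_) (by omega))))
    (fun i j m hm => ?_) fun i j k _ => ?_
  · rw [add_sub_assoc, ← hu]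
    refine key.trans (add_le_add le_rfl (mul_le_mul_of_nonneg_right ?_ (sum_nonneg S0)))
    calc 40 * c * (B : ℝ) ^ A₁ ≤ B ^ n * B ^ A₁ := by gcongr; linarith
      _ ≤ _ := by rw [← pow_add]; exact pow_le_pow_right₀ B1 (by omega)
  · have h1 : 3 * (C₀ + 2) ≤ n := by
      exact_mod_cast (by push_cast; linarith : ((3 * (C₀ + 2) : ℕ) : ℝ) ≤ n)
    have h2 : B ^ A₁ * B ^ a * N ≤ M :=
      calc _ = B ^ (A₁ + a + 1) * (3 * (C₀ + 2)) * μ := by rw [hN]; ring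
        _ ≤ B ^ (A₁ + a + 1) * B ^ n * μ := by gcongr; exact h1.trans nB
        _ ≤ L * μ := by rw [← pow_add]; gcongr; exact (pw (by omega)).trans hL
        _ = M := hμ.symm
    exact_mod_cast h2
  · have : (L : ℤ) ∣ s := Int.natCast_dvd_natCast.2 ⟨B * μ, by rw [hs, hμ]; ring⟩
    rcases u1 a with e | e | e <;> simp [e, this]
  · have h1 := hF Ω (P.cond E) x B _ Q (Q + u) l s (C₀ * (B * μ) * L) hB (hS.cond E)
      (((pw (by omega)).trans hL).trans (by omega)) NL'.ge (u2 Q)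
      (Ball_sub (self_Ball Q le_rfl) (by rw [NL']; omega))
    have h2 : (s : ℝ) / B = M := by rw [hs]; push_cast; field_simp
    rw [h2, Nat.cast_mul _ L] at h1
    have h3 := mul_le_mul_of_nonneg_left h1 (P.pr_nonneg E)
    have h4 := mul_le_of_le_one_left (Nat.cast_nonneg (α := ℝ) M) (P.pr_le_one E)
    simp only [ps, pH]
    linarith
  · have := eb j a w
    have := eb k a (2 * w)
    simp only [ctr, Pi.sub_apply]
    omega
  · exact (single_le_sum (fun j _ => dn m hm i j) (mem_univ j)).trans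
      (single_le_sum (fun i _ => sum_nonneg fun j _ => dn m hm i j) (mem_univ i))
  · refine ⟨le_of_eq_of_le ?_ (chain_le S0 i j k 0), le_of_eq_of_le ?_ (chain_le S0 i j k 1),
      le_of_eq_of_le ?_ (chain_le S0 i j k 2), le_of_eq_of_le ?_ (chain_le S0 i j k 3)⟩
    all_goals
      refine sum_congr rfl fun b _ => congrArg _ ?_
      simp [pt, ctr, Tb]
      abel

end Pool.Agent.P.MP_e45b92_nt.EL
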