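import Pool.Agent.P.MP_e45b92_nt.EL.If

/-! Step PAIR. -/

set_option autoImplicit false

namespace Pool.Agent.P.MP_e45b92_nt.EL

open Finset Matrix Real
open Pool.Agent.P.MP_bf60a1_an.RA
open Pool.Agent.P.MP_246241_nt.EK (Vc Mt Gl Bd MI MI_nonneg MI_symm det_unit)

theorem p_PAIR (hINV : S_INV) :
    S_PAIR := by
  intro x y B U m m' hx hy hm hr a b
  have e1 : x.b m * (dg (-(m - m')) * kk x y m' * dg (m - m')) = y.b m := by
    rw [x.b_rel m m', y.b_rel m m', hr]
    calc cs (y.rel m m') * x.b m' * dg (m - m') * (dg (-(m - m')) * kk x y m' * dg (m - m'))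
        = cs (y.rel m m') * (x.b m' * (dg (m - m') * dg (-(m - m'))) * kk x y m') *
          dg (m - m') := by simp only [Matrix.mul_assoc]
      _ = _ := by rw [← dg_add, add_neg_cancel, dg_zero, Matrix.mul_one, hx.mul_kk]
  have e2 : kk x y m = dg (-(m - m')) * kk x y m' * dg (m - m') := by
    rw [kk, ← e1, ← Matrix.mul_assoc, hx.inv_mul, Matrix.one_mul]
  have h3 := (hINV _ _ (hx.det m) (hx.2 m hm)).mul (hy.2 m hm) a b
  rw [← kk, e2, conj_dg, abs_mul, abs_of_pos (zpow_pos (two_pos (α := ℝ)) ((m - m') b - (m - m') a))] at h3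
  simp only [Pi.sub_apply] at h3
  linarith

end Pool.Agent.P.MP_e45b92_nt.EL
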