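import Pool.Agent.P.MP_e45b92_nt.EL.If

/-! Step POR. -/

set_option autoImplicit false

namespace Pool.Agent.P.MP_e45b92_nt.EL

open Finset Matrix Real
open Pool.Agent.P.MP_bf60a1_an.RA
open Pool.Agent.P.MP_246241_nt.EK (Vc Mt Gl Bd MI MI_nonneg MI_symm det_unit)

namespace PORc

theorem near2 {x : ℝ} (h : 1 ≤ x) : ∃ s : ℕ, x < 2 ^ s ∧ 2 ^ s ≤ 2 * x := by
  obtain ⟨n, h1, h2⟩ := exists_nat_pow_near h (one_lt_two (α := ℝ))
  exact ⟨n + 1, h2, by rw [pow_succ]; linarith⟩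

theorem par {G : ℝ} (hG : 8 ≤ G) : ∃ s r : ℕ, G ^ 6 < 2 ^ s ∧ 2 ^ (3 * s) ≤ G ^ 21 ∧
    G ^ 25 < 2 ^ r ∧ 2 ^ r ≤ G ^ 26 := by
  have h1 : 1 ≤ G := by linarith
  obtain ⟨s, a, b⟩ := near2 (one_le_pow₀ h1 (n := 6))
  obtain ⟨r, c, d⟩ := near2 (one_le_pow₀ h1 (n := 25))
  have e : ∀ m : ℕ, 2 * G ^ m ≤ G ^ (m + 1) := fun m => by
    rw [pow_succ']; exact mul_le_mul_of_nonneg_right (by linarith) (by positivity)
  refine ⟨s, r, a, ?_, c, d.trans (e 25)⟩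
  rw [mul_comm, pow_mul, show 21 = 7 * 3 from rfl, pow_mul]
  exact pow_le_pow_left₀ (by positivity) (b.trans (e 6)) 3

theorem prod3 {a b c A C : ℝ} (ha : |a| ≤ A) (hc : 0 ≤ c) (h : |b| * c ≤ C) :
    |a * b * c| ≤ A * C := by
  rw [mul_assoc, abs_mul, abs_mul, abs_of_nonneg hc]
  exact mul_le_mul ha h (by positivity) ((abs_nonneg _).trans ha)

theorem quo {G A x D : ℝ} (hD : 1 ≤ G * |D|) (hx : |x| ≤ A) : |x / D| ≤ A * G := by
  have h0 : 0 < |D| := by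
    rcases (abs_nonneg D).eq_or_lt with e | e
    · rw [← e] at hD; linarith
    · exact e
  rw [abs_div, div_le_iff₀ h0]
  nlinarith [abs_nonneg x]

theorem rat {G u D D' κ ε p : ℝ} (hG : 0 ≤ G) (h : |κ - u * D' / D| ≤ ε) (hu : |u| * p ≤ 1)
    (he : ε * p ≤ 1) (hp : 0 ≤ p) (hD : 1 ≤ G * |D|) (hD' : |D'| ≤ G) :
    |κ| * p ≤ 1 + G ^ 2 := by
  have h1 := quo hD hD'
  have h2 : |κ| ≤ ε + |u| * (G * G) := by
    have := abs_add_le (κ - u * D' / D) (u * (D' / D))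
    rw [show κ - u * D' / D + u * (D' / D) = κ by ring, abs_mul] at this
    nlinarith [abs_nonneg u]
  have h3 : |u| * p * (G * G) ≤ 1 * (G * G) := mul_le_mul_of_nonneg_right hu (by positivity)
  nlinarith

theorem fin {G ε p p₂ q h vi vj vk a b c w Di Dk D' : ℝ} (hG : 8 ≤ G) (hi : |vi| ≤ G)
    (hj : |vj| ≤ G) (hk : |vk| ≤ G) (h0 : vi ≠ 0) (hDi : 1 ≤ G * |Di|) (hD' : |D'| ≤ G)
    (ha : |a - w * D' / Di| ≤ ε) (hb : |b| * p₂ ≤ 1 + G ^ 2) (hc : |c - D' / Dk| ≤ ε)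
    (hp : 1 ≤ p) (hp₂ : 0 ≤ p₂) (hε : ε * p * q ≤ 1) (hh0 : 0 < h) (hh : h ≤ G ^ 21)
    (hq : G ^ 25 < q) (H : 1 / h ≤ |vi * a * (p / q ^ 2) + vj * b * (p₂ / q) + vk * c|) :
    8 < |p * w - -(vk / Dk) * (Di / vi) * q ^ 2| := by
  by_contra hT
  rw [not_lt] at hT
  have hG0 : 0 < G := by linarith
  have hq8 : 8 ≤ q := by
    have : G ^ 1 ≤ G ^ 25 := pow_le_pow_right₀ (by linarith) (by norm_num)
    rw [pow_one] at this; linarith
  have hq0 : 0 < q := by linarith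
  have hD0 : Di ≠ 0 := fun e => by rw [e] at hDi; norm_num at hDi
  have he0 : 0 ≤ ε := (abs_nonneg _).trans ha
  have e1 : ε * p ≤ 1 / q := by rw [le_div_iff₀ hq0]; exact hε
  have id : vi * a * (p / q ^ 2) + vj * b * (p₂ / q) + vk * c =
      D' * (vi / Di) * (p * w - -(vk / Dk) * (Di / vi) * q ^ 2) * (1 / q ^ 2) +
      vi * (a - w * D' / Di) * (p / q ^ 2) + vj * b * (p₂ / q) + vk * (c - D' / Dk) * 1 := by
    rw [div_eq_mul_inv vk Dk, div_eq_mul_inv D' Dk]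
    generalize Dk⁻¹ = z
    field_simp
    ring
  have t1 : |D' * (vi / Di) * (p * w - -(vk / Dk) * (Di / vi) * q ^ 2) * (1 / q ^ 2)| ≤
      G * (G * G) * (1 / q) := by
    refine prod3 ?_ (by positivity) ?_
    · rw [abs_mul]
      exact mul_le_mul hD' (quo hDi hi) (abs_nonneg _) hG0.le
    · refine (mul_le_mul_of_nonneg_right hT (by positivity)).trans ?_
      rw [mul_one_div, div_le_div_iff₀ (by positivity) hq0]
      nlinarith
  have t2 : |vi * (a - w * D' / Di) * (p / q ^ 2)| ≤ G * (1 / q) := by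
    refine prod3 hi (by positivity) (le_trans ?_ e1)
    exact mul_le_mul ha (div_le_self (by linarith) (one_le_pow₀ (by linarith))) (by positivity) he0
  have t3 : |vj * b * (p₂ / q)| ≤ G * ((1 + G ^ 2) * (1 / q)) := by
    refine prod3 hj (by positivity) ?_
    rw [← mul_div_assoc, mul_one_div]
    exact div_le_div_of_nonneg_right hb hq0.le
  have t4 : |vk * (c - D' / Dk) * 1| ≤ G * (1 / q) :=
    prod3 hk zero_le_one (le_trans (mul_le_mul hc hp zero_le_one he0) e1)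
  have t5 : 1 / h ≤ (2 * G ^ 3 + 3 * G) * (1 / q) := by
    rw [id] at H
    refine H.trans ((abs_add_le _ _).trans ?_)
    linarith [abs_add_three (D' * (vi / Di) * (p * w - -(vk / Dk) * (Di / vi) * q ^ 2) *
      (1 / q ^ 2)) (vi * (a - w * D' / Di) * (p / q ^ 2)) (vj * b * (p₂ / q))]
  rw [mul_one_div, div_le_div_iff₀ hh0 hq0, one_mul] at t5
  have t6 : 2 * G ^ 3 + 3 * G ≤ G ^ 4 := by
    have : G ^ 1 ≤ G ^ 3 := pow_le_pow_right₀ (by linarith) (by norm_num)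
    nlinarith [pow_pos hG0 3]
  have := mul_le_mul t6 hh hh0.le (by positivity)
  rw [← pow_add] at this
  exact absurd (t5.trans this) (not_le.2 hq)

end PORc

open PORc in
theorem p_POR (hPAIR : S_PAIR) (hPORV : S_PORV) :
    S_POR := by
  intro a
  refine ⟨(a + 3) * 57, ?_⟩
  intro Ω _ P x B n d₁ d₂ U R P₀ i j k ε X Y Z D hB T hS hU hC hn hε h₁ h₂ ω hω
  have hB2 : (2 : ℝ) ≤ B := by exact_mod_cast hB
  have hB1 : (1 : ℝ) ≤ B := by linarith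
  obtain ⟨G, hGd⟩ : ∃ G : ℝ, G = (B : ℝ) ^ (a + 3) := ⟨_, rfl⟩
  have g3 : (B : ℝ) ^ 3 ≤ G := hGd ▸ pow_le_pow_right₀ hB1 (by omega)
  have g2 : (B : ℝ) ^ 2 ≤ G := hGd ▸ pow_le_pow_right₀ hB1 (by omega)
  have ga : (B : ℝ) ^ a ≤ G := hGd ▸ pow_le_pow_right₀ hB1 (by omega)
  have g1 : (B : ℝ) ≤ G := hGd ▸ le_self_pow₀ hB1 (by omega)
  have hG : 8 ≤ G := le_trans (by nlinarith [pow_le_pow_left₀ zero_le_two hB2 3]) g3
  have hG1 : 1 ≤ G := by linarith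
  have hG0 : 0 ≤ G := by linarith
  have k2 : 6 * (B : ℝ) ^ 2 ≤ G ^ 2 := by nlinarith
  have k3 : 6 * (B : ℝ) ^ 3 ≤ G ^ 2 := by nlinarith
  have hn' : G ^ 57 ≤ n := by rw [hGd, ← pow_mul]; exact_mod_cast hn
  obtain ⟨s, r, s1, s2, r1, r2⟩ := par hG
  have hsr : 3 * s < r := (pow_lt_pow_iff_right₀ (one_lt_two (α := ℝ))).1
    (s2.trans_lt ((pow_le_pow_right₀ hG1 (by norm_num)).trans_lt r1))
  have hrn : r ≤ n := by
    have : (r : ℝ) ≤ 2 ^ r := by exact_mod_cast Nat.lt_two_pow_self.le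
    exact_mod_cast this.trans (r2.trans ((pow_le_pow_right₀ hG1 (by norm_num)).trans hn'))
  obtain ⟨e1, e2, e3, e4, e5, e6⟩ := T.ee
  obtain ⟨o, oi, oj, ok⟩ : ∃ o : Pos, o i = 0 ∧ o j = (d₁ : ℤ) - r ∧
      o k = ((d₁ + d₂ : ℕ) : ℤ) - (r * 2 : ℕ) :=
    ⟨ee j (d₁ - r) + ee k (((d₁ + d₂ : ℕ) : ℤ) - (r * 2 : ℕ)), by
      simp only [Pi.add_apply, ee_self, e3, e4, e5, e6, add_zero, zero_add, and_self]⟩
  have m0 : P₀ ∈ U := hU (self_Ball _ (by omega))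
  have m1 : P₀ + o ∈ U := hU (mem_Ball.2 ((T.all _).2 (by
    simp only [Pi.add_apply, oi, oj, ok]; omega)))
  have m2 : P₀ + o + ee k (3 * s) ∈ U := hU (mem_Ball.2 ((T.all _).2 (by
    simp only [Pi.add_apply, oi, oj, ok, ee_self, e5, e6]; omega)))
  have s0 : G ^ 2 ≤ 2 ^ s := (pow_le_pow_right₀ hG1 (by norm_num)).trans s1.le
  obtain ⟨v, hv, hvi, hy⟩ := hPORV (x ω) B U P₀ o i k s (hS ω hω) m1 m2 (k2.trans s0)
  have hvG : ∀ b, |v b| ≤ G := fun b => (hv b).trans g1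
  have hvi' : 1 ≤ G ^ 2 * |v i| := hvi.trans (mul_le_mul_of_nonneg_right k2 (abs_nonneg _))
  have hD : ∀ ω, 0 < P.p ω → ∀ b, 1 ≤ G * |D ω b| ∧ |D ω b| ≤ G := fun ω hω b =>
    ⟨((hC.bd ω hω).2.2 b).1.trans (mul_le_mul_of_nonneg_right ga (abs_nonneg _)),
      ((hC.bd ω hω).2.2 b).2.trans ga⟩
  refine ⟨-(v k / D ω k) * (D ω i / v i) * (2 ^ r) ^ 2, ?_, fun ω' hω' hW hX hY => ?_⟩
  · rw [pow_mul, ← hGd, abs_mul, abs_mul, abs_neg, abs_of_nonneg (sq_nonneg ((2 : ℝ) ^ r)),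
      show G ^ 57 = G * G * (G * G ^ 2) * (G ^ 26) ^ 2 by ring]
    exact mul_le_mul (mul_le_mul (quo (hD ω hω k).1 (hvG k)) (quo hvi' (hD ω hω i).2)
      (abs_nonneg _) (by positivity)) (pow_le_pow_left₀ (by positivity) r2 2) (by positivity)
      (by positivity)
  obtain ⟨aij, ajk, aik, akk, aji, aki, akj⟩ := hC.ap ω ω' hω hω' hW.symm
  have he0 : 0 ≤ ε := (abs_nonneg _).trans aji
  have hz : ∀ t : ℤ, t ≤ 4 * n → ε * (2 : ℝ) ^ t ≤ 1 := fun t ht => by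
    refine le_trans (mul_le_mul_of_nonneg_left ?_ he0) hε
    rw [← zpow_natCast]
    exact zpow_le_zpow_right₀ one_le_two (by omega)
  have hz' : ∀ t : ℕ, t ≤ 4 * n → ε * (2 : ℝ) ^ t ≤ 1 := fun t ht => by
    rw [← zpow_natCast]; exact hz t (by omega)
  have sm : ∀ (b : Fin 3) (c : ℝ) (t : ℤ), |c| ≤ ε → t ≤ 4 * n → |v b * c * 2 ^ t| ≤ G * 1 :=
    fun b c t hc ht => prod3 (hvG b) (by positivity)
      ((mul_le_mul_of_nonneg_right hc (by positivity)).trans (hz t ht))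
  have dgn : ∀ b, |v b * kk (x ω) (x ω') P₀ b b * 2 ^ (o b - o b)| ≤ G * G ^ 2 := fun b => by
    have := hPAIR (x ω) (x ω') B U P₀ P₀ (hS ω hω) (hS ω' hω') m0
      (by rw [Pt.rel_self, Pt.rel_self]) b b
    refine prod3 (hvG b) (by positivity) (le_trans (le_of_eq ?_) (this.trans k3))
    simp
  have t6 : 2 * G ^ 3 + 3 * G ≤ G ^ 4 := by
    have : G ^ 1 ≤ G ^ 3 := pow_le_pow_right₀ hG1 (by norm_num)
    nlinarith [pow_nonneg hG0 3]
  have H := hy (x ω') (G ^ 4) (hS ω' hω') ((T.all _).2 ⟨fun _ => ?_, fun _ => ?_,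
    fun h => absurd rfl h⟩) (lt_of_le_of_lt (by nlinarith [pow_nonneg hG0 4]) s1)
  · rw [T.sum, oi, oj, ok, sub_zero, sub_self, zpow_zero, mul_one,
      show ((d₁ + d₂ : ℕ) : ℤ) - (r * 2 : ℕ) - (d₁ - r) = (d₂ : ℤ) - r by omega,
      zpow_sub₀ two_ne_zero, zpow_sub₀ two_ne_zero] at H
    simp only [zpow_natCast, pow_mul _ r 2] at H
    refine fin hG (hvG i) (hvG j) (hvG k) (fun e => by rw [e] at hvi'; norm_num at hvi')
      (hD ω hω i).1 (hD ω' hω' k).2 aik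
      (rat hG0 ajk hY (hz' _ (by omega)) (by positivity) (hD ω hω j).1 (hD ω' hω' k).2) akk
      (one_le_pow₀ one_le_two) (by positivity) ?_ (by positivity) s2 r1 H
    rw [mul_assoc, ← pow_add]
    exact hz' _ (by omega)
  · rw [T.sum]
    refine (abs_add_three _ _ _).trans ?_
    have := sm j _ (o i - o j) aji (by omega)
    have := sm k _ (o i - o k) aki (by omega)
    linarith [dgn i, pow_nonneg hG0 3]
  · rw [T.sum]
    refine (abs_add_three _ _ _).trans ?_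
    have := sm k _ (o j - o k) akj (by omega)
    have : |v i * kk (x ω) (x ω') P₀ i j * 2 ^ (o j - o i)| ≤ G * (1 + G ^ 2) := by
      refine prod3 (hvG i) (by positivity) (le_trans (mul_le_mul_of_nonneg_left ?_ (abs_nonneg _))
        (rat hG0 aij hX (hz' _ (by omega)) (by positivity) (hD ω hω i).1 (hD ω' hω' j).2))
      rw [← zpow_natCast]
      exact zpow_le_zpow_right₀ one_le_two (by omega)
    linarith [dgn j]

end Pool.Agent.P.MP_e45b92_nt.EL
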