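import Pool.Agent.P.MP_e45b92_nt.EL.If

/-! Step PORV. -/

set_option autoImplicit false

namespace Pool.Agent.P.MP_e45b92_nt.EL

open Finset Matrix Real
open Pool.Agent.P.MP_bf60a1_an.RA
open Pool.Agent.P.MP_246241_nt.EK (Vc Mt Gl Bd MI MI_nonneg MI_symm det_unit)

namespace PORVc

theorem row_eq (x : Pt) (m : Pos) (r : Fin 3) :
    x.b m r = cz ((x.g m : Mt 3) r) ᵥ* (x.Λ * dg m) := by
  ext j
  rw [Pt.b, Matrix.mul_assoc, Matrix.mul_apply]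
  rfl

theorem key {x : Pt} {B : ℕ} {U : Set Pos} (hx : x.Ok B U) (y : Pt) (P₀ o : Pos) (w : Vc 3) :
    lv y (w ᵥ* (((x.g P₀)⁻¹ * y.g P₀ : Gl 3) : Mt 3)) (P₀ + o) =
      (cz w ᵥ* (x.Λ * dg (P₀ + o))) ᵥ* (dg (-o) * kk x y P₀ * dg o) := by
  have h1 : cs (x.g P₀)⁻¹ * x.b P₀ = x.Λ * dg P₀ := by
    rw [Pt.b, Matrix.mul_assoc, ← Matrix.mul_assoc, cs_inv_mul, Matrix.one_mul]
  have h2 : x.Λ * dg (P₀ + o) * dg (-o) = x.Λ * dg P₀ := by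
    rw [Matrix.mul_assoc, ← dg_add, add_neg_cancel_right]
  rw [lv, cz_vecMul, vecMul_vecMul, vecMul_vecMul]
  congr 1
  rw [← Matrix.mul_assoc (x.Λ * _), ← Matrix.mul_assoc (x.Λ * _), h2, ← h1,
    Matrix.mul_assoc (cs _) (x.b _), hx.mul_kk, cs_mul, Pt.b, dg_add]
  simp only [Matrix.mul_assoc]

end PORVc

open PORVc in
theorem p_PORV (hINV : S_INV) (hFAR : S_FAR) :
    S_PORV := by
  intro x B U P₀ o i k s hx h1 h2 h3
  have hb := hx.2 _ h1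
  have hi := hINV _ _ (hx.det (P₀ + o)) hb
  have e1 : ∑ r, (x.b (P₀ + o))⁻¹ i r * x.b (P₀ + o) r i = 1 := by
    rw [← Matrix.mul_apply, hx.inv_mul, Matrix.one_apply_eq]
  obtain ⟨r, hr⟩ : ∃ r, 1 ≤ 6 * (B : ℝ) ^ 2 * |x.b (P₀ + o) r i| := by
    by_contra hc
    push Not at hc
    have g : ∀ r, (x.b (P₀ + o))⁻¹ i r * x.b (P₀ + o) r i ≤
        2 * (B : ℝ) ^ 2 * |x.b (P₀ + o) r i| := fun r =>
      (le_abs_self _).trans (by
        rw [abs_mul]; exact mul_le_mul_of_nonneg_right (hi i r) (abs_nonneg _))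
    rw [Fin.sum_univ_three] at e1
    linarith [g 0, g 1, g 2, hc 0, hc 1, hc 2]
  refine ⟨x.b (P₀ + o) r, hb r, hr, fun y E hy hE hs => ?_⟩
  have e2 : ∀ b, ∑ c, x.b (P₀ + o) r c * kk x y P₀ c b * (2 : ℝ) ^ (o b - o c) =
      lv y ((x.g (P₀ + o) : Mt 3) r ᵥ* (((x.g P₀)⁻¹ * y.g P₀ : Gl 3) : Mt 3)) (P₀ + o) b := by
    intro b
    rw [key hx, ← row_eq, vecMul, dotProduct]
    exact Finset.sum_congr rfl fun c _ => by rw [conj_dg, mul_assoc]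
  rw [e2]
  exact hFAR y B U _ _ k s E hy (vecMul_ne (row_ne _ _) _) h2
    (fun j hj => e2 j ▸ hE j hj) hs h3

end Pool.Agent.P.MP_e45b92_nt.EL
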