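import Pool.Agent.P.MP_e45b92_nt.EL.If

/-! Step PRED. -/

set_option autoImplicit false

namespace Pool.Agent.P.MP_e45b92_nt.EL

open Finset Matrix Real
open Pool.Agent.P.MP_bf60a1_an.RA
open Pool.Agent.P.MP_246241_nt.EK (Vc Mt Gl Bd MI MI_nonneg MI_symm det_unit)

namespace PREDc

theorem card_ind {ι : Type} (F : Finset ι) (s : ι → Prop) [DecidablePred s] :
    (#(F.filter s) : ℝ) = ∑ i ∈ F, ind (s i) := by
  rw [card_filter]
  push_cast
  refine sum_congr rfl fun i _ => ?_
  split_ifs with h
  · exact (ind_pos h).symm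
  · exact (ind_neg h).symm

theorem few (n : ℕ) (t l : ℝ) (l0 : 0 < l) (l1 : l ≤ 1) :
    (#((range n).powerset.filter fun D => (#D : ℝ) ≤ t) : ℝ) ≤ exp (t * -log l + n * l) := by
  have h1 : ∑ D ∈ (range n).powerset, l ^ #D = (1 + l) ^ n := by
    have := prod_one_add (f := fun _ : ℕ => l) (range n)
    simp only [prod_const, card_range] at this
    exact this.symm
  have h2 : (1 + l) ^ n ≤ exp (n * l) := by
    rw [exp_nat_mul]
    exact pow_le_pow_left₀ (by linarith) (by linarith [add_one_le_exp l]) n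
  have h3 : log l ≤ 0 := log_nonpos l0.le l1
  rw [exp_add, card_eq_sum_ones]
  push_cast
  refine le_trans ?_ (mul_le_mul_of_nonneg_left (h1.le.trans h2) (exp_pos _).le)
  rw [mul_sum]
  refine (sum_le_sum fun D hD => ?_).trans
    (sum_le_sum_of_subset_of_nonneg (filter_subset _ _) fun _ _ _ => by positivity)
  rw [← exp_log l0, ← exp_nat_mul, log_exp, ← exp_add]
  exact one_le_exp (by nlinarith [(mem_filter.1 hD).2])

theorem half (x : ℝ) (d : ℕ) : dig x (d + 1) / 2 = dig x d := by
  rw [dig_div x d 1, pow_one]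

theorem count {Ω κ : Type} [Fintype Ω] (P : FP Ω) (W : Ω → κ) (X : Ω → ℝ) (n : ℕ) (G t l : ℝ)
    (l0 : 0 < l) (l1 : l ≤ 1) (G0 : 0 ≤ G) (hG : ∀ ω, 0 < P.p ω → |X ω| ≤ G) (w : κ) :
    ∃ F : Finset ℤ, (#F : ℝ) ≤ (2 * G + 3) * exp (2 * (t * -log l + n * l)) ∧ ∀ ω, 0 < P.p ω →
      W ω = w → (cnt n fun d => mis P W X d ω) ≤ t → dig (X ω) n ∈ F := by
  classical
  obtain ⟨I, hI, hI'⟩ := exists_int_box 0 (show 0 ≤ G + 1 by linarith)
  let S := univ.filter fun ω => 0 < P.p ω ∧ W ω = w ∧ (cnt n fun d => mis P W X d ω) ≤ t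
  let C := (range n).powerset.filter fun D => (#D : ℝ) ≤ t
  let c1 : Ω → Finset ℕ := fun ω => (range n).filter fun d => mis P W X d ω
  let c2 : Ω → Finset ℕ := fun ω => (c1 ω).filter fun d => dig (X ω) (d + 1) % 2 = 1
  refine ⟨S.image fun ω => dig (X ω) n, ?_, fun ω a b c =>
    mem_image_of_mem _ (mem_filter.2 ⟨mem_univ _, a, b, c⟩)⟩
  have h : #(S.image fun ω => dig (X ω) n) ≤ #(I ×ˢ C ×ˢ C) := by
    refine card_le_card_of_forall_subsingleton
      (fun a b => ∃ ω ∈ S, dig (X ω) n = a ∧ (dig (X ω) 0, c1 ω, c2 ω) = b) (fun a ha => ?_) ?_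
    · obtain ⟨ω, k, e⟩ := mem_image.1 ha
      obtain ⟨_, k1, _, k3⟩ := mem_filter.1 k
      refine ⟨_, ?_, ω, k, e, rfl⟩
      have b1 : (#(c1 ω) : ℝ) ≤ t := (card_ind _ _).le.trans k3
      refine mem_product.2 ⟨hI' _ ?_, mem_product.2 ⟨mem_filter.2
        ⟨mem_powerset.2 (filter_subset _ _), b1⟩, mem_filter.2
        ⟨mem_powerset.2 ((filter_subset _ _).trans (filter_subset _ _)),
          le_trans (by exact_mod_cast card_filter_le _ _) b1⟩⟩⟩
      have := dig_le (X ω) 0; have := lt_dig (X ω) 0; have := abs_le.1 (hG ω k1)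
      rw [abs_le]
      constructor <;> simp only [pow_zero, one_mul] at * <;> linarith
    · rintro b _ a ⟨_, ω, k, rfl, rfl⟩ a' ⟨_, o, k', rfl, e⟩
      obtain ⟨_, k1, k2, _⟩ := mem_filter.1 k
      obtain ⟨_, _, k4, _⟩ := mem_filter.1 k'
      simp only [Prod.mk.injEq] at e
      have all : ∀ d ≤ n, dig (X o) d = dig (X ω) d := by
        intro d
        induction d with
        | zero => exact fun _ => e.1
        | succ d ih =>
          intro hd
          have ih := ih (by omega)
          have hd' : d ∈ range n := mem_range.2 hd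
          have q1 : mis P W X d o ↔ mis P W X d ω := by
            have := Finset.ext_iff.1 e.2.1 d
            simpa only [c1, mem_filter, hd', true_and] using this
          by_cases m : mis P W X d ω
          · have := Finset.ext_iff.1 e.2.2 d
            simp only [c2, c1, mem_filter, hd', true_and, m, q1.2 m] at this
            have := half (X o) d
            have := half (X ω) d
            omega
          · by_contra ne
            have m' := mt q1.1 m
            unfold mis at m m'
            have q2 : P.cl (fun o => (dig (X o) d, W o)) o =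
                P.cl (fun o => (dig (X o) d, W o)) ω := by
              unfold FP.cl
              simp only [ih, k2, k4]
            have q3 : P.cl (fun o => (dig (X o) (d + 1), W o)) ω +
                P.cl (fun o => (dig (X o) (d + 1), W o)) o ≤
                P.cl (fun o => (dig (X o) d, W o)) ω := by
              unfold FP.cl FP.pr
              rw [← P.E_add]
              refine P.E_mono fun v _ => ?_
              simp only [Prod.mk.injEq]
              by_cases b1 : dig (X v) (d + 1) = dig (X ω) (d + 1) ∧ W v = W ω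
              · rw [ind_pos b1, ind_neg fun b2 : _ ∧ W v = W o => ne (b2.1.symm.trans b1.1),
                  ind_pos ⟨dig_of_le (Nat.le_succ d) b1.1, b1.2⟩, add_zero]
              · rw [ind_neg b1, zero_add]
                exact ind_mono fun b2 => ⟨(dig_of_le (Nat.le_succ d) b2.1).trans ih,
                  b2.2.trans (k4.trans k2.symm)⟩
            linarith
      exact (all n le_rfl).symm
  have h' : (#(S.image fun ω => dig (X ω) n) : ℝ) ≤ #I * (#C * #C) := by
    rw [card_product, card_product] at h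
    exact_mod_cast h
  have hC := few n t l l0 l1
  rw [two_mul (t * _ + _), exp_add (t * _ + _)]
  exact h'.trans (mul_le_mul (by linarith)
    (mul_le_mul hC hC (Nat.cast_nonneg _) (exp_pos _).le) (by positivity) (by positivity))

end PREDc

open PREDc in
theorem p_PRED :
    S_PRED := by
  intro Ω κ _ P W X E B n e hB hE hG hE'
  obtain ⟨ω0, p0⟩ := P.exists_pos
  have e0 : 0 ≤ e := (abs_nonneg _).trans (hG ω0 p0)
  have B1 : (1 : ℝ) ≤ B := by exact_mod_cast hB
  have h := (P.cond E).Hc_le_E (Z := fun ω => dig (X ω) n) (V := W) (N := fun _ => (2 * e + 3) *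
    exp (2 * (n / (16 * B ^ 2) * -log (1 / (4 * B)) + n * (1 / (4 * B))))) fun ω _ => by
      obtain ⟨F, h1, h2⟩ := count P W X n e (n / (16 * B ^ 2)) (1 / (4 * B)) (by positivity)
        (div_le_one_of_le₀ (by linarith) (by positivity)) e0 hG (W ω)
      exact ⟨F, h1, fun ω' k k' => h2 ω' (P.cond_pos k) k' (hE' ω' (P.cond_mem hE k))⟩
  rw [FP.E_const, log_mul (by positivity) (exp_pos _).ne', log_exp] at h
  have a1 : -log (1 / (4 * (B : ℝ))) ≤ 4 * B := by
    rw [one_div, log_inv, neg_neg]
    linarith [log_le_sub_one_of_pos (show (0 : ℝ) < 4 * B by positivity)]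
  have a2 := mul_le_mul_of_nonneg_left a1 (show (0 : ℝ) ≤ n / (16 * B ^ 2) by positivity)
  have a3 : (n : ℝ) / (16 * B ^ 2) * (4 * B) = n / B / 4 := by
    field_simp
    ring
  have a4 : (n : ℝ) * (1 / (4 * B)) = n / B / 4 := by field_simp
  linarith

end Pool.Agent.P.MP_e45b92_nt.EL
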