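import Pool.Agent.P.MP_e45b92_nt.EL.If

/-! Step RELB. -/

set_option autoImplicit false

namespace Pool.Agent.P.MP_e45b92_nt.EL

open Finset Matrix Real
open Pool.Agent.P.MP_bf60a1_an.RA
open Pool.Agent.P.MP_246241_nt.EK (Vc Mt Gl Bd MI MI_nonneg MI_symm det_unit)

theorem p_RELB (hINV : S_INV) :
    S_RELB := by
  intro x B U m m' s h hm hm' hs
  have e : cs (x.rel m m') = x.b m * dg (m' - m) * (x.b m')⁻¹ := by
    rw [x.b_rel m m', Matrix.mul_assoc _ (dg _) (dg _), ← dg_add, sub_add_sub_cancel, sub_self,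
      dg_zero, Matrix.mul_one, Matrix.mul_assoc, h.mul_inv, Matrix.mul_one]
  have hb : m' - m ∈ Ball 0 s := fun a => by
    have := hs a
    simp only [Pi.zero_apply, Pi.sub_apply]
    omega
  have h1 : RB (x.b m * dg (m' - m)) (B * 4 ^ s) := fun i j => by
    rw [mul_dg, abs_mul, abs_of_pos (wt_pos _ _)]
    exact mul_le_mul (h.2 m hm i j) (wt_le hb j) (wt_pos _ _).le (Nat.cast_nonneg _)
  have h2 := h1.mul (hINV _ _ (h.det m') (h.2 m' hm'))
  rw [← e] at h2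
  intro i j
  have h3 := h2 i j
  rw [cs_apply, ← Int.cast_abs] at h3
  have h4 : ((|(x.rel m m' : Mt 3) i j| : ℤ) : ℝ) ≤ ((6 * B ^ 3 * 4 ^ s : ℤ) : ℝ) :=
    h3.trans_eq (by push_cast; ring)
  exact_mod_cast h4

end Pool.Agent.P.MP_e45b92_nt.EL
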