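import Pool.Agent.P.MP_e45b92_nt.EL.If

/-! Step ROOT. -/

set_option autoImplicit false

namespace Pool.Agent.P.MP_e45b92_nt.EL

open Finset Matrix Real
open Pool.Agent.P.MP_bf60a1_an.RA
open Pool.Agent.P.MP_246241_nt.EK (Vc Mt Gl Bd MI MI_nonneg MI_symm det_unit)

namespace ROOTc

theorem tel (f : ℤ → ℝ) (L N : ℕ) :
    ∑ t ∈ range N, (f (t * L + L) - f (t * L)) = f (N * L) - f 0 := by
  have := sum_range_sub (fun t : ℕ => f (t * L)) N
  simp only [Nat.cast_add, Nat.cast_one, add_mul, one_mul, Nat.cast_zero, zero_mul] at this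
  exact this

theorem one {Ω : Type} [Fintype Ω] {P : FP Ω} {ψ : (Ω → Prop) → List Pos → ℝ} {D : Pos → ℝ}
    {U : Set Pos} {B e c : ℝ} (hF : Fam P U B e c ψ) {a b d : Fin 3} {M L N : ℕ} {M' n : ℤ}
    (hn : (N : ℤ) * L = n) {A C : ℤ → List Pos} {S : Pos → Prop}
    (hD : ∀ Q, S Q → ∀ t < N, dd (ψ fun _ => True) d a M L (Q + ee b (t * L)) -
      dd (ψ fun _ => True) d a M' L (Q + ee b (t * L)) + e ≤ D (Q + ee b (t * L)))
    (h2 : ∀ E Q, S Q → ∀ t < N,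
      dd (ψ E) d a M' L (Q + ee b (t * L)) ≤ ψ E (C (t * L + L)) - ψ E (C (t * L)) + e ∧
      ψ E (C (t * L + L)) - ψ E (C (t * L)) ≤ dd (ψ E) d a M L (Q + ee b (t * L)) + e) :
    (∀ Q, S Q → (∀ t < N, ψ (fun _ => True) (A (t * L + L)) - ψ (fun _ => True) (A (t * L)) ≤
      dd (ψ fun _ => True) d a M L (Q + ee b (t * L)) + e) →
      JJ (ψ fun _ => True) A C n ≤ CS D L N Q b + N * e) ∧
    ∀ (G : Ω → Prop) (σ : ℝ), (∀ E, (∀ ω, E ω → G ω) → ψ E (C n) - ψ E (C 0) ≤ σ) →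
      ∀ Q, S Q → Small ψ G a b d M L N Q (σ + CS D L N Q b + N * e + 1) := by
  subst hn
  have ce : (N : ℝ) * e = ∑ _t ∈ range N, e := by simp
  refine ⟨fun Q hQ h1 => ?_, fun G σ hG Q hQ E hE => ?_⟩
  · rw [JJ, ← tel (fun t => ψ (fun _ => True) (A t)), ← tel (fun t => ψ (fun _ => True) (C t)), CS,
      ce, ← sum_sub_distrib, ← sum_add_distrib]
    refine sum_le_sum fun t ht => ?_
    have ht := mem_range.1 ht
    linarith [h1 t ht, hD Q hQ t ht, (h2 (fun _ => True) Q hQ t ht).1]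
  · have s1 : ∀ ω, True ↔ E ω ∨ ¬ E ω := fun ω => by tauto
    have s2 : ∀ ω, E ω → ¬ ¬ E ω := fun ω => by tauto
    have g : CS (dd (ψ E) d a M L) L N Q b ≤ CS D L N Q b + N * e +
        ((ψ (fun _ => True) (C (N * L)) - ψ (fun _ => True) (C 0)) -
          (ψ (fun ω => ¬ E ω) (C (N * L)) - ψ (fun ω => ¬ E ω) (C 0))) := by
      rw [← tel (fun t => ψ (fun _ => True) (C t)), ← tel (fun t => ψ (fun ω => ¬ E ω) (C t)), CS,
        CS, ce, ← sum_sub_distrib, ← sum_add_distrib, ← sum_add_distrib]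
      refine sum_le_sum fun t ht => ?_
      have ht := mem_range.1 ht
      have := hF.cnd (fun _ => True) E (fun ω => ¬ E ω) (HW d a M (Q + ee b (t * L)))
        ((Q + ee b (t * L) - ee a L) :: HW d a M (Q + ee b (t * L))) s1 s2 (List.subset_cons_self _ _)
      have h3 := hD Q hQ t ht
      have h4 := (h2 (fun _ => True) Q hQ t ht).1
      have h5 := (h2 (fun ω => ¬ E ω) Q hQ t ht).2
      unfold dd at *
      linarith
    linarith [hG E hE, hF.hi (fun _ => True) E (fun ω => ¬ E ω) (C (N * L)) s1 s2,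
      hF.lo (fun _ => True) E (fun ω => ¬ E ω) (C 0) s1 s2]

end ROOTc

open ROOTc in
theorem p_ROOT (hSTX : S_STX) (hSTY : S_STY) :
    S_ROOT := by
  intro Ω _ P ψ D i j k P₀ w M L N B e c β h hF hβ hL hM hN ⟨GX, GY, hp, hX, hY⟩ hD
  have hN' : (N : ℤ) * L = 3 * w := by exact_mod_cast hN
  have hL' : (L : ℤ) ≤ M := by exact_mod_cast hL
  have hM' : (M : ℤ) ≤ w := by exact_mod_cast hM
  have ht : ∀ t < N, (0 : ℤ) ≤ t * L ∧ (t : ℤ) * L + L ≤ 3 * w := fun t ht => by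
    have : (t : ℤ) + 1 ≤ N := by exact_mod_cast ht
    refine ⟨by positivity, ?_⟩
    nlinarith [Int.natCast_nonneg L]
  have hb : ∀ Q ∈ Ball P₀ (4 * w), ∀ b, ∀ t < N, Q + ee b (t * L) ∈ Ball P₀ (7 * w) := by
    intro Q hQ b t h0 a
    have := hQ a
    have := ht t h0
    by_cases g : a = b
    · subst g; simp only [Pi.add_apply, ee_self]; omega
    · simp only [Pi.add_apply, ee_ne g]; omega
  have sx := fun E (t : ℕ) h0 => hSTX e (ψ E) i j k P₀ w M L (t * L) h (hF.cal E) (Int.natCast_nonneg L)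
    hL' hM' (ht t h0).1 (ht t h0).2
  have sy := fun E (t : ℕ) h0 => hSTY e (ψ E) i j k P₀ w M L (t * L) h (hF.cal E) (Int.natCast_nonneg L)
    hL' hM' (ht t h0).1 (ht t h0).2
  obtain ⟨x1, x2⟩ := one hF hN' (A := AX i j k P₀ w) (C := BX i j k P₀ w) (D := D) (a := i) (b := j)
    (d := k) (M := M) (M' := 40 * w) (S := fun Q => Q ∈ Ball P₀ (4 * w) ∧ Q j - Q i = P₀ j - P₀ i)
    (fun Q hQ t h0 => hD _ _ _ (hb Q hQ.1 j t h0)) fun E Q hQ t h0 => (sx E t h0).2 Q hQ.1 hQ.2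
  obtain ⟨y1, y2⟩ := one hF hN' (A := AY i j k P₀ w) (C := BY i j k P₀ w) (D := D) (a := j) (b := k)
    (d := i) (M := M) (M' := 40 * w) (S := fun Q => Q ∈ Ball P₀ (4 * w) ∧ Q k - Q j = P₀ k - P₀ j)
    (fun Q hQ t h0 => hD _ _ _ (hb Q hQ.1 k t h0)) fun E Q hQ t h0 => (sy E t h0).2 Q hQ.1 hQ.2
  refine ⟨GX, GY, hp.trans ?_, fun Q a b => x2 GX _ hX Q ⟨a, b⟩, fun Q a b => y2 GY _ hY Q ⟨a, b⟩⟩
  have x3 := x1 (P₀ - ee k M) (by
    simp only [mem_Ball, h.all, Pi.sub_apply, ee_self, h.ee]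
    and_intros <;> omega) fun t h0 => (sx _ t h0).1
  have y3 := y1 (P₀ + ee i (M + 3 * w)) (by
    simp only [mem_Ball, h.all, Pi.add_apply, ee_self, h.ee]
    and_intros <;> omega) fun t h0 => (sy _ t h0).1
  exact add_le_add_right (div_le_div_of_nonneg_right (mul_le_mul_of_nonneg_left (by linarith) hβ)
    (by positivity)) _

end Pool.Agent.P.MP_e45b92_nt.EL
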