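import Pool.Agent.P.MP_e45b92_nt.EL.If

/-! Step SCALE. -/

set_option autoImplicit false

namespace Pool.Agent.P.MP_e45b92_nt.EL

open Finset Matrix Real
open Pool.Agent.P.MP_bf60a1_an.RA
open Pool.Agent.P.MP_246241_nt.EK (Vc Mt Gl Bd MI MI_nonneg MI_symm det_unit)

namespace SCALEc

/-- the point of the box with offsets `u` -/
def pq (c : Pos) (u : (ℕ × ℕ) × ℕ) : Pos := ![c 0 + u.1.1, c 1 + u.2, c 2 + u.1.2]

/-- the thickened box -/
noncomputable def O (c : Pos) (n l : ℕ) : Finset Pos :=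
  Fintype.piFinset fun a => Ico (c a - l) (c a + if a = 1 then (n : ℤ) + l else 2 * l)

theorem mem_O {c y : Pos} {n l : ℕ} : y ∈ O c n l ↔ (∀ a, c a - l ≤ y a) ∧
    y 0 < c 0 + 2 * l ∧ y 1 < c 1 + n + l ∧ y 2 < c 2 + 2 * l := by
  simp only [O, Fintype.mem_piFinset, mem_Ico, forall_and]
  refine and_congr Iff.rfl ⟨fun h => ⟨by simpa using h 0, by simpa [add_assoc] using h 1,
    by simpa using h 2⟩, fun h a => ?_⟩
  fin_cases a
  · simpa using h.1
  · simpa [add_assoc] using h.2.1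
  · simpa using h.2.2

theorem card_O (c : Pos) {n l : ℕ} (h : l ≤ n) : (#(O c n l) : ℝ) ≤ 27 * (l * l * n) := by
  have e : #(O c n l) = 3 * l * (n + 2 * l) * (3 * l) := by
    rw [O, Fintype.card_piFinset, Fin.prod_univ_three]
    simp only [Int.card_Ico]
    congr 1
    · congr 1
      · simp; omega
      · simp; omega
    · simp; omega
  have e2 : 3 * l * (n + 2 * l) * (3 * l) ≤ 27 * (l * l * n) := by
    have := Nat.mul_le_mul_left (l * l) h
    nlinarith
  rw [e]
  exact_mod_cast e2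

theorem pq_inj (c : Pos) : Function.Injective (pq c) := by
  rintro ⟨⟨a, b⟩, t⟩ ⟨⟨a', b'⟩, t'⟩ h
  have h0 := congrFun h 0
  have h1 := congrFun h 1
  have h2 := congrFun h 2
  simp [pq] at h0 h1 h2
  rw [h0, h1, h2]

theorem shift {c o : Pos} {n l : ℕ} (ho : o ∈ Ball 0 l) (D : Pos → ℝ)
    (hD : ∀ y ∈ O c n l, 0 ≤ D y) :
    ∑ u ∈ (range l ×ˢ range l) ×ˢ range n, D (pq c u + o) ≤ ∑ y ∈ O c n l, D y := by
  classical
  rw [← sum_image (g := fun u => pq c u + o) (f := D)
    fun u _ v _ h => pq_inj c (add_right_cancel h)]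
  refine sum_le_sum_of_subset_of_nonneg (fun y hy => ?_) fun y hy _ => hD y hy
  obtain ⟨⟨⟨a, b⟩, t⟩, hu, rfl⟩ := mem_image.1 hy
  simp only [mem_product, mem_range] at hu
  have h0 := ho 0
  have h1 := ho 1
  have h2 := ho 2
  simp only [Pi.zero_apply] at h0 h1 h2
  refine mem_O.2 ⟨fun a => ?_, ?_, ?_, ?_⟩
  · fin_cases a <;> simp [pq] <;> omega
  all_goals simp [pq]; omega

theorem line (f : ℕ → ℝ) (n k : ℕ) :
    ∑ t ∈ range n, (f (t + k) - f t) = ∑ t ∈ range k, (f (n + t) - f t) := by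
  have h1 := sum_range_add f k n
  have h2 := sum_range_add f n k
  rw [add_comm k n, h2] at h1
  rw [sum_sub_distrib, sum_sub_distrib, sum_congr rfl fun t _ => by rw [add_comm t k]]
  linarith

theorem pq_add (c : Pos) (w : ℕ × ℕ) (t k : ℕ) : pq c (w, t) + ee 1 k = pq c (w, t + k) := by
  funext a
  fin_cases a <;> simp [pq, ee, add_assoc]

end SCALEc

open SCALEc in
theorem p_SCALE :
    S_SCALE := by
  intro r n l k h D T o c β Γ τ δ lo hi hr hl hβ hτ hk hD hh
  have hO : ∀ y ∈ O c n l, (∀ s < r, 0 ≤ D s y) ∧ ∑ s ∈ range r, D s y ≤ Γ := fun y hy => by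
    obtain ⟨h0, h1, h2, h3⟩ := mem_O.1 hy
    exact hD y h0 h1.le h2.le h3.le
  have hΓ : 0 ≤ Γ := by
    have := hD c (fun a => by omega) (by omega) (by omega) (by omega)
    exact le_trans (sum_nonneg fun s hs => this.1 s (mem_range.1 hs)) this.2
  have r0 : (0 : ℝ) < r := by exact_mod_cast hr
  obtain ⟨s, hs, hs2⟩ : ∃ s ∈ range r, ∑ y ∈ O c n l, D s y ≤ 27 * (l * l * n) * Γ / r := by
    refine exists_le_of_sum_le (nonempty_range_iff.2 hr.ne') ?_
    rw [sum_comm, sum_const, card_range, nsmul_eq_mul, mul_div_cancel₀ _ r0.ne']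
    refine (sum_le_card_nsmul _ _ Γ fun y hy => (hO y hy).2).trans ?_
    rw [nsmul_eq_mul]
    exact mul_le_mul_of_nonneg_right (card_O c hl) hΓ
  have hs' := mem_range.1 hs
  obtain ⟨k1, k2, k3, k4⟩ := hk s hs'
  have hP : ∀ w ∈ range l ×ˢ range l, ∀ t : ℕ, t ≤ n + l →
      (t ≤ l → h (pq c (w, t)) ≤ lo) ∧ (n ≤ t → hi ≤ h (pq c (w, t))) ∧ (t ≤ n →
        h (pq c (w, t + k s)) ≤ h (pq c (w, t)) + δ * k s +
          β * ∑ i ∈ T s, D s (pq c (w, t) + o s i)) := by
    rintro ⟨a, b⟩ hw t ht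
    simp only [mem_product, mem_range] at hw
    obtain ⟨a1, a2, a3⟩ := hh (pq c ((a, b), t)) (fun i => by fin_cases i <;> simp [pq])
      (by simp [pq]; omega) (by simp [pq]; omega) (by simp [pq]; omega)
    refine ⟨fun e => a1 (by simp [pq]; omega), fun e => a2 (by simp [pq]; omega), fun e => ?_⟩
    rw [← pq_add]
    exact a3 (by simp [pq]; omega) s hs'
  have low : (l * l : ℝ) * (k s * (hi - lo)) ≤
      ∑ u ∈ (range l ×ˢ range l) ×ˢ range n, (h (pq c (u.1, u.2 + k s)) - h (pq c u)) := by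
    rw [sum_product]
    refine le_trans (le_of_eq ?_) (card_nsmul_le_sum _ _ (k s * (hi - lo)) fun w hw => ?_)
    · rw [card_product, card_range, nsmul_eq_mul]
      push_cast
      rfl
    · rw [line (fun t => h (pq c (w, t))) n (k s)]
      refine le_trans (le_of_eq ?_) (card_nsmul_le_sum _ _ (hi - lo) fun t ht => ?_)
      · rw [card_range, nsmul_eq_mul]
      · have ht' := mem_range.1 ht
        exact sub_le_sub ((hP w hw (n + t) (by omega)).2.1 (by omega))
          ((hP w hw t (by omega)).1 (by omega))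
  have up : ∑ u ∈ (range l ×ˢ range l) ×ˢ range n, (h (pq c (u.1, u.2 + k s)) - h (pq c u)) ≤
      ∑ u ∈ (range l ×ˢ range l) ×ˢ range n,
        (δ * k s + β * ∑ i ∈ T s, D s (pq c u + o s i)) := by
    refine sum_le_sum fun u hu => ?_
    obtain ⟨u1, u2⟩ := mem_product.1 hu
    have u3 := mem_range.1 u2
    have := (hP u.1 u1 u.2 (by omega)).2.2 u3.le
    linarith
  rw [sum_add_distrib, sum_const, ← mul_sum, sum_comm, card_product, card_product, card_range,
    card_range, nsmul_eq_mul] at up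
  have b0 : (0 : ℝ) ≤ 27 * (l * l * n) * Γ / r := by positivity
  have b1 : ∑ i ∈ T s, ∑ u ∈ (range l ×ˢ range l) ×ˢ range n, D s (pq c u + o s i) ≤
      τ * k s * (27 * (l * l * n) * Γ / r) := by
    refine (sum_le_card_nsmul _ _ (27 * (l * l * n) * Γ / r) fun i hi =>
      (shift (k4 i hi) (D s) fun y hy => (hO y hy).1 s hs').trans hs2).trans ?_
    rw [nsmul_eq_mul]
    exact mul_le_mul_of_nonneg_right k3 b0
  have b2 := mul_le_mul_of_nonneg_left b1 hβ
  have l0 : (0 : ℝ) < l := by exact_mod_cast (by omega : 0 < l)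
  have k0 : (0 : ℝ) < k s := by exact_mod_cast k1
  refine le_of_mul_le_mul_left ?_ (by positivity : (0 : ℝ) < l * l * k s)
  push_cast at up
  have e : (l * l * k s : ℝ) * (n * (δ + 27 * β * τ * Γ / r)) =
      l * l * n * (δ * k s) + β * (τ * k s * (27 * (l * l * n) * Γ / r)) := by ring
  rw [e, mul_assoc]
  linarith

end Pool.Agent.P.MP_e45b92_nt.EL
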