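import Pool.Agent.P.MP_e45b92_nt.EL.If
import Pool.Agent.P.MP_246241_nt.EK.TBOX

/-! Step SIZE. -/

set_option autoImplicit false

namespace Pool.Agent.P.MP_e45b92_nt.EL

open Finset Matrix Real
open Pool.Agent.P.MP_bf60a1_an.RA
open Pool.Agent.P.MP_246241_nt.EK (Vc Mt Gl Bd MI MI_nonneg MI_symm det_unit)

namespace SIZEc

theorem list_le {Ω α ι : Type} [Fintype Ω] (P : FP Ω) (f : ι → Ω → α) (c : ℝ) (R : List ι)
    (h : ∀ m ∈ R, P.H (f m) ≤ c) : (P.H fun ω => R.map fun m => f m ω) ≤ R.length * c := by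
  induction R with
  | nil => simp [P.H_const]
  | cons a R ih =>
    have h1 := ih fun m hm => h m (List.mem_cons_of_mem _ hm)
    have h2 := h a List.mem_cons_self
    have h3 := P.H_pair_le (f a) fun ω => R.map fun m => f m ω
    have h4 : (P.H fun ω => (a :: R).map fun m => f m ω) ≤
        P.H fun ω => (f a ω, R.map fun m => f m ω) := P.H_mono fun ω ω' _ _ e => by
      rw [Prod.mk.injEq] at e
      rw [List.map_cons, List.map_cons, e.1, e.2]
    rw [List.length_cons]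
    push_cast
    linarith

theorem num (B s : ℕ) :
    (2 * (6 * B ^ 3 * 4 ^ (2 * s)) + 1) ^ (3 * 3) ≤ 2 ^ ((4 + 3 * B + 4 * s) * 9) := by
  rw [pow_mul 2]
  refine Nat.pow_le_pow_left ?_ _
  have h1 : B ^ 3 ≤ (2 ^ B) ^ 3 := Nat.pow_le_pow_left Nat.lt_two_pow_self.le _
  have h2 : 4 ^ (2 * s) = 2 ^ (4 * s) := by
    rw [show 4 * s = 2 * (2 * s) by ring, pow_mul 2 2 (2 * s), show 2 ^ 2 = 4 from rfl]
  rw [h2, pow_add, pow_add, mul_comm 3 B, pow_mul 2 B]
  have h3 : 1 ≤ (2 ^ B) ^ 3 * 2 ^ (4 * s) := Nat.succ_le_of_lt (by positivity)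
  have h4 := Nat.mul_le_mul_right (2 ^ (4 * s)) h1
  generalize 2 ^ (4 * s) = y at *
  generalize (2 ^ B) ^ 3 = z at *
  generalize B ^ 3 = w at *
  nlinarith

end SIZEc

theorem p_SIZE (hRELB : S_RELB) :
    S_SIZE := by
  refine ⟨400, by norm_num, fun Ω _ P x B U R Q s hB hS hl hU hQ => ?_⟩
  have hB' : (2 : ℝ) ≤ B := by exact_mod_cast hB
  have hs : (0 : ℝ) ≤ s := Nat.cast_nonneg s
  rcases R with _ | ⟨r, R⟩
  · simp only [Pt.V, List.map_nil, P.H_const]
    positivity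
  generalize hR : r :: R = L at *
  have hr : r ∈ L := hR ▸ List.mem_cons_self
  obtain ⟨F, hF, hF'⟩ := Pool.Agent.P.MP_246241_nt.EK.p_BOX 3 (6 * B ^ 3 * 4 ^ (2 * s))
  have h1 := SIZEc.list_le P (fun m ω => ((x ω).rel m r : Mt 3)) (45 * (s + B)) L fun m hm => by
    refine (P.H_le_log F (c := 2 ^ ((4 + 3 * B + 4 * s) * 9)) (fun ω hω => hF' _
      (hRELB (x ω) B U m r (2 * s) (hS ω hω) (hU m hm) (hU r hr) fun a => ?_))
      (by exact_mod_cast hF.trans (SIZEc.num B s))).trans ?_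
    · have := hQ m hm a
      have := hQ r hr a
      omega
    · rw [log_pow]
      have := log_le_sub_one_of_pos two_pos
      refine (mul_le_of_le_one_right (Nat.cast_nonneg _) (by linarith)).trans ?_
      push_cast
      linarith
  have h2 : (P.H fun ω => (x ω).V L) ≤ P.H fun ω => L.map fun m => ((x ω).rel m r : Mt 3) :=
    P.H_mono fun ω ω' _ _ e => by
      have g : ∀ m ∈ L, (x ω).rel m r = (x ω').rel m r := fun m hm =>
        Units.ext (List.map_inj_left.1 e m hm)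
      refine Pt.V_eq.2 fun m hm m' hm' => ?_
      rw [← (x ω).rel_mul m r m', ← (x ω').rel_mul m r m', g m hm, ← (x ω).rel_inv m' r,
        ← (x ω').rel_inv m' r, g m' hm']
  have h3 : (L.length : ℝ) ≤ 5 := by exact_mod_cast hl
  nlinarith

end Pool.Agent.P.MP_e45b92_nt.EL
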