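import Pool.Agent.P.MP_e45b92_nt.EL.If

/-! Step SPLIT. -/

set_option autoImplicit false

namespace Pool.Agent.P.MP_e45b92_nt.EL

open Finset Matrix Real
open Pool.Agent.P.MP_bf60a1_an.RA
open Pool.Agent.P.MP_246241_nt.EK (Vc Mt Gl Bd MI MI_nonneg MI_symm det_unit)

namespace SPLITc

variable {Ω α β : Type} [Fintype Ω] (P : FP Ω)

theorem pH_zero {E : Ω → Prop} (h : P.pr E ≤ 0) (Z : Ω → α) : pH P E Z = 0 := by
  rw [pH, le_antisymm h (P.pr_nonneg E), zero_mul]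

theorem pH_eq (E : Ω → Prop) (Z : Ω → α) : pH P E Z =
    P.E fun ω => ind (E ω) * -log ((P.pr fun x => Z x = Z ω ∧ E x) / P.pr E) := by
  by_cases h : 0 < P.pr E
  · rw [pH, FP.H, P.E_cond h, mul_div_cancel₀ _ h.ne']
    exact P.E_congr fun ω _ => by rw [FP.cl, P.pr_cond h]
  · rw [pH_zero P (not_lt.1 h), ← P.E_const 0]
    exact P.E_congr fun ω hω => by rw [ind_neg fun e => h (P.pr_pos hω e), zero_mul]

theorem key {E E₁ E₂ : Ω → Prop} (h1 : ∀ ω, E ω ↔ E₁ ω ∨ E₂ ω) (h2 : ∀ ω, E₁ ω → ¬ E₂ ω)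
    (h : 0 < P.pr E) (Z : Ω → α) :
    P.pr E * (P.cond E).Hc Z E₁ = pH P E₁ Z + pH P E₂ Z := by
  rw [FP.Hc_eq, P.E_cond h, mul_div_cancel₀ _ h.ne', pH_eq, pH_eq, ← P.E_add]
  refine P.E_congr fun ω _ => ?_
  rw [FP.cl, FP.cl, P.pr_cond h, P.pr_cond h, div_div_div_cancel_right₀ h.ne']
  by_cases a1 : E₁ ω
  · have e : ∀ x, (E₁ x = E₁ ω ∧ E x) ↔ E₁ x := fun x => by
      have := h1 x
      simp only [a1, eq_iff_iff, iff_true]
      tauto
    rw [ind_pos ((h1 ω).2 (Or.inl a1)), ind_pos a1, ind_neg (h2 ω a1), zero_mul, add_zero,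
      P.pr_congr (t := E₁) fun x _ => e x,
      P.pr_congr (t := fun x => Z x = Z ω ∧ E₁ x) fun x _ => by
        rw [Prod.mk.injEq, and_assoc, e x]]
  by_cases a2 : E₂ ω
  · have e : ∀ x, (E₁ x = E₁ ω ∧ E x) ↔ E₂ x := fun x => by
      have := h1 x
      have := h2 x
      simp only [a1, eq_iff_iff, iff_false]
      tauto
    rw [ind_pos ((h1 ω).2 (Or.inr a2)), ind_pos a2, ind_neg a1, zero_mul, zero_add,
      P.pr_congr (t := E₂) fun x _ => e x,
      P.pr_congr (t := fun x => Z x = Z ω ∧ E₂ x) fun x _ => by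
        rw [Prod.mk.injEq, and_assoc, e x]]
  · rw [ind_neg a1, ind_neg a2, ind_neg fun e => ((h1 ω).1 e).elim a1 a2]
    simp

end SPLITc

open SPLITc in
theorem p_SPLIT :
    S_SPLIT := by
  intro Ω α β _ P E E₁ E₂ Z Z' h1 h2
  by_cases h : 0 < P.pr E
  swap
  · have a0 := not_lt.1 h
    have a1 : P.pr E₁ ≤ 0 := (P.pr_mono fun ω _ e => (h1 ω).2 (Or.inl e)).trans a0
    have a2 : P.pr E₂ ≤ 0 := (P.pr_mono fun ω _ e => (h1 ω).2 (Or.inr e)).trans a0
    simp [pH_zero P a0, pH_zero P a1, pH_zero P a2]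
  have k1 := key P h1 h2 h Z
  have k2 := key P h1 h2 h Z'
  refine ⟨?_, ?_, fun hd => ?_⟩
  · have b1 := (P.cond E).H_le_add Z E₁
    have b2 : (P.cond E).H E₁ ≤ log 2 :=
      (P.cond E).H_le_log {True, False} (fun ω _ => by by_cases e : E₁ ω <;> simp [e])
        (by exact_mod_cast card_le_two)
    have b3 : log 2 ≤ (1 : ℝ) := by linarith [log_le_sub_one_of_pos (two_pos (α := ℝ))]
    have b4 := mul_le_mul_of_nonneg_left (show (P.cond E).H Z ≤ 1 + (P.cond E).Hc Z E₁ by linarith)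
      h.le
    have b5 := P.pr_le_one E
    rw [← k1, pH]
    linarith
  · rw [← k1, pH]
    exact mul_le_mul_of_nonneg_left ((P.cond E).Hc_le_H Z E₁) h.le
  · have d : (P.cond E).Det Z' Z := fun ω ω' a b => hd ω ω' (P.cond_pos a) (P.cond_pos b)
    have b1 := (P.cond E).submod Z' E₁ Z
    have b2 : ((P.cond E).H fun ω => (Z' ω, E₁ ω)) ≤ (P.cond E).H fun ω => (Z' ω, E₁ ω, Z ω) :=
      FP.H_mono _ fun _ _ _ _ e => by simp_all
    have b3 : ((P.cond E).H fun ω => (Z' ω, Z ω)) ≤ (P.cond E).H Z' :=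
      FP.H_mono _ fun ω ω' a b e => Prod.ext e (d ω ω' a b e)
    have b4 : ((P.cond E).H fun ω => (E₁ ω, Z ω)) ≤ (P.cond E).H fun ω => (Z ω, E₁ ω) :=
      FP.H_mono _ fun _ _ _ _ e => by simp_all
    have b5 := mul_le_mul_of_nonneg_left (show (P.cond E).Hc Z' E₁ - (P.cond E).Hc Z E₁ ≤
      (P.cond E).H Z' - (P.cond E).H Z by unfold FP.Hc; linarith) h.le
    rw [mul_sub, mul_sub, k1, k2] at b5
    change _ ≤ P.pr E * (P.cond E).H Z' - P.pr E * (P.cond E).H Z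
    linarith

end Pool.Agent.P.MP_e45b92_nt.EL
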