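import Pool.Agent.P.MP_e45b92_nt.EL.If

/-! Step STRAD. -/

set_option autoImplicit false

namespace Pool.Agent.P.MP_e45b92_nt.EL

open Finset Matrix Real
open Pool.Agent.P.MP_bf60a1_an.RA
open Pool.Agent.P.MP_246241_nt.EK (Vc Mt Gl Bd MI MI_nonneg MI_symm det_unit)

namespace STRADc

theorem uniq (x : ℝ) (d q s s' : ℕ) (hq : Odd q) (hs : s < q) (hs' : s' < q) (k k' : ℤ)
    (h : |2 ^ d * (x + s / q) - k - 1 / 2| < 1 / (2 * q))
    (h' : |2 ^ d * (x + s' / q) - k' - 1 / 2| < 1 / (2 * q)) : s = s' := by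
  have q0 : (0 : ℝ) < q := by exact_mod_cast hq.pos
  rw [abs_lt] at h h'
  have e : ((2 ^ d * ((s : ℤ) - s') - q * (k - k') : ℤ) : ℝ) =
      q * ((2 ^ d * (x + s / q) - k - 1 / 2) - (2 ^ d * (x + s' / q) - k' - 1 / 2)) := by
    push_cast
    field_simp
    ring
  have e1 : (q : ℝ) * (1 / (2 * q)) = 1 / 2 := by field_simp
  have a : |((2 ^ d * ((s : ℤ) - s') - q * (k - k') : ℤ) : ℝ)| < 1 := by
    rw [e, abs_lt]
    constructor <;> linarith [mul_lt_mul_of_pos_left h.1 q0, mul_lt_mul_of_pos_left h.2 q0,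
      mul_lt_mul_of_pos_left h'.1 q0, mul_lt_mul_of_pos_left h'.2 q0]
  have b : 2 ^ d * ((s : ℤ) - s') - q * (k - k') = 0 := Int.abs_lt_one_iff.1 (by exact_mod_cast a)
  have c : (q : ℤ) ∣ 2 ^ d * ((s : ℤ) - s') := ⟨k - k', by linarith⟩
  have c2 : IsCoprime (q : ℤ) (2 ^ d) :=
    (Nat.isCoprime_iff_coprime.2 hq.coprime_two_right).pow_right
  have c3 := Int.eq_zero_of_abs_lt_dvd (c2.dvd_of_dvd_mul_left c) (by rw [abs_lt]; omega)
  omega

theorem card_ind {ι : Type} (F : Finset ι) (s : ι → Prop) [DecidablePred s] :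
    (#(F.filter s) : ℝ) = ∑ i ∈ F, ind (s i) := by
  rw [card_filter]
  push_cast
  refine sum_congr rfl fun i _ => ?_
  split_ifs with h
  · exact (ind_pos h).symm
  · exact (ind_neg h).symm

end STRADc

open STRADc in
theorem p_STRAD :
    S_STRAD := by
  intro Ω _ P X q n hq
  have q0 : (0 : ℝ) < q := by exact_mod_cast hq.pos
  have h : ∑ s ∈ range q, (P.E fun ω => cnt n fun d => near q d (X ω + s / q)) ≤
      ∑ s ∈ range q, (n : ℝ) / q := by
    rw [← P.E_sum, sum_const, card_range, nsmul_eq_mul, mul_div_cancel₀ _ q0.ne']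
    refine P.E_le fun ω _ => ?_
    unfold cnt
    rw [sum_comm]
    refine (sum_le_card_nsmul _ _ 1 fun d _ => ?_).trans (by simp)
    classical
    rw [← card_ind]
    exact Nat.cast_le_one.2 <| card_le_one.2 fun s hs s' hs' => uniq (X ω) d q s s' hq
      (mem_range.1 (mem_filter.1 hs).1) (mem_range.1 (mem_filter.1 hs').1) _ _
      (mem_filter.1 hs).2 (mem_filter.1 hs').2
  obtain ⟨s, hs, h⟩ := exists_le_of_sum_le ⟨0, mem_range.2 hq.pos⟩ h
  refine ⟨s / q, ?_, h⟩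
  rw [abs_of_nonneg (by positivity)]
  exact div_le_one_of_le₀ (by exact_mod_cast (mem_range.1 hs).le) q0.le

end Pool.Agent.P.MP_e45b92_nt.EL
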