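import Pool.Agent.P.MP_e45b92_nt.EL.If

/-! Step TUBE. -/

set_option autoImplicit false

namespace Pool.Agent.P.MP_e45b92_nt.EL

open Finset Matrix Real
open Pool.Agent.P.MP_bf60a1_an.RA
open Pool.Agent.P.MP_246241_nt.EK (Vc Mt Gl Bd MI MI_nonneg MI_symm det_unit)

namespace TUBEc

theorem sub_sum (f : ℕ → ℝ) (e : ℝ) (b0 N' N : ℕ) (h : b0 + N' ≤ N) (hf : ∀ t < N, -e ≤ f t) :
    ∑ b ∈ range N', f (b0 + b) + N' * e ≤ ∑ t ∈ range N, f t + N * e := by
  have h1 : ∑ b ∈ range N', (f (b0 + b) + e) ≤ ∑ t ∈ range N, (f t + e) := by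
    have := Finset.sum_Ico_eq_sum_range (fun t => f t + e) b0 (b0 + N')
    rw [Nat.add_sub_cancel_left] at this
    rw [← this]
    refine sum_le_sum_of_subset_of_nonneg (fun t ht => ?_) (fun t ht _ => ?_)
    · rw [mem_Ico] at ht; rw [mem_range]; omega
    · have := hf t (mem_range.1 ht); linarith
  simpa [sum_add_distrib] using h1

theorem chain (hDD : S_DD) {e σ : ℝ} {ψ : List Pos → ℝ} {i j k : Fin 3} {P Q : Pos}
    {w s M L N N' : ℕ} (h : Tri i j k) (hc : Cal (Ball P (100 * w)) e ψ) (h0 : ∀ R, 0 ≤ ψ R)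
    (hL : 0 < L) (hLM : L ≤ M) (hMs : M ≤ s) (hw : N' * L + 2 * s = w) (hN : N * L = 3 * w)
    (hd : L ∣ w) (hQ : Q ∈ Ball P s) (hdv : ∀ a, (L : ℤ) ∣ Q a - P a)
    (hσ : CS (dd ψ j i M L) L N (Tb P Q i k j M w) k ≤ σ) :
    ∑ b ∈ range N', dd ψ j i M L (Q + ee j M + ee k (b * L)) + N' * e ≤ σ + N * e := by
  have hi := hQ i
  have hj := hQ j
  have hk := hQ k
  obtain ⟨c, hc0⟩ : (L : ℤ) ∣ w + (Q k - P k) - (Q i - P i) :=
    dvd_sub (dvd_add (Int.natCast_dvd_natCast.2 hd) (hdv k)) (hdv i)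
  have hL' : (0 : ℤ) < L := by exact_mod_cast hL
  have hw' : (N' : ℤ) * L + 2 * s = w := by exact_mod_cast hw
  have hN' : (N : ℤ) * L = 3 * w := by exact_mod_cast hN
  have hnn : (0 : ℤ) ≤ N' * L := by positivity
  have c0 : 0 ≤ c := by
    by_contra hneg
    have : (L : ℤ) * c < 0 := mul_neg_of_pos_of_neg hL' (by omega)
    omega
  lift c to ℕ using c0
  have hle : c + N' ≤ N := by
    have : ((c : ℤ) + N') * L ≤ N * L := by
      have : ((c : ℤ) + N') * L = L * c + N' * L := by ring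
      omega
    exact_mod_cast le_of_mul_le_mul_right this hL'
  have key := sub_sum (fun t => dd ψ j i M L (Tb P Q i k j M w + ee k (t * L))) e c N' N hle
    fun t ht => by
      have t0 : (0 : ℤ) ≤ t * L := by positivity
      have t1 : (t : ℤ) * L ≤ N * L :=
        mul_le_mul_of_nonneg_right (by exact_mod_cast ht.le) hL'.le
      refine (hDD _ e ψ j i M M L M _ hc h0 (Ball_sub (σ := 10 * w) ?_ (by omega)) hL'.le
        (by omega) (by omega) le_rfl le_rfl).1
      generalize (t : ℤ) * L = x at t0 t1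
      simp only [mem_Ball, Tb, h.all, Pi.add_apply, ee_self, h.ee]
      omega
  have e1 : ∀ b : ℕ, Tb P Q i k j M w + ee k (((c + b : ℕ) : ℤ) * L) =
      Q + ee j M + ee k (b * L) := fun b => by
    rw [Tb, add_assoc, ← ee_add]
    congr 2
    push_cast
    linarith
  simp only [e1] at key
  unfold CS at hσ
  linarith

/-- the tube up to height `t` -/
def T (i j k : Fin 3) (Q : Pos) (M t : ℤ) : List Pos :=
  [Q, Q + ee i (2 * M), Q + ee j (2 * M), Q + ee k t]

theorem step {e : ℝ} {ψ : List Pos → ℝ} {i j k : Fin 3} {P Q : Pos} {w s M L t : ℤ}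
    (h : Tri i j k) (hc : Cal (Ball P (100 * w)) e ψ) (hL : 0 < L) (hLM : L ≤ M) (hMs : M ≤ s)
    (hs : 2 * s ≤ w) (t0 : 0 ≤ t) (t1 : t + L ≤ w) (hQ : Q ∈ Ball P s) :
    ψ (T i j k Q M (t + L)) ≤ ψ (T i j k Q M t) + dd ψ j i M L (Q + ee j M + ee k t) +
      dd ψ i j M L (Q + ee i M + ee k t) + 2 * e := by
  have hi := hQ i
  have hj := hQ j
  have hk := hQ k
  have a1 := hc (HW j i M (Q + ee j M + ee k t)) (T i j k Q M t)
    ((Q + ee j M + ee k t - ee i L) :: HW j i M (Q + ee j M + ee k t))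
    ((Q + ee j M + ee k t - ee i L) :: T i j k Q M t) (by simp [HW]) (by simp [T]) (by simp [HW])
    (by simp [T]) ?_ ?_ ?_ ?_ (by simp [HW]) ?_ (.of_subset (List.subset_cons_self _ _))
    (.of_subset (by simp))
  have a2 := hc (HW i j M (Q + ee i M + ee k t))
    ((Q + ee j M + ee k t - ee i L) :: T i j k Q M t)
    ((Q + ee i M + ee k t - ee j L) :: HW i j M (Q + ee i M + ee k t))
    (T i j k Q M (t + L)) (by simp [HW]) (by simp [T]) (by simp [HW])
    (by simp [T]) ?_ ?_ ?_ ?_ (by simp [HW]) ?_ (.of_subset (List.subset_cons_self _ _)) ?_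
  · unfold dd; linarith
  all_goals
    simp only [Sub, In, mem_Hull, mem_Ball, HW, T, List.cons_append, List.nil_append,
      List.forall_mem_cons, List.mem_cons, List.not_mem_nil, exists_eq_or_imp, exists_eq_left,
      or_false, h.all, Pi.add_apply, Pi.sub_apply, ee_self, h.ee, forall_eq_or_imp, forall_eq]
    and_intros <;> omega

end TUBEc

open TUBEc in
theorem p_TUBE (hDD : S_DD) :
    S_TUBE := by
  intro e σ ψ i j k P Q w s M L N N' h hc h0 he hL hLM hMs hw hN hd hQ hdv h1 h2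
  have c1 := chain hDD h hc h0 hL hLM hMs hw hN hd hQ hdv h1
  have c2 := chain hDD h.swap hc h0 hL hLM hMs hw hN hd hQ hdv h2
  have hL' : (0 : ℤ) < L := by exact_mod_cast hL
  have hw' : (N' : ℤ) * L + 2 * s = w := by exact_mod_cast hw
  have hnn : (0 : ℤ) ≤ N' * L := by positivity
  have ind : ∀ n : ℕ, n ≤ N' → ψ (T i j k Q M (n * L)) ≤ ψ (T i j k Q M 0) +
      ∑ b ∈ range n, dd ψ j i M L (Q + ee j M + ee k (b * L)) +
      ∑ b ∈ range n, dd ψ i j M L (Q + ee i M + ee k (b * L)) + 2 * n * e := by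
    intro n
    induction n with
    | zero => intro _; simp
    | succ n ih =>
      intro hn
      have t1 : ((n : ℤ) + 1) * L ≤ N' * L :=
        mul_le_mul_of_nonneg_right (by exact_mod_cast hn) hL'.le
      have e1 : ((n : ℤ) + 1) * L = n * L + L := by ring
      have := step (s := s) (M := M) (t := n * L) h hc hL' (by omega) (by omega) (by omega)
        (by positivity) (by omega) hQ
      have := ih (by omega)
      rw [sum_range_succ, sum_range_succ]
      push_cast
      rw [e1]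
      linarith
  have fin := ind N' le_rfl
  have hN1 : (1 : ℝ) ≤ N := by
    have : N ≠ 0 := by rintro rfl; omega
    exact_mod_cast Nat.one_le_iff_ne_zero.2 this
  have hi := hQ i
  have hj := hQ j
  have hk := hQ k
  have b1 := hc.le (R := [Q, Q + ee k (N' * L)]) (R' := T i j k Q M (N' * L)) (by simp)
    (by simp [T]) ?_ ?_ (by simp [T]) (.of_subset (by simp [T]))
  have b2 := hc.le (R := T i j k Q M 0) (R' := [Q, Q + ee i (2 * M), Q + ee j (2 * M)])
    (by simp [T]) (by simp) ?_ ?_ (by simp) (.of_subset (by simp [T, ee_zero]))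
  · nlinarith
  all_goals
    clear fin c1 c2 ind h1 h2
    generalize (N' : ℤ) * L = x at *
    simp only [In, mem_Ball, T, List.forall_mem_cons, List.mem_cons, List.not_mem_nil,
      or_false, h.all, Pi.add_apply, ee_self, h.ee, forall_eq_or_imp, forall_eq]
    and_intros <;> omega

end Pool.Agent.P.MP_e45b92_nt.EL
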