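import Pool.Agent.P.MP_e45b92_nt.EL.TINV
import Pool.Agent.P.MP_e45b92_nt.EL.TPAIR
import Pool.Agent.P.MP_e45b92_nt.EL.TBACK
import Pool.Agent.P.MP_e45b92_nt.EL.TRELB
import Pool.Agent.P.MP_e45b92_nt.EL.TFWD
import Pool.Agent.P.MP_e45b92_nt.EL.TCAL
import Pool.Agent.P.MP_e45b92_nt.EL.TSIZE
import Pool.Agent.P.MP_e45b92_nt.EL.TSPLIT
import Pool.Agent.P.MP_e45b92_nt.EL.TFAM
import Pool.Agent.P.MP_e45b92_nt.EL.TFAR
import Pool.Agent.P.MP_e45b92_nt.EL.TEIGV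
import Pool.Agent.P.MP_e45b92_nt.EL.TFIB
import Pool.Agent.P.MP_e45b92_nt.EL.TDIAG
import Pool.Agent.P.MP_e45b92_nt.EL.TALG
import Pool.Agent.P.MP_e45b92_nt.EL.TKF
import Pool.Agent.P.MP_e45b92_nt.EL.TSTRAD
import Pool.Agent.P.MP_e45b92_nt.EL.TCF
import Pool.Agent.P.MP_e45b92_nt.EL.TCB
import Pool.Agent.P.MP_e45b92_nt.EL.TPORV
import Pool.Agent.P.MP_e45b92_nt.EL.TPOR
import Pool.Agent.P.MP_e45b92_nt.EL.TLOC
import Pool.Agent.P.MP_e45b92_nt.EL.TMISS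
import Pool.Agent.P.MP_e45b92_nt.EL.TDLOC
import Pool.Agent.P.MP_e45b92_nt.EL.TAVG
import Pool.Agent.P.MP_e45b92_nt.EL.THIGH
import Pool.Agent.P.MP_e45b92_nt.EL.TPRED
import Pool.Agent.P.MP_e45b92_nt.EL.TJB
import Pool.Agent.P.MP_e45b92_nt.EL.THIA
import Pool.Agent.P.MP_e45b92_nt.EL.THIB
import Pool.Agent.P.MP_e45b92_nt.EL.THI
import Pool.Agent.P.MP_e45b92_nt.EL.TDD
import Pool.Agent.P.MP_e45b92_nt.EL.TSTX
import Pool.Agent.P.MP_e45b92_nt.EL.TSTY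
import Pool.Agent.P.MP_e45b92_nt.EL.TROOT
import Pool.Agent.P.MP_e45b92_nt.EL.TTUBE
import Pool.Agent.P.MP_e45b92_nt.EL.TGRA
import Pool.Agent.P.MP_e45b92_nt.EL.TGRB
import Pool.Agent.P.MP_e45b92_nt.EL.TGRAPH
import Pool.Agent.P.MP_e45b92_nt.EL.TONE
import Pool.Agent.P.MP_e45b92_nt.EL.TDT
import Pool.Agent.P.MP_e45b92_nt.EL.TSCALE
import Pool.Agent.P.MP_e45b92_nt.EL.TNUM
import Pool.Agent.P.MP_e45b92_nt.EL.TENT
import Pool.Agent.P.MP_e45b92_nt.EL.TANCH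
import Pool.Agent.P.MP_e45b92_nt.EL.TFRAME
import Pool.Agent.P.MP_e45b92_nt.EL.TFIN
import Pool.Agent.P.MP_e45b92_nt.EL.TCORE
import Pool.Agent.P.MP_e45b92_nt.EL.Bridge

/-! Assembly. -/

set_option autoImplicit false

namespace Pool.Agent.P.MP_e45b92_nt.EL

theorem f_INV : S_INV := p_INV
theorem f_PAIR : S_PAIR := p_PAIR f_INV
theorem f_BACK : S_BACK := p_BACK f_INV
theorem f_RELB : S_RELB := p_RELB f_INV
theorem f_FWD : S_FWD := p_FWD f_BACK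
theorem f_CAL : S_CAL := p_CAL f_PAIR f_FWD
theorem f_SIZE : S_SIZE := p_SIZE f_RELB
theorem f_SPLIT : S_SPLIT := p_SPLIT
theorem f_FAM : S_FAM := p_FAM f_CAL f_SIZE f_SPLIT
theorem f_FAR : S_FAR := p_FAR f_INV
theorem f_EIGV : S_EIGV := p_EIGV f_PAIR
theorem f_FIB : S_FIB := p_FIB f_RELB f_FAR f_EIGV
theorem f_DIAG : S_DIAG := p_DIAG
theorem f_ALG : S_ALG := p_ALG
theorem f_KF : S_KF := p_KF f_PAIR f_DIAG f_ALG
theorem f_STRAD : S_STRAD := p_STRAD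
theorem f_CF : S_CF := p_CF f_PAIR f_FWD
theorem f_CB : S_CB := p_CB f_PAIR
theorem f_PORV : S_PORV := p_PORV f_INV f_FAR
theorem f_POR : S_POR := p_POR f_PAIR f_PORV
theorem f_LOC : S_LOC := p_LOC
theorem f_MISS : S_MISS := p_MISS
theorem f_DLOC : S_DLOC := p_DLOC f_LOC f_MISS
theorem f_AVG : S_AVG := p_AVG f_DLOC
theorem f_HIGH : S_HIGH := p_HIGH f_AVG
theorem f_PRED : S_PRED := p_PRED
theorem f_JB : S_JB := p_JB
theorem f_HIA : S_HIA := p_HIA f_CF f_CB f_POR f_HIGH f_JB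
theorem f_HIB : S_HIB := p_HIB f_CF f_PRED f_JB
theorem f_HI : S_HI := p_HI f_KF f_STRAD f_HIA f_HIB
theorem f_DD : S_DD := p_DD
theorem f_STX : S_STX := p_STX
theorem f_STY : S_STY := p_STY
theorem f_ROOT : S_ROOT := p_ROOT f_STX f_STY
theorem f_TUBE : S_TUBE := p_TUBE f_DD
theorem f_GRA : S_GRA := p_GRA f_ROOT
theorem f_GRB : S_GRB := p_GRB f_TUBE
theorem f_GRAPH : S_GRAPH := p_GRAPH f_GRA f_GRB
theorem f_ONE : S_ONE := p_ONE f_FIB f_HI f_DD f_GRAPH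
theorem f_DT : S_DT := p_DT f_DD
theorem f_SCALE : S_SCALE := p_SCALE
theorem f_NUM : S_NUM := p_NUM
theorem f_ENT : S_ENT := p_ENT f_FAM f_ONE f_DT f_SCALE f_NUM
theorem f_ANCH : S_ANCH := p_ANCH f_PAIR
theorem f_FRAME : S_FRAME := p_FRAME
theorem f_FIN : S_FIN := p_FIN
theorem f_CORE : S_CORE := p_CORE f_ENT f_ANCH f_FRAME f_FIN
theorem f_core : EL92.Core := core_of f_CORE

end Pool.Agent.P.MP_e45b92_nt.EL
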