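import Pool.Agent.P.MP_e45b92_nt.EL.If
import Pool.Agent.P.MP_e45b92_nt.EL.Cover

/-! Step ANCH. -/

set_option autoImplicit false

namespace Pool.Agent.P.MP_e45b92_nt.EL

open Finset Matrix Real
open Pool.Agent.P.MP_bf60a1_an.RA
open Pool.Agent.P.MP_246241_nt.EK (Vc Mt Gl Bd MI MI_nonneg MI_symm det_unit)

namespace ANCHc

/-- an integer row with small image has first entry zero -/
theorem first_zero {a b η T : ℝ}
    (hS : ∀ p r q : ℤ, 1 ≤ q → (q : ℝ) ≤ T → η ≤ |p + q * a| * |r + q * b|) (q r s : ℤ)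
    (hq : |(q : ℝ)| ≤ T) (h : |q * a - r| * |q * b - s| < η) : q = 0 := by
  by_contra h0
  rcases lt_or_gt_of_ne h0 with h1 | h1
  · have := hS r s (-q) (by omega) (by push_cast; exact (neg_le_abs _).trans hq)
    push_cast at this
    rw [show (r : ℝ) + -q * a = -(q * a - r) by ring, show (s : ℝ) + -q * b = -(q * b - s) by ring,
      abs_neg, abs_neg] at this
    linarith
  · have := hS (-r) (-s) q (by omega) ((le_abs_self _).trans hq)
    push_cast at this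
    rw [show -(r : ℝ) + q * a = q * a - r by ring, show -(s : ℝ) + q * b = q * b - s by ring] at this
    linarith

theorem anchor (a b a' b' η T M θ ζ : ℝ) (δ : Gl 3) (κ : Matrix (Fin 3) (Fin 3) ℝ)
    (hκ : (δ : Mt 3).map (Int.cast : ℤ → ℝ) * !![1, a', b'; 0, -1, 0; 0, 0, -1] =
      !![1, a, b; 0, -1, 0; 0, 0, -1] * κ)
    (hS : ∀ p r q : ℤ, 1 ≤ q → (q : ℝ) ≤ T → η ≤ |p + q * a'| * |r + q * b'|)
    (h10 : |κ 1 0| ≤ T) (h11 : |κ 1 1| ≤ M) (h12 : |κ 1 2| ≤ θ)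
    (h20 : |κ 2 0| ≤ T) (h21 : |κ 2 1| ≤ θ) (h22 : |κ 2 2| ≤ M)
    (h01 : |κ 0 1| ≤ ζ) (h02 : |κ 0 2| ≤ ζ) (hθ : θ < 1) (hη : M * θ < η) :
    ∃ s t u v : ℤ, |s| = 1 ∧ |t| = 1 ∧ |a' - s * a - u| ≤ ζ ∧ |b' - t * b - v| ≤ ζ := by
  set D : Mt 3 := (δ : Mt 3) with hD
  have e := fun i j => congrFun (congrFun hκ i) j
  have e00 := e 0 0; have e01 := e 0 1; have e02 := e 0 2
  have e10 := e 1 0; have e11 := e 1 1; have e12 := e 1 2
  have e20 := e 2 0; have e21 := e 2 1; have e22 := e 2 2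
  simp [Matrix.mul_apply, Fin.sum_univ_three] at e00 e01 e02 e10 e11 e12 e20 e21 e22
  have θ0 : 0 ≤ θ := (abs_nonneg _).trans h12
  have M0 : 0 ≤ M := (abs_nonneg _).trans h11
  have z10 : D 1 0 = 0 := first_zero hS _ (D 1 1) (D 1 2) (by rw [e10, abs_neg]; exact h10) (by
    rw [sub_eq_add_neg, sub_eq_add_neg, e11, e12, abs_neg, abs_neg]
    exact (mul_le_mul h11 h12 (abs_nonneg _) M0).trans_lt hη)
  have z20 : D 2 0 = 0 := first_zero hS _ (D 2 1) (D 2 2) (by rw [e20, abs_neg]; exact h20) (by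
    rw [sub_eq_add_neg, sub_eq_add_neg, e21, e22, abs_neg, abs_neg, mul_comm]
    exact (mul_le_mul h22 h21 (abs_nonneg _) M0).trans_lt hη)
  rw [z10] at e11 e12
  rw [z20] at e21 e22
  simp only [Int.cast_zero, zero_mul, zero_add, neg_inj] at e11 e12 e21 e22
  have z12 : D 1 2 = 0 := by
    have : |(D 1 2 : ℝ)| < 1 := by rw [e12]; linarith
    exact Int.abs_lt_one_iff.1 (by exact_mod_cast this)
  have z21 : D 2 1 = 0 := by
    have : |(D 2 1 : ℝ)| < 1 := by rw [e21]; linarith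
    exact Int.abs_lt_one_iff.1 (by exact_mod_cast this)
  have hd := det_unit δ
  rw [← hD, det_fin_three, z10, z20, z12, z21] at hd
  simp only [mul_zero, zero_mul, sub_zero, add_zero] at hd
  have u0 : IsUnit (D 0 0 * D 1 1 * D 2 2) := Int.isUnit_iff_abs_eq.2 hd
  have u00 := Int.isUnit_iff_abs_eq.1 (isUnit_of_mul_isUnit_left (isUnit_of_mul_isUnit_left u0))
  have u11 := Int.isUnit_iff_abs_eq.1 (isUnit_of_mul_isUnit_right (isUnit_of_mul_isUnit_left u0))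
  have u22 := Int.isUnit_iff_abs_eq.1 (isUnit_of_mul_isUnit_right u0)
  have sq : (D 0 0 : ℝ) * D 0 0 = 1 := by
    have := abs_mul_abs_self (D 0 0)
    rw [u00] at this
    exact_mod_cast this.symm
  have ab : |(D 0 0 : ℝ)| = 1 := by exact_mod_cast u00
  rw [z12] at e12
  rw [z21] at e21
  refine ⟨D 0 0 * D 1 1, D 0 0 * D 2 2, D 0 0 * D 0 1, D 0 0 * D 0 2,
    by rw [abs_mul, u00, u11, one_mul], by rw [abs_mul, u00, u22, one_mul], ?_, ?_⟩
  · have : a' - ((D 0 0 * D 1 1 : ℤ) : ℝ) * a - ((D 0 0 * D 0 1 : ℤ) : ℝ) = D 0 0 * κ 0 1 := by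
      push_cast at e21 ⊢
      linear_combination (D 0 0 : ℝ) * e01 - a' * sq - (D 0 0 : ℝ) * a * e11 -
        (D 0 0 : ℝ) * b * e21
    rw [this, abs_mul, ab, one_mul]; exact h01
  · have : b' - ((D 0 0 * D 2 2 : ℤ) : ℝ) * b - ((D 0 0 * D 0 2 : ℤ) : ℝ) = D 0 0 * κ 0 2 := by
      push_cast at e12 ⊢
      linear_combination (D 0 0 : ℝ) * e02 - b' * sq - (D 0 0 : ℝ) * b * e22 -
        (D 0 0 : ℝ) * a * e12
    rw [this, abs_mul, ab, one_mul]; exact h02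

theorem kap (hPAIR : S_PAIR) {x y : Pt} {B : ℕ} {U : Set Pos} (hx : x.Ok B U) (hy : y.Ok B U)
    (r₀ : Pos) : ∃ κ : M3, cs ((x.g r₀)⁻¹ * y.g r₀) * y.Λ = x.Λ * κ ∧ ∀ r ∈ U,
      x.rel r r₀ = y.rel r r₀ → ∀ a b, |κ a b| * (2 : ℝ) ^ (r b - r a) ≤ 6 * B ^ 3 := by
  refine ⟨dg (- -r₀) * kk x y r₀ * dg (-r₀), ?_, fun r hr e a b => ?_⟩
  · have h := hx.mul_kk y r₀
    have d1 : dg r₀ * dg (-r₀) = 1 := by rw [← dg_add, add_neg_cancel, dg_zero]
    calc cs ((x.g r₀)⁻¹ * y.g r₀) * y.Λ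
        = cs (x.g r₀)⁻¹ * (y.b r₀ * dg (-r₀)) := by
          rw [cs_mul, Pt.b, Matrix.mul_assoc _ (dg r₀), d1, Matrix.mul_one, Matrix.mul_assoc]
      _ = _ := by
          rw [← h, Pt.b, neg_neg]
          simp only [← Matrix.mul_assoc]
          rw [cs_inv_mul, Matrix.one_mul]
  · have := hPAIR x y B U r r₀ hx hy hr e a b
    rw [conj_dg, abs_mul, abs_of_pos (zpow_pos (two_pos (α := ℝ)) _), mul_assoc, ← zpow_add₀ two_ne_zero]
    convert this using 3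
    simp only [Pi.neg_apply]; ring

theorem box (a : ℝ) (z : ℤ) (n : ℕ) (ha : ⌊a⌋ = z) : ∃ F : Finset ℤ, (#F : ℝ) ≤ 70 ∧
    ∀ (a' ζ : ℝ) (s u : ℤ), ⌊a'⌋ = z → |s| = 1 → |a' - s * a - u| ≤ ζ → ζ * 2 ^ n ≤ 1 →
      dig a' n ∈ F := by
  choose G hG hG' using fun c : ℝ => exists_int_box c (M := 3) (by norm_num)
  choose K hK hK' using fun c : ℝ => exists_int_box c (M := 2) (by norm_num)
  refine ⟨({1, -1} : Finset ℤ).biUnion fun s => (G (z - s * z)).biUnion fun u =>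
    K (2 ^ n * (s * a + u)), ?_, fun a' ζ s u h1 h2 h3 h4 => ?_⟩
  · refine (Nat.cast_le.2 card_biUnion_le).trans ?_
    push_cast
    refine (sum_le_card_nsmul _ _ 35 fun s _ => ?_).trans ?_
    · refine (Nat.cast_le.2 card_biUnion_le).trans ?_
      push_cast
      refine (sum_le_card_nsmul _ _ 5 fun u _ => (hK _).trans (by norm_num)).trans ?_
      rw [nsmul_eq_mul]
      linarith [hG (z - s * z)]
    · rw [card_pair (by decide)]; norm_num
  · have p1 : (1 : ℝ) ≤ 2 ^ n := one_le_pow₀ one_le_two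
    have z0 : 0 ≤ ζ := (abs_nonneg _).trans h3
    have z1 : ζ ≤ 1 := by nlinarith
    have f1 := Int.floor_le a; have f2 := Int.lt_floor_add_one a
    have f3 := Int.floor_le a'; have f4 := Int.lt_floor_add_one a'
    rw [ha] at f1 f2
    rw [h1] at f3 f4
    have hs : s = 1 ∨ s = -1 := by
      rcases abs_cases s with h | h <;> omega
    rw [abs_le] at h3
    refine mem_biUnion.2 ⟨s, by simpa using hs, mem_biUnion.2 ⟨u, hG' _ _ ?_, hK' _ _ ?_⟩⟩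
    · rw [abs_le]
      rcases hs with rfl | rfl <;> push_cast at h3 ⊢ <;> constructor <;> linarith [h3.1, h3.2]
    · have d1 := dig_le a' n
      have d2 := lt_dig a' n
      have m1 := mul_le_mul_of_nonneg_right h3.1 (zero_le_one.trans p1)
      have m2 := mul_le_mul_of_nonneg_right h3.2 (zero_le_one.trans p1)
      rw [abs_le]
      constructor <;> nlinarith

end ANCHc

open ANCHc in
theorem p_ANCH (hPAIR : S_PAIR) :
    S_ANCH := by
  intro Ω _ P x α β B x₀ x₁ ε z hB hx hS hε hε1 hP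
  have B1 : (1 : ℝ) ≤ B := by exact_mod_cast hB
  have B3 : (1 : ℝ) ≤ B ^ 3 := one_le_pow₀ B1
  have p0 : (1 : ℝ) ≤ 2 ^ x₀ := one_le_pow₀ one_le_two
  have p1 : (0 : ℝ) < 2 ^ x₁ := by positivity
  have hx' : (x₀ : ℤ) ≤ x₁ := by exact_mod_cast hx
  have big : 6 * (B : ℝ) ^ 3 * 2 ^ x₀ < 2 ^ x₁ := by
    have h1 : ε * 2 ^ x₁ ≤ 2 ^ x₁ := by nlinarith
    have h2 : (B : ℝ) ^ 3 ≤ B ^ 9 := pow_le_pow_right₀ B1 (by norm_num)
    have h3 : (B : ℝ) ^ 3 * 2 ^ x₀ ≤ B ^ 9 * 2 ^ x₀ := by gcongr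
    have h4 : (0 : ℝ) ≤ B ^ 9 * 2 ^ x₀ := by positivity
    linarith
  refine (P.Hc_le_E (N := fun _ => 4900) fun ω hω => ?_).trans ?_
  · obtain ⟨e1, e2, -⟩ := hP ω hω
    obtain ⟨F, hF, hF'⟩ := box (α ω) z.1 (2 * x₀) (congrArg Prod.fst e2)
    obtain ⟨G, hG, hG'⟩ := box (β ω) z.2 (2 * x₀) (congrArg Prod.snd e2)
    refine ⟨F ×ˢ G, ?_, fun ω' hω' hV => ?_⟩
    · rw [card_product]
      push_cast
      calc (#F : ℝ) * #G ≤ 70 * 70 := by gcongr
        _ = _ := by norm_num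
    obtain ⟨e3, e4, e5⟩ := hP ω' hω'
    obtain ⟨κ, k1, k2⟩ := kap hPAIR (hS ω hω) (hS ω' hω') ![0, x₀, 2 * x₀]
    have k3 : ∀ r ∈ cor x₀ x₁, ∀ a b, |κ a b| * (2 : ℝ) ^ (r b - r a) ≤ 6 * B ^ 3 :=
      fun r hr => k2 r (by
        simp only [cor, List.mem_cons, List.not_mem_nil, or_false] at hr
        rcases hr with rfl | rfl | rfl | rfl <;> simp [Reg] <;> omega)
        (Pt.V_eq.1 hV.symm r hr _ (by simp [cor]))
    have c1 := k3 ![0, x₀, 2 * x₀] (by simp [cor])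
    have c2 := k3 ![0, x₁, 2 * x₁] (by simp [cor])
    have c3 := k3 ![0, 2 * x₀, x₀] (by simp [cor])
    have c4 := k3 ![0, 2 * x₁, x₁] (by simp [cor])
    have up : ∀ (t : ℝ) (n : ℕ) (e : ℤ), e = -n → t * (2 : ℝ) ^ e ≤ 6 * B ^ 3 →
        t ≤ 6 * B ^ 3 * 2 ^ n := fun t n e he h => by
      rwa [he, _root_.zpow_neg, zpow_natCast, ← div_eq_mul_inv, div_le_iff₀ (by positivity)] at h
    have dn : ∀ (t : ℝ) (n : ℕ) (e : ℤ), e = n → t * (2 : ℝ) ^ e ≤ 6 * B ^ 3 →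
        t ≤ 6 * B ^ 3 / 2 ^ n := fun t n e he h => by
      rwa [he, zpow_natCast, ← le_div_iff₀ (by positivity)] at h
    rw [e1, e3] at k1
    obtain ⟨s, t, u, v, a1, a2, a3, a4⟩ := anchor (α ω) (β ω) (α ω') (β ω')
      (ε / (6 * B ^ 3 * 2 ^ x₀)) (6 * B ^ 3 * 2 ^ x₀) (6 * B ^ 3) (6 * B ^ 3 / 2 ^ x₁)
      (6 * B ^ 3 / 2 ^ (2 * x₁)) _ κ k1
      (fun p r q h1 h2 => not_lt.1 fun h3 => e5 ⟨p, r, q, h1, h2, h3⟩)
      (up _ _ _ (by simp) (c1 1 0)) (by simpa using c1 1 1)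
      (dn _ _ _ (by simp; ring) (c2 1 2)) (up _ _ _ (by simp) (c3 2 0))
      (dn _ _ _ (by simp; ring) (c4 2 1)) (by simpa using c1 2 2)
      (dn _ _ _ (by simp) (c4 0 1)) (dn _ _ _ (by simp) (c2 0 2))
      (by rw [div_lt_one p1]; nlinarith)
      (by
        rw [lt_div_iff₀ (by positivity), ← mul_div_assoc, div_mul_eq_mul_div, div_lt_iff₀ p1]
        exact lt_of_eq_of_lt (by ring) hε)
    have zz : 6 * (B : ℝ) ^ 3 / 2 ^ (2 * x₁) * 2 ^ (2 * x₀) ≤ 1 := by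
      rw [div_mul_eq_mul_div, div_le_one (by positivity), two_mul, two_mul, pow_add, pow_add,
        ← mul_assoc]
      exact mul_le_mul big.le (pow_le_pow_right₀ one_le_two hx) (by positivity) p1.le
    exact mem_product.2 ⟨hF' _ _ s u (congrArg Prod.fst e4) a1 a3 zz,
      hG' _ _ t v (congrArg Prod.snd e4) a2 a4 zz⟩
  · rw [P.E_const, log_le_iff_le_exp (by norm_num)]
    have h := exp_one_gt_d9
    have : exp 10 = exp 1 ^ 10 := by rw [← exp_nat_mul]; norm_num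
    rw [this]
    exact le_trans (by norm_num) (pow_le_pow_left₀ (by norm_num : (0 : ℝ) ≤ 2.7) (by linarith) 10)

end Pool.Agent.P.MP_e45b92_nt.EL
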