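import Pool.Agent.P.MP_e45b92_nt.EL.If

/-! Step EIGV. -/

set_option autoImplicit false

namespace Pool.Agent.P.MP_e45b92_nt.EL

open Finset Matrix Real
open Pool.Agent.P.MP_bf60a1_an.RA
open Pool.Agent.P.MP_246241_nt.EK (Vc Mt Gl Bd MI MI_nonneg MI_symm det_unit)

namespace EIGVc

theorem all (hPAIR : S_PAIR) {x y : Pt} {B : ℕ} {U : Set Pos} {Q : Pos} (hx : x.Ok B U)
    (hy : y.Ok B U) (hQ : Q ∈ U) (a b : Fin 3) : |kk x y Q a b| ≤ 6 * B ^ 3 := by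
  simpa using hPAIR x y B U Q Q hx hy hQ (by rw [Pt.rel_self, Pt.rel_self]) a b

theorem off (hPAIR : S_PAIR) {x y : Pt} {B : ℕ} {U : Set Pos} {Q : Pos} {l : Fin 3} {L : ℕ}
    (hx : x.Ok B U) (hy : y.Ok B U) (hQ : Q + ee l L ∈ U)
    (h : x.rel (Q + ee l L) Q = y.rel (Q + ee l L) Q) {a : Fin 3} (ha : a ≠ l) :
    |kk x y Q a l| ≤ 6 * B ^ 3 / 2 ^ L := by
  rw [le_div_iff₀ (by positivity)]
  simpa [ee_self, ee_ne ha] using hPAIR x y B U _ Q hx hy hQ h a l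

theorem eqn {x y : Pt} {B : ℕ} {U : Set Pos} (hx : x.Ok B U) (hy : y.Ok B U) (Q Q' : Pos) :
    cs ((x.rel Q' Q)⁻¹ * y.rel Q' Q) * x.b Q =
      x.b Q * (dg (-(Q - Q')) * kk x y Q' * dg (Q - Q') * kk y x Q) := by
  have h := hx.mul_kk y Q'
  rw [x.b_rel Q' Q, y.b_rel Q' Q] at h
  have h1 : dg (Q' - Q) * dg (Q - Q') = 1 := by rw [← dg_add, sub_add_sub_cancel, sub_self, dg_zero]
  have h2 := congrArg (fun z => cs (x.rel Q' Q)⁻¹ * z * dg (Q - Q') * kk y x Q) h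
  simp only [← Matrix.mul_assoc, cs_inv_mul, Matrix.one_mul] at h2
  rw [neg_sub, cs_mul]
  simp only [← Matrix.mul_assoc]
  rw [h2, Matrix.mul_assoc _ (dg _) (dg _), h1, Matrix.mul_one, Matrix.mul_assoc _ (y.b Q),
    hy.mul_kk]

end EIGVc

open EIGVc in
theorem p_EIGV (hPAIR : S_PAIR) :
    S_EIGV := by
  intro x y B U Q Q' l s L hx hy hQ hQ' hl hl' hs h h'
  set n := dg (-(Q - Q')) * kk x y Q' * dg (Q - Q') * kk y x Q with hn
  have hf : ∀ a c, (2 : ℝ) ^ ((Q - Q') c - (Q - Q') a) ≤ 4 ^ s := fun a c => by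
    rw [show (4 : ℝ) = 2 ^ 2 by norm_num, ← pow_mul, ← zpow_natCast]
    refine zpow_le_zpow_right₀ one_le_two ?_
    have := hs a
    have := hs c
    simp only [Pi.sub_apply]
    omega
  have hn' : ∀ a, a ≠ l → |n a l| ≤ 108 * B ^ 6 * 4 ^ s / 2 ^ L := fun a ha => by
    have g : ∀ c, |(dg (-(Q - Q')) * kk x y Q' * dg (Q - Q')) a c * kk y x Q c l| ≤
        36 * B ^ 6 * 4 ^ s / 2 ^ L := fun c => by
      rw [conj_dg, abs_mul, abs_mul,
        abs_of_pos (zpow_pos (two_pos (α := ℝ)) ((Q - Q') c - (Q - Q') a))]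
      by_cases hc : c = l
      · subst hc
        calc _ ≤ 6 * (B : ℝ) ^ 3 / 2 ^ L * 4 ^ s * (6 * B ^ 3) := by
              gcongr
              exacts [off hPAIR hx hy hl' h' ha, hf a c, all hPAIR hy hx hQ c c]
          _ = _ := by ring
      · calc _ ≤ 6 * (B : ℝ) ^ 3 * 4 ^ s * (6 * B ^ 3 / 2 ^ L) := by
              gcongr
              exacts [all hPAIR hx hy hQ' a c, hf a c, off hPAIR hy hx hl h.symm hc]
          _ = _ := by ring
    rw [hn, Matrix.mul_apply, Fin.sum_univ_three]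
    refine (abs_add_three _ _ _).trans ?_
    have e : 108 * (B : ℝ) ^ 6 * 4 ^ s / 2 ^ L = 3 * (36 * B ^ 6 * 4 ^ s / 2 ^ L) := by ring
    linarith [g 0, g 1, g 2]
  refine ⟨n l l, fun i => ?_⟩
  rw [← Matrix.mul_apply, eqn hx hy, ← hn, Matrix.mul_apply]
  obtain ⟨j, hj⟩ := exists_ne l
  obtain ⟨k, t⟩ := exists_tri hj.symm
  have g : ∀ a, a ≠ l → |x.b Q i a * n a l| ≤ B * (108 * B ^ 6 * 4 ^ s / 2 ^ L) := fun a ha => by
    rw [abs_mul]
    exact mul_le_mul (hx.2 Q hQ i a) (hn' a ha) (abs_nonneg _) (Nat.cast_nonneg _)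
  rw [t.sum, show x.b Q i l * n l l + x.b Q i j * n j l + x.b Q i k * n k l - n l l * x.b Q i l =
    x.b Q i j * n j l + x.b Q i k * n k l by ring]
  refine (abs_add_le _ _).trans ?_
  have e : 216 * (B : ℝ) ^ 7 * 4 ^ s / 2 ^ L = 2 * (B * (108 * B ^ 6 * 4 ^ s / 2 ^ L)) := by ring
  linarith [g j hj, g k t.2.1.symm]

end Pool.Agent.P.MP_e45b92_nt.EL
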