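import Pool.Agent.P.MP_e45b92_nt.EL.If

/-! Step INV. -/

set_option autoImplicit false

namespace Pool.Agent.P.MP_e45b92_nt.EL

open Finset Matrix Real
open Pool.Agent.P.MP_bf60a1_an.RA
open Pool.Agent.P.MP_246241_nt.EK (Vc Mt Gl Bd MI MI_nonneg MI_symm det_unit)

namespace INVc

lemma minor {b : M3} {B : ℝ} (h : RB b B) (i j k l p q r s : Fin 3) :
    |b i j * b k l - b p q * b r s| ≤ 2 * B ^ 2 := by
  have g : ∀ a c d e, |b a c * b d e| ≤ B * B := fun a c d e => by
    rw [abs_mul]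
    exact mul_le_mul (h _ _) (h _ _) (abs_nonneg _) ((abs_nonneg _).trans (h a a))
  have := abs_sub (b i j * b k l) (b p q * b r s)
  nlinarith [g i j k l, g p q r s]

lemma minor' {b : M3} {B : ℝ} (h : RB b B) (i j k l p q r s : Fin 3) :
    |-(b i j * b k l) + b p q * b r s| ≤ 2 * B ^ 2 := by
  rw [neg_add_eq_sub]
  exact minor h _ _ _ _ _ _ _ _

end INVc

open INVc in
theorem p_INV :
    S_INV := by
  intro b B hd h i j
  rw [Matrix.inv_def, Ring.inverse_eq_inv, Matrix.smul_apply, smul_eq_mul, abs_mul, abs_inv, hd,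
    inv_one, one_mul, adjugate_fin_three]
  fin_cases i <;> fin_cases j <;>
    first
    | exact minor h _ _ _ _ _ _ _ _
    | exact minor' h _ _ _ _ _ _ _ _

end Pool.Agent.P.MP_e45b92_nt.EL
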