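import Pool.Agent.P.MP_e45b92_nt.EL.If

/-! Step MISS. -/

set_option autoImplicit false

namespace Pool.Agent.P.MP_e45b92_nt.EL

open Finset Matrix Real
open Pool.Agent.P.MP_bf60a1_an.RA
open Pool.Agent.P.MP_246241_nt.EK (Vc Mt Gl Bd MI MI_nonneg MI_symm det_unit)

namespace MISSc

theorem bit (x y : ℝ) (d : ℕ) (e : dig y d = dig x d)
    (h : |Int.fract (2 ^ d * y) - Int.fract (2 ^ d * x)| < |Int.fract (2 ^ d * x) - 1 / 2|) :
    dig y (d + 1) = dig x (d + 1) := by
  have k : ∀ o : ℝ, (Int.fract (2 ^ d * o) < 1 / 2 → dig o (d + 1) = 2 * dig o d) ∧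
      (1 / 2 ≤ Int.fract (2 ^ d * o) → dig o (d + 1) = 2 * dig o d + 1) := fun o => by
    have h0 := dig_le o d
    have h1 := lt_dig o d
    rw [Int.fract, ← dig]
    constructor <;> intro h <;> refine Int.floor_eq_iff.2 ?_ <;> push_cast <;>
      rw [pow_succ] <;> constructor <;> linarith
  rcases lt_or_ge (Int.fract (2 ^ d * x)) (1 / 2) with c | c
  · rw [abs_of_neg (sub_neg.2 c), abs_lt] at h
    rw [(k x).1 c, (k y).1 (by linarith), e]
  · rw [abs_of_nonneg (sub_nonneg.2 c), abs_lt] at h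
    rw [(k x).2 c, (k y).2 (by linarith), e]

end MISSc

open MISSc in
theorem p_MISS :
    S_MISS := by
  intro Ω κ _ P W X d m ρ ω hm h
  have hm' : 1 / 2 ^ m ≤ ρ := by rwa [div_le_iff₀' (by positivity)]
  have h1 : (P.pr fun ω' => (dig (X ω') d, W ω') = (dig (X ω) d, W ω) ∧
      |tr (X ω') d m - tr (X ω) d m| < ρ) ≤ P.cl (fun ω => (dig (X ω) (d + 1), W ω)) ω :=
    P.pr_mono fun o _ k => by
      refine Prod.ext (bit _ _ d (congrArg Prod.fst k.1) (lt_of_lt_of_le ?_ h.2))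
        (congrArg Prod.snd k.1 :)
      have := abs_lt.1 k.2
      rw [abs_lt]
      constructor <;> linarith [tr_spec (X ω) d m, tr_spec (X o) d m]
  have h2 := h.1
  unfold mis at h2
  unfold Iso
  linarith

end Pool.Agent.P.MP_e45b92_nt.EL
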