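import Pool.Agent.P.MP_e45b92_nt.EL.If

/-! Step STY. -/

set_option autoImplicit false

namespace Pool.Agent.P.MP_e45b92_nt.EL

open Finset Matrix Real
open Pool.Agent.P.MP_bf60a1_an.RA
open Pool.Agent.P.MP_246241_nt.EK (Vc Mt Gl Bd MI MI_nonneg MI_symm det_unit)

theorem p_STY :
    S_STY := by
  intro e ψ i j k P₀ w M L t h hc h1 h2 h3 h4 h5
  have key : ∀ R₀ R₁ R₂ R₃ : List Pos, R₀.length ≤ 5 → R₁.length ≤ 5 → R₂.length ≤ 5 →
      R₃.length ≤ 5 → R₀ ≠ [] → In R₀ (Ball P₀ (60 * w)) ∧ In R₁ (Ball P₀ (60 * w)) ∧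
      In R₂ (Ball P₀ (60 * w)) ∧ In R₃ (Ball P₀ (60 * w)) ∧ Sub R₀ R₁ ∧ Sub R₀ R₂ ∧
      Sub R₃ (R₁ ++ R₂) → ψ R₃ + ψ R₀ ≤ ψ R₁ + ψ R₂ + e :=
    fun _ _ _ _ a b c d n ⟨p0, p1, p2, p3, p4, p5, p6⟩ => hc _ _ _ _ a b c d p0 p1 p2 p3 n p4 p5 p6
  refine ⟨?_, fun Q hQ hd => ⟨?_, ?_⟩⟩
  · have := key (HW i j M (P₀ + ee i (M + 3 * w) + ee k t)) (AY i j k P₀ w t)
      ((P₀ + ee i (M + 3 * w) + ee k t - ee j L) :: HW i j M (P₀ + ee i (M + 3 * w) + ee k t)) (AY i j k P₀ w (t + L))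
      (by simp [HW]) (by simp [AY, WW]) (by simp [HW]) (by simp [AY, WW]) (by simp [HW]) (by
        simp only [Sub, In, mem_Hull, mem_Ball, HW, WW, AY, List.cons_append, List.nil_append,
      forall_eq_or_imp, forall_eq, List.mem_cons, List.not_mem_nil, exists_eq_or_imp, exists_eq_left,
      or_false, h.all, Pi.add_apply, Pi.sub_apply, ee_self, h.ee]
        and_intros <;> omega)
    unfold dd; linarith
  · have := key (BY i j k P₀ w t) (HW i j (40 * w) (Q + ee k t)) (BY i j k P₀ w (t + L))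
      ((Q + ee k t - ee j L) :: HW i j (40 * w) (Q + ee k t))
      (by simp [BY, WW]) (by simp [HW]) (by simp [BY, WW]) (by simp [HW]) (by simp [BY]) (by
        rw [mem_Ball, h.all] at hQ
        simp only [Sub, In, mem_Hull, mem_Ball, HW, WW, BY, List.cons_append, List.nil_append,
      forall_eq_or_imp, forall_eq, List.mem_cons, List.not_mem_nil, exists_eq_or_imp, exists_eq_left,
      or_false, h.all, Pi.add_apply, Pi.sub_apply, ee_self, h.ee]
        and_intros <;> omega)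
    unfold dd; linarith
  · have := key (HW i j M (Q + ee k t)) (BY i j k P₀ w t)
      ((Q + ee k t - ee j L) :: HW i j M (Q + ee k t)) (BY i j k P₀ w (t + L))
      (by simp [HW]) (by simp [BY, WW]) (by simp [HW]) (by simp [BY, WW]) (by simp [HW]) (by
        rw [mem_Ball, h.all] at hQ
        simp only [Sub, In, mem_Hull, mem_Ball, HW, WW, BY, List.cons_append, List.nil_append,
      forall_eq_or_imp, forall_eq, List.mem_cons, List.not_mem_nil, exists_eq_or_imp, exists_eq_left,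
      or_false, h.all, Pi.add_apply, Pi.sub_apply, ee_self, h.ee]
        and_intros <;> omega)
    unfold dd; linarith

end Pool.Agent.P.MP_e45b92_nt.EL
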